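import Mathlib

set_option autoImplicit false

/-!
Selberg's weights: a non-negative majorant of the primes, with a short divisor expansion.
-/

namespace Pool.Agent.Helper4.ST.Selberg

open Finset ArithmeticFunction
open scoped ArithmeticFunction.Moebius ArithmeticFunction.zeta

/-- The sum `∑_{k ≤ R} μ²(k)/φ(k)`. -/
noncomputable def L (R : ℕ) : ℝ := ∑ k ∈ Icc 1 R, ((μ k : ℤ) : ℝ) ^ 2 / (Nat.totient k : ℝ)

/-- The diagonal variables. -/
noncomputable def yv (R k : ℕ) : ℝ := ((μ k : ℤ) : ℝ) / ((Nat.totient k : ℝ) * L R)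

/-- Selberg's weights. -/
noncomputable def lam (R e : ℕ) : ℝ :=
  e * ∑ k ∈ (Icc 1 R).filter (fun k => e ∣ k), ((μ (k / e) : ℤ) : ℝ) * yv R k

/-- The sieve weight. -/
noncomputable def wt (R n : ℕ) : ℝ := (∑ e ∈ (Icc 1 R).filter (fun e => e ∣ n), lam R e) ^ 2

theorem wt_nonneg (R n : ℕ) : 0 ≤ wt R n := sq_nonneg _

theorem L_pos {R : ℕ} (hR : 1 ≤ R) : 0 < L R := by
  unfold L
  apply Finset.sum_pos'
  · intro k _
    positivity
  · exact ⟨1, by simp [hR], by simp⟩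

theorem sum_mu (k l R : ℕ) (hk : 1 ≤ k) (hl : l ∈ Icc 1 R) :
    ∑ e ∈ (Icc 1 R).filter (fun e => k ∣ e ∧ e ∣ l), ((μ (l / e) : ℤ) : ℝ) =
      if l = k then 1 else 0 := by
  rw [Finset.mem_Icc] at hl
  by_cases hkl : k ∣ l
  · obtain ⟨t, rfl⟩ := hkl
    have ht : 1 ≤ t := by
      rcases Nat.eq_zero_or_pos t with rfl | h
      · omega
      · exact h
    have h1 : (Icc 1 R).filter (fun e => k ∣ e ∧ e ∣ k * t) = (Nat.divisors t).image (fun s => k * s) := by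
      ext e
      simp only [Finset.mem_filter, Finset.mem_Icc, Finset.mem_image, Nat.mem_divisors]
      constructor
      · rintro ⟨⟨h1, h2⟩, ⟨s, rfl⟩, h4⟩
        exact ⟨s, ⟨Nat.dvd_of_mul_dvd_mul_left hk h4, by omega⟩, rfl⟩
      · rintro ⟨s, ⟨hs, _⟩, rfl⟩
        have hs0 : 0 < s := Nat.pos_of_dvd_of_pos hs ht
        have hst : s ≤ t := Nat.le_of_dvd ht hs
        exact ⟨⟨Nat.mul_pos hk hs0, (Nat.mul_le_mul_left k hst).trans hl.2⟩, Dvd.intro _ rfl,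
          Nat.mul_dvd_mul_left k hs⟩
    rw [h1, Finset.sum_image (by
      intro a _ b _ hab
      exact Nat.eq_of_mul_eq_mul_left hk hab)]
    have h2 : ∀ s ∈ Nat.divisors t, ((μ (k * t / (k * s)) : ℤ) : ℝ) = ((μ (t / s) : ℤ) : ℝ) := by
      intro s _
      rw [Nat.mul_div_mul_left _ _ hk]
    rw [Finset.sum_congr rfl h2, Nat.sum_div_divisors t (fun d => ((μ d : ℤ) : ℝ))]
    have h3 : ∑ d ∈ Nat.divisors t, (μ d : ℤ) = if t = 1 then 1 else 0 := by
      rw [← coe_mul_zeta_apply, moebius_mul_coe_zeta, one_apply]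
    have h4 : ∑ d ∈ Nat.divisors t, ((μ d : ℤ) : ℝ) = ((∑ d ∈ Nat.divisors t, (μ d : ℤ) : ℤ) : ℝ) := by
      push_cast
      rfl
    rw [h4, h3]
    have h5 : k * t = k ↔ t = 1 := by
      constructor
      · intro h
        have : k * t = k * 1 := by omega
        exact Nat.eq_of_mul_eq_mul_left hk this
      · rintro rfl
        simp
    by_cases h6 : t = 1
    · rw [if_pos h6, if_pos (h5.2 h6)]
      simp
    · rw [if_neg h6, if_neg (fun h => h6 (h5.1 h))]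
      simp
  · have h1 : (Icc 1 R).filter (fun e => k ∣ e ∧ e ∣ l) = ∅ := by
      apply Finset.filter_false_of_mem
      rintro e _ ⟨h1, h2⟩
      exact hkl (h1.trans h2)
    rw [h1, Finset.sum_empty, if_neg]
    rintro rfl
    exact hkl dvd_rfl

/-- Möbius inversion. -/
theorem sum_lam_div (R k : ℕ) (hk : k ∈ Icc 1 R) :
    ∑ e ∈ (Icc 1 R).filter (fun e => k ∣ e), lam R e / e = yv R k := by
  have hk1 : 1 ≤ k := (Finset.mem_Icc.1 hk).1
  have h1 : ∀ e ∈ (Icc 1 R).filter (fun e => k ∣ e), lam R e / e =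
      ∑ l ∈ Icc 1 R, if e ∣ l then ((μ (l / e) : ℤ) : ℝ) * yv R l else 0 := by
    intro e he
    rw [Finset.mem_filter, Finset.mem_Icc] at he
    have he0 : (e : ℝ) ≠ 0 := by
      have : e ≠ 0 := by omega
      exact_mod_cast this
    unfold lam
    rw [mul_div_cancel_left₀ _ he0, Finset.sum_filter]
  rw [Finset.sum_congr rfl h1, Finset.sum_comm]
  have h2 : ∀ l ∈ Icc 1 R, (∑ e ∈ (Icc 1 R).filter (fun e => k ∣ e),
      if e ∣ l then ((μ (l / e) : ℤ) : ℝ) * yv R l else 0) = if l = k then yv R l else 0 := by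
    intro l hl
    rw [← Finset.sum_filter, Finset.filter_filter, ← Finset.sum_mul, sum_mu k l R hk1 hl]
    split_ifs <;> simp
  rw [Finset.sum_congr rfl h2, Finset.sum_ite_eq' (Icc 1 R) k, if_pos hk]

theorem lam_one {R : ℕ} (hR : 1 ≤ R) : lam R 1 = 1 := by
  unfold lam yv
  simp only [Nat.cast_one, one_dvd, Finset.filter_true, Nat.div_one, one_mul]
  have h1 : ∀ k ∈ Icc 1 R, ((μ k : ℤ) : ℝ) * (((μ k : ℤ) : ℝ) / ((Nat.totient k : ℝ) * L R)) =
      ((μ k : ℤ) : ℝ) ^ 2 / (Nat.totient k : ℝ) * (L R)⁻¹ := by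
    intro k _
    rw [div_mul_eq_div_div]
    ring
  rw [Finset.sum_congr rfl h1, ← Finset.sum_mul]
  exact mul_inv_cancel₀ (L_pos hR).ne'

theorem abs_mu_le (n : ℕ) : |((μ n : ℤ) : ℝ)| ≤ 1 := by
  have := abs_moebius_le_one (n := n)
  rw [← Int.cast_abs]
  exact_mod_cast this

theorem abs_lam_le {R : ℕ} (hR : 1 ≤ R) (e : ℕ) : |lam R e| ≤ e := by
  have hL := L_pos hR
  unfold lam
  rw [abs_mul, Nat.abs_cast]
  have h1 : |∑ k ∈ (Icc 1 R).filter (fun k => e ∣ k), ((μ (k / e) : ℤ) : ℝ) * yv R k| ≤ 1 := by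
    calc |∑ k ∈ (Icc 1 R).filter (fun k => e ∣ k), ((μ (k / e) : ℤ) : ℝ) * yv R k|
        ≤ ∑ k ∈ (Icc 1 R).filter (fun k => e ∣ k), |((μ (k / e) : ℤ) : ℝ) * yv R k| :=
          Finset.abs_sum_le_sum_abs _ _
      _ ≤ ∑ k ∈ (Icc 1 R).filter (fun k => e ∣ k), ((μ k : ℤ) : ℝ) ^ 2 / (Nat.totient k : ℝ) * (L R)⁻¹ := by
          apply Finset.sum_le_sum
          intro k _
          rw [abs_mul]
          unfold yv
          rw [abs_div, abs_mul, Nat.abs_cast, abs_of_pos hL]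
          have h2 := abs_mu_le (k / e)
          have h3 : |((μ k : ℤ) : ℝ)| = ((μ k : ℤ) : ℝ) ^ 2 := by
            rcases moebius_eq_or k with h | h | h <;> rw [h] <;> simp
          rw [h3, div_mul_eq_div_div]
          calc |((μ (k / e) : ℤ) : ℝ)| * (((μ k : ℤ) : ℝ) ^ 2 / (Nat.totient k : ℝ) / L R)
              ≤ 1 * (((μ k : ℤ) : ℝ) ^ 2 / (Nat.totient k : ℝ) / L R) := by gcongr
            _ = _ := by rw [one_mul, div_eq_mul_inv _ (L R)]
      _ ≤ ∑ k ∈ Icc 1 R, ((μ k : ℤ) : ℝ) ^ 2 / (Nat.totient k : ℝ) * (L R)⁻¹ := by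
          apply Finset.sum_le_sum_of_subset_of_nonneg (Finset.filter_subset _ _)
          intro k _ _
          positivity
      _ = 1 := by
          rw [← Finset.sum_mul]
          exact mul_inv_cancel₀ hL.ne'
  calc (e : ℝ) * |∑ k ∈ (Icc 1 R).filter (fun k => e ∣ k), ((μ (k / e) : ℤ) : ℝ) * yv R k|
      ≤ e * 1 := by gcongr
    _ = e := mul_one _

theorem gcd_sum (R a b : ℕ) (ha : a ∈ Icc 1 R) (hb : b ∈ Icc 1 R) :
    ((Nat.gcd a b : ℕ) : ℝ) = ∑ k ∈ (Icc 1 R).filter (fun k => k ∣ a ∧ k ∣ b), (Nat.totient k : ℝ) := by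
  rw [Finset.mem_Icc] at ha hb
  have h1 : (Icc 1 R).filter (fun k => k ∣ a ∧ k ∣ b) = (Nat.gcd a b).divisors := by
    ext k
    simp only [Finset.mem_filter, Finset.mem_Icc, Nat.mem_divisors, Nat.dvd_gcd_iff]
    constructor
    · rintro ⟨_, h⟩
      exact ⟨h, Nat.gcd_ne_zero_left (by omega)⟩
    · rintro ⟨⟨h1, h2⟩, _⟩
      exact ⟨⟨Nat.pos_of_dvd_of_pos h1 (by omega), (Nat.le_of_dvd (by omega) h1).trans ha.2⟩, h1, h2⟩
  rw [h1]
  exact_mod_cast (Nat.sum_totient (Nat.gcd a b)).symm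

/-- The value of the quadratic form. -/
theorem form_eq {R : ℕ} (hR : 1 ≤ R) :
    ∑ a ∈ Icc 1 R, ∑ b ∈ Icc 1 R, lam R a * lam R b / (Nat.lcm a b : ℝ) = (L R)⁻¹ := by
  have hL := L_pos hR
  have h1 : ∀ a ∈ Icc 1 R, ∀ b ∈ Icc 1 R, lam R a * lam R b / (Nat.lcm a b : ℝ) =
      ∑ k ∈ Icc 1 R, (Nat.totient k : ℝ) * ((if k ∣ a then lam R a / a else 0) *
        (if k ∣ b then lam R b / b else 0)) := by
    intro a ha b hb
    have ha0 : (a : ℝ) ≠ 0 := by
      have := (Finset.mem_Icc.1 ha).1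
      have : a ≠ 0 := by omega
      exact_mod_cast this
    have hb0 : (b : ℝ) ≠ 0 := by
      have := (Finset.mem_Icc.1 hb).1
      have : b ≠ 0 := by omega
      exact_mod_cast this
    have hg : (Nat.gcd a b : ℝ) * (Nat.lcm a b : ℝ) = a * b := by exact_mod_cast Nat.gcd_mul_lcm a b
    have hl0 : (Nat.lcm a b : ℝ) ≠ 0 := by
      intro h
      rw [h, mul_zero] at hg
      exact (mul_ne_zero ha0 hb0) hg.symm
    have hg0 : (Nat.gcd a b : ℝ) ≠ 0 := by
      intro h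
      rw [h, zero_mul] at hg
      exact (mul_ne_zero ha0 hb0) hg.symm
    have h2 : lam R a * lam R b / (Nat.lcm a b : ℝ) =
        (Nat.gcd a b : ℝ) * ((lam R a / a) * (lam R b / b)) := by
      rw [div_mul_div_comm, ← hg]
      field_simp
    rw [h2, gcd_sum R a b ha hb, Finset.sum_mul, Finset.sum_filter]
    refine Finset.sum_congr rfl fun k _ => ?_
    by_cases h3 : k ∣ a <;> by_cases h4 : k ∣ b <;> simp [h3, h4]
  rw [Finset.sum_congr rfl fun a ha => Finset.sum_congr rfl fun b hb => h1 a ha b hb]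
  have h2 : ∑ a ∈ Icc 1 R, ∑ b ∈ Icc 1 R, ∑ k ∈ Icc 1 R, (Nat.totient k : ℝ) *
      ((if k ∣ a then lam R a / a else 0) * (if k ∣ b then lam R b / b else 0)) =
      ∑ k ∈ Icc 1 R, (Nat.totient k : ℝ) * (yv R k) ^ 2 := by
    have h3 : ∀ a ∈ Icc 1 R, ∑ b ∈ Icc 1 R, ∑ k ∈ Icc 1 R, (Nat.totient k : ℝ) *
      ((if k ∣ a then lam R a / a else 0) * (if k ∣ b then lam R b / b else 0)) =
      ∑ k ∈ Icc 1 R, (Nat.totient k : ℝ) * ((if k ∣ a then lam R a / a else 0) * yv R k) := by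
      intro a _
      rw [Finset.sum_comm]
      refine Finset.sum_congr rfl fun k hk => ?_
      rw [← Finset.mul_sum, ← Finset.mul_sum, ← sum_lam_div R k hk, Finset.sum_filter]
    rw [Finset.sum_congr rfl h3, Finset.sum_comm]
    refine Finset.sum_congr rfl fun k hk => ?_
    rw [← Finset.mul_sum, ← Finset.sum_mul]
    have h4 : ∑ a ∈ Icc 1 R, (if k ∣ a then lam R a / a else 0) = yv R k := by
      rw [← sum_lam_div R k hk, Finset.sum_filter]
    rw [h4]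
    ring
  rw [h2]
  have h5 : ∀ k ∈ Icc 1 R, (Nat.totient k : ℝ) * (yv R k) ^ 2 =
      ((μ k : ℤ) : ℝ) ^ 2 / (Nat.totient k : ℝ) * ((L R)⁻¹) ^ 2 := by
    intro k hk
    have h6 : (Nat.totient k : ℝ) ≠ 0 := by
      have := Nat.totient_pos.2 (Finset.mem_Icc.1 hk).1
      exact_mod_cast this.ne'
    unfold yv
    field_simp
  rw [Finset.sum_congr rfl h5, ← Finset.sum_mul]
  have h7 : ∑ k ∈ Icc 1 R, ((μ k : ℤ) : ℝ) ^ 2 / (Nat.totient k : ℝ) = L R := rfl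
  rw [h7]
  field_simp

/-- A lower bound for `L`. -/
theorem L_ge (R : ℕ) : Real.log (R + 1) / 2 ≤ L R := by
  have h1 : Real.log (R + 1) ≤ (harmonic R : ℝ) := by
    have := log_add_one_le_harmonic R
    exact_mod_cast this
  have h2 : (harmonic R : ℝ) = ∑ n ∈ Icc 1 R, (n : ℝ)⁻¹ := by
    rw [harmonic_eq_sum_Icc]
    push_cast
    rfl
  -- factor `n = b² a`
  have h3 : ∑ n ∈ Icc 1 R, (n : ℝ)⁻¹ ≤
      ∑ ab ∈ ((Icc 1 R).filter Squarefree) ×ˢ (Icc 1 R), ((ab.1 : ℝ)⁻¹ * ((ab.2 : ℝ) ^ 2)⁻¹) := by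
    have hex : ∀ n : ℕ, ∃ ab : ℕ × ℕ, 0 < n → (ab.2 ^ 2 * ab.1 = n ∧ Squarefree ab.1) := by
      intro n
      obtain ⟨a, b, hab, ha⟩ := Nat.sq_mul_squarefree n
      exact ⟨(a, b), fun _ => ⟨hab, ha⟩⟩
    choose F hF using hex
    have hF' : ∀ n ∈ Icc 1 R, F n ∈ ((Icc 1 R).filter Squarefree) ×ˢ (Icc 1 R) := by
      intro n hn
      rw [Finset.mem_Icc] at hn
      obtain ⟨h4, h5⟩ := hF n (by omega)
      have ha : 0 < (F n).1 := Nat.pos_of_ne_zero h5.ne_zero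
      have hb : 0 < (F n).2 := by
        rcases Nat.eq_zero_or_pos (F n).2 with h | h
        · rw [h] at h4
          simp at h4
          omega
        · exact h
      rw [Finset.mem_product, Finset.mem_filter, Finset.mem_Icc, Finset.mem_Icc]
      refine ⟨⟨⟨ha, ?_⟩, h5⟩, hb, ?_⟩
      · nlinarith [Nat.pow_le_pow_left hb 2]
      · nlinarith [Nat.le_self_pow (n := 2) (by norm_num) (F n).2]
    have hinj : Set.InjOn F (Icc 1 R : Finset ℕ) := by
      intro m hm n hn hmn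
      have hm' := (Finset.mem_Icc.1 (Finset.mem_coe.1 hm)).1
      have hn' := (Finset.mem_Icc.1 (Finset.mem_coe.1 hn)).1
      rw [← (hF m (by omega)).1, ← (hF n (by omega)).1, hmn]
    calc ∑ n ∈ Icc 1 R, (n : ℝ)⁻¹
        = ∑ n ∈ Icc 1 R, (((F n).1 : ℝ)⁻¹ * (((F n).2 : ℝ) ^ 2)⁻¹) := by
          refine Finset.sum_congr rfl fun n hn => ?_
          have h4 := (hF n (by rw [Finset.mem_Icc] at hn; omega)).1
          have h5 : (n : ℝ) = ((F n).2 : ℝ) ^ 2 * (F n).1 := by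
            exact_mod_cast h4.symm
          rw [h5, mul_inv]
          ring
      _ = ∑ ab ∈ (Icc 1 R).image F, ((ab.1 : ℝ)⁻¹ * ((ab.2 : ℝ) ^ 2)⁻¹) := by
          rw [Finset.sum_image hinj]
      _ ≤ _ := by
          apply Finset.sum_le_sum_of_subset_of_nonneg
          · intro ab hab
            rw [Finset.mem_image] at hab
            obtain ⟨n, hn, rfl⟩ := hab
            exact hF' n hn
          · intro ab _ _
            positivity
  have h4 : ∑ ab ∈ ((Icc 1 R).filter Squarefree) ×ˢ (Icc 1 R), ((ab.1 : ℝ)⁻¹ * ((ab.2 : ℝ) ^ 2)⁻¹) =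
      (∑ a ∈ (Icc 1 R).filter Squarefree, (a : ℝ)⁻¹) * ∑ b ∈ Icc 1 R, ((b : ℝ) ^ 2)⁻¹ := by
    rw [Finset.sum_product, Finset.sum_mul]
    refine Finset.sum_congr rfl fun a _ => ?_
    rw [Finset.mul_sum]
  have h5 : ∑ b ∈ Icc 1 R, ((b : ℝ) ^ 2)⁻¹ ≤ 2 := by
    have h6 : ∀ m : ℕ, 1 ≤ m → ∑ b ∈ Icc 1 m, ((b : ℝ) ^ 2)⁻¹ ≤ 2 - 1 / (m : ℝ) := by
      intro m hm
      induction m, hm using Nat.le_induction with
      | base => norm_num
      | succ m hm ih =>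
        rw [Finset.sum_Icc_succ_top (by omega)]
        have hm1 : (0 : ℝ) < m := by exact_mod_cast hm
        have h7 : (((m + 1 : ℕ) : ℝ) ^ 2)⁻¹ ≤ 1 / (m : ℝ) - 1 / ((m + 1 : ℕ) : ℝ) := by
          push_cast
          rw [div_sub_div _ _ (by positivity) (by positivity), inv_eq_one_div,
            div_le_div_iff₀ (by positivity) (by positivity)]
          nlinarith
        linarith
    rcases Nat.eq_zero_or_pos R with rfl | hR
    · simp
    · have h7 := h6 R hR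
      have : (0 : ℝ) ≤ 1 / (R : ℝ) := by positivity
      linarith
  have h6 : ∑ a ∈ (Icc 1 R).filter Squarefree, (a : ℝ)⁻¹ ≤ L R := by
    unfold L
    rw [Finset.sum_filter]
    apply Finset.sum_le_sum
    intro k hk
    have hk1 := (Finset.mem_Icc.1 hk).1
    by_cases h : Squarefree k
    · rw [if_pos h]
      have h7 : ((μ k : ℤ) : ℝ) ^ 2 = 1 := by
        exact_mod_cast moebius_sq_eq_one_of_squarefree h
      rw [h7, one_div]
      have h8 : (Nat.totient k : ℝ) ≤ k := by exact_mod_cast Nat.totient_le k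
      have h9 : (0 : ℝ) < Nat.totient k := by exact_mod_cast Nat.totient_pos.2 hk1
      exact inv_anti₀ h9 h8
    · rw [if_neg h]
      positivity
  have h8 : 0 ≤ ∑ a ∈ (Icc 1 R).filter Squarefree, (a : ℝ)⁻¹ := Finset.sum_nonneg fun _ _ => by positivity
  have h10 : 0 ≤ L R := h8.trans h6
  rw [h2] at h1
  rw [h4] at h3
  have h9 : (∑ a ∈ (Icc 1 R).filter Squarefree, (a : ℝ)⁻¹) * ∑ b ∈ Icc 1 R, ((b : ℝ) ^ 2)⁻¹ ≤ L R * 2 := by
    gcongr
  linarith

/-- The weight is at least one at primes above `R` (at integers without small divisors). -/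
theorem wt_prime {R p : ℕ} (hR : 1 ≤ R) (hp : p.Prime) (hRp : R < p) : wt R p = 1 := by
  unfold wt
  have h1 : (Icc 1 R).filter (fun e => e ∣ p) = {1} := by
    ext e
    simp only [Finset.mem_filter, Finset.mem_Icc, Finset.mem_singleton]
    constructor
    · rintro ⟨⟨h1, h2⟩, h3⟩
      rcases (Nat.dvd_prime hp).1 h3 with h | h
      · exact h
      · omega
    · rintro rfl
      exact ⟨⟨le_rfl, hR⟩, one_dvd _⟩
  rw [h1, Finset.sum_singleton, lam_one hR]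
  norm_num

theorem wt_expand (R n : ℕ) : wt R n = ∑ a ∈ Icc 1 R, ∑ b ∈ Icc 1 R,
    if Nat.lcm a b ∣ n then lam R a * lam R b else 0 := by
  unfold wt
  rw [sq, Finset.sum_filter, Finset.sum_mul_sum]
  refine Finset.sum_congr rfl fun a _ => Finset.sum_congr rfl fun b _ => ?_
  by_cases h1 : a ∣ n <;> by_cases h2 : b ∣ n <;> simp [Nat.lcm_dvd_iff, h1, h2]

theorem abs_sum_lam {R : ℕ} (hR : 1 ≤ R) :
    ∑ a ∈ Icc 1 R, ∑ b ∈ Icc 1 R, |lam R a * lam R b| ≤ (R : ℝ) ^ 4 := by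
  have h1 : ∀ a ∈ Icc 1 R, |lam R a| ≤ R := by
    intro a ha
    refine (abs_lam_le hR a).trans ?_
    exact_mod_cast (Finset.mem_Icc.1 ha).2
  calc ∑ a ∈ Icc 1 R, ∑ b ∈ Icc 1 R, |lam R a * lam R b|
      ≤ ∑ a ∈ Icc 1 R, ∑ b ∈ Icc 1 R, (R : ℝ) ^ 2 := by
        refine Finset.sum_le_sum fun a ha => Finset.sum_le_sum fun b hb => ?_
        rw [abs_mul, sq]
        exact mul_le_mul (h1 a ha) (h1 b hb) (abs_nonneg _) (Nat.cast_nonneg _)
    _ = (R : ℝ) ^ 4 := by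
        simp only [Finset.sum_const, Nat.card_Icc, Nat.add_sub_cancel, nsmul_eq_mul]
        ring

/-- The sum of the weights. -/
theorem sum_wt_le {R : ℕ} (hR : 1 ≤ R) (X : ℕ) :
    ∑ n ∈ Icc 1 X, wt R n ≤ X / L R + (R : ℝ) ^ 4 := by
  have h1 : ∑ n ∈ Icc 1 X, wt R n = ∑ a ∈ Icc 1 R, ∑ b ∈ Icc 1 R,
      lam R a * lam R b * ((X / Nat.lcm a b : ℕ) : ℝ) := by
    rw [Finset.sum_congr rfl fun n _ => wt_expand R n, Finset.sum_comm]
    refine Finset.sum_congr rfl fun a ha => ?_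
    rw [Finset.sum_comm]
    refine Finset.sum_congr rfl fun b hb => ?_
    rw [← Finset.sum_filter, Finset.sum_const, nsmul_eq_mul, mul_comm]
    congr 2
    rw [← Nat.Ioc_filter_dvd_card_eq_div X (Nat.lcm a b)]
    rfl
  have h2 : ∀ a ∈ Icc 1 R, ∀ b ∈ Icc 1 R,
      lam R a * lam R b * ((X / Nat.lcm a b : ℕ) : ℝ) ≤
      X * (lam R a * lam R b / (Nat.lcm a b : ℝ)) + |lam R a * lam R b| := by
    intro a ha b hb
    have h3 : |((X / Nat.lcm a b : ℕ) : ℝ) - (X : ℝ) / (Nat.lcm a b : ℝ)| ≤ 1 := by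
      rw [abs_le]
      have h4 : ((X / Nat.lcm a b : ℕ) : ℝ) ≤ (X : ℝ) / (Nat.lcm a b : ℝ) := Nat.cast_div_le
      have h5 : (X : ℝ) / (Nat.lcm a b : ℝ) < ((X / Nat.lcm a b : ℕ) : ℝ) + 1 := by
        have hl : 0 < Nat.lcm a b := Nat.lcm_pos (Finset.mem_Icc.1 ha).1 (Finset.mem_Icc.1 hb).1
        rw [div_lt_iff₀ (by exact_mod_cast hl)]
        have h6 := Nat.lt_div_mul_add hl (a := X)
        have h7 : (X : ℝ) < (X / Nat.lcm a b : ℕ) * (Nat.lcm a b : ℕ) + (Nat.lcm a b : ℕ) := by exact_mod_cast h6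
        linarith
      exact ⟨by linarith, by linarith⟩
    have h4 : lam R a * lam R b * (((X / Nat.lcm a b : ℕ) : ℝ) - (X : ℝ) / (Nat.lcm a b : ℝ)) ≤
        |lam R a * lam R b| := by
      refine (le_abs_self _).trans ?_
      rw [abs_mul]
      calc |lam R a * lam R b| * |((X / Nat.lcm a b : ℕ) : ℝ) - (X : ℝ) / (Nat.lcm a b : ℝ)|
          ≤ |lam R a * lam R b| * 1 := by gcongr
        _ = _ := mul_one _
    have h5 : (X : ℝ) * (lam R a * lam R b / (Nat.lcm a b : ℝ)) =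
        lam R a * lam R b * ((X : ℝ) / (Nat.lcm a b : ℝ)) := by ring
    rw [h5]
    linarith
  rw [h1]
  calc _ ≤ ∑ a ∈ Icc 1 R, ∑ b ∈ Icc 1 R, (X * (lam R a * lam R b / (Nat.lcm a b : ℝ)) +
        |lam R a * lam R b|) := Finset.sum_le_sum fun a ha => Finset.sum_le_sum fun b hb => h2 a ha b hb
    _ = X * (∑ a ∈ Icc 1 R, ∑ b ∈ Icc 1 R, lam R a * lam R b / (Nat.lcm a b : ℝ)) +
        ∑ a ∈ Icc 1 R, ∑ b ∈ Icc 1 R, |lam R a * lam R b| := by
        simp only [Finset.sum_add_distrib, Finset.mul_sum]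
    _ ≤ _ := by
        rw [form_eq hR, div_eq_mul_inv]
        gcongr
        exact abs_sum_lam hR

/-- Twisted sums of the weights. -/
theorem sum_wt_mul_le {R : ℕ} (hR : 1 ≤ R) (X : ℕ) (ψ : ℕ → ℂ) (M : ℝ)
    (hM : ∀ E : ℕ, 1 ≤ E → ‖∑ n ∈ (Icc 1 X).filter (fun n => E ∣ n), ψ n‖ ≤ M) :
    ‖∑ n ∈ Icc 1 X, (wt R n : ℂ) * ψ n‖ ≤ (R : ℝ) ^ 4 * M := by
  have h1 : ∑ n ∈ Icc 1 X, (wt R n : ℂ) * ψ n = ∑ a ∈ Icc 1 R, ∑ b ∈ Icc 1 R,
      ((lam R a * lam R b : ℝ) : ℂ) * ∑ n ∈ (Icc 1 X).filter (fun n => Nat.lcm a b ∣ n), ψ n := by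
    have h2 : ∀ n ∈ Icc 1 X, (wt R n : ℂ) * ψ n = ∑ a ∈ Icc 1 R, ∑ b ∈ Icc 1 R,
        (if Nat.lcm a b ∣ n then ((lam R a * lam R b : ℝ) : ℂ) * ψ n else 0) := by
      intro n _
      rw [wt_expand]
      push_cast
      rw [Finset.sum_mul]
      refine Finset.sum_congr rfl fun a _ => ?_
      rw [Finset.sum_mul]
      refine Finset.sum_congr rfl fun b _ => ?_
      split_ifs <;> simp
    rw [Finset.sum_congr rfl h2, Finset.sum_comm]
    refine Finset.sum_congr rfl fun a _ => ?_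
    rw [Finset.sum_comm]
    refine Finset.sum_congr rfl fun b _ => ?_
    rw [← Finset.sum_filter, Finset.mul_sum]
  rw [h1]
  calc _ ≤ ∑ a ∈ Icc 1 R, ∑ b ∈ Icc 1 R, |lam R a * lam R b| * M := by
        refine (norm_sum_le_of_le _ fun a ha => ?_)
        refine (norm_sum_le_of_le _ fun b hb => ?_)
        rw [norm_mul, Complex.norm_real, Real.norm_eq_abs]
        have hl : 0 < Nat.lcm a b := Nat.lcm_pos (Finset.mem_Icc.1 ha).1 (Finset.mem_Icc.1 hb).1
        have := hM _ hl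
        gcongr
    _ = (∑ a ∈ Icc 1 R, ∑ b ∈ Icc 1 R, |lam R a * lam R b|) * M := by
        simp only [Finset.sum_mul]
    _ ≤ _ := by
        have hM0 : 0 ≤ M := (norm_nonneg _).trans (hM 1 le_rfl)
        exact mul_le_mul_of_nonneg_right (abs_sum_lam hR) hM0

end Pool.Agent.Helper4.ST.Selberg
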