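import Pool.Agent.Helper8.LargeSieve
import Pool.Agent.Helper8.ArtinMain

set_option autoImplicit false

/-!
The multiplicative large sieve for primitive Dirichlet characters of arbitrary moduli, and its
version for powers of sums over primes.
-/

namespace Pool.Agent.Helper4.ST

open Finset ComplexConjugate MeasureTheory Pool.Agent.Helper8.ArtinLS

/-- The additive large sieve for reduced fractions with denominators `≤ X`. -/
theorem additive_large_sieve (X N : ℕ) (a : ℕ → ℂ) :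
    ∑ q ∈ Icc 2 X, ∑ b ∈ (Icc 1 (q - 1)).filter (fun b => b.Coprime q),
      ‖∑ n ∈ range (N + 1), a n * eC n ((b : ℝ) / q)‖ ^ 2 ≤
      ((X : ℝ) ^ 2 + 4 * Real.pi * (N + 1)) * ∑ n ∈ range (N + 1), ‖a n‖ ^ 2 := by
  classical
  rcases Nat.eq_zero_or_pos X with rfl | hX
  · have := Real.pi_pos
    simp only [Icc_eq_empty_of_lt (show (0 : ℕ) < 2 by norm_num), Finset.sum_empty]
    positivity
  have hX1 : (1 : ℝ) ≤ X := by exact_mod_cast hX
  have hX0 : (0 : ℝ) < X := by linarith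
  set f : ℝ → ℂ := fun t => ∑ n ∈ range (N + 1), a n * eC n t with hf
  set f' : ℝ → ℂ := fun t => ∑ n ∈ range (N + 1), (a n * (2 * Real.pi * Complex.I * n)) * eC n t with hf'
  have hder : ∀ t, HasDerivAt f (f' t) t := by
    intro t
    rw [hf, hf']
    apply HasDerivAt.fun_sum
    intro n _
    have h1 : HasDerivAt (fun t : ℝ => (2 * Real.pi * Complex.I * n * t : ℂ))
        (2 * Real.pi * Complex.I * n) t := by
      have := (Complex.ofRealCLM.hasDerivAt (x := t)).const_mul (2 * Real.pi * Complex.I * n : ℂ)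
      simpa using this
    have h2 := h1.cexp.const_mul (a n)
    refine h2.congr_deriv ?_
    unfold eC
    ring
  have hfc : Continuous f := continuous_iff_continuousAt.mpr fun t => (hder t).continuousAt
  have hf'c : Continuous f' := by
    rw [hf']
    apply continuous_finsetSum
    intro n _
    exact continuous_const.mul (eC_cont n)
  set Sa : ℝ := ∑ n ∈ range (N + 1), ‖a n‖ ^ 2 with hSa
  have hSa0 : 0 ≤ Sa := Finset.sum_nonneg fun n _ => by positivity
  have hP1 : ∫ t in (0:ℝ)..1, ‖f t‖ ^ 2 = Sa := parseval_trig a (N + 1)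
  set T : ℝ := 2 * Real.pi * (N + 1) with hT
  have hT0 : 0 < T := by
    have := Real.pi_pos
    positivity
  have hP2 : ∫ t in (0:ℝ)..1, ‖f' t‖ ^ 2 ≤ T ^ 2 * Sa := by
    rw [hf', parseval_trig, hSa, Finset.mul_sum]
    apply Finset.sum_le_sum
    intro n hn
    rw [Finset.mem_range] at hn
    have h1 : ‖(2 * Real.pi * Complex.I * n : ℂ)‖ ≤ T := by
      rw [norm_mul, norm_mul, norm_mul, Complex.norm_I, Complex.norm_natCast, Complex.norm_real,
        Real.norm_of_nonneg Real.pi_pos.le, Complex.norm_ofNat, hT, mul_one]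
      have : (n : ℝ) ≤ N + 1 := by exact_mod_cast hn.le
      have := Real.pi_pos
      gcongr
    rw [norm_mul, mul_pow, mul_comm]
    gcongr
  -- the points
  set δ : ℝ := 1 / (X : ℝ) ^ 2 with hδ
  have hδ0 : 0 < δ := by positivity
  set S : Finset (Σ _ : ℕ, ℕ) :=
    (Icc 2 X).sigma (fun q => (Icc 1 (q - 1)).filter (fun b => b.Coprime q)) with hS
  set α : (Σ _ : ℕ, ℕ) → ℝ := fun i => (i.2 : ℝ) / i.1 with hα
  have hmem : ∀ i ∈ S, i.1 ≤ X ∧ i.2.Coprime i.1 ∧ 1 ≤ i.2 ∧ i.2 < i.1 := by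
    intro i hi
    rw [hS, Finset.mem_sigma, Finset.mem_filter, Finset.mem_Icc, Finset.mem_Icc] at hi
    exact ⟨by omega, hi.2.2, hi.2.1.1, by omega⟩
  have hδX : δ / 2 ≤ 1 / (X : ℝ) := by
    rw [hδ, div_div, div_le_div_iff₀ (by positivity) hX0]
    nlinarith
  have hin : ∀ i ∈ S, 0 ≤ α i - δ/2 ∧ α i + δ/2 ≤ 1 := by
    intro i hi
    obtain ⟨h1, h2, h3, h4⟩ := hmem i hi
    have hp0 : (0 : ℝ) < i.1 := by
      have : 0 < i.1 := by omega
      exact_mod_cast this
    have hpX : (i.1 : ℝ) ≤ X := by exact_mod_cast h1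
    have h5 : 1 / (X : ℝ) ≤ 1 / (i.1 : ℝ) := one_div_le_one_div_of_le hp0 hpX
    have h6 : 1 / (i.1 : ℝ) ≤ α i := by
      rw [hα]
      simp only
      gcongr
      exact_mod_cast h3
    have h7 : α i ≤ 1 - 1 / (i.1 : ℝ) := by
      rw [hα]
      simp only
      rw [le_sub_iff_add_le, ← add_div, div_le_one hp0]
      exact_mod_cast h4
    exact ⟨by linarith, by linarith⟩
  have hsep : ∀ i ∈ S, ∀ j ∈ S, i ≠ j → δ ≤ |α i - α j| := by
    intro i hi j hj hij
    obtain ⟨h1, h2, h3, h4⟩ := hmem i hi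
    obtain ⟨g1, g2, g3, g4⟩ := hmem j hj
    have hi0 : 0 < i.1 := by omega
    have hj0 : 0 < j.1 := by omega
    have hp0 : (0 : ℝ) < i.1 := by exact_mod_cast hi0
    have hq0 : (0 : ℝ) < j.1 := by exact_mod_cast hj0
    have hpX : (i.1 : ℝ) ≤ X := by exact_mod_cast h1
    have hqX : (j.1 : ℝ) ≤ X := by exact_mod_cast g1
    have hne : (i.2 : ℤ) * j.1 - j.2 * i.1 ≠ 0 := by
      intro h
      have h5 : i.2 * j.1 = j.2 * i.1 := by
        have : (i.2 : ℤ) * j.1 = j.2 * i.1 := by omega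
        exact_mod_cast this
      have h6 : i.1 ∣ j.1 := by
        have : i.1 ∣ i.2 * j.1 := by rw [h5]; exact Dvd.intro_left _ rfl
        exact (Nat.Coprime.dvd_mul_left h2.symm).1 this
      have h7 : j.1 ∣ i.1 := by
        have : j.1 ∣ j.2 * i.1 := by rw [← h5]; exact Dvd.intro_left _ rfl
        exact (Nat.Coprime.dvd_mul_left g2.symm).1 this
      have h8 : i.1 = j.1 := Nat.dvd_antisymm h6 h7
      have h9 : i.2 = j.2 := by
        rw [h8] at h5
        exact Nat.eq_of_mul_eq_mul_right hj0 h5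
      apply hij
      exact Sigma.ext h8 (heq_of_eq h9)
    have h10 : α i - α j = (((i.2 : ℤ) * j.1 - j.2 * i.1 : ℤ) : ℝ) / (i.1 * j.1) := by
      rw [hα]
      simp only
      push_cast
      field_simp
    rw [h10, abs_div, abs_of_pos (mul_pos hp0 hq0), hδ]
    have h11 : (1 : ℝ) ≤ |(((i.2 : ℤ) * j.1 - j.2 * i.1 : ℤ) : ℝ)| := by
      exact_mod_cast Int.one_le_abs hne
    rw [div_le_div_iff₀ (by positivity) (by positivity)]
    calc 1 * ((i.1 : ℝ) * j.1) ≤ 1 * (X * X) := by gcongr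
      _ ≤ |(((i.2 : ℤ) * j.1 - j.2 * i.1 : ℤ) : ℝ)| * (X * X) := by gcongr
      _ = _ := by ring
  have hsum : ∑ q ∈ Icc 2 X, ∑ b ∈ (Icc 1 (q - 1)).filter (fun b => b.Coprime q),
      ‖f ((b : ℝ) / q)‖ ^ 2 = ∑ i ∈ S, ‖f (α i)‖ ^ 2 := by
    rw [hS, Finset.sum_sigma]
  have hgoal : ∑ i ∈ S, ‖f (α i)‖ ^ 2 ≤ ((X : ℝ) ^ 2 + 4 * Real.pi * (N + 1)) * Sa := by
    calc ∑ i ∈ S, ‖f (α i)‖ ^ 2 ≤ ∑ i ∈ S, (δ⁻¹ * (∫ t in (α i - δ/2)..(α i + δ/2), ‖f t‖ ^ 2) +
          ∫ t in (α i - δ/2)..(α i + δ/2), 2 * (‖f t‖ * ‖f' t‖)) :=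
          Finset.sum_le_sum fun i _ => gallagher_ineq f f' hder hf'c (α i) δ hδ0
      _ = δ⁻¹ * (∑ i ∈ S, ∫ t in (α i - δ/2)..(α i + δ/2), ‖f t‖ ^ 2) +
          ∑ i ∈ S, ∫ t in (α i - δ/2)..(α i + δ/2), 2 * (‖f t‖ * ‖f' t‖) := by
          rw [Finset.sum_add_distrib, Finset.mul_sum]
      _ ≤ δ⁻¹ * (∫ t in (0:ℝ)..1, ‖f t‖ ^ 2) + ∫ t in (0:ℝ)..1, 2 * (‖f t‖ * ‖f' t‖) := by
          apply add_le_add
          · apply mul_le_mul_of_nonneg_left _ (by positivity)
            exact sum_integral_le S α δ hδ0 hin hsep _ (by fun_prop) (fun t => by positivity)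
          · exact sum_integral_le S α δ hδ0 hin hsep _ (by fun_prop) (fun t => by positivity)
      _ ≤ δ⁻¹ * Sa + ∫ t in (0:ℝ)..1, (T * ‖f t‖ ^ 2 + T⁻¹ * ‖f' t‖ ^ 2) := by
          rw [hP1]
          gcongr
          apply intervalIntegral.integral_mono_on zero_le_one
          · apply Continuous.intervalIntegrable; fun_prop
          · apply Continuous.intervalIntegrable; fun_prop
          · intro t _
            have h1 : T * ‖f t‖ ^ 2 + T⁻¹ * ‖f' t‖ ^ 2 - 2 * (‖f t‖ * ‖f' t‖) =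
                T⁻¹ * (T * ‖f t‖ - ‖f' t‖) ^ 2 := by field_simp; ring
            have h2 : 0 ≤ T⁻¹ * (T * ‖f t‖ - ‖f' t‖) ^ 2 := by positivity
            linarith
      _ = δ⁻¹ * Sa + (T * Sa + T⁻¹ * ∫ t in (0:ℝ)..1, ‖f' t‖ ^ 2) := by
          rw [intervalIntegral.integral_add, intervalIntegral.integral_const_mul,
            intervalIntegral.integral_const_mul, hP1]
          · apply Continuous.intervalIntegrable; fun_prop
          · apply Continuous.intervalIntegrable; fun_prop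
      _ ≤ δ⁻¹ * Sa + (T * Sa + T⁻¹ * (T ^ 2 * Sa)) := by gcongr
      _ = ((X : ℝ) ^ 2 + 4 * Real.pi * (N + 1)) * Sa := by
          rw [hδ, hT]
          have := Real.pi_pos
          field_simp
          ring
  rw [← hsum] at hgoal
  exact hgoal

section modulus

variable {q : ℕ} [NeZero q]

open Classical in
theorem mult_parseval (Z : ZMod q → ℂ) :
    ∑ χ : DirichletCharacter ℂ q, ‖∑ x : ZMod q, χ x * Z x‖ ^ 2 =
      (q.totient : ℝ) * ∑ x ∈ Finset.univ.filter (fun x : ZMod q => IsUnit x), ‖Z x‖ ^ 2 := by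
  have h1 : ∀ χ : DirichletCharacter ℂ q, ∑ x : ZMod q, χ x * Z x =
      ∑ x ∈ Finset.univ.filter (fun x : ZMod q => IsUnit x), χ x * Z x := by
    intro χ
    rw [Finset.sum_filter]
    refine Finset.sum_congr rfl fun x _ => ?_
    split_ifs with h
    · rfl
    · rw [χ.map_nonunit h, zero_mul]
  simp only [h1]
  apply parseval_of_orth
  intro h hh k hk
  rw [Finset.mem_filter] at hh hk
  have h2 := DirichletCharacter.sum_char_inv_mul_char_eq ℂ (a := k) hk.2 h
  have h3 : ∀ χ : DirichletCharacter ℂ q, χ h * conj (χ k) = χ k⁻¹ * χ h := by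
    intro χ
    rw [mul_comm]
    congr 1
    have h4 : χ k⁻¹ * χ k = 1 := by
      rw [← map_mul, ZMod.inv_mul_of_unit k hk.2, map_one]
    have h5 : conj (χ k) * χ k = 1 := by
      have := DirichletCharacter.unit_norm_eq_one χ hk.2.unit
      rw [IsUnit.unit_spec] at this
      rw [mul_comm, Complex.mul_conj, Complex.normSq_eq_norm_sq, this]
      simp
    have h6 : χ k ≠ 0 := by
      intro h0
      rw [h0, mul_zero] at h4
      exact zero_ne_one h4
    exact mul_right_cancel₀ h6 (h5.trans h4.symm)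
  simp only [h3, h2]
  by_cases hhk : h = k
  · subst hhk
    simp
  · rw [if_neg (Ne.symm hhk), if_neg hhk]

theorem add_parseval (Z : ZMod q → ℂ) :
    ∑ b : ZMod q, ‖∑ x : ZMod q, ZMod.stdAddChar (b * x) * Z x‖ ^ 2 =
      (q : ℝ) * ∑ x : ZMod q, ‖Z x‖ ^ 2 := by
  classical
  apply parseval_of_orth
  intro h _ k _
  have h1 : ∀ b : ZMod q, (ZMod.stdAddChar (b * h) : ℂ) * conj (ZMod.stdAddChar (b * k) : ℂ) =
      ZMod.stdAddChar (b * (h - k)) := by
    intro b
    rw [← AddChar.map_neg_eq_conj, ← AddChar.map_add_eq_mul]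
    congr 1
    ring
  simp only [h1]
  rw [AddChar.sum_mulShift (h - k) (ZMod.isPrimitive_stdAddChar q)]
  by_cases hhk : h = k
  · subst hhk
    simp
  · rw [if_neg (sub_ne_zero.mpr hhk), if_neg hhk]
    simp

open Classical in
theorem sum_norm_char_sq (χ : DirichletCharacter ℂ q) :
    ∑ x : ZMod q, ‖χ x‖ ^ 2 = (q.totient : ℝ) := by
  have h1 : ∀ x : ZMod q, ‖χ x‖ ^ 2 = if IsUnit x then (1 : ℝ) else 0 := by
    intro x
    split_ifs with h
    · have := DirichletCharacter.unit_norm_eq_one χ h.unit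
      rw [IsUnit.unit_spec] at this
      rw [this, one_pow]
    · rw [χ.map_nonunit h]
      simp
  simp only [h1]
  rw [← Finset.sum_filter, Finset.sum_const, nsmul_eq_mul, mul_one]
  congr 1
  rw [← ZMod.card_units_eq_totient q, ← Finset.card_univ]
  refine (Finset.card_bij (fun (u : (ZMod q)ˣ) _ => (u : ZMod q)) ?_ ?_ ?_).symm
  · intro u _
    simp
  · intro u _ v _ h
    exact Units.ext h
  · intro x hx
    rw [Finset.mem_filter] at hx
    exact ⟨hx.2.unit, Finset.mem_univ _, rfl⟩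

/-- The Gauss sum of a primitive character has absolute value `√q`. -/
theorem norm_gaussSum_sq {χ : DirichletCharacter ℂ q} (hχ : χ.IsPrimitive) :
    ‖gaussSum χ (ZMod.stdAddChar (N := q))‖ ^ 2 = q := by
  have h1 := add_parseval (fun x => χ x)
  rw [sum_norm_char_sq χ] at h1
  have h2 : ∀ b : ZMod q, ∑ x : ZMod q, ZMod.stdAddChar (b * x) * χ x =
      χ⁻¹ b * gaussSum χ (ZMod.stdAddChar (N := q)) := by
    intro b
    rw [← gaussSum_mulShift_of_isPrimitive _ hχ b]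
    unfold gaussSum
    refine Finset.sum_congr rfl fun x _ => ?_
    rw [AddChar.mulShift_apply, mul_comm]
  simp only [h2, norm_mul, mul_pow] at h1
  rw [← Finset.sum_mul, sum_norm_char_sq (χ⁻¹)] at h1
  have h3 : (0 : ℝ) < q.totient := by
    have := Nat.totient_pos.2 (Nat.pos_of_ne_zero (NeZero.ne q))
    exact_mod_cast this
  have h4 : (q.totient : ℝ) * ‖gaussSum χ (ZMod.stdAddChar (N := q))‖ ^ 2 = q.totient * q := by
    rw [h1]; ring
  exact mul_left_cancel₀ h3.ne' h4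

open Classical in
/-- The comparison of the second moment over primitive characters with exponential sums. -/
theorem prim_le_add (F : Finset (DirichletCharacter ℂ q)) (hF : ∀ χ ∈ F, χ.IsPrimitive)
    (Z : ZMod q → ℂ) :
    ∑ χ ∈ F, ‖∑ x : ZMod q, χ x * Z x‖ ^ 2 ≤
      ∑ b ∈ Finset.univ.filter (fun x : ZMod q => IsUnit x),
        ‖∑ x : ZMod q, ZMod.stdAddChar (b * x) * Z x‖ ^ 2 := by
  set W : ZMod q → ℂ := fun b => ∑ x : ZMod q, ZMod.stdAddChar (b * x) * Z x with hW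
  have hq0 : (0 : ℝ) < q := by
    have := Nat.pos_of_ne_zero (NeZero.ne q)
    exact_mod_cast this
  -- express each character sum through the exponential sums
  have h1 : ∀ χ ∈ F, (∑ x : ZMod q, χ x * Z x) * gaussSum χ⁻¹ (ZMod.stdAddChar (N := q)) =
      ∑ b : ZMod q, χ⁻¹ b * W b := by
    intro χ hχ
    have hp : χ⁻¹.IsPrimitive := by
      rw [DirichletCharacter.isPrimitive_def, DirichletCharacter.conductor_inv]
      exact hF χ hχ
    have h2 : ∀ x : ZMod q, χ x * gaussSum χ⁻¹ (ZMod.stdAddChar (N := q)) =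
        ∑ b : ZMod q, χ⁻¹ b * ZMod.stdAddChar (b * x) := by
      intro x
      have := gaussSum_mulShift_of_isPrimitive (ZMod.stdAddChar (N := q)) hp x
      rw [inv_inv] at this
      rw [← this]
      unfold gaussSum
      refine Finset.sum_congr rfl fun b _ => ?_
      rw [AddChar.mulShift_apply, mul_comm x b]
    rw [Finset.sum_mul]
    calc ∑ x : ZMod q, χ x * Z x * gaussSum χ⁻¹ (ZMod.stdAddChar (N := q))
        = ∑ x : ZMod q, ∑ b : ZMod q, χ⁻¹ b * ZMod.stdAddChar (b * x) * Z x := by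
          refine Finset.sum_congr rfl fun x _ => ?_
          rw [mul_right_comm, h2, Finset.sum_mul]
      _ = ∑ b : ZMod q, χ⁻¹ b * W b := by
          rw [Finset.sum_comm]
          refine Finset.sum_congr rfl fun b _ => ?_
          rw [hW, Finset.mul_sum]
          refine Finset.sum_congr rfl fun x _ => ?_
          ring
  have h3 : ∀ χ ∈ F, ‖∑ x : ZMod q, χ x * Z x‖ ^ 2 =
      (q : ℝ)⁻¹ * ‖∑ b : ZMod q, χ⁻¹ b * W b‖ ^ 2 := by
    intro χ hχ
    have hp : χ⁻¹.IsPrimitive := by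
      rw [DirichletCharacter.isPrimitive_def, DirichletCharacter.conductor_inv]
      exact hF χ hχ
    rw [← h1 χ hχ, norm_mul, mul_pow, norm_gaussSum_sq hp]
    field_simp
  rw [Finset.sum_congr rfl h3, ← Finset.mul_sum]
  have h4 : ∑ χ ∈ F, ‖∑ b : ZMod q, χ⁻¹ b * W b‖ ^ 2 ≤
      ∑ χ : DirichletCharacter ℂ q, ‖∑ b : ZMod q, χ b * W b‖ ^ 2 := by
    have h5 : ∑ χ ∈ F, ‖∑ b : ZMod q, χ⁻¹ b * W b‖ ^ 2 =
        ∑ χ ∈ F.image (fun χ => χ⁻¹), ‖∑ b : ZMod q, χ b * W b‖ ^ 2 := by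
      rw [Finset.sum_image]
      intro x _ y _ h
      exact inv_injective h
    rw [h5]
    exact Finset.sum_le_sum_of_subset_of_nonneg (Finset.subset_univ _) fun _ _ _ => by positivity
  have hphi : (q.totient : ℝ) ≤ q := by exact_mod_cast Nat.totient_le q
  calc (q : ℝ)⁻¹ * ∑ χ ∈ F, ‖∑ b : ZMod q, χ⁻¹ b * W b‖ ^ 2
      ≤ (q : ℝ)⁻¹ * ((q.totient : ℝ) *
        ∑ x ∈ Finset.univ.filter (fun x : ZMod q => IsUnit x), ‖W x‖ ^ 2) := by
        rw [← mult_parseval]
        gcongr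
    _ ≤ (q : ℝ)⁻¹ * ((q : ℝ) *
        ∑ x ∈ Finset.univ.filter (fun x : ZMod q => IsUnit x), ‖W x‖ ^ 2) := by
        gcongr
    _ = _ := by rw [inv_mul_cancel_left₀ hq0.ne']

open Classical in
theorem prim_le_exp (hq : 2 ≤ q) (F : Finset (DirichletCharacter ℂ q))
    (hF : ∀ χ ∈ F, χ.IsPrimitive) (N : ℕ) (a : ℕ → ℂ) :
    ∑ χ ∈ F, ‖∑ n ∈ range (N + 1), a n * χ (n : ZMod q)‖ ^ 2 ≤
      ∑ b ∈ (Icc 1 (q - 1)).filter (fun b => b.Coprime q),
        ‖∑ n ∈ range (N + 1), a n * eC n ((b : ℝ) / q)‖ ^ 2 := by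
  set Z : ZMod q → ℂ := fun x => ∑ n ∈ (range (N + 1)).filter (fun n : ℕ => (n : ZMod q) = x), a n with hZ
  have h0 : ∀ G : ZMod q → ℂ, ∑ n ∈ range (N + 1), a n * G (n : ZMod q) = ∑ x : ZMod q, G x * Z x := by
    intro G
    rw [← Finset.sum_fiberwise_of_maps_to (s := range (N + 1)) (t := Finset.univ)
      (g := fun n : ℕ => (n : ZMod q)) (fun _ _ => Finset.mem_univ _)]
    refine Finset.sum_congr rfl fun x _ => ?_
    rw [hZ]
    simp only
    rw [Finset.mul_sum]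
    refine Finset.sum_congr rfl fun n hn => ?_
    rw [(Finset.mem_filter.mp hn).2]
    ring
  have h1 : ∀ χ : DirichletCharacter ℂ q, ∑ n ∈ range (N + 1), a n * χ (n : ZMod q) =
      ∑ x : ZMod q, χ x * Z x := fun χ => h0 χ
  simp only [h1]
  refine (prim_le_add F hF Z).trans (le_of_eq ?_)
  symm
  refine Finset.sum_bij' (fun b _ => (b : ZMod q)) (fun x _ => x.val) ?_ ?_ ?_ ?_ ?_
  · intro b hb
    rw [Finset.mem_filter, Finset.mem_Icc] at hb
    rw [Finset.mem_filter]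
    refine ⟨Finset.mem_univ _, ?_⟩
    exact (ZMod.isUnit_iff_coprime b q).2 hb.2
  · intro x hx
    rw [Finset.mem_filter] at hx
    rw [Finset.mem_filter, Finset.mem_Icc]
    have h2 := ZMod.val_lt x
    have h3 : x.val.Coprime q := by
      rw [← ZMod.isUnit_iff_coprime, ZMod.natCast_zmod_val]
      exact hx.2
    have h4 : x.val ≠ 0 := by
      intro h
      rw [h, Nat.coprime_zero_left] at h3
      omega
    refine ⟨⟨by omega, by omega⟩, h3⟩
  · intro b hb
    rw [Finset.mem_filter, Finset.mem_Icc] at hb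
    exact ZMod.val_cast_of_lt (by omega)
  · intro x _
    exact ZMod.natCast_zmod_val x
  · intro b _
    congr 2
    rw [← h0 (fun x => (ZMod.stdAddChar ((b : ZMod q) * x) : ℂ))]
    refine Finset.sum_congr rfl fun n _ => ?_
    congr 1
    have h4 : ((b : ZMod q) * (n : ZMod q)) = (((b * n : ℕ) : ℤ) : ZMod q) := by push_cast; rfl
    rw [h4, ZMod.stdAddChar_coe]
    unfold eC
    congr 1
    push_cast
    ring

end modulus

/-- **The large sieve inequality for primitive characters** to moduli `2 ≤ q ≤ X`. -/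
theorem large_sieve_prim (X N : ℕ) (F : Finset (Σ q : ℕ, DirichletCharacter ℂ q))
    (hF : ∀ j ∈ F, 2 ≤ j.1 ∧ j.1 ≤ X ∧ j.2.IsPrimitive) (a : ℕ → ℂ) :
    ∑ j ∈ F, ‖∑ n ∈ range (N + 1), a n * j.2 (n : ZMod j.1)‖ ^ 2 ≤
      ((X : ℝ) ^ 2 + 4 * Real.pi * (N + 1)) * ∑ n ∈ range (N + 1), ‖a n‖ ^ 2 := by
  classical
  refine le_trans ?_ (additive_large_sieve X N a)
  have hmaps : ∀ j ∈ F, j.1 ∈ Icc 2 X := fun j hj => by
    rw [Finset.mem_Icc]
    exact ⟨(hF j hj).1, (hF j hj).2.1⟩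
  rw [← Finset.sum_fiberwise_of_maps_to hmaps]
  refine Finset.sum_le_sum fun q hq => ?_
  rw [Finset.mem_Icc] at hq
  have : NeZero q := ⟨by omega⟩
  set Fq : Finset (DirichletCharacter ℂ q) :=
    Finset.univ.filter (fun χ => (⟨q, χ⟩ : Σ q : ℕ, DirichletCharacter ℂ q) ∈ F) with hFq
  have h1 := prim_le_exp hq.1 Fq (fun χ hχ => by
    rw [hFq, Finset.mem_filter] at hχ
    exact (hF _ hχ.2).2.2) N a
  refine le_trans (le_of_eq ?_) h1
  refine Finset.sum_bij' (fun j hj => ((Finset.mem_filter.1 hj).2 ▸ j.2 : DirichletCharacter ℂ q))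
    (fun χ _ => (⟨q, χ⟩ : Σ q : ℕ, DirichletCharacter ℂ q)) ?_ ?_ ?_ ?_ ?_
  · rintro ⟨q', χ⟩ hj
    obtain ⟨hj1, hj2⟩ := Finset.mem_filter.1 hj
    simp only at hj2
    subst hj2
    rw [hFq, Finset.mem_filter]
    exact ⟨Finset.mem_univ _, hj1⟩
  · intro χ hχ
    rw [hFq, Finset.mem_filter] at hχ
    rw [Finset.mem_filter]
    exact ⟨hχ.2, rfl⟩
  · rintro ⟨q', χ⟩ hj
    obtain ⟨hj1, hj2⟩ := Finset.mem_filter.1 hj
    simp only at hj2
    subst hj2
    rfl
  · intro χ hχ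
    rfl
  · rintro ⟨q', χ⟩ hj
    obtain ⟨hj1, hj2⟩ := Finset.mem_filter.1 hj
    simp only at hj2
    subst hj2
    rfl

/-- The moment bound for the `r`-th power of a sum supported on `E ⊆ [1, M]`, in terms of the
maximal number `R` of ordered factorisations into elements of `E`. -/
theorem moment_bound_prim (X M r R : ℕ) (B : ℝ) (hB : 0 ≤ B)
    (F : Finset (Σ q : ℕ, DirichletCharacter ℂ q))
    (hF : ∀ j ∈ F, 2 ≤ j.1 ∧ j.1 ≤ X ∧ j.2.IsPrimitive)
    (E : Finset ℕ) (hE : ∀ m ∈ E, m ≤ M) (ε : ℕ → ℂ) (hε : ∀ m, ‖ε m‖ ≤ B)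
    (hR : ∀ n : ℕ, ((Fintype.piFinset fun _ : Fin r => E).filter
      (fun t => ∏ i, t i = n)).card ≤ R) :
    ∑ j ∈ F, ‖∑ m ∈ E, ε m * j.2 (m : ZMod j.1)‖ ^ (2 * r) ≤
      ((X : ℝ) ^ 2 + 4 * Real.pi * ((M : ℝ) ^ r + 1)) * (B ^ (2 * r) * (R * (E.card : ℝ) ^ r)) := by
  classical
  set P := Fintype.piFinset fun _ : Fin r => E with hP
  set A : ℕ → ℂ := fun n => ∑ t ∈ P.filter (fun t => ∏ i, t i = n), ∏ i, ε (t i) with hA
  have hprod : ∀ t ∈ P, ∏ i, t i ∈ range (M ^ r + 1) := by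
    intro t ht
    rw [Finset.mem_range, Nat.lt_succ_iff]
    calc ∏ i, t i ≤ ∏ _i : Fin r, M := Finset.prod_le_prod' fun i _ =>
          hE _ (Fintype.mem_piFinset.1 ht i)
      _ = M ^ r := by simp
  -- the `r`-th power
  have h1 : ∀ j : (Σ p : ℕ, DirichletCharacter ℂ p),
      (∑ m ∈ E, ε m * j.2 (m : ZMod j.1)) ^ r =
        ∑ n ∈ range (M ^ r + 1), A n * j.2 (n : ZMod j.1) := by
    intro j
    have h2 : (∑ m ∈ E, ε m * j.2 (m : ZMod j.1)) ^ r =
        ∑ t ∈ P, ∏ i, (ε (t i) * j.2 ((t i : ℕ) : ZMod j.1)) := by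
      rw [hP, ← Finset.prod_univ_sum (fun _ : Fin r => E)
        (fun _ m => ε m * j.2 (m : ZMod j.1))]
      simp
    rw [h2, ← Finset.sum_fiberwise_of_maps_to hprod]
    refine Finset.sum_congr rfl fun n _ => ?_
    simp only [hA, Finset.sum_mul]
    refine Finset.sum_congr rfl fun t ht => ?_
    rw [Finset.mem_filter] at ht
    rw [Finset.prod_mul_distrib, ← map_prod]
    congr 2
    rw [← ht.2]
    push_cast
    rfl
  have h3 : ∑ j ∈ F, ‖∑ m ∈ E, ε m * j.2 (m : ZMod j.1)‖ ^ (2 * r) =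
      ∑ j ∈ F, ‖∑ n ∈ range (M ^ r + 1), A n * j.2 (n : ZMod j.1)‖ ^ 2 := by
    refine Finset.sum_congr rfl fun j _ => ?_
    rw [← h1, norm_pow, ← pow_mul, mul_comm]
  rw [h3]
  refine (large_sieve_prim X (M ^ r) F hF A).trans ?_
  push_cast
  have hpi := Real.pi_pos
  refine mul_le_mul_of_nonneg_left ?_ (by positivity)
  -- the coefficients
  have h4 : ∀ n, ‖A n‖ ≤ B ^ r * ((P.filter (fun t => ∏ i, t i = n)).card : ℝ) := by
    intro n
    simp only [hA]
    refine (norm_sum_le _ _).trans ?_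
    calc _ ≤ ∑ t ∈ P.filter (fun t => ∏ i, t i = n), (B ^ r : ℝ) := by
          refine Finset.sum_le_sum fun t _ => ?_
          rw [norm_prod]
          calc ∏ i : Fin r, ‖ε (t i)‖ ≤ ∏ _i : Fin r, B :=
                Finset.prod_le_prod (fun i _ => norm_nonneg _) fun i _ => hε _
            _ = B ^ r := by simp
      _ = _ := by simp [mul_comm]
  calc ∑ n ∈ range (M ^ r + 1), ‖A n‖ ^ 2
      ≤ ∑ n ∈ range (M ^ r + 1), B ^ (2 * r) *
          ((R : ℝ) * ((P.filter (fun t => ∏ i, t i = n)).card : ℝ)) := by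
        refine Finset.sum_le_sum fun n _ => ?_
        have h5 : ((P.filter (fun t => ∏ i, t i = n)).card : ℝ) ≤ R := by exact_mod_cast hR n
        have h6 := h4 n
        have h7 := norm_nonneg (A n)
        have h8 : (0 : ℝ) ≤ ((P.filter (fun t => ∏ i, t i = n)).card : ℝ) := by positivity
        calc ‖A n‖ ^ 2 ≤ (B ^ r * ((P.filter (fun t => ∏ i, t i = n)).card : ℝ)) ^ 2 := by
              gcongr
          _ = B ^ (2 * r) * (((P.filter (fun t => ∏ i, t i = n)).card : ℝ) *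
                ((P.filter (fun t => ∏ i, t i = n)).card : ℝ)) := by ring
          _ ≤ _ := by gcongr
    _ = B ^ (2 * r) * ((R : ℝ) * (P.card : ℝ)) := by
        rw [← Finset.mul_sum, ← Finset.mul_sum, Finset.card_eq_sum_card_fiberwise hprod]
        push_cast
        rfl
    _ = _ := by
        rw [hP, Fintype.card_piFinset]
        simp

end Pool.Agent.Helper4.ST
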