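import Pool.Agent.Helper4.ST.Scale

set_option autoImplicit false

/-!
Square sums over all characters, for primes in a short interval.
-/

namespace Pool.Agent.Helper4.ST

section sieve

open Finset ComplexConjugate

theorem Icc_filter_int (Z Y : ℕ) (p : ℕ → Prop) [DecidablePred p] :
    (Icc 1 (Z + Y)).filter p = (Icc 1 Z).filter p ∪ (Ioc Z (Z + Y)).filter p := by
  ext n
  simp only [Finset.mem_filter, Finset.mem_union, Finset.mem_Icc, Finset.mem_Ioc]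
  constructor
  · rintro ⟨⟨h1, h2⟩, h3⟩
    by_cases h4 : n ≤ Z
    · exact Or.inl ⟨⟨h1, h4⟩, h3⟩
    · exact Or.inr ⟨⟨by omega, h2⟩, h3⟩
  · rintro (⟨⟨h1, h2⟩, h3⟩ | ⟨⟨h1, h2⟩, h3⟩)
    · exact ⟨⟨h1, by omega⟩, h3⟩
    · exact ⟨⟨by omega, h2⟩, h3⟩

theorem Icc_disjoint_int (Z Y : ℕ) (p : ℕ → Prop) [DecidablePred p] :
    Disjoint ((Icc 1 Z).filter p) ((Ioc Z (Z + Y)).filter p) := by
  rw [Finset.disjoint_left]
  intro n h1 h2
  rw [Finset.mem_filter, Finset.mem_Icc] at h1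
  rw [Finset.mem_filter, Finset.mem_Ioc] at h2
  omega

theorem card_mult_int (Z Y E : ℕ) (hE : 1 ≤ E) :
    |((((Ioc Z (Z + Y)).filter (fun n => E ∣ n)).card : ℕ) : ℝ) - (Y : ℝ) / E| ≤ 1 := by
  have h1 : ((Icc 1 (Z + Y)).filter (fun n => E ∣ n)).card = (Z + Y) / E := by
    rw [← Nat.Ioc_filter_dvd_card_eq_div (Z + Y) E]
    rfl
  have h2 : ((Icc 1 Z).filter (fun n => E ∣ n)).card = Z / E := by
    rw [← Nat.Ioc_filter_dvd_card_eq_div Z E]
    rfl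
  rw [Icc_filter_int, Finset.card_union_of_disjoint (Icc_disjoint_int Z Y _), h2] at h1
  have h3 : ((Z / E : ℕ) : ℝ) + (((Ioc Z (Z + Y)).filter (fun n => E ∣ n)).card : ℝ) =
      (((Z + Y) / E : ℕ) : ℝ) := by exact_mod_cast h1
  have key : ∀ X : ℕ, ((X / E : ℕ) : ℝ) ≤ (X : ℝ) / E ∧ (X : ℝ) / E < ((X / E : ℕ) : ℝ) + 1 := by
    intro X
    refine ⟨Nat.cast_div_le, ?_⟩
    rw [div_lt_iff₀ (by exact_mod_cast hE)]
    have h6 := Nat.lt_div_mul_add (show 0 < E from hE) (a := X)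
    have h7 : (X : ℝ) < (X / E : ℕ) * (E : ℕ) + (E : ℕ) := by exact_mod_cast h6
    linarith
  obtain ⟨a1, a2⟩ := key Z
  obtain ⟨b1, b2⟩ := key (Z + Y)
  have h4 : (((Z + Y : ℕ) : ℝ)) / E = (Z : ℝ) / E + (Y : ℝ) / E := by
    push_cast
    ring
  rw [h4] at b1 b2
  rw [abs_le]
  constructor <;> linarith

open Selberg in
theorem sum_wt_int_le {R : ℕ} (hR : 1 ≤ R) (Z Y : ℕ) :
    ∑ n ∈ Ioc Z (Z + Y), wt R n ≤ Y / L R + (R : ℝ) ^ 4 := by
  have h1 : ∑ n ∈ Ioc Z (Z + Y), wt R n = ∑ a ∈ Icc 1 R, ∑ b ∈ Icc 1 R,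
      lam R a * lam R b * (((Ioc Z (Z + Y)).filter (fun n => Nat.lcm a b ∣ n)).card : ℝ) := by
    rw [Finset.sum_congr rfl fun n _ => wt_expand R n, Finset.sum_comm]
    refine Finset.sum_congr rfl fun a ha => ?_
    rw [Finset.sum_comm]
    refine Finset.sum_congr rfl fun b hb => ?_
    rw [← Finset.sum_filter, Finset.sum_const, nsmul_eq_mul, mul_comm]
  have h2 : ∀ a ∈ Icc 1 R, ∀ b ∈ Icc 1 R,
      lam R a * lam R b * (((Ioc Z (Z + Y)).filter (fun n => Nat.lcm a b ∣ n)).card : ℝ) ≤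
      Y * (lam R a * lam R b / (Nat.lcm a b : ℝ)) + |lam R a * lam R b| := by
    intro a ha b hb
    have h3 := card_mult_int Z Y (Nat.lcm a b)
      (Nat.lcm_pos (Finset.mem_Icc.1 ha).1 (Finset.mem_Icc.1 hb).1)
    have h4 : lam R a * lam R b *
        ((((Ioc Z (Z + Y)).filter (fun n => Nat.lcm a b ∣ n)).card : ℝ) -
          (Y : ℝ) / (Nat.lcm a b : ℝ)) ≤ |lam R a * lam R b| := by
      refine (le_abs_self _).trans ?_
      rw [abs_mul]
      calc |lam R a * lam R b| * _ ≤ |lam R a * lam R b| * 1 := by gcongr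
        _ = _ := mul_one _
    have h5 : (Y : ℝ) * (lam R a * lam R b / (Nat.lcm a b : ℝ)) =
        lam R a * lam R b * ((Y : ℝ) / (Nat.lcm a b : ℝ)) := by ring
    rw [h5]
    linarith
  rw [h1]
  calc _ ≤ ∑ a ∈ Icc 1 R, ∑ b ∈ Icc 1 R, (Y * (lam R a * lam R b / (Nat.lcm a b : ℝ)) +
        |lam R a * lam R b|) := Finset.sum_le_sum fun a ha => Finset.sum_le_sum fun b hb => h2 a ha b hb
    _ = Y * (∑ a ∈ Icc 1 R, ∑ b ∈ Icc 1 R, lam R a * lam R b / (Nat.lcm a b : ℝ)) +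
        ∑ a ∈ Icc 1 R, ∑ b ∈ Icc 1 R, |lam R a * lam R b| := by
        simp only [Finset.sum_add_distrib, Finset.mul_sum]
    _ ≤ _ := by
        rw [form_eq hR, div_eq_mul_inv]
        gcongr
        exact abs_sum_lam hR

open Selberg in
theorem sum_wt_mul_int_le {R : ℕ} (hR : 1 ≤ R) (T : Finset ℕ) (ψ : ℕ → ℂ) (M : ℝ)
    (hM : ∀ E : ℕ, 1 ≤ E → ‖∑ n ∈ T.filter (fun n => E ∣ n), ψ n‖ ≤ M) :
    ‖∑ n ∈ T, (wt R n : ℂ) * ψ n‖ ≤ (R : ℝ) ^ 4 * M := by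
  have h1 : ∑ n ∈ T, (wt R n : ℂ) * ψ n = ∑ a ∈ Icc 1 R, ∑ b ∈ Icc 1 R,
      ((lam R a * lam R b : ℝ) : ℂ) * ∑ n ∈ T.filter (fun n => Nat.lcm a b ∣ n), ψ n := by
    have h2 : ∀ n ∈ T, (wt R n : ℂ) * ψ n = ∑ a ∈ Icc 1 R, ∑ b ∈ Icc 1 R,
        (if Nat.lcm a b ∣ n then ((lam R a * lam R b : ℝ) : ℂ) * ψ n else 0) := by
      intro n _
      rw [wt_expand]
      push_cast
      rw [Finset.sum_mul]
      refine Finset.sum_congr rfl fun a _ => ?_
      rw [Finset.sum_mul]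
      refine Finset.sum_congr rfl fun b _ => ?_
      split_ifs <;> simp
    rw [Finset.sum_congr rfl h2, Finset.sum_comm]
    refine Finset.sum_congr rfl fun a _ => ?_
    rw [Finset.sum_comm]
    refine Finset.sum_congr rfl fun b _ => ?_
    rw [← Finset.sum_filter, Finset.mul_sum]
  rw [h1]
  calc _ ≤ ∑ a ∈ Icc 1 R, ∑ b ∈ Icc 1 R, |lam R a * lam R b| * M := by
        refine (norm_sum_le_of_le _ fun a ha => ?_)
        refine (norm_sum_le_of_le _ fun b hb => ?_)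
        rw [norm_mul, Complex.norm_real, Real.norm_eq_abs]
        have hl : 0 < Nat.lcm a b := Nat.lcm_pos (Finset.mem_Icc.1 ha).1 (Finset.mem_Icc.1 hb).1
        have := hM _ hl
        gcongr
    _ = (∑ a ∈ Icc 1 R, ∑ b ∈ Icc 1 R, |lam R a * lam R b|) * M := by
        simp only [Finset.sum_mul]
    _ ≤ _ := by
        have hM0 : 0 ≤ M := (norm_nonneg _).trans (hM 1 le_rfl)
        exact mul_le_mul_of_nonneg_right (abs_sum_lam hR) hM0

theorem norm_sum_mult_int_le {q q' : ℕ} [NeZero q] [NeZero q'] {χ : DirichletCharacter ℂ q}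
    {ψ : DirichletCharacter ℂ q'} (hχ : χ.IsPrimitive) (hψ : ψ.IsPrimitive)
    (hne : (⟨q, χ⟩ : Σ q : ℕ, DirichletCharacter ℂ q) ≠ ⟨q', ψ⟩) (Z Y E : ℕ) (hE : 1 ≤ E) :
    ‖∑ n ∈ (Ioc Z (Z + Y)).filter (fun n => E ∣ n), χ (n : ZMod q) * conj (ψ (n : ZMod q'))‖ ≤
      2 * (q * q' : ℕ) := by
  have h1 := norm_sum_mult_le hχ hψ hne (Z + Y) E hE
  have h2 := norm_sum_mult_le hχ hψ hne Z E hE
  rw [Icc_filter_int, Finset.sum_union (Icc_disjoint_int Z Y _)] at h1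
  have h3 := norm_sub_le (∑ n ∈ (Icc 1 Z).filter (fun n => E ∣ n),
      χ (n : ZMod q) * conj (ψ (n : ZMod q')) +
    ∑ n ∈ (Ioc Z (Z + Y)).filter (fun n => E ∣ n), χ (n : ZMod q) * conj (ψ (n : ZMod q')))
    (∑ n ∈ (Icc 1 Z).filter (fun n => E ∣ n), χ (n : ZMod q) * conj (ψ (n : ZMod q')))
  rw [add_sub_cancel_left] at h3
  linarith

/-- The dual form. -/
theorem dual_form_int {R : ℕ} (hR : 1 ≤ R) (Z Y Q : ℕ)
    (S : Finset (Σ q : ℕ, DirichletCharacter ℂ q))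
    (hS : ∀ j ∈ S, 1 ≤ j.1 ∧ j.1 ≤ Q ∧ j.2.IsPrimitive)
    (c : (Σ q : ℕ, DirichletCharacter ℂ q) → ℂ) (P : Finset ℕ)
    (hP : ∀ p ∈ P, p.Prime ∧ R < p ∧ p ∈ Ioc Z (Z + Y)) :
    ∑ p ∈ P, ‖∑ j ∈ S, c j * j.2 (p : ZMod j.1)‖ ^ 2 ≤
      (Y / Selberg.L R + (R : ℝ) ^ 4 + 2 * ((Q : ℝ) ^ 4 * (R : ℝ) ^ 4)) * ∑ j ∈ S, ‖c j‖ ^ 2 := by
  classical
  have h1 : ∑ p ∈ P, ‖∑ j ∈ S, c j * j.2 (p : ZMod j.1)‖ ^ 2 ≤
      ∑ n ∈ Ioc Z (Z + Y), Selberg.wt R n * ‖∑ j ∈ S, c j * j.2 (n : ZMod j.1)‖ ^ 2 := by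
    calc ∑ p ∈ P, ‖∑ j ∈ S, c j * j.2 (p : ZMod j.1)‖ ^ 2
        = ∑ p ∈ P, Selberg.wt R p * ‖∑ j ∈ S, c j * j.2 (p : ZMod j.1)‖ ^ 2 := by
          refine Finset.sum_congr rfl fun p hp => ?_
          rw [Selberg.wt_prime hR (hP p hp).1 (hP p hp).2.1, one_mul]
      _ ≤ _ := by
          apply Finset.sum_le_sum_of_subset_of_nonneg
          · intro p hp
            exact (hP p hp).2.2
          · intro n _ _
            have := Selberg.wt_nonneg R n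
            positivity
  refine h1.trans ?_
  -- expand the square
  have h2 : ((∑ n ∈ Ioc Z (Z + Y), Selberg.wt R n * ‖∑ j ∈ S, c j * j.2 (n : ZMod j.1)‖ ^ 2 : ℝ) : ℂ) =
      ∑ i ∈ S, ∑ j ∈ S, (c i * conj (c j)) * ∑ n ∈ Ioc Z (Z + Y), (Selberg.wt R n : ℂ) *
        (i.2 (n : ZMod i.1) * conj (j.2 (n : ZMod j.1))) := by
    push_cast
    have h3 : ∀ n ∈ Ioc Z (Z + Y), (Selberg.wt R n : ℂ) * (‖∑ j ∈ S, c j * j.2 (n : ZMod j.1)‖ : ℂ) ^ 2 =
        ∑ i ∈ S, ∑ j ∈ S, (c i * conj (c j)) * ((Selberg.wt R n : ℂ) *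
        (i.2 (n : ZMod i.1) * conj (j.2 (n : ZMod j.1)))) := by
      intro n _
      rw [← Complex.mul_conj', map_sum, Finset.sum_mul_sum, Finset.mul_sum]
      refine Finset.sum_congr rfl fun i _ => ?_
      rw [Finset.mul_sum]
      refine Finset.sum_congr rfl fun j _ => ?_
      rw [map_mul]
      ring
    rw [Finset.sum_congr rfl h3, Finset.sum_comm]
    refine Finset.sum_congr rfl fun i _ => ?_
    rw [Finset.sum_comm]
    refine Finset.sum_congr rfl fun j _ => ?_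
    rw [Finset.mul_sum]
  have hnn : 0 ≤ ∑ n ∈ Ioc Z (Z + Y), Selberg.wt R n * ‖∑ j ∈ S, c j * j.2 (n : ZMod j.1)‖ ^ 2 := by
    apply Finset.sum_nonneg
    intro n _
    have := Selberg.wt_nonneg R n
    positivity
  set W : ℝ := Y / Selberg.L R + (R : ℝ) ^ 4 with hW
  set M : ℝ := (R : ℝ) ^ 4 * (2 * (Q : ℝ) ^ 2) with hM
  have hM0 : 0 ≤ M := by positivity
  have hW0 : 0 ≤ W := by
    have := Selberg.L_pos hR
    positivity
  have h3 : ∀ i ∈ S, ∀ j ∈ S, ‖(c i * conj (c j)) * ∑ n ∈ Ioc Z (Z + Y), (Selberg.wt R n : ℂ) *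
        (i.2 (n : ZMod i.1) * conj (j.2 (n : ZMod j.1)))‖ ≤
      (if i = j then W * ‖c i‖ ^ 2 else 0) + M * (‖c i‖ * ‖c j‖) := by
    intro i hi j hj
    rw [norm_mul, norm_mul, RCLike.norm_conj]
    have hcc : 0 ≤ ‖c i‖ * ‖c j‖ := by positivity
    by_cases hij : i = j
    · subst hij
      rw [if_pos rfl]
      have h4 : ‖∑ n ∈ Ioc Z (Z + Y), (Selberg.wt R n : ℂ) * (i.2 (n : ZMod i.1) * conj (i.2 (n : ZMod i.1)))‖ ≤ W := by
        calc _ ≤ ∑ n ∈ Ioc Z (Z + Y), Selberg.wt R n := by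
              refine norm_sum_le_of_le _ fun n _ => ?_
              rw [norm_mul, norm_mul, RCLike.norm_conj, Complex.norm_real,
                Real.norm_of_nonneg (Selberg.wt_nonneg R n)]
              have h5 := DirichletCharacter.norm_le_one i.2 (n : ZMod i.1)
              have h6 := Selberg.wt_nonneg R n
              have h7 := norm_nonneg (i.2 (n : ZMod i.1))
              calc Selberg.wt R n * (‖i.2 (n : ZMod i.1)‖ * ‖i.2 (n : ZMod i.1)‖)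
                  ≤ Selberg.wt R n * (1 * 1) := by gcongr
                _ = Selberg.wt R n := by ring
          _ ≤ W := sum_wt_int_le hR Z Y
      calc ‖c i‖ * ‖c i‖ * _ ≤ ‖c i‖ * ‖c i‖ * W := by gcongr
        _ ≤ W * ‖c i‖ ^ 2 + M * (‖c i‖ * ‖c i‖) := by nlinarith
    · rw [if_neg hij, zero_add]
      obtain ⟨hi1, hi2, hi3⟩ := hS i hi
      obtain ⟨hj1, hj2, hj3⟩ := hS j hj
      have : NeZero i.1 := ⟨by omega⟩
      have : NeZero j.1 := ⟨by omega⟩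
      have h4 : ‖∑ n ∈ Ioc Z (Z + Y), (Selberg.wt R n : ℂ) * (i.2 (n : ZMod i.1) * conj (j.2 (n : ZMod j.1)))‖ ≤ M := by
        refine sum_wt_mul_int_le hR _ _ (2 * (Q : ℝ) ^ 2) ?_
        intro E hE
        refine (norm_sum_mult_int_le hi3 hj3 hij Z Y E hE).trans ?_
        push_cast
        rw [sq]
        gcongr
      calc ‖c i‖ * ‖c j‖ * _ ≤ ‖c i‖ * ‖c j‖ * M := by gcongr
        _ = M * (‖c i‖ * ‖c j‖) := by ring
  have h4 : ∑ n ∈ Ioc Z (Z + Y), Selberg.wt R n * ‖∑ j ∈ S, c j * j.2 (n : ZMod j.1)‖ ^ 2 ≤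
      ∑ i ∈ S, ∑ j ∈ S, ((if i = j then W * ‖c i‖ ^ 2 else 0) + M * (‖c i‖ * ‖c j‖)) := by
    rw [← Real.norm_of_nonneg hnn, ← Complex.norm_real, h2]
    refine norm_sum_le_of_le _ fun i hi => ?_
    exact norm_sum_le_of_le _ fun j hj => h3 i hi j hj
  refine h4.trans ?_
  have h5 : ∑ i ∈ S, ∑ j ∈ S, ((if i = j then W * ‖c i‖ ^ 2 else 0) + M * (‖c i‖ * ‖c j‖)) =
      W * ∑ i ∈ S, ‖c i‖ ^ 2 + M * (∑ i ∈ S, ‖c i‖) ^ 2 := by
    rw [sq (∑ i ∈ S, ‖c i‖), Finset.sum_mul_sum, Finset.mul_sum, Finset.mul_sum,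
      ← Finset.sum_add_distrib]
    refine Finset.sum_congr rfl fun i hi => ?_
    rw [Finset.sum_add_distrib, Finset.sum_ite_eq S i, if_pos hi, ← Finset.mul_sum]
  rw [h5]
  have h6 : (∑ i ∈ S, ‖c i‖) ^ 2 ≤ (S.card : ℝ) * ∑ i ∈ S, ‖c i‖ ^ 2 :=
    sq_sum_le_card_mul_sum_sq
  have h7 := card_chars Q S (fun j hj => ⟨(hS j hj).1, (hS j hj).2.1⟩)
  have h8 : 0 ≤ ∑ i ∈ S, ‖c i‖ ^ 2 := Finset.sum_nonneg fun _ _ => by positivity
  calc W * ∑ i ∈ S, ‖c i‖ ^ 2 + M * (∑ i ∈ S, ‖c i‖) ^ 2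
      ≤ W * ∑ i ∈ S, ‖c i‖ ^ 2 + M * ((Q : ℝ) ^ 2 * ∑ i ∈ S, ‖c i‖ ^ 2) := by
        gcongr
        exact h6.trans (by gcongr)
    _ = _ := by
        rw [hM]
        ring

/-- **The large sieve for primes in an interval.** -/
theorem prime_large_sieve_int {R : ℕ} (hR : 1 ≤ R) (Z Y Q : ℕ)
    (S : Finset (Σ q : ℕ, DirichletCharacter ℂ q))
    (hS : ∀ j ∈ S, 1 ≤ j.1 ∧ j.1 ≤ Q ∧ j.2.IsPrimitive) (P : Finset ℕ)
    (hP : ∀ p ∈ P, p.Prime ∧ R < p ∧ p ∈ Ioc Z (Z + Y)) (a : ℕ → ℂ) :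
    ∑ j ∈ S, ‖∑ p ∈ P, a p * j.2 (p : ZMod j.1)‖ ^ 2 ≤
      (Y / Selberg.L R + (R : ℝ) ^ 4 + 2 * ((Q : ℝ) ^ 4 * (R : ℝ) ^ 4)) * ∑ p ∈ P, ‖a p‖ ^ 2 := by
  set Δ : ℝ := Y / Selberg.L R + (R : ℝ) ^ 4 + 2 * ((Q : ℝ) ^ 4 * (R : ℝ) ^ 4) with hΔ
  have hΔ0 : 0 ≤ Δ := by
    have := Selberg.L_pos hR
    positivity
  set T : (Σ q : ℕ, DirichletCharacter ℂ q) → ℂ := fun j => ∑ p ∈ P, a p * j.2 (p : ZMod j.1) with hT
  set A : ℝ := ∑ p ∈ P, ‖a p‖ ^ 2 with hA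
  set B : ℝ := ∑ j ∈ S, ‖T j‖ ^ 2 with hB
  have hA0 : 0 ≤ A := Finset.sum_nonneg fun _ _ => by positivity
  have hB0 : 0 ≤ B := Finset.sum_nonneg fun _ _ => by positivity
  have h1 : ((B : ℝ) : ℂ) = ∑ p ∈ P, a p * ∑ j ∈ S, conj (T j) * j.2 (p : ZMod j.1) := by
    rw [hB]
    push_cast
    have h2 : ∀ j ∈ S, (‖T j‖ : ℂ) ^ 2 = ∑ p ∈ P, a p * (conj (T j) * j.2 (p : ZMod j.1)) := by
      intro j _
      rw [← Complex.conj_mul', hT]
      simp only
      rw [Finset.mul_sum]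
      refine Finset.sum_congr rfl fun p _ => ?_
      ring
    rw [Finset.sum_congr rfl h2, Finset.sum_comm]
    refine Finset.sum_congr rfl fun p _ => ?_
    rw [Finset.mul_sum]
  have h2 : B ≤ ∑ p ∈ P, ‖a p‖ * ‖∑ j ∈ S, conj (T j) * j.2 (p : ZMod j.1)‖ := by
    rw [← Real.norm_of_nonneg hB0, ← Complex.norm_real, h1]
    refine norm_sum_le_of_le _ fun p _ => ?_
    rw [norm_mul]
  have h3 : (∑ p ∈ P, ‖a p‖ * ‖∑ j ∈ S, conj (T j) * j.2 (p : ZMod j.1)‖) ^ 2 ≤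
      A * ∑ p ∈ P, ‖∑ j ∈ S, conj (T j) * j.2 (p : ZMod j.1)‖ ^ 2 :=
    Finset.sum_mul_sq_le_sq_mul_sq _ _ _
  have h4 := dual_form_int hR Z Y Q S hS (fun j => conj (T j)) P hP
  have h5 : ∑ j ∈ S, ‖conj (T j)‖ ^ 2 = B := by
    simp only [RCLike.norm_conj, hB]
  rw [h5] at h4
  have h6 : B ^ 2 ≤ A * (Δ * B) := by
    calc B ^ 2 ≤ (∑ p ∈ P, ‖a p‖ * ‖∑ j ∈ S, conj (T j) * j.2 (p : ZMod j.1)‖) ^ 2 := by
          gcongr
      _ ≤ A * ∑ p ∈ P, ‖∑ j ∈ S, conj (T j) * j.2 (p : ZMod j.1)‖ ^ 2 := h3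
      _ ≤ A * (Δ * B) := by gcongr
  rcases hB0.eq_or_lt with h | h
  · rw [← h]
    positivity
  · have : B * B ≤ (Δ * A) * B := by nlinarith
    exact le_of_mul_le_mul_right this h

/-- The number of primes in an interval. -/
theorem card_primes_int {R : ℕ} (hR : 1 ≤ R) (Z Y : ℕ) (P : Finset ℕ)
    (hP : ∀ p ∈ P, p.Prime ∧ R < p ∧ p ∈ Ioc Z (Z + Y)) :
    (P.card : ℝ) ≤ Y / Selberg.L R + (R : ℝ) ^ 4 := by
  calc (P.card : ℝ) = ∑ p ∈ P, Selberg.wt R p := by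
        rw [Finset.sum_congr rfl fun p hp => Selberg.wt_prime hR (hP p hp).1 (hP p hp).2.1]
        simp
    _ ≤ ∑ n ∈ Ioc Z (Z + Y), Selberg.wt R n := by
        apply Finset.sum_le_sum_of_subset_of_nonneg
        · intro p hp
          exact (hP p hp).2.2
        · intro n _ _
          exact Selberg.wt_nonneg R n
    _ ≤ _ := sum_wt_int_le hR Z Y

/-- The number of `f`-th powers in an interval. -/
theorem card_powers_int (Z Y f : ℕ) (hf : 2 ≤ f) (A : Finset ℕ)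
    (hA : ∀ p ∈ A, Z < p ^ f ∧ p ^ f ≤ Z + Y) : A.card ≤ Nat.sqrt Y + 1 := by
  rcases A.eq_empty_or_nonempty with h | h
  · rw [h]
    simp
  · have hsub : A ⊆ Icc (A.min' h) (A.min' h + Nat.sqrt Y) := by
      intro p hp
      have h1 := A.min'_le p hp
      rw [Finset.mem_Icc]
      refine ⟨h1, ?_⟩
      obtain ⟨t, ht⟩ := Nat.exists_eq_add_of_le h1
      have h2 := hA _ (A.min'_mem h)
      have h3 := hA p hp
      rw [ht] at h3 ⊢
      gcongr
      rw [Nat.le_sqrt']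
      rcases Nat.eq_zero_or_pos t with h0 | h0
      · rw [h0]
        simp
      · have h4 : (A.min' h) ^ f + t ^ f ≤ (A.min' h + t) ^ f :=
          pow_add_pow_le (Nat.zero_le _) (Nat.zero_le _) (by omega)
        have h5 : t ^ 2 ≤ t ^ f := Nat.pow_le_pow_right h0 hf
        omega
    have h1 := Finset.card_le_card hsub
    rw [Nat.card_Icc] at h1
    omega

end sieve

universe u

section field

open NumberField IsDedekindDomain

variable {K : Type u} [Field K] [NumberField K]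

theorem exp_le (v : HeightOneSpectrum (𝓞 K)) {p f : ℕ} (hp : p.Prime)
    (h1 : qv v = p ^ f) (h2 : (p : 𝓞 K) ∈ v.asIdeal) : f ≤ Module.finrank ℚ K := by
  have h3 : v.asIdeal ∣ Ideal.span {(p : 𝓞 K)} := by
    rw [Ideal.dvd_span_singleton]
    exact h2
  have h4 := Ideal.absNorm_dvd_absNorm_of_le (Ideal.le_of_dvd h3)
  have h5 : Ideal.absNorm (Ideal.span {(p : 𝓞 K)}) = p ^ Module.finrank ℚ K := by
    rw [Ideal.absNorm_span_natCast, RingOfIntegers.rank]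
  rw [h5] at h4
  have h6 : p ^ f ∣ p ^ Module.finrank ℚ K := h1 ▸ h4
  exact (Nat.pow_dvd_pow_iff_le_right hp.one_lt).1 h6

open Classical in
/-- The number of primes of composite norm in an interval. -/
theorem card_higher_int (Z Y : ℕ) :
    ((primesLE K (Z + Y)).filter (fun v => ¬ (qv v).Prime ∧ Z < qv v)).card ≤
      Module.finrank ℚ K * (Module.finrank ℚ K * (Nat.sqrt Y + 1)) := by
  have hex : ∀ v : HeightOneSpectrum (𝓞 K), ∃ p : ℕ, p.Prime ∧ (p : 𝓞 K) ∈ v.asIdeal ∧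
      ∃ f, 1 ≤ f ∧ qv v = p ^ f := by
    intro v
    obtain ⟨p, f, hp, hf, h, h'⟩ := qv_prime_pow v
    exact ⟨p, hp, h', f, hf, h⟩
  choose pv hpv hpv' fv hfv hqv using hex
  set T := (primesLE K (Z + Y)).filter (fun v => ¬ (qv v).Prime ∧ Z < qv v) with hT
  have hmem : ∀ v ∈ T, qv v ≤ Z + Y ∧ ¬ (qv v).Prime ∧ Z < qv v := by
    intro v hv
    rw [hT, Finset.mem_filter, mem_primesLE] at hv
    exact hv
  have hmaps : ∀ v ∈ T, fv v ∈ Finset.Icc 2 (Module.finrank ℚ K) := by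
    intro v hv
    rw [Finset.mem_Icc]
    refine ⟨?_, exp_le v (hpv v) (hqv v) (hpv' v)⟩
    by_contra hlt
    have h1 : fv v = 1 := by
      have := hfv v
      omega
    have h2 := hqv v
    rw [h1, pow_one] at h2
    exact (hmem v hv).2.1 (h2 ▸ hpv v)
  rw [Finset.card_eq_sum_card_fiberwise hmaps]
  calc ∑ f ∈ Finset.Icc 2 (Module.finrank ℚ K), (T.filter (fun v => fv v = f)).card
      ≤ ∑ _f ∈ Finset.Icc 2 (Module.finrank ℚ K), Module.finrank ℚ K * (Nat.sqrt Y + 1) := by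
        refine Finset.sum_le_sum fun f hf => ?_
        have hf2 : 2 ≤ f := (Finset.mem_Icc.1 hf).1
        have hA : ((T.filter (fun v => fv v = f)).image pv).card ≤ Nat.sqrt Y + 1 := by
          apply card_powers_int Z Y f hf2
          intro p hp
          obtain ⟨v, hv, rfl⟩ := Finset.mem_image.1 hp
          rw [Finset.mem_filter] at hv
          obtain ⟨h1, _, h3⟩ := hmem v hv.1
          have h4 := hqv v
          rw [hv.2] at h4
          rw [← h4]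
          exact ⟨h3, h1⟩
        have hmaps2 : ∀ v ∈ T.filter (fun v => fv v = f),
            pv v ∈ (T.filter (fun v => fv v = f)).image pv := fun v hv =>
          Finset.mem_image_of_mem _ hv
        rw [Finset.card_eq_sum_card_fiberwise hmaps2]
        calc ∑ p ∈ (T.filter (fun v => fv v = f)).image pv,
              ((T.filter (fun v => fv v = f)).filter (fun v => pv v = p)).card
            ≤ ∑ _p ∈ (T.filter (fun v => fv v = f)).image pv, Module.finrank ℚ K := by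
              refine Finset.sum_le_sum fun p hp => ?_
              obtain ⟨v, _, rfl⟩ := Finset.mem_image.1 hp
              apply card_above (pv v) (hpv v)
              intro w hw
              rw [← (Finset.mem_filter.1 hw).2]
              exact hpv' w
          _ = ((T.filter (fun v => fv v = f)).image pv).card * Module.finrank ℚ K := by
              rw [Finset.sum_const, smul_eq_mul]
          _ ≤ (Nat.sqrt Y + 1) * Module.finrank ℚ K := Nat.mul_le_mul_right _ hA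
          _ = Module.finrank ℚ K * (Nat.sqrt Y + 1) := Nat.mul_comm _ _
    _ = (Finset.Icc 2 (Module.finrank ℚ K)).card * (Module.finrank ℚ K * (Nat.sqrt Y + 1)) := by
        rw [Finset.sum_const, smul_eq_mul]
    _ ≤ Module.finrank ℚ K * (Module.finrank ℚ K * (Nat.sqrt Y + 1)) := by
        apply Nat.mul_le_mul_right
        rw [Nat.card_Icc]
        omega

open Classical in
theorem sum_prime_eq (X : ℕ) (G : Finset (HeightOneSpectrum (𝓞 K)))
    (hG : ∀ v ∈ G, qv v ≤ X) (F : HeightOneSpectrum (𝓞 K) → ℂ)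
    (j : Σ q : ℕ, DirichletCharacter ℂ q) :
    ∑ v ∈ G.filter (fun v => (qv v).Prime), j.2 (qv v : ZMod j.1) * F v =
      PS (coef G F) j X := by
  unfold PS
  have hmaps : ∀ v ∈ G.filter (fun v => (qv v).Prime),
      qv v ∈ (Finset.range (X + 1)).filter Nat.Prime := by
    intro v hv
    rw [Finset.mem_filter] at hv
    rw [Finset.mem_filter, Finset.mem_range]
    have := hG v hv.1
    exact ⟨by omega, hv.2⟩
  rw [← Finset.sum_fiberwise_of_maps_to hmaps]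
  refine Finset.sum_congr rfl fun p hp => ?_
  have hpp : p.Prime := (Finset.mem_filter.1 hp).2
  unfold coef
  rw [if_pos hpp, Finset.sum_mul]
  have h3 : (G.filter (fun v => (qv v).Prime)).filter (fun v => qv v = p) =
      G.filter (fun v => qv v = p) := by
    ext v
    simp only [Finset.mem_filter]
    constructor
    · rintro ⟨⟨h, _⟩, h'⟩
      exact ⟨h, h'⟩
    · rintro ⟨h, h'⟩
      exact ⟨⟨h, h' ▸ hpp⟩, h'⟩
  rw [h3]
  refine Finset.sum_congr rfl fun v hv => ?_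
  rw [(Finset.mem_filter.1 hv).2, mul_comm]

open Classical in
/-- **All twists in one interval.** -/
theorem every_interval (good : HeightOneSpectrum (𝓞 K) → Prop) (F : HeightOneSpectrum (𝓞 K) → ℂ)
    (hF : ∀ v, ‖F v‖ ≤ 1) (Z Y : ℕ) (hY : 2 ≤ Y) (S : Finset (Σ q : ℕ, DirichletCharacter ℂ q))
    (hS : ∀ j ∈ S, 1 ≤ j.1 ∧ j.1 ^ 6 ≤ Y ∧ j.2.IsPrimitive) :
    ∑ j ∈ S, ‖∑ v ∈ (primesLE K (Z + Y)).filter (fun v => good v ∧ Z < qv v),
        j.2 (qv v : ZMod j.1) * F v‖ ^ 2 ≤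
      7500 * (Module.finrank ℚ K : ℝ) ^ 4 * (Y / Real.log Y) ^ 2 := by
  have hX1 : (1 : ℝ) < Y := by exact_mod_cast (by omega : 1 < Y)
  have hX0 : (0 : ℝ) < Y := by linarith
  have hlog : 0 < Real.log Y := Real.log_pos hX1
  set m : ℝ := (Module.finrank ℚ K : ℝ) with hm
  have hm1 : 1 ≤ m := by
    rw [hm]
    exact_mod_cast (Module.finrank_pos (R := ℚ) (M := K))
  have hm0 : 0 ≤ m := Nat.cast_nonneg _
  set W : ℝ := Y / Real.log Y with hW
  have hW0 : 0 < W := by positivity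
  -- the parameters
  set Q : ℕ := ⌊(Y : ℝ) ^ ((1 : ℝ) / 6)⌋₊ with hQ
  set R : ℕ := ⌊(Y : ℝ) ^ ((1 : ℝ) / 24)⌋₊ with hR
  have hR1 : 1 ≤ R := by
    rw [hR, Nat.one_le_floor_iff]
    exact Real.one_le_rpow hX1.le (by norm_num)
  have hRle : (R : ℝ) ≤ (Y : ℝ) ^ ((1 : ℝ) / 24) := Nat.floor_le (by positivity)
  have hQle : (Q : ℝ) ≤ (Y : ℝ) ^ ((1 : ℝ) / 6) := Nat.floor_le (by positivity)
  have hRlog : Real.log Y / 48 ≤ Selberg.L R := by
    refine le_trans ?_ (Selberg.L_ge R)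
    have h1 : (Y : ℝ) ^ ((1 : ℝ) / 24) < R + 1 := Nat.lt_floor_add_one _
    have h2 : Real.log ((Y : ℝ) ^ ((1 : ℝ) / 24)) ≤ Real.log (R + 1) :=
      Real.log_le_log (by positivity) h1.le
    rw [Real.log_rpow hX0] at h2
    linarith
  have hS' : ∀ j ∈ S, 1 ≤ j.1 ∧ j.1 ≤ Q ∧ j.2.IsPrimitive := by
    intro j hj
    obtain ⟨h1, h2, h3⟩ := hS j hj
    refine ⟨h1, ?_, h3⟩
    rw [hQ]
    apply Nat.le_floor
    have h4 : ((j.1 : ℝ)) ^ (6 : ℕ) ≤ Y := by exact_mod_cast h2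
    calc (j.1 : ℝ) = ((j.1 : ℝ) ^ (6 : ℕ)) ^ ((1 : ℝ) / 6) := by
          rw [← Real.rpow_natCast, ← Real.rpow_mul (by positivity)]
          norm_num
      _ ≤ _ := by gcongr
  set P : Finset ℕ := ((Finset.range (Z + Y + 1)).filter Nat.Prime).filter
    (fun p => R < p ∧ Z < p) with hP
  have hP' : ∀ p ∈ P, p.Prime ∧ R < p ∧ p ∈ Finset.Ioc Z (Z + Y) := by
    intro p hp
    rw [hP, Finset.mem_filter, Finset.mem_filter, Finset.mem_range] at hp
    exact ⟨hp.1.2, hp.2.1, Finset.mem_Ioc.2 ⟨hp.2.2, by omega⟩⟩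
  set G := (primesLE K (Z + Y)).filter (fun v => good v ∧ Z < qv v) with hG
  set b : ℕ → ℂ := coef G F with hb
  have hbm : ∀ p, ‖b p‖ ≤ m := norm_coef_le _ F hF
  have hb0 : ∀ p, p ≤ Z → b p = 0 := by
    intro p hp
    rw [hb]
    unfold coef
    split_ifs with h
    · have h1 : G.filter (fun v => qv v = p) = ∅ := by
        rw [Finset.filter_eq_empty_iff]
        intro v hv
        rw [hG, Finset.mem_filter] at hv
        have := hv.2.2
        omega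
      rw [h1, Finset.sum_empty]
    · rfl
  have hLS := prime_large_sieve_int hR1 Z Y Q S hS' P hP' b
  -- the size of `Δ`
  have hpow : ∀ (s t : ℝ), (Y : ℝ) ^ s * (Y : ℝ) ^ t = (Y : ℝ) ^ (s + t) := fun s t =>
    (Real.rpow_add hX0 s t).symm
  have hR4 : (R : ℝ) ^ 4 ≤ (Y : ℝ) ^ ((1 : ℝ) / 6) := by
    calc (R : ℝ) ^ 4 ≤ ((Y : ℝ) ^ ((1 : ℝ) / 24)) ^ 4 := by gcongr
      _ = _ := by
        rw [← Real.rpow_natCast, ← Real.rpow_mul hX0.le]
        norm_num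
  have hQ4 : (Q : ℝ) ^ 4 ≤ (Y : ℝ) ^ ((2 : ℝ) / 3) := by
    calc (Q : ℝ) ^ 4 ≤ ((Y : ℝ) ^ ((1 : ℝ) / 6)) ^ 4 := by gcongr
      _ = _ := by
        rw [← Real.rpow_natCast, ← Real.rpow_mul hX0.le]
        norm_num
  have hX56 : (Y : ℝ) ^ ((5 : ℝ) / 6) ≤ 6 * W := by
    rw [hW, ← mul_div_assoc, le_div_iff₀ hlog]
    have h1 := log_le Y hX1.le 6 (by norm_num)
    have h2 : (Y : ℝ) ^ ((5 : ℝ) / 6) * (Y : ℝ) ^ ((1 : ℝ) / 6) = Y := by
      rw [hpow]
      norm_num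
    push_cast at h1
    have h3 : 0 ≤ (Y : ℝ) ^ ((5 : ℝ) / 6) := by positivity
    calc (Y : ℝ) ^ ((5 : ℝ) / 6) * Real.log Y ≤ (Y : ℝ) ^ ((5 : ℝ) / 6) * (6 * (Y : ℝ) ^ ((1 : ℝ) / 6)) := by
          gcongr
      _ = 6 * ((Y : ℝ) ^ ((5 : ℝ) / 6) * (Y : ℝ) ^ ((1 : ℝ) / 6)) := by ring
      _ = 6 * Y := by rw [h2]
  have hYL : Y / Selberg.L R ≤ 48 * W := by
    have h2 : (0 : ℝ) < Real.log Y / 48 := by positivity
    calc Y / Selberg.L R ≤ Y / (Real.log Y / 48) := by gcongr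
      _ = 48 * W := by
        rw [hW]
        field_simp
  have hR4W : (R : ℝ) ^ 4 ≤ 6 * W := by
    refine hR4.trans (le_trans ?_ hX56)
    apply Real.rpow_le_rpow_of_exponent_le hX1.le
    norm_num
  have hΔ : Y / Selberg.L R + (R : ℝ) ^ 4 + 2 * ((Q : ℝ) ^ 4 * (R : ℝ) ^ 4) ≤ 66 * W := by
    have h3 : (Q : ℝ) ^ 4 * (R : ℝ) ^ 4 ≤ 6 * W := by
      calc (Q : ℝ) ^ 4 * (R : ℝ) ^ 4 ≤ (Y : ℝ) ^ ((2 : ℝ) / 3) * (Y : ℝ) ^ ((1 : ℝ) / 6) := by gcongr
        _ = (Y : ℝ) ^ ((5 : ℝ) / 6) := by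
          rw [hpow]
          norm_num
        _ ≤ _ := hX56
    linarith
  have hPsum : ∑ p ∈ P, ‖b p‖ ^ 2 ≤ m ^ 2 * (54 * W) := by
    calc ∑ p ∈ P, ‖b p‖ ^ 2 ≤ ∑ p ∈ P, m ^ 2 := by
          refine Finset.sum_le_sum fun p _ => ?_
          have := hbm p
          gcongr
      _ = m ^ 2 * P.card := by
          rw [Finset.sum_const, nsmul_eq_mul, mul_comm]
      _ ≤ m ^ 2 * (54 * W) := by
          gcongr
          have := card_primes_int hR1 Z Y P hP'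
          linarith
  have hLS' : ∑ j ∈ S, ‖∑ p ∈ P, b p * j.2 (p : ZMod j.1)‖ ^ 2 ≤ 3564 * m ^ 2 * W ^ 2 := by
    refine hLS.trans ?_
    calc _ ≤ (66 * W) * (m ^ 2 * (54 * W)) := by
          apply mul_le_mul hΔ hPsum (Finset.sum_nonneg fun _ _ => by positivity) (by positivity)
      _ = _ := by ring
  have hsq1 : (1 : ℝ) ≤ Real.sqrt Y := by
    rw [Real.one_le_sqrt]
    exact hX1.le
  -- one character
  have hone : ∀ j ∈ S, ‖∑ v ∈ G, j.2 (qv v : ZMod j.1) * F v‖ ^ 2 ≤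
      2 * ‖∑ p ∈ P, b p * j.2 (p : ZMod j.1)‖ ^ 2 + 18 * m ^ 4 * Y := by
    intro j _
    have h1 : ∑ v ∈ G, j.2 (qv v : ZMod j.1) * F v =
        ∑ v ∈ G.filter (fun v => (qv v).Prime), j.2 (qv v : ZMod j.1) * F v +
        ∑ v ∈ G.filter (fun v => ¬ (qv v).Prime), j.2 (qv v : ZMod j.1) * F v :=
      (Finset.sum_filter_add_sum_filter_not _ _ _).symm
    have hGle : ∀ v ∈ G, qv v ≤ Z + Y := by
      intro v hv
      rw [hG, Finset.mem_filter, mem_primesLE] at hv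
      exact hv.1
    rw [sum_prime_eq (Z + Y) G hGle F j] at h1
    have h2 : ‖∑ v ∈ G.filter (fun v => ¬ (qv v).Prime), j.2 (qv v : ZMod j.1) * F v‖ ≤
        2 * m ^ 2 * Real.sqrt Y := by
      calc ‖∑ v ∈ G.filter (fun v => ¬ (qv v).Prime), j.2 (qv v : ZMod j.1) * F v‖
          ≤ ∑ v ∈ G.filter (fun v => ¬ (qv v).Prime), (1 : ℝ) := by
            refine norm_sum_le_of_le _ fun v _ => ?_
            rw [norm_mul]
            calc ‖j.2 (qv v : ZMod j.1)‖ * ‖F v‖ ≤ 1 * 1 := by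
                  gcongr
                  · exact DirichletCharacter.norm_le_one j.2 _
                  · exact hF v
              _ = 1 := one_mul _
        _ = ((G.filter (fun v => ¬ (qv v).Prime)).card : ℝ) := by simp
        _ ≤ ((((primesLE K (Z + Y)).filter (fun v => ¬ (qv v).Prime ∧ Z < qv v)).card : ℕ) : ℝ) := by
            have hsub : G.filter (fun v => ¬ (qv v).Prime) ⊆
                (primesLE K (Z + Y)).filter (fun v => ¬ (qv v).Prime ∧ Z < qv v) := by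
              intro v hv
              rw [Finset.mem_filter, hG, Finset.mem_filter] at hv
              rw [Finset.mem_filter]
              exact ⟨hv.1.1, hv.2, hv.1.2.2⟩
            exact_mod_cast Finset.card_le_card hsub
        _ ≤ m * (m * (Nat.sqrt Y + 1)) := by
            have := card_higher_int (K := K) Z Y
            rw [hm]
            exact_mod_cast this
        _ ≤ m * (m * (Real.sqrt Y + Real.sqrt Y)) := by
            gcongr
            exact Real.nat_sqrt_le_real_sqrt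
        _ = 2 * m ^ 2 * Real.sqrt Y := by ring
    have h3 : ‖PS b j (Z + Y)‖ ≤ ‖∑ p ∈ P, b p * j.2 (p : ZMod j.1)‖ + m * Real.sqrt Y := by
      unfold PS
      have h3 : ∑ p ∈ (Finset.range (Z + Y + 1)).filter Nat.Prime, b p * j.2 (p : ZMod j.1) =
          ∑ p ∈ P, b p * j.2 (p : ZMod j.1) +
          ∑ p ∈ ((Finset.range (Z + Y + 1)).filter Nat.Prime).filter (fun p => ¬ (R < p ∧ Z < p)),
            b p * j.2 (p : ZMod j.1) :=
        (Finset.sum_filter_add_sum_filter_not _ _ _).symm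
      have h4 : ∑ p ∈ ((Finset.range (Z + Y + 1)).filter Nat.Prime).filter
            (fun p => ¬ (R < p ∧ Z < p)), b p * j.2 (p : ZMod j.1) =
          ∑ p ∈ (((Finset.range (Z + Y + 1)).filter Nat.Prime).filter
            (fun p => ¬ (R < p ∧ Z < p))).filter (fun p => Z < p), b p * j.2 (p : ZMod j.1) := by
        symm
        apply Finset.sum_filter_of_ne
        intro p _ hne
        by_contra hle
        exact hne (by rw [hb0 p (by omega), zero_mul])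
      rw [h3, h4]
      refine (norm_add_le _ _).trans ?_
      gcongr
      set N := (((Finset.range (Z + Y + 1)).filter Nat.Prime).filter
            (fun p => ¬ (R < p ∧ Z < p))).filter (fun p => Z < p) with hN
      calc ‖∑ p ∈ N, b p * j.2 (p : ZMod j.1)‖
          ≤ ∑ p ∈ N, m := by
            refine norm_sum_le_of_le _ fun p _ => ?_
            rw [norm_mul]
            calc ‖b p‖ * ‖j.2 (p : ZMod j.1)‖ ≤ m * 1 := by
                  gcongr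
                  · exact hbm p
                  · exact DirichletCharacter.norm_le_one j.2 _
              _ = m := mul_one _
        _ = m * (N.card : ℝ) := by
            rw [Finset.sum_const, nsmul_eq_mul, mul_comm]
        _ ≤ m * R := by
            gcongr
            have h4 : N ⊆ Finset.Icc 1 R := by
              intro p hp
              rw [hN, Finset.mem_filter, Finset.mem_filter, Finset.mem_filter] at hp
              rw [Finset.mem_Icc]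
              refine ⟨hp.1.1.2.one_lt.le, ?_⟩
              by_contra hlt
              exact hp.1.2 ⟨by omega, hp.2⟩
            have h5 := Finset.card_le_card h4
            rw [Nat.card_Icc] at h5
            simpa using h5
        _ ≤ m * Real.sqrt Y := by
            gcongr
            refine hRle.trans ?_
            rw [Real.sqrt_eq_rpow]
            apply Real.rpow_le_rpow_of_exponent_le hX1.le
            norm_num
    have h4 : ‖∑ v ∈ G, j.2 (qv v : ZMod j.1) * F v‖ ≤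
        ‖∑ p ∈ P, b p * j.2 (p : ZMod j.1)‖ + 3 * m ^ 2 * Real.sqrt Y := by
      rw [h1]
      refine (norm_add_le _ _).trans ?_
      have h5 : m * Real.sqrt Y ≤ m ^ 2 * Real.sqrt Y := by
        gcongr
        nlinarith
      linarith
    have h5 : Real.sqrt Y ^ 2 = Y := Real.sq_sqrt hX0.le
    set t : ℝ := ‖∑ p ∈ P, b p * j.2 (p : ZMod j.1)‖ with ht
    have ht0 : 0 ≤ t := norm_nonneg _
    have h6 : ‖∑ v ∈ G, j.2 (qv v : ZMod j.1) * F v‖ ^ 2 ≤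
        (t + 3 * m ^ 2 * Real.sqrt Y) ^ 2 := by
      gcongr
    refine h6.trans ?_
    have h7 : 2 * t ^ 2 + 18 * m ^ 4 * Y - (t + 3 * m ^ 2 * Real.sqrt Y) ^ 2 =
        (t - 3 * m ^ 2 * Real.sqrt Y) ^ 2 + 18 * m ^ 4 * (Y - Real.sqrt Y ^ 2) := by ring
    rw [h5, sub_self, mul_zero, add_zero] at h7
    have h8 := sq_nonneg (t - 3 * m ^ 2 * Real.sqrt Y)
    linarith
  have hcard : (S.card : ℝ) ≤ (Y : ℝ) ^ ((1 : ℝ) / 3) := by
    have h1 := card_chars Q S (fun j hj => ⟨(hS' j hj).1, (hS' j hj).2.1⟩)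
    refine h1.trans ?_
    calc (Q : ℝ) ^ 2 ≤ ((Y : ℝ) ^ ((1 : ℝ) / 6)) ^ 2 := by gcongr
      _ = _ := by
        rw [← Real.rpow_natCast, ← Real.rpow_mul hX0.le]
        norm_num
  have hX43 : (Y : ℝ) ^ ((1 : ℝ) / 3) * Y ≤ 9 * W ^ 2 := by
    have h1 := log_le Y hX1.le 3 (by norm_num)
    push_cast at h1
    have h2 : Real.log Y ^ 2 ≤ 9 * ((Y : ℝ) ^ ((1 : ℝ) / 3) * (Y : ℝ) ^ ((1 : ℝ) / 3)) := by
      nlinarith
    rw [hpow] at h2
    rw [hW, div_pow, ← mul_div_assoc, le_div_iff₀ (by positivity)]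
    have h3 : (Y : ℝ) ^ ((1 : ℝ) / 3) * (Y : ℝ) ^ ((1 : ℝ) / 3 + (1 : ℝ) / 3) = Y := by
      rw [hpow]
      norm_num
    calc (Y : ℝ) ^ ((1 : ℝ) / 3) * Y * Real.log Y ^ 2
        ≤ (Y : ℝ) ^ ((1 : ℝ) / 3) * Y * (9 * (Y : ℝ) ^ ((1 : ℝ) / 3 + (1 : ℝ) / 3)) := by gcongr
      _ = 9 * Y * ((Y : ℝ) ^ ((1 : ℝ) / 3) * (Y : ℝ) ^ ((1 : ℝ) / 3 + (1 : ℝ) / 3)) := by ring
      _ = 9 * Y ^ 2 := by
        rw [h3]
        ring
  have hmm : m ^ 2 ≤ m ^ 4 := by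
    have : (1 : ℝ) ≤ m ^ 2 := by nlinarith
    nlinarith
  calc ∑ j ∈ S, ‖∑ v ∈ G, j.2 (qv v : ZMod j.1) * F v‖ ^ 2
      ≤ ∑ j ∈ S, (2 * ‖∑ p ∈ P, b p * j.2 (p : ZMod j.1)‖ ^ 2 + 18 * m ^ 4 * Y) :=
        Finset.sum_le_sum hone
    _ = 2 * ∑ j ∈ S, ‖∑ p ∈ P, b p * j.2 (p : ZMod j.1)‖ ^ 2 + S.card * (18 * m ^ 4 * Y) := by
        rw [Finset.sum_add_distrib, Finset.mul_sum, Finset.sum_const, nsmul_eq_mul]
    _ ≤ 2 * (3564 * m ^ 2 * W ^ 2) + (Y : ℝ) ^ ((1 : ℝ) / 3) * (18 * m ^ 4 * Y) := by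
        gcongr
    _ = 7128 * m ^ 2 * W ^ 2 + 18 * m ^ 4 * ((Y : ℝ) ^ ((1 : ℝ) / 3) * Y) := by ring
    _ ≤ 7128 * m ^ 4 * W ^ 2 + 18 * m ^ 4 * (9 * W ^ 2) := by gcongr
    _ = 7290 * (m ^ 4 * W ^ 2) := by ring
    _ ≤ 7500 * (m ^ 4 * W ^ 2) := by
        gcongr
        norm_num
    _ = 7500 * m ^ 4 * W ^ 2 := by ring

end field

end Pool.Agent.Helper4.ST
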