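import Pool.Agent.Helper4.ST.LS

set_option autoImplicit false

/-!
The exceptional set for sums `∑_{p ≤ X} b p χ(p)` over primes, `χ` primitive of conductor `≤ Q`.
-/

namespace Pool.Agent.Helper4.ST

open Finset Filter Topology

/-- The sum over primes. -/
noncomputable def PS (b : ℕ → ℂ) (j : Σ q : ℕ, DirichletCharacter ℂ q) (N : ℕ) : ℂ :=
  ∑ p ∈ (range (N + 1)).filter Nat.Prime, b p * j.2 (p : ZMod j.1)

/-- The bound at one scale. -/
theorem one_scale (Q N k : ℕ) (B T : ℝ) (hB : 0 ≤ B) (hT : 0 ≤ T)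
    (F : Finset (Σ q : ℕ, DirichletCharacter ℂ q))
    (hF : ∀ j ∈ F, 2 ≤ j.1 ∧ j.1 ≤ Q ∧ j.2.IsPrimitive)
    (b : ℕ → ℂ) (hb : ∀ m, ‖b m‖ ≤ B) (hbad : ∀ j ∈ F, T ≤ ‖PS b j N‖) :
    (F.card : ℝ) * T ^ (2 * k) ≤
      ((Q : ℝ) ^ 2 + 4 * Real.pi * ((N : ℝ) ^ k + 1)) * (B ^ (2 * k) * (k.factorial * (N : ℝ) ^ k)) := by
  have h1 := moment_bound_prim Q N k k.factorial B hB F hF ((range (N + 1)).filter Nat.Prime)
    (fun m hm => by
      rw [Finset.mem_filter, Finset.mem_range] at hm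
      omega) b hb
    (fun n => Pool.Agent.Helper8.ArtinLS.card_factorisations_prime k _ (fun m hm => (Finset.mem_filter.1 hm).2) n)
  have h2 : (F.card : ℝ) * T ^ (2 * k) ≤ ∑ j ∈ F, ‖PS b j N‖ ^ (2 * k) := by
    rw [← nsmul_eq_mul, ← Finset.sum_const]
    exact Finset.sum_le_sum fun j hj => pow_le_pow_left₀ hT (hbad j hj) _
  refine h2.trans (h1.trans ?_)
  have hcard : (((range (N + 1)).filter Nat.Prime).card : ℝ) ≤ N := by
    have : ((range (N + 1)).filter Nat.Prime).card ≤ N := by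
      calc ((range (N + 1)).filter Nat.Prime).card ≤ (Icc 1 N).card := by
            apply Finset.card_le_card
            intro p hp
            rw [Finset.mem_filter, Finset.mem_range] at hp
            rw [Finset.mem_Icc]
            exact ⟨hp.2.one_le, by omega⟩
        _ = N := by simp
    exact_mod_cast this
  have := Real.pi_pos
  gcongr

/-- Growth of the number of factorisations. -/
theorem key_growth (A κ c : ℝ) (hA : 0 < A) (hκ : 0 < κ) :
    ∀ᶠ L : ℝ in atTop, (1 + 2 * L / (A * Real.log L - Real.log 2)) * (Real.log L + c) ≤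
        (2 / A + κ) * L ∧
      1 + 2 * L / (A * Real.log L - Real.log 2) ≤ L ∧ 0 < A * Real.log L - Real.log 2 := by
  have hlog : Tendsto Real.log atTop atTop := Real.tendsto_log_atTop
  have hlL : Tendsto (fun L : ℝ => Real.log L / L) atTop (𝓝 0) := by
    have := Real.isLittleO_log_id_atTop
    exact this.tendsto_div_nhds_zero
  have hinv : Tendsto (fun L : ℝ => L⁻¹) atTop (𝓝 0) := tendsto_inv_atTop_zero
  have hinvlog : Tendsto (fun L : ℝ => (Real.log L)⁻¹) atTop (𝓝 0) := tendsto_inv_atTop_zero.comp hlog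
  -- the main limit
  have h1 : Tendsto (fun L : ℝ => (Real.log L / L + c * L⁻¹) +
      2 * ((1 + c * (Real.log L)⁻¹) / (A - Real.log 2 * (Real.log L)⁻¹))) atTop
      (𝓝 ((0 + c * 0) + 2 * ((1 + c * 0) / (A - Real.log 2 * 0)))) := by
    apply Tendsto.add
    · exact hlL.add (hinv.const_mul c)
    · apply Tendsto.const_mul
      apply Tendsto.div
      · exact (hinvlog.const_mul c).const_add 1
      · exact (hinvlog.const_mul (Real.log 2)).const_sub A
      · simp only [mul_zero, sub_zero]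
        exact hA.ne'
  have h2 : (0 + c * 0) + 2 * ((1 + c * 0) / (A - Real.log 2 * 0)) < 2 / A + κ := by
    simp only [mul_zero, add_zero, sub_zero, zero_add]
    rw [mul_one_div]
    linarith
  have h3 := h1.eventually_lt_const h2
  have h4 : ∀ᶠ L : ℝ in atTop, (Real.log 2 + 4) / A < Real.log L := hlog.eventually_gt_atTop _
  filter_upwards [h3, h4, eventually_gt_atTop 2] with L h3 h4 h5
  have hL : 0 < L := by linarith
  have hlg : 0 < Real.log L := Real.log_pos (by linarith)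
  have h6 : 4 < A * Real.log L - Real.log 2 := by
    rw [div_lt_iff₀ hA] at h4
    linarith
  refine ⟨?_, ?_, by linarith⟩
  · have h7 : (1 + 2 * L / (A * Real.log L - Real.log 2)) * (Real.log L + c) =
        ((Real.log L / L + c * L⁻¹) +
          2 * ((1 + c * (Real.log L)⁻¹) / (A - Real.log 2 * (Real.log L)⁻¹))) * L := by
      have h8 : A - Real.log 2 * (Real.log L)⁻¹ = (A * Real.log L - Real.log 2) / Real.log L := by
        field_simp
      rw [h8]
      have h9 : A * Real.log L - Real.log 2 ≠ 0 := by linarith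
      field_simp
    rw [h7]
    gcongr
  · have h7 : 2 * L / (A * Real.log L - Real.log 2) ≤ L / 2 := by
      rw [div_le_div_iff₀ (by linarith) (by norm_num)]
      nlinarith
    linarith

/-- The counting of factorisations against the size of `Q`. -/
theorem factorial_bound (A κ C : ℝ) (hA : 0 < A) (hκ : 0 < κ) (hC : 1 ≤ C) :
    ∀ᶠ Q : ℕ in atTop, ∀ N k : ℕ, Real.log Q ^ A / 2 ≤ (N : ℝ) → 2 ≤ N → 1 ≤ k →
      (N : ℝ) ^ (k - 1) < (Q : ℝ) ^ 2 →
      (k.factorial : ℝ) * C ^ k ≤ (Q : ℝ) ^ (2 / A + κ) := by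
  have hlog : Tendsto (fun Q : ℕ => Real.log (Q : ℝ)) atTop atTop :=
    Real.tendsto_log_atTop.comp tendsto_natCast_atTop_atTop
  filter_upwards [hlog.eventually (key_growth A κ (Real.log C) hA hκ),
    hlog.eventually_gt_atTop 1, eventually_gt_atTop 1] with Q h1 h2 h3 N k hN hN2 hk hNk
  obtain ⟨h4, h5, h6⟩ := h1
  set L := Real.log (Q : ℝ) with hL
  have hQ0 : (0 : ℝ) < Q := by
    have : 0 < Q := by omega
    exact_mod_cast this
  have hL0 : 0 < L := by linarith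
  have hN0 : (0 : ℝ) < N := by
    have : 0 < N := by omega
    exact_mod_cast this
  have hlC : 0 ≤ Real.log C := Real.log_nonneg hC
  -- the logarithm of `N`
  have h7 : A * Real.log L - Real.log 2 ≤ Real.log N := by
    have h8 : Real.log (L ^ A / 2) ≤ Real.log N :=
      Real.log_le_log (by positivity) hN
    rwa [Real.log_div (by positivity) (by norm_num), Real.log_rpow hL0] at h8
  -- the bound for `k`
  have h8 : ((k - 1 : ℕ) : ℝ) * Real.log N < 2 * L := by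
    have := Real.log_lt_log (by positivity) hNk
    rw [Real.log_pow, Real.log_pow] at this
    exact_mod_cast this
  have h9 : (k : ℝ) ≤ 1 + 2 * L / (A * Real.log L - Real.log 2) := by
    have h10 : ((k - 1 : ℕ) : ℝ) = (k : ℝ) - 1 := by
      rw [Nat.cast_sub hk]
      simp
    rw [h10] at h8
    have h11 : (k : ℝ) - 1 ≤ 2 * L / (A * Real.log L - Real.log 2) := by
      rw [le_div_iff₀ h6]
      have h12 : 0 ≤ (k : ℝ) - 1 := by
        have : (1 : ℝ) ≤ k := by exact_mod_cast hk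
        linarith
      nlinarith
    linarith
  have hkL : (k : ℝ) ≤ L := h9.trans h5
  have hk0 : (0 : ℝ) < k := by exact_mod_cast hk
  have h13 : (k.factorial : ℝ) * C ^ k ≤ (L * C) ^ k := by
    rw [mul_pow]
    gcongr
    calc (k.factorial : ℝ) ≤ (k : ℝ) ^ k := by exact_mod_cast Nat.factorial_le_pow k
      _ ≤ L ^ k := by gcongr
  have h14 : (L * C) ^ k = Real.exp (k * (Real.log L + Real.log C)) := by
    rw [← Real.log_mul hL0.ne' (by positivity), Real.exp_nat_mul, Real.exp_log (by positivity)]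
  have h15 : (Q : ℝ) ^ (2 / A + κ) = Real.exp ((2 / A + κ) * L) := by
    rw [Real.rpow_def_of_pos hQ0, mul_comm]
  rw [h15]
  refine h13.trans ?_
  rw [h14]
  apply Real.exp_le_exp.2
  refine le_trans ?_ h4
  apply mul_le_mul_of_nonneg_right h9
  have : 0 < Real.log L := Real.log_pos h2
  linarith

/-- The threshold function `X ↦ X min(X, Q)^{-κ}`. -/
noncomputable def thr (Q : ℕ) (κ : ℝ) (X : ℕ) : ℝ := (X : ℝ) * (min (X : ℝ) (Q : ℝ)) ^ (-κ)

theorem thr_mono (Q : ℕ) (hQ : 1 ≤ Q) (κ : ℝ) (hκ1 : κ ≤ 1) {M N : ℕ} (hM : 1 ≤ M)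
    (h : M ≤ N) : thr Q κ M ≤ thr Q κ N := by
  have hM0 : (0 : ℝ) < M := by exact_mod_cast hM
  have hMN : (M : ℝ) ≤ N := by exact_mod_cast h
  have hN0 : (0 : ℝ) < N := by linarith
  have hQ0 : (0 : ℝ) < Q := by exact_mod_cast hQ
  unfold thr
  rcases le_total (N : ℝ) Q with h1 | h1
  · rw [min_eq_left h1, min_eq_left (hMN.trans h1)]
    have h2 : ∀ x : ℝ, 0 < x → x * x ^ (-κ) = x ^ (1 - κ) := by
      intro x hx
      rw [sub_eq_add_neg, Real.rpow_add hx, Real.rpow_one]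
    rw [h2 _ hM0, h2 _ hN0]
    exact Real.rpow_le_rpow hM0.le hMN (by linarith)
  · rw [min_eq_right h1]
    rcases le_total (M : ℝ) Q with h3 | h3
    · rw [min_eq_left h3]
      have h2 : (M : ℝ) * (M : ℝ) ^ (-κ) ≤ (Q : ℝ) * (Q : ℝ) ^ (-κ) := by
        have h2 : ∀ x : ℝ, 0 < x → x * x ^ (-κ) = x ^ (1 - κ) := by
          intro x hx
          rw [sub_eq_add_neg, Real.rpow_add hx, Real.rpow_one]
        rw [h2 _ hM0, h2 _ hQ0]
        exact Real.rpow_le_rpow hM0.le h3 (by linarith)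
      refine h2.trans ?_
      gcongr
    · rw [min_eq_right h3]
      gcongr

theorem thr_pos (Q : ℕ) (hQ : 1 ≤ Q) (κ : ℝ) {X : ℕ} (hX : 1 ≤ X) : 0 < thr Q κ X := by
  unfold thr
  have h1 : (0 : ℝ) < X := by exact_mod_cast hX
  have h2 : (0 : ℝ) < Q := by exact_mod_cast hQ
  have h3 : (0 : ℝ) < min (X : ℝ) (Q : ℝ) := lt_min h1 h2
  positivity

/-- lower bounds for the threshold -/
theorem thr_ge_Q (Q : ℕ) (hQ : 1 ≤ Q) (κ : ℝ) (hκ : 0 < κ) {X : ℕ} (hX : 1 ≤ X) :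
    (X : ℝ) * (Q : ℝ) ^ (-κ) ≤ thr Q κ X := by
  unfold thr
  have h1 : (0 : ℝ) < X := by exact_mod_cast hX
  have h2 : (0 : ℝ) < Q := by exact_mod_cast hQ
  exact mul_le_mul_of_nonneg_left
    (Real.rpow_le_rpow_of_nonpos (lt_min h1 h2) (min_le_right _ _) (by linarith)) h1.le

theorem thr_ge_X (Q : ℕ) (hQ : 1 ≤ Q) (κ : ℝ) (hκ : 0 < κ) {X : ℕ} (hX : 1 ≤ X) :
    (X : ℝ) ^ (1 - κ) ≤ thr Q κ X := by
  unfold thr
  have h1 : (0 : ℝ) < X := by exact_mod_cast hX
  have h2 : (0 : ℝ) < Q := by exact_mod_cast hQ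
  rw [sub_eq_add_neg, Real.rpow_add h1, Real.rpow_one]
  exact mul_le_mul_of_nonneg_left
    (Real.rpow_le_rpow_of_nonpos (lt_min h1 h2) (min_le_left _ _) (by linarith)) h1.le

/-- The bound for the number of bad characters at one scale. -/
theorem scale_bound (A κ B : ℝ) (hA : 0 < A) (hκ : 0 < κ) (hκ1 : κ ≤ 1 / 12) (hB : 1 ≤ B) :
    ∀ᶠ Q : ℕ in atTop, ∀ N : ℕ, Real.log Q ^ A / 2 ≤ (N : ℝ) → 2 ≤ N →
      ∀ b : ℕ → ℂ, (∀ m, ‖b m‖ ≤ B) → ∀ F : Finset (Σ q : ℕ, DirichletCharacter ℂ q),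
      (∀ j ∈ F, 2 ≤ j.1 ∧ j.1 ≤ Q ∧ j.2.IsPrimitive) →
      (∀ j ∈ F, thr Q κ N / 4 ≤ ‖PS b j N‖) →
      (F.card : ℝ) ≤ 432 * (Q : ℝ) ^ (2 / A + 9 * κ) := by
  filter_upwards [factorial_bound A κ (16 * B ^ 2) hA hκ (by nlinarith),
    (tendsto_natCast_atTop_atTop (R := ℝ)).eventually
      ((tendsto_rpow_atTop hκ).eventually_ge_atTop (B ^ 2)),
    eventually_ge_atTop 2] with Q hfac hQB hQ2 N hN hN2 b hb F hF hbad
  have hQ1 : (1 : ℝ) ≤ Q := by
    have : 1 ≤ Q := by omega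
    exact_mod_cast this
  have hQ0 : (0 : ℝ) < Q := by linarith
  have hN0 : (0 : ℝ) < N := by
    have : 0 < N := by omega
    exact_mod_cast this
  have hN1 : (1 : ℝ) ≤ N := by
    have : 1 ≤ N := by omega
    exact_mod_cast this
  have hpi : ∀ y : ℝ, 1 ≤ y → 4 * Real.pi * (y + 1) ≤ 26 * y := by
    intro y hy
    have := Real.pi_lt_d2
    nlinarith
  rcases le_or_gt ((Q : ℝ) ^ 2) N with hcase | hcase
  · -- large `N`
    have h1 := one_scale Q N 1 B (N * (Q : ℝ) ^ (-κ) / 4) (by linarith) (by positivity) F hF b hb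
      (fun j hj => by
        refine le_trans ?_ (hbad j hj)
        have := thr_ge_Q Q (by omega) κ hκ (X := N) (by omega)
        linarith)
    simp only [mul_one, pow_one, Nat.factorial_one, Nat.cast_one, one_mul] at h1
    have h2 : ((Q : ℝ) ^ 2 + 4 * Real.pi * ((N : ℝ) + 1)) * (B ^ 2 * N) ≤ 27 * N * (B ^ 2 * N) := by
      have := hpi N hN1
      gcongr
      linarith
    have h3 : (F.card : ℝ) * (N * (Q : ℝ) ^ (-κ) / 4) ^ 2 ≤ 27 * N * (B ^ 2 * N) := h1.trans h2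
    have h4 : ((Q : ℝ) ^ (-κ)) ^ 2 = (Q : ℝ) ^ (-(2 * κ)) := by
      rw [← Real.rpow_natCast, ← Real.rpow_mul hQ0.le]
      congr 1
      push_cast
      ring
    have h5 : (F.card : ℝ) * (Q : ℝ) ^ (-(2 * κ)) ≤ 432 * B ^ 2 := by
      have h6 : (F.card : ℝ) * (N * (Q : ℝ) ^ (-κ) / 4) ^ 2 =
          ((F.card : ℝ) * (Q : ℝ) ^ (-(2 * κ))) * ((N : ℝ) ^ 2 / 16) := by
        rw [div_pow, mul_pow, h4]
        ring
      rw [h6] at h3
      have h7 : 27 * N * (B ^ 2 * N) = 432 * B ^ 2 * ((N : ℝ) ^ 2 / 16) := by ring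
      rw [h7] at h3
      exact le_of_mul_le_mul_right h3 (by positivity)
    have h6 : (F.card : ℝ) ≤ 432 * B ^ 2 * (Q : ℝ) ^ (2 * κ) := by
      rw [Real.rpow_neg hQ0.le, ← div_eq_mul_inv, div_le_iff₀ (by positivity)] at h5
      linarith
    calc (F.card : ℝ) ≤ 432 * B ^ 2 * (Q : ℝ) ^ (2 * κ) := h6
      _ ≤ 432 * (Q : ℝ) ^ κ * (Q : ℝ) ^ (2 * κ) := by gcongr
      _ = 432 * (Q : ℝ) ^ (κ + 2 * κ) := by rw [Real.rpow_add hQ0]; ring
      _ ≤ 432 * (Q : ℝ) ^ (2 / A + 9 * κ) := by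
        apply mul_le_mul_of_nonneg_left _ (by norm_num)
        apply Real.rpow_le_rpow_of_exponent_le hQ1
        have : 0 < 2 / A := by positivity
        linarith
  · -- small `N`
    have hex : ∃ k : ℕ, (Q : ℝ) ^ 2 ≤ (N : ℝ) ^ k := by
      have h1 : (1 : ℝ) < N := by
        have : 1 < N := by omega
        exact_mod_cast this
      obtain ⟨k, hk⟩ := pow_unbounded_of_one_lt ((Q : ℝ) ^ 2) h1
      exact ⟨k, hk.le⟩
    classical
    set k := Nat.find hex with hk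
    have hk1 : (Q : ℝ) ^ 2 ≤ (N : ℝ) ^ k := Nat.find_spec hex
    have hk0 : 1 ≤ k := by
      by_contra h
      have h0 : k = 0 := by omega
      rw [h0, pow_zero] at hk1
      have h2 : (2 : ℝ) ≤ Q := by exact_mod_cast hQ2
      nlinarith
    have hk2 : (N : ℝ) ^ (k - 1) < (Q : ℝ) ^ 2 := by
      have := Nat.find_min hex (m := k - 1) (by omega)
      exact not_le.1 this
    have hNk : (N : ℝ) ^ k ≤ (Q : ℝ) ^ 4 := by
      have h1 : (N : ℝ) ^ k = (N : ℝ) ^ (k - 1) * N := by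
        rw [← pow_succ]
        congr 1
        omega
      rw [h1]
      calc (N : ℝ) ^ (k - 1) * N ≤ (Q : ℝ) ^ 2 * (Q : ℝ) ^ 2 := by gcongr
        _ = (Q : ℝ) ^ 4 := by ring
    have hNk1 : (1 : ℝ) ≤ (N : ℝ) ^ k := one_le_pow₀ hN1
    have h1 := one_scale Q N k B ((N : ℝ) ^ (1 - κ) / 4) (by linarith) (by positivity) F hF b hb
      (fun j hj => by
        refine le_trans ?_ (hbad j hj)
        have := thr_ge_X Q (by omega) κ hκ (X := N) (by omega)
        linarith)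
    have h2 : ((Q : ℝ) ^ 2 + 4 * Real.pi * ((N : ℝ) ^ k + 1)) *
        (B ^ (2 * k) * (k.factorial * (N : ℝ) ^ k)) ≤
        27 * (N : ℝ) ^ k * (B ^ (2 * k) * (k.factorial * (N : ℝ) ^ k)) := by
      have := hpi _ hNk1
      gcongr
      linarith
    have h3 := h1.trans h2
    -- the power of the threshold
    have h4 : ((N : ℝ) ^ (1 - κ) / 4) ^ (2 * k) =
        ((N : ℝ) ^ k) ^ 2 * (((N : ℝ) ^ k) ^ (2 * κ))⁻¹ * ((16 : ℝ) ^ k)⁻¹ := by
      rw [div_pow]
      have h5 : ((N : ℝ) ^ (1 - κ)) ^ (2 * k) = ((N : ℝ) ^ k) ^ 2 * (((N : ℝ) ^ k) ^ (2 * κ))⁻¹ := by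
        rw [← Real.rpow_natCast ((N : ℝ) ^ (1 - κ)), ← Real.rpow_mul hN0.le,
          ← Real.rpow_neg (by positivity), ← Real.rpow_natCast ((N : ℝ) ^ k) 2,
          ← Real.rpow_add (by positivity), ← Real.rpow_natCast (N : ℝ) k,
          ← Real.rpow_mul hN0.le]
        congr 1
        push_cast
        ring
      have h6 : (4 : ℝ) ^ (2 * k) = 16 ^ k := by
        rw [pow_mul]
        norm_num
      rw [h5, h6, div_eq_mul_inv]
    rw [h4] at h3
    have h5 : (F.card : ℝ) ≤ 27 * (k.factorial * (16 * B ^ 2) ^ k) * ((N : ℝ) ^ k) ^ (2 * κ) := by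
      have h6 : (F.card : ℝ) * (((N : ℝ) ^ k) ^ 2 * (((N : ℝ) ^ k) ^ (2 * κ))⁻¹ * ((16 : ℝ) ^ k)⁻¹) =
          ((F.card : ℝ) * (((N : ℝ) ^ k) ^ (2 * κ))⁻¹ * ((16 : ℝ) ^ k)⁻¹) * ((N : ℝ) ^ k) ^ 2 := by ring
      have h7 : 27 * (N : ℝ) ^ k * (B ^ (2 * k) * (k.factorial * (N : ℝ) ^ k)) =
          (27 * (B ^ (2 * k) * k.factorial)) * ((N : ℝ) ^ k) ^ 2 := by ring
      rw [h6, h7] at h3
      have h8 := le_of_mul_le_mul_right h3 (by positivity)
      have h9 : (F.card : ℝ) = ((F.card : ℝ) * (((N : ℝ) ^ k) ^ (2 * κ))⁻¹ * ((16 : ℝ) ^ k)⁻¹) *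
          (((N : ℝ) ^ k) ^ (2 * κ) * (16 : ℝ) ^ k) := by
        field_simp
      rw [h9]
      calc ((F.card : ℝ) * (((N : ℝ) ^ k) ^ (2 * κ))⁻¹ * ((16 : ℝ) ^ k)⁻¹) *
          (((N : ℝ) ^ k) ^ (2 * κ) * (16 : ℝ) ^ k) ≤
            (27 * (B ^ (2 * k) * k.factorial)) * (((N : ℝ) ^ k) ^ (2 * κ) * (16 : ℝ) ^ k) := by
            gcongr
        _ = _ := by
            rw [mul_pow, ← pow_mul]
            ring
    have h6 : ((N : ℝ) ^ k) ^ (2 * κ) ≤ (Q : ℝ) ^ (8 * κ) := by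
      calc ((N : ℝ) ^ k) ^ (2 * κ) ≤ ((Q : ℝ) ^ 4) ^ (2 * κ) := by gcongr
        _ = (Q : ℝ) ^ (8 * κ) := by
          rw [← Real.rpow_natCast (Q : ℝ) 4, ← Real.rpow_mul hQ0.le]
          congr 1
          push_cast
          ring
    calc (F.card : ℝ) ≤ 27 * (k.factorial * (16 * B ^ 2) ^ k) * ((N : ℝ) ^ k) ^ (2 * κ) := h5
      _ ≤ 27 * (Q : ℝ) ^ (2 / A + κ) * (Q : ℝ) ^ (8 * κ) := by
          gcongr
          exact hfac N k hN hN2 hk0 hk2
      _ = 27 * (Q : ℝ) ^ (2 / A + 9 * κ) := by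
          rw [mul_assoc, ← Real.rpow_add hQ0]
          congr 2
          ring
      _ ≤ 432 * (Q : ℝ) ^ (2 / A + 9 * κ) := by
          gcongr
          norm_num

end Pool.Agent.Helper4.ST
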