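import Pool.Agent.Helper4.ST.Homothety

set_option autoImplicit false

/-!
Strictly compatible symplectic families of Galois representations over a number field, their
monodromy groups, Sato-Tate groups and Sato-Tate classes, and quadratic twists.
-/

namespace Pool.Agent.Helper4.ST

open NumberField IsDedekindDomain Matrix
open scoped MatrixGroups

universe u w

section basics

variable {K : Type u} [Field K] [NumberField K]

/-- The absolute norm `q_v` of a finite prime. -/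
noncomputable def qv (v : HeightOneSpectrum (𝓞 K)) : ℕ := Ideal.absNorm v.asIdeal

variable {Ω : Type w} [Field Ω] [Algebra K Ω]

/-- `σ` is an (arithmetic) Frobenius element at `v`: there is a prime `P` of the ring of all
algebraic integers of `Ω` above `v` with `σ a ≡ a ^ q_v` modulo `P` for all `a`. -/
def IsFrob (v : HeightOneSpectrum (𝓞 K)) (σ : Ω ≃ₐ[K] Ω) : Prop :=
  ∃ P : Ideal (𝓞 Ω), P.IsPrime ∧ P.comap (algebraMap (𝓞 K) (𝓞 Ω)) = v.asIdeal ∧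
    ∀ a : 𝓞 Ω, σ • a - a ^ qv v ∈ P

/-- `σ` lies in an inertia group at `v`. -/
def IsInertia (v : HeightOneSpectrum (𝓞 K)) (σ : Ω ≃ₐ[K] Ω) : Prop :=
  ∃ P : Ideal (𝓞 Ω), P.IsPrime ∧ P.comap (algebraMap (𝓞 K) (𝓞 Ω)) = v.asIdeal ∧
    ∀ a : 𝓞 Ω, σ • a - a ∈ P

end basics

variable (K : Type u) [Field K] [NumberField K] (Ω : Type w) [Field Ω] [Algebra K Ω]

/-- A strictly compatible family of symplectic `ℓ`-adic representations of the absolute Galois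
group of `K`, of dimension `r` and pure of weight `n` (`Ω` is an algebraic closure of `K`). -/
structure Family (r n : ℕ) where
  /-- the alternating form over `ℚ` -/
  form : Matrix (Fin r) (Fin r) ℚ
  form_alternating : formᵀ = -form
  form_nondegenerate : form.det ≠ 0
  /-- the representations -/
  rho : ∀ (ℓ : ℕ) [Fact ℓ.Prime], (Ω ≃ₐ[K] Ω) →* GL (Fin r) ℚ_[ℓ]
  continuous_rho : ∀ (ℓ : ℕ) [Fact ℓ.Prime],
    Continuous fun σ => (rho ℓ σ : Matrix (Fin r) (Fin r) ℚ_[ℓ])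
  /-- the form takes values in the twist `ℚ_ℓ(-n)` -/
  equivariant : ∀ (ℓ : ℕ) [Fact ℓ.Prime] (σ : Ω ≃ₐ[K] Ω),
    (((cyclotomicCharacter Ω ℓ (σ : Ω ≃+* Ω) : ℤ_[ℓ]ˣ) : ℤ_[ℓ]) : ℚ_[ℓ]) ^ n •
      ((rho ℓ σ : Matrix (Fin r) (Fin r) ℚ_[ℓ])ᵀ * form.map (algebraMap ℚ ℚ_[ℓ]) *
        (rho ℓ σ : Matrix (Fin r) (Fin r) ℚ_[ℓ])) = form.map (algebraMap ℚ ℚ_[ℓ])
  /-- the finite set `S` -/
  bad : Finset (HeightOneSpectrum (𝓞 K))
  unramified : ∀ v ∉ bad, ∀ (ℓ : ℕ) [Fact ℓ.Prime], (ℓ : 𝓞 K) ∉ v.asIdeal →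
    ∀ σ : Ω ≃ₐ[K] Ω, IsInertia v σ → rho ℓ σ = 1
  /-- the characteristic polynomial of the geometric Frobenius at `v` -/
  frobPoly : HeightOneSpectrum (𝓞 K) → Polynomial ℚ
  compatible : ∀ v ∉ bad, ∀ (ℓ : ℕ) [Fact ℓ.Prime], (ℓ : 𝓞 K) ∉ v.asIdeal →
    ∀ σ : Ω ≃ₐ[K] Ω, IsFrob v σ →
      (rho ℓ σ⁻¹ : Matrix (Fin r) (Fin r) ℚ_[ℓ]).charpoly =
        (frobPoly v).map (algebraMap ℚ ℚ_[ℓ])
  pure : ∀ v ∉ bad, ∀ z : ℂ, (frobPoly v).aeval z = 0 → ‖z‖ ^ 2 = (qv v : ℝ) ^ n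

variable {K Ω}
variable {r n : ℕ}

/-- `s` is the semisimple part of the matrix `g` (additive Jordan decomposition; for invertible
matrices it is the semisimple part of the multiplicative one). -/
def IsSemisimplePart (s g : Matrix (Fin r) (Fin r) ℂ) : Prop :=
  Module.End.IsSemisimple (Matrix.toLin' s) ∧ Commute s g ∧ IsNilpotent (g - s)

namespace Family

variable (D : Family K Ω r n) (ℓ : ℕ) [Fact ℓ.Prime] (τ : ℚ_[ℓ] →+* ℂ)

/-- The complex matrix of `ρ_ℓ(σ)`. -/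
noncomputable def mat (σ : Ω ≃ₐ[K] Ω) : Matrix (Fin r) (Fin r) ℂ :=
  (D.rho ℓ σ : Matrix (Fin r) (Fin r) ℚ_[ℓ]).map τ

/-- The complex points of `G^alg_{ℓ,K,1}`: the isometries in the Zariski closure of the image of
`ρ_ℓ`. -/
def monodromy : Set (GL (Fin r) ℂ) :=
  {g | (∀ P : MvPolynomial (Fin r × Fin r) ℂ,
      (∀ σ : Ω ≃ₐ[K] Ω, MvPolynomial.eval (fun ij => D.mat ℓ τ σ ij.1 ij.2) P = 0) →
        MvPolynomial.eval (fun ij => (g : Matrix (Fin r) (Fin r) ℂ) ij.1 ij.2) P = 0) ∧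
    (g : Matrix (Fin r) (Fin r) ℂ)ᵀ * D.form.map (algebraMap ℚ ℂ) *
      (g : Matrix (Fin r) (Fin r) ℂ) = D.form.map (algebraMap ℚ ℂ)}

/-- `U` is a maximal compact subgroup of `G^alg_{ℓ,K,1}(ℂ)`, that is, the Sato-Tate group. -/
structure IsSatoTateGroup (U : Subgroup (GL (Fin r) ℂ)) : Prop where
  subset : ∀ g ∈ U, g ∈ D.monodromy ℓ τ
  compact : IsCompact (U : Set (GL (Fin r) ℂ))
  maximal : ∀ U' : Subgroup (GL (Fin r) ℂ), (∀ g ∈ U', g ∈ D.monodromy ℓ τ) →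
    IsCompact (U' : Set (GL (Fin r) ℂ)) → U ≤ U' → U' ≤ U

/-- `x ∈ U` lies in the conjugacy class attached to `v`: it is conjugate in the monodromy group
to the semisimple part of `q_v^{-n/2} ρ_ℓ(Fr_v)`, `Fr_v` a geometric Frobenius. -/
def IsSatoTateClass (U : Subgroup (GL (Fin r) ℂ)) (v : HeightOneSpectrum (𝓞 K))
    (x : GL (Fin r) ℂ) : Prop :=
  x ∈ U ∧ ∃ σ : Ω ≃ₐ[K] Ω, IsFrob v σ ∧ ∃ s a : GL (Fin r) ℂ, a ∈ D.monodromy ℓ τ ∧
    IsSemisimplePart (s : Matrix (Fin r) (Fin r) ℂ)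
      ((((qv v : ℝ) ^ (-(n : ℝ) / 2) : ℝ) : ℂ) • D.mat ℓ τ σ⁻¹) ∧
    x = a * s * a⁻¹

end Family

end Pool.Agent.Helper4.ST
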