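import Pool.Agent.Helper4.ST.Analytic

set_option autoImplicit false

/-!
The exceptional set of characters, uniformly in `X`.
-/

namespace Pool.Agent.Helper4.ST

open Finset Filter Topology

theorem PS_diff (b : ℕ → ℂ) (B : ℝ) (hB : 0 ≤ B) (hb : ∀ m, ‖b m‖ ≤ B)
    (j : Σ q : ℕ, DirichletCharacter ℂ q) {M N : ℕ} (h : M ≤ N) :
    ‖PS b j N‖ ≤ ‖PS b j M‖ + B * ((N : ℝ) - M) := by
  classical
  have h1 : PS b j N = PS b j M +
      ∑ p ∈ (Icc (M + 1) N).filter Nat.Prime, b p * j.2 (p : ZMod j.1) := by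
    unfold PS
    rw [← Finset.sum_union]
    · congr 1
      ext p
      simp only [Finset.mem_filter, Finset.mem_range, Finset.mem_union, Finset.mem_Icc]
      constructor
      · rintro ⟨h1, h2⟩
        by_cases h3 : p < M + 1
        · exact Or.inl ⟨h3, h2⟩
        · exact Or.inr ⟨⟨by omega, by omega⟩, h2⟩
      · rintro (⟨h1, h2⟩ | ⟨h1, h2⟩)
        · exact ⟨by omega, h2⟩
        · exact ⟨by omega, h2⟩
    · rw [Finset.disjoint_left]
      intro p hp hp'
      rw [Finset.mem_filter, Finset.mem_range] at hp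
      rw [Finset.mem_filter, Finset.mem_Icc] at hp'
      omega
  rw [h1]
  refine (norm_add_le _ _).trans ?_
  gcongr
  calc ‖∑ p ∈ (Icc (M + 1) N).filter Nat.Prime, b p * j.2 (p : ZMod j.1)‖
      ≤ ∑ p ∈ (Icc (M + 1) N).filter Nat.Prime, B := by
        refine norm_sum_le_of_le _ fun p _ => ?_
        rw [norm_mul]
        calc ‖b p‖ * ‖j.2 (p : ZMod j.1)‖ ≤ B * 1 := by
              gcongr
              · exact hb p
              · exact DirichletCharacter.norm_le_one j.2 _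
          _ = B := mul_one B
    _ = (((Icc (M + 1) N).filter Nat.Prime).card : ℝ) * B := by
        rw [Finset.sum_const, nsmul_eq_mul]
    _ ≤ ((N : ℝ) - M) * B := by
        gcongr
        have : ((Icc (M + 1) N).filter Nat.Prime).card ≤ N - M := by
          refine (Finset.card_filter_le _ _).trans ?_
          rw [Nat.card_Icc]
          omega
        rw [← Nat.cast_sub h]
        exact_mod_cast this
    _ = _ := mul_comm _ _

open Classical in
/-- All primitive characters of conductor between `2` and `Q`. -/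
noncomputable def prims (Q : ℕ) : Finset (Σ q : ℕ, DirichletCharacter ℂ q) :=
  ((Icc 2 Q).attach.biUnion fun q =>
    haveI : NeZero q.1 := ⟨by have := (Finset.mem_Icc.1 q.2).1; omega⟩
    (Finset.univ.filter (fun χ : DirichletCharacter ℂ q.1 => χ.IsPrimitive)).image
      (fun χ => (⟨q.1, χ⟩ : Σ q : ℕ, DirichletCharacter ℂ q)))

theorem mem_prims {Q : ℕ} {j : Σ q : ℕ, DirichletCharacter ℂ q} :
    j ∈ prims Q ↔ 2 ≤ j.1 ∧ j.1 ≤ Q ∧ j.2.IsPrimitive := by
  classical
  unfold prims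
  simp only [Finset.mem_biUnion, Finset.mem_attach, true_and, Finset.mem_image, Finset.mem_filter,
    Finset.mem_univ, Subtype.exists, Finset.mem_Icc]
  constructor
  · rintro ⟨q, hq, χ, hχ, rfl⟩
    exact ⟨hq.1, hq.2, hχ⟩
  · rintro ⟨h1, h2, h3⟩
    exact ⟨j.1, ⟨h1, h2⟩, j.2, h3, rfl⟩

/-- **The exceptional set.** -/
theorem exceptional (A θ B : ℝ) (hA : 0 < A) (hθ : 2 / A < θ) (hθ1 : θ ≤ 1) (hB : 1 ≤ B) :
    ∀ᶠ Q : ℕ in atTop, ∀ b : ℕ → ℂ, (∀ m, ‖b m‖ ≤ B) →
      ∃ E : Finset (Σ q : ℕ, DirichletCharacter ℂ q), (E.card : ℝ) ≤ (Q : ℝ) ^ θ ∧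
        (∀ j ∈ E, 2 ≤ j.1 ∧ j.1 ≤ Q ∧ j.2.IsPrimitive) ∧
        ∀ j : (Σ q : ℕ, DirichletCharacter ℂ q), 2 ≤ j.1 → j.1 ≤ Q → j.2.IsPrimitive → j ∉ E →
        ∀ X : ℕ, Real.log Q ^ A ≤ X → (X : ℝ) ≤ Real.exp ((Q : ℝ) ^ ((θ - 2 / A) / 12)) →
          ‖PS b j X‖ ≤ thr Q ((θ - 2 / A) / 12) X / 2 := by
  classical
  set κ : ℝ := (θ - 2 / A) / 12 with hκdef
  have hκ : 0 < κ := by
    rw [hκdef]
    linarith
  have h2A : 0 < 2 / A := by positivity
  have hκ1 : κ ≤ 1 / 12 := by
    rw [hκdef]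
    linarith
  have hlog : Tendsto (fun Q : ℕ => Real.log (Q : ℝ)) atTop atTop :=
    Real.tendsto_log_atTop.comp tendsto_natCast_atTop_atTop
  have hlogA : Tendsto (fun Q : ℕ => Real.log (Q : ℝ) ^ A) atTop atTop :=
    (tendsto_rpow_atTop hA).comp hlog
  filter_upwards [scale_bound A κ B hA hκ hκ1 hB,
    (tendsto_natCast_atTop_atTop (R := ℝ)).eventually
      ((tendsto_rpow_atTop hκ).eventually_ge_atTop (7344 * B)),
    hlogA.eventually_ge_atTop ((8 * B) ^ 2), hlogA.eventually_ge_atTop 4,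
    eventually_ge_atTop 2] with Q hsc hQB hl1 hl2 hQ2 b hb
  have hQ1 : (1 : ℝ) ≤ Q := by
    have : 1 ≤ Q := by omega
    exact_mod_cast this
  have hQ0 : (0 : ℝ) < Q := by linarith
  have hB0 : (0 : ℝ) < B := by linarith
  -- the grid
  set η : ℝ := (Q : ℝ) ^ (-κ) / (8 * B) with hη
  have hη0 : 0 < η := by positivity
  have hη1 : η ≤ 1 / 8 := by
    rw [hη, div_le_div_iff₀ (by positivity) (by norm_num)]
    have h1 : (Q : ℝ) ^ (-κ) ≤ 1 := Real.rpow_le_one_of_one_le_of_nonpos hQ1 (by linarith)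
    nlinarith
  set l : ℝ := Real.log (1 + η) with hl
  have hl0 : η / 2 ≤ l := by
    have h1 := Real.one_sub_inv_le_log_of_pos (show (0 : ℝ) < 1 + η by linarith)
    have h2 : 1 - (1 + η)⁻¹ = η / (1 + η) := by
      field_simp
      ring
    rw [h2] at h1
    refine le_trans ?_ h1
    gcongr
    linarith
  have hlpos : 0 < l := by linarith [half_pos hη0]
  set J : ℕ := ⌊(Q : ℝ) ^ κ / l⌋₊ with hJ
  set Nj : ℕ → ℕ := fun j => ⌊(1 + η) ^ j⌋₊ with hNj
  set Ej : ℕ → Finset (Σ q : ℕ, DirichletCharacter ℂ q) := fun i =>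
    if Real.log Q ^ A / 2 ≤ (Nj i : ℝ) then
      (prims Q).filter (fun j => thr Q κ (Nj i) / 4 ≤ ‖PS b j (Nj i)‖) else ∅ with hEj
  have hEjcard : ∀ i, ((Ej i).card : ℝ) ≤ 432 * (Q : ℝ) ^ (2 / A + 9 * κ) := by
    intro i
    simp only [hEj]
    split_ifs with h
    · apply hsc (Nj i) h _ b hb
      · intro j hj
        rw [Finset.mem_filter] at hj
        exact mem_prims.1 hj.1
      · intro j hj
        exact (Finset.mem_filter.1 hj).2
      · have : (2 : ℝ) ≤ (Nj i : ℝ) := by linarith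
        exact_mod_cast this
    · simp only [Finset.card_empty, Nat.cast_zero]
      positivity
  refine ⟨(range (J + 1)).biUnion Ej, ?_, ?_, ?_⟩
  · -- the size
    have h1 : (((range (J + 1)).biUnion Ej).card : ℝ) ≤
        ((J : ℝ) + 1) * (432 * (Q : ℝ) ^ (2 / A + 9 * κ)) := by
      calc (((range (J + 1)).biUnion Ej).card : ℝ) ≤ ∑ i ∈ range (J + 1), ((Ej i).card : ℝ) := by
            exact_mod_cast Finset.card_biUnion_le
        _ ≤ ∑ i ∈ range (J + 1), 432 * (Q : ℝ) ^ (2 / A + 9 * κ) :=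
            Finset.sum_le_sum fun i _ => hEjcard i
        _ = _ := by
            rw [Finset.sum_const, Finset.card_range, nsmul_eq_mul]
            push_cast
            ring
    have h2 : (J : ℝ) ≤ 16 * B * (Q : ℝ) ^ (2 * κ) := by
      calc (J : ℝ) ≤ (Q : ℝ) ^ κ / l := Nat.floor_le (by positivity)
        _ ≤ (Q : ℝ) ^ κ / (η / 2) := by gcongr
        _ = 16 * B * (Q : ℝ) ^ (2 * κ) := by
            have h3 : (Q : ℝ) ^ (2 * κ) = (Q : ℝ) ^ κ * (Q : ℝ) ^ κ := by
              rw [← Real.rpow_add hQ0]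
              congr 1
              ring
            rw [h3, hη, Real.rpow_neg hQ0.le]
            field_simp
            norm_num
    have h3 : (1 : ℝ) ≤ B * (Q : ℝ) ^ (2 * κ) := by
      have : (1 : ℝ) ≤ (Q : ℝ) ^ (2 * κ) := Real.one_le_rpow hQ1 (by linarith)
      nlinarith
    calc (((range (J + 1)).biUnion Ej).card : ℝ)
        ≤ ((J : ℝ) + 1) * (432 * (Q : ℝ) ^ (2 / A + 9 * κ)) := h1
      _ ≤ (17 * B * (Q : ℝ) ^ (2 * κ)) * (432 * (Q : ℝ) ^ (2 / A + 9 * κ)) := by
          gcongr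
          linarith
      _ = (7344 * B) * (Q : ℝ) ^ (2 / A + 11 * κ) := by
          have h4 : (Q : ℝ) ^ (2 / A + 11 * κ) = (Q : ℝ) ^ (2 * κ) * (Q : ℝ) ^ (2 / A + 9 * κ) := by
            rw [← Real.rpow_add hQ0]
            congr 1
            ring
          rw [h4]
          ring
      _ ≤ (Q : ℝ) ^ κ * (Q : ℝ) ^ (2 / A + 11 * κ) := by gcongr
      _ = (Q : ℝ) ^ θ := by
          rw [← Real.rpow_add hQ0]
          congr 1
          rw [hκdef]
          ring
  · intro j hj
    rw [Finset.mem_biUnion] at hj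
    obtain ⟨i, _, hi⟩ := hj
    simp only [hEj] at hi
    split_ifs at hi with h
    · rw [Finset.mem_filter] at hi
      exact mem_prims.1 hi.1
    · exact absurd hi (Finset.notMem_empty _)
  · intro j hj2 hjQ hjp hjE X hX1 hX2
    have hX4 : (4 : ℝ) ≤ X := by linarith
    have hX0 : (0 : ℝ) < X := by linarith
    have hX1' : 1 ≤ X := by
      have : (1 : ℝ) ≤ X := by linarith
      exact_mod_cast this
    have hlX : 0 ≤ Real.log X := Real.log_nonneg (by linarith)
    set i : ℕ := ⌊Real.log X / l⌋₊ with hi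
    have hiJ : i ≤ J := by
      apply Nat.floor_le_floor
      gcongr
      rw [← Real.log_exp ((Q : ℝ) ^ κ)]
      exact Real.log_le_log hX0 hX2
    have hi1 : (i : ℝ) ≤ Real.log X / l := Nat.floor_le (by positivity)
    have hi2 : Real.log X / l < i + 1 := Nat.lt_floor_add_one _
    have h1η : (0 : ℝ) < 1 + η := by linarith
    have h3 : (1 + η) ^ i ≤ X := by
      rw [← Real.exp_log hX0, ← Real.exp_log (pow_pos h1η i), Real.log_pow]
      apply Real.exp_le_exp.2
      rw [le_div_iff₀ hlpos] at hi1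
      exact hi1
    have h4 : (X : ℝ) < (1 + η) ^ (i + 1) := by
      rw [← Real.exp_log hX0, ← Real.exp_log (pow_pos h1η (i + 1)), Real.log_pow]
      apply Real.exp_lt_exp.2
      rw [div_lt_iff₀ hlpos] at hi2
      push_cast
      exact hi2
    have h5 : ((Nj i : ℕ) : ℝ) ≤ X := (Nat.floor_le (by positivity)).trans h3
    have h6 : (X : ℝ) - Nj i ≤ η * X + 1 := by
      have h7 : (1 + η) ^ i < (Nj i : ℝ) + 1 := Nat.lt_floor_add_one _
      rw [pow_succ] at h4
      nlinarith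
    have h7 : Real.log Q ^ A / 2 ≤ (Nj i : ℝ) := by
      have : η * X ≤ 1 / 8 * X := by gcongr
      linarith
    have hNjX : Nj i ≤ X := by exact_mod_cast h5
    have hNj1 : 1 ≤ Nj i := by
      have : (1 : ℝ) ≤ (Nj i : ℝ) := by linarith
      exact_mod_cast this
    have h8 : ‖PS b j (Nj i)‖ ≤ thr Q κ (Nj i) / 4 := by
      by_contra hcon
      push Not at hcon
      apply hjE
      rw [Finset.mem_biUnion]
      refine ⟨i, Finset.mem_range.2 (by omega), ?_⟩
      simp only [hEj]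
      rw [if_pos h7, Finset.mem_filter]
      exact ⟨mem_prims.2 ⟨hj2, hjQ, hjp⟩, hcon.le⟩
    have h9 := PS_diff b B hB0.le hb j hNjX
    have h10 := thr_mono Q (by omega) κ (by linarith) hNj1 hNjX
    have h11 := thr_ge_Q Q (by omega) κ hκ hX1'
    have h12 := thr_ge_X Q (by omega) κ hκ hX1'
    have h13 : B * (η * X) = (X : ℝ) * (Q : ℝ) ^ (-κ) / 8 := by
      rw [hη]
      field_simp
    have h14 : 8 * B ≤ (X : ℝ) ^ (1 - κ) := by
      calc 8 * B = ((8 * B) ^ 2) ^ ((1 : ℝ) / 2) := by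
            rw [← Real.rpow_natCast, ← Real.rpow_mul (by positivity)]
            norm_num
        _ ≤ (X : ℝ) ^ ((1 : ℝ) / 2) := by
            gcongr
            linarith
        _ ≤ (X : ℝ) ^ (1 - κ) := by
            apply Real.rpow_le_rpow_of_exponent_le (by linarith)
            linarith
    have h15 : B * ((X : ℝ) - Nj i) ≤ B * (η * X) + B := by
      calc B * ((X : ℝ) - Nj i) ≤ B * (η * X + 1) := by gcongr
        _ = _ := by ring
    linarith

end Pool.Agent.Helper4.ST
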