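import Mathlib

set_option autoImplicit false

/-!
If all eigenvalues of a complex matrix `M` have the same absolute value `R > 1`, then every
polynomial in the matrix entries that vanishes at all powers of `M` vanishes at all scalar
matrices.
-/

namespace Pool.Agent.Helper4.ST

open Module

/-- The shift operator on sequences. -/
def Sh : Module.End ℂ (ℕ → ℂ) where
  toFun u := fun k => u (k + 1)
  map_add' _ _ := rfl
  map_smul' _ _ := rfl

theorem Sh_mul (u v : ℕ → ℂ) : Sh (u * v) = Sh u * Sh v := rfl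

theorem mul_mem_ker (α β : ℂ) : ∀ N m m' : ℕ, m + m' ≤ N → ∀ u v : ℕ → ℂ,
    ((Sh - α • (1 : Module.End ℂ (ℕ → ℂ))) ^ m) u = 0 →
    ((Sh - β • (1 : Module.End ℂ (ℕ → ℂ))) ^ m') v = 0 →
    ((Sh - (α * β) • (1 : Module.End ℂ (ℕ → ℂ))) ^ (m + m')) (u * v) = 0 := by
  intro N
  induction N with
  | zero =>
    intro m m' h u v hu hv
    have h1 : m = 0 := by omega
    subst h1
    simp only [pow_zero, Module.End.one_apply] at hu
    rw [hu, zero_mul, map_zero]
  | succ N ih =>
    intro m m' h u v hu hv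
    rcases m with _ | m
    · simp only [pow_zero, Module.End.one_apply] at hu
      rw [hu, zero_mul, map_zero]
    rcases m' with _ | m'
    · simp only [pow_zero, Module.End.one_apply] at hv
      rw [hv, mul_zero, map_zero]
    have hcomm : ∀ γ : ℂ, Commute Sh (Sh - γ • (1 : Module.End ℂ (ℕ → ℂ))) := by
      intro γ
      apply Commute.sub_right (Commute.refl _)
      exact (Commute.one_right Sh).smul_right γ
    set u' := (Sh - α • (1 : Module.End ℂ (ℕ → ℂ))) u with hu'
    set v' := (Sh - β • (1 : Module.End ℂ (ℕ → ℂ))) v with hv'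
    have h1 : (Sh - (α * β) • (1 : Module.End ℂ (ℕ → ℂ))) (u * v) = u' * Sh v + (α • u) * v' := by
      rw [hu', hv']
      funext k
      simp only [Sh, LinearMap.sub_apply, LinearMap.smul_apply, Module.End.one_apply,
        Pi.sub_apply, Pi.smul_apply, Pi.mul_apply, Pi.add_apply, LinearMap.coe_mk, AddHom.coe_mk,
        smul_eq_mul]
      ring
    have hu1 : ((Sh - α • (1 : Module.End ℂ (ℕ → ℂ))) ^ m) u' = 0 := by
      rw [hu', ← Module.End.mul_apply, ← pow_succ]
      exact hu
    have hv1 : ((Sh - β • (1 : Module.End ℂ (ℕ → ℂ))) ^ m') v' = 0 := by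
      rw [hv', ← Module.End.mul_apply, ← pow_succ]
      exact hv
    have hv2 : ((Sh - β • (1 : Module.End ℂ (ℕ → ℂ))) ^ (m' + 1)) (Sh v) = 0 := by
      have h2 := ((hcomm β).pow_right (m' + 1)).eq
      have h3 := congrArg (fun T : Module.End ℂ (ℕ → ℂ) => T v) h2
      simp only [Module.End.mul_apply] at h3
      rw [← h3, hv, map_zero]
    have hu2 : ((Sh - α • (1 : Module.End ℂ (ℕ → ℂ))) ^ (m + 1)) (α • u) = 0 := by
      rw [map_smul, hu, smul_zero]
    have e1 : m + 1 + (m' + 1) = (m + (m' + 1)) + 1 := by ring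
    rw [e1, pow_succ, Module.End.mul_apply, h1, map_add]
    have a1 := ih m (m' + 1) (by omega) u' (Sh v) hu1 hv2
    have a2 := ih (m + 1) m' (by omega) (α • u) v' hu2 hv1
    have e2 : m + 1 + m' = m + (m' + 1) := by ring
    rw [e2] at a2
    rw [a1, a2, add_zero]

theorem mul_mem_maxGen {α β : ℂ} {u v : ℕ → ℂ} (hu : u ∈ Sh.maxGenEigenspace α)
    (hv : v ∈ Sh.maxGenEigenspace β) : u * v ∈ Sh.maxGenEigenspace (α * β) := by
  rw [Module.End.mem_maxGenEigenspace] at hu hv ⊢
  obtain ⟨m, hm⟩ := hu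
  obtain ⟨m', hm'⟩ := hv
  exact ⟨m + m', mul_mem_ker α β (m + m') m m' le_rfl u v hm hm'⟩

/-- Sequences that are sums of generalized exponentials with bases of absolute value `ρ`. -/
noncomputable def W (ρ : ℝ) : Submodule ℂ (ℕ → ℂ) :=
  ⨆ β ∈ {β : ℂ | ‖β‖ = ρ}, Sh.maxGenEigenspace β

theorem maxGen_le_W {ρ : ℝ} {β : ℂ} (h : ‖β‖ = ρ) : Sh.maxGenEigenspace β ≤ W ρ :=
  le_iSup₂_of_le β h le_rfl

theorem W_induction {ρ : ℝ} {C : (ℕ → ℂ) → Prop} {u : ℕ → ℂ} (hu : u ∈ W ρ)
    (h1 : ∀ β : ℂ, ‖β‖ = ρ → ∀ u ∈ Sh.maxGenEigenspace β, C u)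
    (h0 : C 0) (hadd : ∀ u v, C u → C v → C (u + v)) : C u := by
  unfold W at hu
  rw [iSup_subtype'] at hu
  exact Submodule.iSup_induction _ (motive := C) hu (fun β u hu => h1 β.1 β.2 u hu) h0 hadd

theorem mul_mem_W {ρ ρ' : ℝ} {u v : ℕ → ℂ} (hu : u ∈ W ρ) (hv : v ∈ W ρ') : u * v ∈ W (ρ * ρ') := by
  refine W_induction (C := fun u => u * v ∈ W (ρ * ρ')) hu ?_ ?_ ?_
  · intro β hβ u hu
    refine W_induction (C := fun v => u * v ∈ W (ρ * ρ')) hv ?_ ?_ ?_
    · intro β' hβ' v hv
      exact maxGen_le_W (by rw [norm_mul, hβ, hβ']) (mul_mem_maxGen hu hv)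
    · rw [mul_zero]
      exact Submodule.zero_mem _
    · intro v v' hv hv'
      rw [mul_add]
      exact Submodule.add_mem _ hv hv'
  · rw [zero_mul]
    exact Submodule.zero_mem _
  · intro u u' hu hu'
    rw [add_mul]
    exact Submodule.add_mem _ hu hu'

theorem one_mem_W : (1 : ℕ → ℂ) ∈ W 1 := by
  refine maxGen_le_W (β := 1) norm_one ?_
  rw [Module.End.mem_maxGenEigenspace]
  refine ⟨1, ?_⟩
  funext k
  simp [Sh]

theorem pow_mem_W {ρ : ℝ} {u : ℕ → ℂ} (hu : u ∈ W ρ) (n : ℕ) : u ^ n ∈ W (ρ ^ n) := by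
  induction n with
  | zero => simpa using one_mem_W
  | succ n ih =>
    rw [pow_succ, pow_succ]
    exact mul_mem_W ih hu

theorem prod_mem_W {ι : Type*} (s : Finset ι) (ρ : ι → ℝ) (u : ι → ℕ → ℂ)
    (h : ∀ i ∈ s, u i ∈ W (ρ i)) : (∏ i ∈ s, u i) ∈ W (∏ i ∈ s, ρ i) := by
  classical
  induction s using Finset.induction_on with
  | empty => simpa using one_mem_W
  | insert i s hi ih =>
    rw [Finset.prod_insert hi, Finset.prod_insert hi]
    exact mul_mem_W (h i (Finset.mem_insert_self _ _))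
      (ih fun j hj => h j (Finset.mem_insert_of_mem hj))

/-- The entries of the powers of a matrix. -/
theorem entry_mem_W {r : ℕ} (M : Matrix (Fin r) (Fin r) ℂ) (R : ℝ)
    (hM : ∀ z, M.charpoly.IsRoot z → ‖z‖ = R) (i j : Fin r) :
    (fun k => (M ^ k) i j) ∈ W R := by
  set f : Module.End ℂ (Fin r → ℂ) := Matrix.toLin' M with hf
  set Φ : (Fin r → ℂ) →ₗ[ℂ] (ℕ → ℂ) :=
    { toFun := fun x k => ((f ^ k) x) i
      map_add' := by
        intro x y
        funext k
        simp
      map_smul' := by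
        intro c x
        funext k
        simp } with hΦ
  have hSh : ∀ x, Sh (Φ x) = Φ (f x) := by
    intro x
    funext k
    simp only [Sh, hΦ, LinearMap.coe_mk, AddHom.coe_mk]
    rw [pow_succ, Module.End.mul_apply]
  have hpow : ∀ (β : ℂ) (m : ℕ) (x : Fin r → ℂ),
      ((Sh - β • (1 : Module.End ℂ (ℕ → ℂ))) ^ m) (Φ x) =
        Φ (((f - β • (1 : Module.End ℂ (Fin r → ℂ))) ^ m) x) := by
    intro β m
    induction m with
    | zero => intro x; simp
    | succ m ih =>
      intro x
      rw [pow_succ, pow_succ, Module.End.mul_apply, Module.End.mul_apply, ← ih]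
      congr 1
      simp only [LinearMap.sub_apply, LinearMap.smul_apply, Module.End.one_apply]
      rw [hSh, map_sub, map_smul]
  have hmap : ∀ β : ℂ, ∀ x ∈ f.maxGenEigenspace β, Φ x ∈ Sh.maxGenEigenspace β := by
    intro β x hx
    rw [Module.End.mem_maxGenEigenspace] at hx ⊢
    obtain ⟨m, hm⟩ := hx
    exact ⟨m, by rw [hpow, hm, map_zero]⟩
  have key : ∀ x, Φ x ∈ W R := by
    intro x
    have hx : x ∈ ⨆ β : ℂ, f.maxGenEigenspace β := by
      rw [Module.End.iSup_maxGenEigenspace_eq_top]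
      exact Submodule.mem_top
    refine Submodule.iSup_induction _ hx (motive := fun x => Φ x ∈ W R) ?_ ?_ ?_
    · intro β x hx
      by_cases hβ : ‖β‖ = R
      · exact maxGen_le_W hβ (hmap β x hx)
      · have h0 : x = 0 := by
          by_contra hx0
          have h1 : f.HasEigenvalue β := by
            by_contra hno
            have h2 : f.maxGenEigenspace β = ⊥ := by
              rw [eq_bot_iff]
              intro y hy
              rw [Module.End.mem_maxGenEigenspace] at hy
              obtain ⟨m, hm⟩ := hy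
              have h3 : Function.Injective (f - β • (1 : Module.End ℂ (Fin r → ℂ))) := by
                rw [← LinearMap.ker_eq_bot]
                by_contra hker
                apply hno
                rw [Module.End.hasEigenvalue_iff, Module.End.eigenspace_def]
                exact hker
              have h4 : Function.Injective (((f - β • (1 : Module.End ℂ (Fin r → ℂ))) ^ m) :
                  Module.End ℂ (Fin r → ℂ)) := by
                rw [Module.End.coe_pow]
                exact h3.iterate m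
              rw [Submodule.mem_bot]
              exact h4 (by rw [hm, map_zero])
            rw [h2] at hx
            exact hx0 ((Submodule.mem_bot ℂ).1 hx)
          apply hβ
          apply hM
          rw [Module.End.hasEigenvalue_iff_isRoot_charpoly] at h1
          rwa [hf, Matrix.charpoly_toLin'] at h1
        rw [h0, map_zero]
        exact Submodule.zero_mem _
    · rw [map_zero]
      exact Submodule.zero_mem _
    · intro x y hx hy
      rw [map_add]
      exact Submodule.add_mem _ hx hy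
  have h1 := key (Pi.single j 1)
  have h2 : (fun k => (M ^ k) i j) = Φ (Pi.single j 1) := by
    funext k
    simp only [hΦ, LinearMap.coe_mk, AddHom.coe_mk]
    rw [hf, ← Matrix.toLin'_pow, Matrix.toLin'_apply, Matrix.mulVec_single_one]
    rfl
  rw [h2]
  exact h1

/-- independence for different absolute values -/
theorem W_indep (R : ℝ) (hR : 1 < R) : iSupIndep (fun e : ℕ => W (R ^ e)) := by
  rw [iSupIndep_def]
  intro e
  have h := (Module.End.independent_maxGenEigenspace Sh).disjoint_biSup_biSup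
    (s := {β : ℂ | ‖β‖ = R ^ e}) (t := {β : ℂ | ∃ j, j ≠ e ∧ ‖β‖ = R ^ j}) (by
      rw [Set.disjoint_left]
      rintro β h1 ⟨j, hj, h2⟩
      apply hj
      have h3 : R ^ j = R ^ e := by rw [← h2]; exact h1
      exact (pow_right_injective₀ (by linarith) hR.ne') h3)
  refine h.mono_right ?_
  refine iSup₂_le fun j hj => ?_
  unfold W
  refine iSup₂_le fun β hβ => ?_
  exact le_iSup₂_of_le β ⟨j, hj, hβ⟩ le_rfl

/-- **Homotheties.** -/
theorem scalar_of_powers {r : ℕ} (M : Matrix (Fin r) (Fin r) ℂ) (R : ℝ) (hR : 1 < R)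
    (hM : ∀ z, M.charpoly.IsRoot z → ‖z‖ = R) (P : MvPolynomial (Fin r × Fin r) ℂ)
    (hP : ∀ k : ℕ, MvPolynomial.eval (fun ij => (M ^ k) ij.1 ij.2) P = 0) (c : ℂ) :
    MvPolynomial.eval (fun ij => (c • (1 : Matrix (Fin r) (Fin r) ℂ)) ij.1 ij.2) P = 0 := by
  classical
  -- the monomials
  set mono : ((Fin r × Fin r) →₀ ℕ) → ℕ → ℂ := fun d =>
    ∏ ij ∈ d.support, (fun k => (M ^ k) ij.1 ij.2) ^ d ij with hmono
  have hmem : ∀ d, mono d ∈ W (R ^ d.degree) := by
    intro d
    have h1 := prod_mem_W d.support (fun ij => R ^ d ij)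
      (fun ij => (fun k => (M ^ k) ij.1 ij.2) ^ d ij)
      (fun ij _ => pow_mem_W (entry_mem_W M R hM ij.1 ij.2) _)
    rw [Finset.prod_pow_eq_pow_sum] at h1
    exact h1
  set T := P.support.image (fun d => d.degree) with hT
  set ue : ℕ → ℕ → ℂ := fun e =>
    ∑ d ∈ P.support.filter (fun d => d.degree = e), P.coeff d • mono d with hue
  have huW : ∀ e ∈ T, ue e ∈ W (R ^ e) := by
    intro e _
    refine Submodule.sum_mem _ fun d hd => ?_
    rw [Finset.mem_filter] at hd
    have := hmem d
    rw [hd.2] at this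
    exact Submodule.smul_mem _ _ this
  have hsum : ∑ e ∈ T, ue e = 0 := by
    rw [hue]
    rw [Finset.sum_fiberwise_of_maps_to (fun d hd => Finset.mem_image_of_mem _ hd)]
    funext k
    have := hP k
    rw [MvPolynomial.eval_eq] at this
    rw [Finset.sum_apply, Pi.zero_apply, ← this]
    refine Finset.sum_congr rfl fun d _ => ?_
    rw [hmono]
    simp only [Pi.smul_apply, Finset.prod_apply, Pi.pow_apply, smul_eq_mul]
  have hzero := (iSupIndep_iff_finsetSum_eq_zero_imp_eq_zero _).1 (W_indep R hR) T ue huW hsum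
  -- evaluation at `0`
  have hz : ∀ e ∈ T, ∑ d ∈ P.support.filter (fun d => d.degree = e),
      P.coeff d * ∏ ij ∈ d.support, ((1 : Matrix (Fin r) (Fin r) ℂ) ij.1 ij.2) ^ d ij = 0 := by
    intro e he
    have := congrFun (hzero e he) 0
    rw [hue] at this
    simp only [Finset.sum_apply, Pi.smul_apply, Pi.zero_apply, smul_eq_mul, hmono,
      Finset.prod_apply, Pi.pow_apply, pow_zero] at this
    exact this
  rw [MvPolynomial.eval_eq]
  rw [← Finset.sum_fiberwise_of_maps_to (fun d hd => Finset.mem_image_of_mem (fun d => d.degree) hd)]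
  apply Finset.sum_eq_zero
  intro e he
  have h1 := hz e he
  have h2 : ∑ d ∈ P.support.filter (fun d => d.degree = e),
      P.coeff d * ∏ ij ∈ d.support, ((c • (1 : Matrix (Fin r) (Fin r) ℂ)) ij.1 ij.2) ^ d ij =
      c ^ e * ∑ d ∈ P.support.filter (fun d => d.degree = e),
      P.coeff d * ∏ ij ∈ d.support, ((1 : Matrix (Fin r) (Fin r) ℂ) ij.1 ij.2) ^ d ij := by
    rw [Finset.mul_sum]
    refine Finset.sum_congr rfl fun d hd => ?_
    rw [Finset.mem_filter] at hd
    have h3 : ∏ ij ∈ d.support, ((c • (1 : Matrix (Fin r) (Fin r) ℂ)) ij.1 ij.2) ^ d ij =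
        c ^ e * ∏ ij ∈ d.support, ((1 : Matrix (Fin r) (Fin r) ℂ) ij.1 ij.2) ^ d ij := by
      rw [← hd.2, Finsupp.degree_apply, ← Finset.prod_pow_eq_pow_sum, ← Finset.prod_mul_distrib]
      refine Finset.prod_congr rfl fun ij _ => ?_
      rw [Matrix.smul_apply, smul_eq_mul, mul_pow]
    rw [h3]
    ring
  rw [h2, h1, mul_zero]

end Pool.Agent.Helper4.ST
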