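import Pool.Agent.Helper4.ST.PrimeSieve

set_option autoImplicit false

/-!
Averages of Jacobi symbols over odd squarefree moduli.
-/

namespace Pool.Agent.Helper4.ST

open Finset ArithmeticFunction
open scoped NumberTheorySymbols ArithmeticFunction.Moebius ArithmeticFunction.zeta

/-- A non-square is a non-residue for some odd modulus. -/
theorem exists_jacobi_neg_one {n : ℕ} (hn0 : 0 < n) (hn : ¬ IsSquare n) :
    ∃ d : ℕ, Odd d ∧ J(n | d) = -1 := by
  obtain ⟨s, b, hsb, hs⟩ := Nat.sq_mul_squarefree n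
  have hb0 : b ≠ 0 := by
    rintro rfl
    simp at hsb
    omega
  have hs0 : s ≠ 0 := hs.ne_zero
  have hs1 : s ≠ 1 := by
    rintro rfl
    exact hn ⟨b, by rw [← hsb]; ring⟩
  -- reduction to primes `d > n`
  have hred : ∀ d : ℕ, d.Prime → n < d → J(n | d) = J(s | d) := by
    intro d hd hnd
    have : (n : ℤ) = (b : ℤ) ^ 2 * s := by exact_mod_cast hsb.symm
    rw [this, jacobiSym.mul_left, jacobiSym.sq_one', one_mul]
    have hbd : b < d := by
      refine lt_of_le_of_lt ?_ hnd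
      rw [← hsb]
      calc b ≤ b ^ 2 := Nat.le_self_pow (by norm_num) b
        _ ≤ b ^ 2 * s := Nat.le_mul_of_pos_right _ (Nat.pos_of_ne_zero hs0)
    rw [Int.gcd_natCast_natCast]
    exact Nat.Coprime.symm ((Nat.Prime.coprime_iff_not_dvd hd).2 (fun h =>
      absurd (Nat.le_of_dvd (Nat.pos_of_ne_zero hb0) h) (by omega)))
  -- is there an odd prime factor?
  by_cases hodd : ∃ l : ℕ, l.Prime ∧ l ≠ 2 ∧ l ∣ s
  · obtain ⟨l, hl, hl2, t, rfl⟩ := hodd
    have hlt : l.Coprime t := (Nat.squarefree_mul_iff.1 hs).1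
    have hlF : Fact l.Prime := ⟨hl⟩
    -- a non-residue
    obtain ⟨u, hu⟩ : ∃ u : ZMod l, ¬ IsSquare u := by
      apply FiniteField.exists_nonsquare
      rw [ZMod.ringChar_zmod_n]
      exact hl2
    have hu0 : u ≠ 0 := fun h => hu (by rw [h]; exact ⟨0, by simp⟩)
    have hcop : l.Coprime (8 * t) := by
      apply Nat.Coprime.mul_right _ hlt
      have : l.Coprime (2 ^ 3) := Nat.Coprime.pow_right 3 ((Nat.coprime_primes hl Nat.prime_two).2 hl2)
      exact this
    obtain ⟨r, hr1, hr2⟩ := Nat.chineseRemainder hcop u.val 1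
    have hrl : r.Coprime l := by
      have h1 : r.gcd l = (u.val).gcd l := Nat.ModEq.gcd_eq hr1
      rw [Nat.Coprime, h1]
      have h2 : ((u.val : ℕ) : ZMod l) = u := ZMod.natCast_zmod_val u
      have h3 : IsUnit ((u.val : ℕ) : ZMod l) := by
        rw [h2]
        exact isUnit_iff_ne_zero.2 hu0
      exact (ZMod.isUnit_iff_coprime _ _).1 h3
    have hrt : r.Coprime (8 * t) := by
      have h1 : r.gcd (8 * t) = (1).gcd (8 * t) := Nat.ModEq.gcd_eq hr2
      rw [Nat.Coprime, h1, Nat.gcd_one_left]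
    obtain ⟨d, hdn, hdp, hd⟩ := Nat.forall_exists_prime_gt_and_modEq n (q := l * (8 * t)) (a := r)
      (by
        intro h
        rcases Nat.mul_eq_zero.1 h with h | h
        · exact hl.ne_zero h
        · rcases Nat.mul_eq_zero.1 h with h | h
          · norm_num at h
          · rw [h] at hs0
            exact hs0 (mul_zero l)) (Nat.Coprime.mul_right hrl hrt)
    have hd1 : d ≡ u.val [MOD l] := (hd.of_mul_right _).trans hr1
    have hd2 : d ≡ 1 [MOD 8 * t] := (hd.of_mul_left _).trans hr2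
    have hd8 : d % 8 = 1 := by
      have : d ≡ 1 [MOD 8] := hd2.of_mul_right _
      exact this
    have hdt : d ≡ 1 [MOD t] := hd2.of_mul_left _
    have hdodd : Odd d := by
      rw [Nat.odd_iff]
      omega
    refine ⟨d, hdodd, ?_⟩
    rw [hred d hdp hdn]
    push_cast
    rw [jacobiSym.mul_left]
    have h1 : J(l | d) = -1 := by
      rw [jacobiSym.quadratic_reciprocity_one_mod_four' (hl.odd_of_ne_two hl2) (by omega)]
      rw [← jacobiSym.legendreSym.to_jacobiSym]
      rw [legendreSym.eq_neg_one_iff]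
      have h2 : (((d : ℕ) : ℤ) : ZMod l) = u := by
        have h3 : ((d : ℕ) : ZMod l) = ((u.val : ℕ) : ZMod l) := (ZMod.natCast_eq_natCast_iff _ _ _).2 hd1
        rw [Int.cast_natCast, h3, ZMod.natCast_zmod_val]
      rw [h2]
      exact hu
    have h2 : J(t | d) = 1 := by
      -- split off the power of two
      have ht0 : t ≠ 0 := by
        rintro rfl
        exact hs0 (mul_zero l)
      obtain ⟨e, t', ht', rfl⟩ := Nat.exists_eq_two_pow_mul_odd ht0
      push_cast
      rw [jacobiSym.mul_left, jacobiSym.pow_left, jacobiSym.at_two hdodd]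
      have h3 : ZMod.χ₈ (d : ZMod 8) = 1 := by
        have h4 : (d : ZMod 8) = 1 := by
          have : d ≡ 1 [MOD 8] := hd8
          exact_mod_cast (ZMod.natCast_eq_natCast_iff _ _ _).2 this
        rw [h4]
        decide
      rw [h3, one_pow, one_mul,
        jacobiSym.quadratic_reciprocity_one_mod_four' ht' (by omega)]
      have h4 : d ≡ 1 [MOD t'] := hdt.of_mul_left _
      have h5 : ((d : ℕ) : ℤ) % (t' : ℤ) = (1 : ℤ) % (t' : ℤ) := by
        exact_mod_cast h4
      rw [jacobiSym.mod_left' h5, jacobiSym.one_left]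
    rw [h1, h2]
    norm_num
  · -- `s = 2`
    push Not at hodd
    have hs2 : s = 2 := by
      obtain ⟨p, hp, hps⟩ := Nat.exists_prime_and_dvd hs1
      have hp2 : p = 2 := by
        by_contra h
        exact hodd p hp h hps
      subst hp2
      obtain ⟨t, rfl⟩ := hps
      have ht : t = 1 := by
        by_contra h
        obtain ⟨p, hp, hpt⟩ := Nat.exists_prime_and_dvd h
        have h3 : p = 2 := by
          by_contra h'
          exact hodd p hp h' (hpt.mul_left 2)
        subst h3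
        have h4 := (Nat.squarefree_mul_iff.1 hs).1
        rw [Nat.coprime_comm, Nat.coprime_two_right] at h4
        exact (Nat.not_even_iff_odd.2 h4) (even_iff_two_dvd.2 hpt)
      rw [ht]
    subst hs2
    obtain ⟨d, hdn, hdp, hd⟩ := Nat.forall_exists_prime_gt_and_modEq n (q := 8) (a := 3)
      (by norm_num) (by norm_num)
    have hd8 : d % 8 = 3 := hd
    have hdodd : Odd d := by
      rw [Nat.odd_iff]
      omega
    refine ⟨d, hdodd, ?_⟩
    rw [hred d hdp hdn]
    have h1 : J(((2 : ℕ) : ℤ) | d) = ZMod.χ₈ d := jacobiSym.at_two hdodd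
    rw [h1]
    have h4 : (d : ZMod 8) = 3 := by
      exact_mod_cast (ZMod.natCast_eq_natCast_iff _ _ _).2 hd
    rw [h4]
    decide

/-- The Jacobi symbol at odd integers, extended by zero. -/
def G (n b : ℕ) : ℤ := if Odd b then J(n | b) else 0

theorem G_mod {n : ℕ} (hn : 0 < n) (b : ℕ) : G n (b % (4 * n)) = G n b := by
  unfold G
  have h1 : Odd (b % (4 * n)) ↔ Odd b := by
    rw [Nat.odd_iff, Nat.odd_iff, Nat.mod_mod_of_dvd]
    exact Dvd.intro (2 * n) (by ring)
  by_cases hb : Odd b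
  · rw [if_pos hb, if_pos (h1.2 hb)]
    have := jacobiSym.mod_right (n : ℤ) hb
    rw [Int.natAbs_natCast] at this
    exact this.symm
  · rw [if_neg hb, if_neg (fun h => hb (h1.1 h))]

theorem G_mul (n b c : ℕ) : G n (b * c) = G n b * G n c := by
  unfold G
  by_cases hb : Odd b
  · by_cases hc : Odd c
    · rw [if_pos hb, if_pos hc, if_pos (hb.mul hc)]
      exact jacobiSym.mul_right' _ (by rintro rfl; simp at hb) (by rintro rfl; simp at hc)
    · rw [if_neg hc, if_neg (fun h => hc (Nat.odd_mul.1 h).2), mul_zero]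
  · rw [if_neg hb, if_neg (fun h => hb (Nat.odd_mul.1 h).1), zero_mul]

theorem abs_G_le (n b : ℕ) : |G n b| ≤ 1 := by
  unfold G
  split_ifs
  · rcases jacobiSym.trichotomy n b with h | h | h <;> rw [h] <;> norm_num
  · norm_num

/-- Incomplete sums of the Jacobi symbol over the modulus. -/
theorem abs_sum_G_le {n : ℕ} (hn0 : 0 < n) (hn : ¬ IsSquare n) (Y : ℕ) :
    |∑ b ∈ range Y, (G n b : ℝ)| ≤ 4 * n := by
  have hN : NeZero (4 * n) := ⟨by omega⟩
  set F : ZMod (4 * n) → ℂ := fun a => ((G n a.val : ℤ) : ℂ) with hF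
  have hFn : ∀ b : ℕ, F (b : ZMod (4 * n)) = ((G n b : ℤ) : ℂ) := by
    intro b
    rw [hF]
    simp only
    rw [ZMod.val_natCast, G_mod hn0]
  obtain ⟨d, hd, hJ⟩ := exists_jacobi_neg_one hn0 hn
  have hGd : G n d = -1 := by
    unfold G
    rw [if_pos hd, hJ]
  have hunit : IsUnit (d : ZMod (4 * n)) := by
    rw [ZMod.isUnit_iff_coprime]
    have h1 : n.Coprime d := by
      have : (n : ℤ).gcd d = 1 := by
        by_contra h
        have hd0 : NeZero d := ⟨by rintro rfl; simp at hd⟩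
        have := jacobiSym.eq_zero_iff_not_coprime.2 h
        rw [hJ] at this
        norm_num at this
      rwa [Int.gcd_natCast_natCast] at this
    have h2 : (4 : ℕ).Coprime d := by
      have : (2 : ℕ).Coprime d := Nat.coprime_two_left.2 hd
      exact Nat.Coprime.pow_left 2 this
    exact (Nat.Coprime.mul_left h2 h1).symm
  obtain ⟨u, hu⟩ := hunit
  have hmul : ∀ a : ZMod (4 * n), F (a * u) = - F a := by
    intro a
    have h1 : a * u = ((a.val * d : ℕ) : ZMod (4 * n)) := by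
      push_cast
      rw [ZMod.natCast_zmod_val, hu]
    rw [h1, hFn, G_mul, hGd]
    have h2 : F a = ((G n a.val : ℤ) : ℂ) := rfl
    rw [h2]
    push_cast
    ring
  have h0 : ∑ a : ZMod (4 * n), F a = 0 := by
    have h1 : ∑ a : ZMod (4 * n), F (a * u) = ∑ a : ZMod (4 * n), F a :=
      Equiv.sum_comp (Units.mulRight u) F
    rw [Finset.sum_congr rfl fun a _ => hmul a, Finset.sum_neg_distrib] at h1
    have : (2 : ℂ) * ∑ a : ZMod (4 * n), F a = 0 := by linear_combination -h1
    simpa using this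
  have h1 : ∀ a, ‖F a‖ ≤ 1 := by
    intro a
    rw [hF]
    simp only
    rw [Complex.norm_intCast]
    exact_mod_cast abs_G_le n a.val
  have h2 := norm_sum_range_le F h0 h1 Y
  have h3 : ∑ b ∈ range Y, F (b : ZMod (4 * n)) = ((∑ b ∈ range Y, (G n b : ℝ) : ℝ) : ℂ) := by
    push_cast
    exact Finset.sum_congr rfl fun b _ => hFn b
  rw [h3, Complex.norm_real, Real.norm_eq_abs] at h2
  push_cast at h2
  exact h2

/-- Odd squarefree integers up to `Q`. -/
def oddSF (Q : ℕ) : Finset ℕ := (Icc 1 Q).filter (fun d => Odd d ∧ Squarefree d)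

theorem sum_mu_sq {d : ℕ} (hd : 0 < d) {Q : ℕ} (hdQ : d ≤ Q) :
    ∑ a ∈ (Icc 1 (Nat.sqrt Q)).filter (fun a => a ^ 2 ∣ d), (μ a : ℤ) = if Squarefree d then 1 else 0 := by
  obtain ⟨s, b, hsb, hs⟩ := Nat.sq_mul_squarefree d
  have hb0 : 0 < b := by
    rcases Nat.eq_zero_or_pos b with rfl | h
    · simp at hsb
      omega
    · exact h
  have hs0 : 0 < s := Nat.pos_of_ne_zero hs.ne_zero
  have h1 : (Icc 1 (Nat.sqrt Q)).filter (fun a => a ^ 2 ∣ d) = b.divisors := by
    ext a
    simp only [Finset.mem_filter, Finset.mem_Icc, Nat.mem_divisors]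
    constructor
    · rintro ⟨⟨ha1, ha2⟩, ha3⟩
      refine ⟨?_, hb0.ne'⟩
      rw [← hsb] at ha3
      have hg : 0 < a.gcd b := Nat.gcd_pos_of_pos_left _ ha1
      obtain ⟨g, a', b', hg', hcop, rfl, rfl⟩ := Nat.exists_coprime' hg
      have hg0 : 0 < g := hg'
      have h2 : a' ^ 2 ∣ b' ^ 2 * s := by
        have h3 : g ^ 2 * a' ^ 2 ∣ g ^ 2 * (b' ^ 2 * s) := by
          calc g ^ 2 * a' ^ 2 = (a' * g) ^ 2 := by ring
            _ ∣ (b' * g) ^ 2 * s := ha3
            _ = g ^ 2 * (b' ^ 2 * s) := by ring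
        exact Nat.dvd_of_mul_dvd_mul_left (by positivity) h3
      have h3 : a' ^ 2 ∣ s := (Nat.Coprime.pow 2 2 hcop).dvd_of_dvd_mul_left h2
      have h4 : IsUnit a' := hs a' (by rw [← sq]; exact h3)
      have h5 : a' = 1 := Nat.isUnit_iff.1 h4
      rw [h5, one_mul]
      exact Dvd.intro_left _ rfl
    · rintro ⟨ha, _⟩
      have ha0 : 0 < a := Nat.pos_of_dvd_of_pos ha hb0
      have h2 : a ^ 2 ∣ d := by
        rw [← hsb]
        exact (pow_dvd_pow_of_dvd ha 2).mul_right s
      refine ⟨⟨ha0, ?_⟩, h2⟩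
      rw [Nat.le_sqrt']
      exact (Nat.le_of_dvd hd h2).trans hdQ
  rw [h1]
  have h2 : ∑ a ∈ b.divisors, (μ a : ℤ) = if b = 1 then 1 else 0 := by
    rw [← coe_mul_zeta_apply, moebius_mul_coe_zeta, one_apply]
  rw [h2]
  have h3 : b = 1 ↔ Squarefree d := by
    constructor
    · rintro rfl
      rw [← hsb, one_pow, one_mul]
      exact hs
    · intro h
      have : IsUnit b := h b (by rw [← hsb, ← sq]; exact Dvd.intro _ rfl)
      exact Nat.isUnit_iff.1 this
  by_cases h : b = 1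
  · rw [if_pos h, if_pos (h3.1 h)]
  · rw [if_neg h, if_neg (fun h' => h (h3.2 h'))]

/-- Removing the squarefree condition. -/
theorem sum_oddSF (Q : ℕ) (g : ℕ → ℝ) (hmul : ∀ b c, g (b * c) = g b * g c)
    (heven : ∀ b, ¬ Odd b → g b = 0) :
    ∑ d ∈ oddSF Q, g d = ∑ a ∈ Icc 1 (Nat.sqrt Q), (μ a : ℝ) * (g a) ^ 2 *
      ∑ b ∈ Icc 1 (Q / a ^ 2), g b := by
  have h1 : ∑ d ∈ oddSF Q, g d = ∑ d ∈ Icc 1 Q, ∑ a ∈ Icc 1 (Nat.sqrt Q),
      (if a ^ 2 ∣ d then (μ a : ℝ) * g d else 0) := by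
    unfold oddSF
    rw [Finset.sum_filter]
    refine Finset.sum_congr rfl fun d hd => ?_
    rw [Finset.mem_Icc] at hd
    rw [← Finset.sum_filter, ← Finset.sum_mul]
    have h2 := sum_mu_sq (by omega : 0 < d) hd.2
    have h3 : ∑ a ∈ (Icc 1 (Nat.sqrt Q)).filter (fun a => a ^ 2 ∣ d), (μ a : ℝ) =
        if Squarefree d then 1 else 0 := by
      have : ∑ a ∈ (Icc 1 (Nat.sqrt Q)).filter (fun a => a ^ 2 ∣ d), (μ a : ℝ) =
        ((∑ a ∈ (Icc 1 (Nat.sqrt Q)).filter (fun a => a ^ 2 ∣ d), (μ a : ℤ) : ℤ) : ℝ) := by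
        push_cast
        rfl
      rw [this, h2]
      split_ifs <;> simp
    rw [h3]
    by_cases ho : Odd d <;> by_cases hs : Squarefree d <;> simp [ho, hs, heven]
  rw [h1, Finset.sum_comm]
  refine Finset.sum_congr rfl fun a ha => ?_
  rw [Finset.mem_Icc] at ha
  rw [← Finset.sum_filter, Finset.mul_sum]
  have ha2 : 0 < a ^ 2 := by
    have : 0 < a := ha.1
    positivity
  have h2 : (Icc 1 Q).filter (fun d => a ^ 2 ∣ d) = (Icc 1 (Q / a ^ 2)).image (fun b => a ^ 2 * b) := by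
    ext d
    simp only [Finset.mem_filter, Finset.mem_Icc, Finset.mem_image]
    constructor
    · rintro ⟨⟨h3, h4⟩, m, rfl⟩
      refine ⟨m, ⟨?_, ?_⟩, rfl⟩
      · rcases Nat.eq_zero_or_pos m with rfl | h
        · omega
        · exact h
      · rw [Nat.le_div_iff_mul_le ha2, mul_comm]
        exact h4
    · rintro ⟨m, ⟨h3, h4⟩, rfl⟩
      rw [Nat.le_div_iff_mul_le ha2, mul_comm] at h4
      exact ⟨⟨Nat.mul_pos ha2 h3, h4⟩, Dvd.intro _ rfl⟩
  rw [h2, Finset.sum_image (by
    intro x _ y _ hxy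
    exact Nat.eq_of_mul_eq_mul_left ha2 hxy)]
  refine Finset.sum_congr rfl fun b _ => ?_
  rw [hmul, sq a, hmul]
  ring

/-- The average of the Jacobi symbol of a non-square is small. -/
theorem nonsquare_avg {n : ℕ} (hn0 : 0 < n) (hn : ¬ IsSquare n) (Q : ℕ) :
    |∑ d ∈ oddSF Q, (G n d : ℝ)| ≤ 4 * n * Real.sqrt Q := by
  rw [sum_oddSF Q (fun d => (G n d : ℝ)) (fun b c => by
      simp only [G_mul]
      push_cast
      rfl) (fun b hb => by simp [G, hb])]
  calc _ ≤ ∑ a ∈ Icc 1 (Nat.sqrt Q), (4 * n : ℝ) := by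
        refine (Finset.abs_sum_le_sum_abs _ _).trans (Finset.sum_le_sum fun a _ => ?_)
        rw [abs_mul, abs_mul]
        have h1 : |((μ a : ℤ) : ℝ)| ≤ 1 := Selberg.abs_mu_le a
        have h2 : |(G n a : ℝ) ^ 2| ≤ 1 := by
          rw [abs_pow]
          have : |(G n a : ℝ)| ≤ 1 := by exact_mod_cast abs_G_le n a
          exact pow_le_one₀ (abs_nonneg _) this
        have h3 : |∑ b ∈ Icc 1 (Q / a ^ 2), (G n b : ℝ)| ≤ 4 * n := by
          have h4 := abs_sum_G_le hn0 hn (Q / a ^ 2 + 1)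
          have h5 : ∑ b ∈ range (Q / a ^ 2 + 1), (G n b : ℝ) = ∑ b ∈ Icc 1 (Q / a ^ 2), (G n b : ℝ) := by
            rw [Finset.sum_range_eq_add_Ico _ (Nat.succ_pos _)]
            have : Finset.Ico 1 (Q / a ^ 2 + 1) = Icc 1 (Q / a ^ 2) := by
              ext m
              simp only [Finset.mem_Ico, Finset.mem_Icc]
              omega
            rw [this]
            simp [G]
          rwa [h5] at h4
        calc |((μ a : ℤ) : ℝ)| * |(G n a : ℝ) ^ 2| * |∑ b ∈ Icc 1 (Q / a ^ 2), (G n b : ℝ)|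
            ≤ 1 * 1 * (4 * n) := by gcongr
          _ = 4 * n := by ring
    _ = (Nat.sqrt Q : ℝ) * (4 * n) := by
        simp [Finset.sum_const, Nat.card_Icc]
    _ ≤ Real.sqrt Q * (4 * n) := by
        gcongr
        exact Real.nat_sqrt_le_real_sqrt
    _ = _ := by ring

end Pool.Agent.Helper4.ST
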