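import Pool.Agent.Helper4.ST.JacobiAvg

set_option autoImplicit false

/-!
Averages of Jacobi symbols of squares over odd squarefree moduli.
-/

namespace Pool.Agent.Helper4.ST

open Finset ArithmeticFunction Filter Topology
open scoped NumberTheorySymbols ArithmeticFunction.Moebius ArithmeticFunction.zeta

theorem card_odd (Y : ℕ) : ((Icc 1 Y).filter Odd).card = (Y + 1) / 2 := by
  induction Y with
  | zero => simp
  | succ Y ih =>
    rw [← Finset.insert_Icc_right_eq_Icc_add_one (by omega), Finset.filter_insert]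
    by_cases h : Odd (Y + 1)
    · rw [if_pos h, Finset.card_insert_of_notMem (by simp), ih]
      rw [Nat.odd_iff] at h
      omega
    · rw [if_neg h, ih]
      rw [Nat.odd_iff] at h
      omega

theorem card_oddSF : ∃ c : ℝ, 1 / 4 ≤ c ∧ c ≤ 1 ∧
    ∀ Q : ℕ, |((oddSF Q).card : ℝ) - c * Q| ≤ 4 * Real.sqrt Q := by
  classical
  set g : ℕ → ℝ := fun b => if Odd b then 1 else 0 with hg
  set h : ℕ → ℝ := fun a => (μ a : ℝ) * (g a) ^ 2 / (2 * (a : ℝ) ^ 2) with hh
  have hg1 : ∀ a, |g a ^ 2| ≤ 1 := by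
    intro a
    rw [hg]
    simp only
    split_ifs <;> norm_num
  have hha : ∀ a, |h a| ≤ 1 / 2 * ((a : ℝ) ^ 2)⁻¹ := by
    intro a
    rw [hh]
    simp only
    rw [abs_div, abs_mul, abs_of_nonneg (by positivity : (0 : ℝ) ≤ 2 * (a : ℝ) ^ 2)]
    have h1 : |((μ a : ℤ) : ℝ)| ≤ 1 := Selberg.abs_mu_le a
    have h2 := hg1 a
    calc |((μ a : ℤ) : ℝ)| * |g a ^ 2| / (2 * (a : ℝ) ^ 2) ≤ 1 * 1 / (2 * (a : ℝ) ^ 2) := by
          gcongr
      _ = _ := by
        rw [mul_one, one_div, mul_inv]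
        ring
  have hsum : Summable h := by
    apply Summable.of_norm_bounded (g := fun a : ℕ => 1 / 2 * ((a : ℝ) ^ 2)⁻¹)
    · apply Summable.mul_left
      exact Real.summable_nat_pow_inv.2 (by norm_num)
    · intro a
      rw [Real.norm_eq_abs]
      exact hha a
  set c : ℝ := ∑' a, h a with hc
  have htail : ∀ N : ℕ, 1 ≤ N → |c - ∑ a ∈ Icc 1 N, h a| ≤ 1 / 2 * (N : ℝ)⁻¹ := by
    intro N hN
    have h1 : Tendsto (fun M : ℕ => ∑ a ∈ range (M + 1), h a) atTop (𝓝 c) :=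
      (hsum.hasSum.tendsto_sum_nat).comp (tendsto_add_atTop_nat 1)
    have h2 : ∀ M : ℕ, ∑ a ∈ range (M + 1), h a = ∑ a ∈ Icc 1 M, h a := by
      intro M
      rw [Finset.sum_range_eq_add_Ico _ (Nat.succ_pos _)]
      have : Finset.Ico 1 (M + 1) = Icc 1 M := by
        ext m
        simp only [Finset.mem_Ico, Finset.mem_Icc]
        omega
      rw [this]
      simp [hh]
    simp only [h2] at h1
    have h3 : Tendsto (fun M : ℕ => |∑ a ∈ Icc 1 M, h a - ∑ a ∈ Icc 1 N, h a|) atTop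
        (𝓝 |c - ∑ a ∈ Icc 1 N, h a|) := (h1.sub_const _).abs
    refine le_of_tendsto h3 ?_
    filter_upwards [eventually_ge_atTop N] with M hM
    have h4 : ∑ a ∈ Icc 1 M, h a - ∑ a ∈ Icc 1 N, h a = ∑ a ∈ Ioc N M, h a := by
      have h5 : Icc 1 M = Icc 1 N ∪ Ioc N M := by
        ext m
        simp only [Finset.mem_Icc, Finset.mem_union, Finset.mem_Ioc]
        omega
      rw [h5, Finset.sum_union]
      · ring
      · rw [Finset.disjoint_left]
        intro m hm hm'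
        rw [Finset.mem_Icc] at hm
        rw [Finset.mem_Ioc] at hm'
        omega
    rw [h4]
    calc |∑ a ∈ Ioc N M, h a| ≤ ∑ a ∈ Ioc N M, 1 / 2 * ((a : ℝ) ^ 2)⁻¹ :=
          (Finset.abs_sum_le_sum_abs _ _).trans (Finset.sum_le_sum fun a _ => hha a)
      _ = 1 / 2 * ∑ a ∈ Ioc N M, ((a : ℝ) ^ 2)⁻¹ := by rw [Finset.mul_sum]
      _ ≤ 1 / 2 * ((N : ℝ)⁻¹ - (M : ℝ)⁻¹) := by
          gcongr
          exact sum_Ioc_inv_sq_le_sub (by omega) hM
      _ ≤ 1 / 2 * (N : ℝ)⁻¹ := by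
          have : (0 : ℝ) ≤ (M : ℝ)⁻¹ := by positivity
          linarith
  have hS2 : ∑ a ∈ Icc 1 2, h a = 1 / 2 := by
    have : Icc 1 2 = {1, 2} := by decide
    rw [this, Finset.sum_pair (by norm_num)]
    simp only [hh, hg]
    norm_num
  have hc2 := htail 2 (by norm_num)
  rw [hS2, abs_le] at hc2
  push_cast at hc2
  refine ⟨c, by linarith [hc2.1], by linarith [hc2.2], ?_⟩
  intro Q
  rcases Nat.eq_zero_or_pos Q with rfl | hQ
  · simp [oddSF]
  have hQ1 : (1 : ℝ) ≤ Q := by exact_mod_cast hQ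
  have hsq1 : 1 ≤ Real.sqrt Q := Real.one_le_sqrt.2 hQ1
  set N : ℕ := Nat.sqrt Q with hN
  have hN1 : 1 ≤ N := by
    rw [hN, Nat.le_sqrt]
    omega
  have h1 : ((oddSF Q).card : ℝ) = ∑ a ∈ Icc 1 N, (μ a : ℝ) * (g a) ^ 2 *
      ∑ b ∈ Icc 1 (Q / a ^ 2), g b := by
    rw [← sum_oddSF Q g (fun b c => by
        simp only [hg, Nat.odd_mul]
        by_cases hb : Odd b <;> by_cases hc : Odd c <;> simp [hb, hc]) (fun b hb => by simp [hg, hb])]
    rw [Finset.card_eq_sum_ones]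
    push_cast
    refine Finset.sum_congr rfl fun d hd => ?_
    unfold oddSF at hd
    rw [Finset.mem_filter] at hd
    simp [hg, hd.2.1]
  have h2 : ∀ a ∈ Icc 1 N, |(μ a : ℝ) * (g a) ^ 2 * ∑ b ∈ Icc 1 (Q / a ^ 2), g b - Q * h a| ≤ 1 := by
    intro a ha
    rw [Finset.mem_Icc] at ha
    have ha0 : (0 : ℝ) < a := by exact_mod_cast ha.1
    have h3 : ∑ b ∈ Icc 1 (Q / a ^ 2), g b = (((Q / a ^ 2 + 1) / 2 : ℕ) : ℝ) := by
      rw [hg]
      simp only
      rw [← Finset.sum_filter, Finset.sum_const, nsmul_eq_mul, mul_one, card_odd]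
    have h4 : |(((Q / a ^ 2 + 1) / 2 : ℕ) : ℝ) - Q / (2 * (a : ℝ) ^ 2)| ≤ 1 := by
      have h5 : ((Q / a ^ 2 : ℕ) : ℝ) ≤ (Q : ℝ) / (a : ℝ) ^ 2 := by
        have := @Nat.cast_div_le ℝ _ _ _ Q (a ^ 2)
        push_cast at this
        exact this
      have h6 : (Q : ℝ) / (a : ℝ) ^ 2 < ((Q / a ^ 2 : ℕ) : ℝ) + 1 := by
        have ha2 : 0 < a ^ 2 := by
          have := ha.1
          positivity
        rw [div_lt_iff₀ (by positivity)]
        have h7 := Nat.lt_div_mul_add ha2 (a := Q)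
        have h8 : (Q : ℝ) < (Q / a ^ 2 : ℕ) * ((a : ℝ) ^ 2) + (a : ℝ) ^ 2 := by exact_mod_cast h7
        linarith
      have h7 : (((Q / a ^ 2 + 1) / 2 : ℕ) : ℝ) ≤ (((Q / a ^ 2 : ℕ) : ℝ) + 1) / 2 := by
        have := @Nat.cast_div_le ℝ _ _ _ (Q / a ^ 2 + 1) 2
        push_cast at this
        exact this
      have h8 : ((Q / a ^ 2 : ℕ) : ℝ) / 2 ≤ (((Q / a ^ 2 + 1) / 2 : ℕ) : ℝ) := by
        have : Q / a ^ 2 ≤ 2 * ((Q / a ^ 2 + 1) / 2) := by omega
        have : ((Q / a ^ 2 : ℕ) : ℝ) ≤ 2 * (((Q / a ^ 2 + 1) / 2 : ℕ) : ℝ) := by exact_mod_cast this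
        linarith
      have h9 : (Q : ℝ) / (2 * (a : ℝ) ^ 2) = (Q : ℝ) / (a : ℝ) ^ 2 / 2 := by
        rw [div_div, mul_comm]
      rw [h9, abs_le]
      exact ⟨by linarith, by linarith⟩
    have h5 : (μ a : ℝ) * (g a) ^ 2 * ∑ b ∈ Icc 1 (Q / a ^ 2), g b - Q * h a =
        (μ a : ℝ) * (g a) ^ 2 * ((((Q / a ^ 2 + 1) / 2 : ℕ) : ℝ) - Q / (2 * (a : ℝ) ^ 2)) := by
      rw [h3, hh]
      simp only
      ring
    rw [h5, abs_mul, abs_mul]
    have h6 : |((μ a : ℤ) : ℝ)| ≤ 1 := Selberg.abs_mu_le a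
    calc |((μ a : ℤ) : ℝ)| * |g a ^ 2| * |(((Q / a ^ 2 + 1) / 2 : ℕ) : ℝ) - Q / (2 * (a : ℝ) ^ 2)|
        ≤ 1 * 1 * 1 := by
          gcongr
          exact hg1 a
      _ = 1 := by norm_num
  have h3 : |((oddSF Q).card : ℝ) - Q * ∑ a ∈ Icc 1 N, h a| ≤ N := by
    rw [h1, Finset.mul_sum, ← Finset.sum_sub_distrib]
    refine (Finset.abs_sum_le_sum_abs _ _).trans ((Finset.sum_le_sum h2).trans ?_)
    simp
  have h4 := htail N hN1
  have hNle : (N : ℝ) ≤ Real.sqrt Q := Real.nat_sqrt_le_real_sqrt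
  have hNge : Real.sqrt Q ≤ 2 * N := by
    have h5 : Real.sqrt Q ≤ N + 1 := Real.real_sqrt_le_nat_sqrt_succ
    have h6 : (1 : ℝ) ≤ N := by exact_mod_cast hN1
    linarith
  have h5 : (Q : ℝ) * (N : ℝ)⁻¹ ≤ 2 * Real.sqrt Q := by
    have hN0 : (0 : ℝ) < N := by exact_mod_cast hN1
    rw [← div_eq_mul_inv, div_le_iff₀ hN0]
    have h6 : Real.sqrt Q * Real.sqrt Q = Q := Real.mul_self_sqrt (by positivity)
    nlinarith
  have h6 : |((oddSF Q).card : ℝ) - c * Q| ≤ |((oddSF Q).card : ℝ) - Q * ∑ a ∈ Icc 1 N, h a| +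
      Q * |c - ∑ a ∈ Icc 1 N, h a| := by
    have h7 : ((oddSF Q).card : ℝ) - c * Q = (((oddSF Q).card : ℝ) - Q * ∑ a ∈ Icc 1 N, h a) -
        Q * (c - ∑ a ∈ Icc 1 N, h a) := by ring
    rw [h7]
    refine (abs_sub _ _).trans ?_
    rw [abs_mul, abs_of_nonneg (by linarith : (0 : ℝ) ≤ Q)]
  have h7 : (Q : ℝ) * |c - ∑ a ∈ Icc 1 N, h a| ≤ Q * (1 / 2 * (N : ℝ)⁻¹) := by gcongr
  nlinarith

/-- The number of odd squarefree integers free of prime factors from `T`. -/
def HT (Q : ℕ) (T : Finset ℕ) : ℕ := ((oddSF Q).filter (fun d => ∀ p ∈ T, ¬ p ∣ d)).card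

theorem HT_step (Q : ℕ) (T : Finset ℕ) (p : ℕ) (hp : p.Prime) (hp2 : p ≠ 2) (hT : ∀ r ∈ T, r.Prime)
    (hpT : p ∉ T) : HT Q T = HT Q (insert p T) + HT (Q / p) (insert p T) := by
  unfold HT
  have h1 : ((oddSF Q).filter (fun d => ∀ r ∈ T, ¬ r ∣ d)) =
      ((oddSF Q).filter (fun d => ∀ r ∈ insert p T, ¬ r ∣ d)) ∪
      ((oddSF (Q / p)).filter (fun d => ∀ r ∈ insert p T, ¬ r ∣ d)).image (fun d => p * d) := by
    ext d
    simp only [oddSF, Finset.mem_union, Finset.mem_filter, Finset.mem_image, Finset.mem_Icc,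
      Finset.mem_insert, forall_eq_or_imp]
    constructor
    · rintro ⟨⟨⟨h1, h2⟩, h3, h4⟩, h5⟩
      by_cases hpd : p ∣ d
      · right
        obtain ⟨e, rfl⟩ := hpd
        have he : 0 < e := by
          rcases Nat.eq_zero_or_pos e with rfl | h
          · omega
          · exact h
        refine ⟨e, ⟨⟨⟨he, ?_⟩, (Nat.odd_mul.1 h3).2, (Nat.squarefree_mul_iff.1 h4).2.2⟩, ?_, ?_⟩, rfl⟩
        · rw [Nat.le_div_iff_mul_le hp.pos, mul_comm]
          exact h2
        · exact (Nat.Prime.coprime_iff_not_dvd hp).1 (Nat.squarefree_mul_iff.1 h4).1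
        · intro r hr hre
          exact h5 r hr (hre.mul_left p)
      · left
        exact ⟨⟨⟨h1, h2⟩, h3, h4⟩, hpd, h5⟩
    · rintro (⟨⟨⟨h1, h2⟩, h3, h4⟩, _, h5⟩ | ⟨e, ⟨⟨⟨h1, h2⟩, h3, h4⟩, h5, h6⟩, rfl⟩)
      · exact ⟨⟨⟨h1, h2⟩, h3, h4⟩, h5⟩
      · rw [Nat.le_div_iff_mul_le hp.pos, mul_comm] at h2
        refine ⟨⟨⟨Nat.mul_pos hp.pos h1, h2⟩, (hp.odd_of_ne_two hp2).mul h3, ?_⟩, ?_⟩
        · rw [Nat.squarefree_mul_iff]
          exact ⟨(Nat.Prime.coprime_iff_not_dvd hp).2 h5, hp.squarefree, h4⟩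
        · intro r hr hrp
          rcases (Nat.Prime.dvd_mul (hT r hr)).1 hrp with h | h
          · have := (Nat.prime_dvd_prime_iff_eq (hT r hr) hp).1 h
            exact hpT (this ▸ hr)
          · exact h6 r hr h
  rw [h1, Finset.card_union_of_disjoint, Finset.card_image_of_injective]
  · intro a b hab
    exact Nat.eq_of_mul_eq_mul_left hp.pos hab
  · rw [Finset.disjoint_left]
    intro d hd hd'
    rw [Finset.mem_filter] at hd
    rw [Finset.mem_image] at hd'
    obtain ⟨e, _, rfl⟩ := hd'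
    exact hd.2 p (Finset.mem_insert_self p T) (Dvd.intro _ rfl)

theorem HT_asymp (c : ℝ) (hc1 : 1 / 4 ≤ c) (hc2 : c ≤ 1)
    (hc : ∀ Q : ℕ, |((oddSF Q).card : ℝ) - c * Q| ≤ 4 * Real.sqrt Q)
    (T : Finset ℕ) : (∀ p ∈ T, p.Prime ∧ p ≠ 2) → ∀ Q : ℕ,
      |(HT Q T : ℝ) - (∏ p ∈ T, ((p : ℝ) / (p + 1))) * c * Q| ≤ 4 * 3 ^ T.card * Real.sqrt Q := by
  induction T using Finset.induction_on with
  | empty =>
    intro _ Q
    simp only [HT, Finset.notMem_empty, false_imp_iff, implies_true, Finset.filter_true,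
      Finset.prod_empty, one_mul, Finset.card_empty, pow_zero, mul_one]
    exact hc Q
  | insert p T hpT ih =>
    intro hT Q
    have hp := (hT p (Finset.mem_insert_self p T)).1
    have hp2 := (hT p (Finset.mem_insert_self p T)).2
    have hT' : ∀ r ∈ T, r.Prime ∧ r ≠ 2 := fun r hr => hT r (Finset.mem_insert_of_mem hr)
    have ih' := ih hT'
    rw [Finset.prod_insert hpT, Finset.card_insert_of_notMem hpT]
    set ρ : ℝ := ∏ p ∈ T, ((p : ℝ) / (p + 1)) with hρ
    have hρ0 : 0 ≤ ρ := Finset.prod_nonneg fun r _ => by positivity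
    have hρ1 : ρ ≤ 1 := by
      apply Finset.prod_le_one
      · intro r _
        positivity
      · intro r _
        rw [div_le_one (by positivity)]
        linarith
    have hp3 : (3 : ℝ) ≤ p := by
      have : 2 < p := lt_of_le_of_ne hp.two_le (Ne.symm hp2)
      exact_mod_cast this
    have hp0 : (0 : ℝ) < p := by linarith
    set E : ℝ := 4 * 3 ^ T.card with hE
    have hE4 : 4 ≤ E := by
      have : (1 : ℝ) ≤ 3 ^ T.card := one_le_pow₀ (by norm_num)
      linarith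
    have h3pow : (4 : ℝ) * 3 ^ (T.card + 1) = 3 * E := by
      rw [pow_succ, hE]
      ring
    rw [h3pow]
    induction Q using Nat.strong_induction_on with
    | _ Q ihQ =>
      rcases Nat.eq_zero_or_pos Q with rfl | hQ
      · simp [HT, oddSF]
      · have hstep := HT_step Q T p hp hp2 (fun r hr => (hT' r hr).1) hpT
        have hlt : Q / p < Q := Nat.div_lt_self hQ hp.one_lt
        have h1 := ihQ (Q / p) hlt
        have h2 := ih' Q
        have hQ1 : (1 : ℝ) ≤ Q := by exact_mod_cast hQ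
        have hsq1 : 1 ≤ Real.sqrt Q := Real.one_le_sqrt.2 hQ1
        have hstep' : (HT Q (insert p T) : ℝ) = HT Q T - HT (Q / p) (insert p T) := by
          have : (HT Q T : ℝ) = HT Q (insert p T) + HT (Q / p) (insert p T) := by exact_mod_cast hstep
          linarith
        -- the size of `Q / p`
        have hf1 : ((Q / p : ℕ) : ℝ) ≤ (Q : ℝ) / p := Nat.cast_div_le
        have hf2 : (Q : ℝ) / p < ((Q / p : ℕ) : ℝ) + 1 := by
          rw [div_lt_iff₀ hp0]
          have h7 := Nat.lt_div_mul_add hp.pos (a := Q)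
          have h8 : (Q : ℝ) < (Q / p : ℕ) * (p : ℝ) + (p : ℝ) := by exact_mod_cast h7
          linarith
        have hsqp : Real.sqrt ((Q / p : ℕ) : ℝ) ≤ 0.58 * Real.sqrt Q := by
          have h5 : Real.sqrt ((Q / p : ℕ) : ℝ) ≤ Real.sqrt ((0.58) ^ 2 * Q) := by
            apply Real.sqrt_le_sqrt
            refine hf1.trans ?_
            rw [div_le_iff₀ hp0]
            nlinarith
          rw [Real.sqrt_mul (by norm_num), Real.sqrt_sq (by norm_num)] at h5
          exact h5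
        set ρ' : ℝ := (p : ℝ) / (p + 1) * ρ with hρ'
        have hρ'0 : 0 ≤ ρ' := by positivity
        have hρ'1 : ρ' ≤ 1 := by
          have : (p : ℝ) / (p + 1) ≤ 1 := by
            rw [div_le_one (by positivity)]
            linarith
          calc ρ' ≤ 1 * 1 := by
                rw [hρ']
                gcongr
            _ = 1 := one_mul _
        have hid : ρ' * c * Q = ρ * c * Q - ρ' * c * ((Q : ℝ) / p) := by
          rw [hρ']
          field_simp
          ring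
        have hsplit : (HT Q (insert p T) : ℝ) - ρ' * c * Q =
            ((HT Q T : ℝ) - ρ * c * Q) - ((HT (Q / p) (insert p T) : ℝ) - ρ' * c * ((Q / p : ℕ) : ℝ)) +
            ρ' * c * ((Q : ℝ) / p - ((Q / p : ℕ) : ℝ)) := by
          rw [hstep', hid]
          ring
        rw [hsplit]
        have h4 : |ρ' * c * ((Q : ℝ) / p - ((Q / p : ℕ) : ℝ))| ≤ 1 := by
          rw [abs_mul, abs_mul, abs_of_nonneg hρ'0, abs_of_nonneg (by linarith : (0 : ℝ) ≤ c),
            abs_of_nonneg (by linarith : (0 : ℝ) ≤ (Q : ℝ) / p - ((Q / p : ℕ) : ℝ))]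
          calc ρ' * c * ((Q : ℝ) / p - ((Q / p : ℕ) : ℝ)) ≤ 1 * 1 * 1 := by
                gcongr
                linarith
            _ = 1 := by norm_num
        have h5 := abs_add_le (((HT Q T : ℝ) - ρ * c * Q) -
          ((HT (Q / p) (insert p T) : ℝ) - ρ' * c * ((Q / p : ℕ) : ℝ)))
          (ρ' * c * ((Q : ℝ) / p - ((Q / p : ℕ) : ℝ)))
        have h6 := abs_sub ((HT Q T : ℝ) - ρ * c * Q)
          ((HT (Q / p) (insert p T) : ℝ) - ρ' * c * ((Q / p : ℕ) : ℝ))
        have h7 : 3 * E * Real.sqrt ((Q / p : ℕ) : ℝ) ≤ 3 * E * (0.58 * Real.sqrt Q) := by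
          gcongr
        nlinarith

/-- The weight of a prime. -/
noncomputable def wp (p : ℕ) : ℝ := if p = 2 then 1 else (p : ℝ) / (p + 1)

/-- The expected value of a character at `n`. -/
noncomputable def kap (n : ℕ) : ℝ := if IsSquare n then ∏ p ∈ n.primeFactors, wp p else 0

theorem G_square {n d : ℕ} (hn : IsSquare n) (hn0 : 0 < n) (hd : Odd d) :
    G n d = if ∀ p ∈ n.primeFactors.erase 2, ¬ p ∣ d then 1 else 0 := by
  have hd0 : NeZero d := ⟨by rintro rfl; simp at hd⟩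
  unfold G
  rw [if_pos hd]
  obtain ⟨t, rfl⟩ := hn
  push_cast
  have h1 : ((t : ℤ) * t) = (t : ℤ) ^ 2 := by ring
  rw [h1]
  split_ifs with h
  · apply jacobiSym.sq_one'
    rw [Int.gcd_natCast_natCast]
    by_contra hno
    obtain ⟨p, hp, hpg⟩ := Nat.exists_prime_and_dvd hno
    have hpt : p ∣ t := hpg.trans (Nat.gcd_dvd_left _ _)
    have hpd : p ∣ d := hpg.trans (Nat.gcd_dvd_right _ _)
    have hp2 : p ≠ 2 := by
      rintro rfl
      exact (Nat.not_even_iff_odd.2 hd) (even_iff_two_dvd.2 hpd)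
    exact h p (Finset.mem_erase.2 ⟨hp2, Nat.mem_primeFactors.2 ⟨hp, hpt.mul_left t, hn0.ne'⟩⟩) hpd
  · push Not at h
    obtain ⟨p, hp, hpd⟩ := h
    rw [Finset.mem_erase, Nat.mem_primeFactors] at hp
    have hpt : p ∣ t := by
      rcases (Nat.Prime.dvd_mul hp.2.1).1 hp.2.2.1 with h | h <;> exact h
    rw [jacobiSym.pow_left]
    have : J(t | d) = 0 := by
      rw [jacobiSym.eq_zero_iff_not_coprime, Int.gcd_natCast_natCast]
      intro h
      have := Nat.dvd_gcd hpt hpd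
      rw [h, Nat.dvd_one] at this
      exact hp.2.1.one_lt.ne' this
    rw [this]
    norm_num

theorem kap_square {n : ℕ} (hn : IsSquare n) :
    kap n = ∏ p ∈ n.primeFactors.erase 2, ((p : ℝ) / (p + 1)) := by
  unfold kap
  rw [if_pos hn]
  have h1 : ∏ p ∈ n.primeFactors.erase 2, ((p : ℝ) / (p + 1)) =
      ∏ p ∈ n.primeFactors.erase 2, wp p := by
    refine Finset.prod_congr rfl fun p hp => ?_
    unfold wp
    rw [if_neg (Finset.ne_of_mem_erase hp)]
  rw [h1]
  by_cases h2 : 2 ∈ n.primeFactors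
  · rw [← Finset.mul_prod_erase _ _ h2]
    simp [wp]
  · rw [Finset.erase_eq_of_notMem h2]

/-- **The average of the Jacobi symbol.** -/
theorem avg_G (n : ℕ) (hn0 : 0 < n) (Q : ℕ) (hQ : 1024 ≤ Q) :
    |(∑ d ∈ oddSF Q, (G n d : ℝ)) / ((oddSF Q).card : ℝ) - kap n| ≤ 64 * n / Real.sqrt Q := by
  obtain ⟨c, hc1, hc2, hc⟩ := card_oddSF
  have hQ0 : (0 : ℝ) < Q := by
    have : 0 < Q := by omega
    exact_mod_cast this
  set s : ℝ := Real.sqrt Q with hs
  have hs32 : 32 ≤ s := by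
    rw [hs]
    apply Real.le_sqrt_of_sq_le
    norm_num
    exact_mod_cast hQ
  have hss : s * s = Q := Real.mul_self_sqrt hQ0.le
  have hs0 : 0 < s := by linarith
  have hcardge : s * s / 8 ≤ ((oddSF Q).card : ℝ) := by
    have h1 := hc Q
    rw [← hs, abs_le] at h1
    have h2 : (1 : ℝ) / 4 * Q ≤ c * Q := by gcongr
    have h3 := h1.1
    nlinarith
  have hcard0 : 0 < ((oddSF Q).card : ℝ) := lt_of_lt_of_le (by positivity) hcardge
  have hn1 : (1 : ℝ) ≤ n := by exact_mod_cast hn0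
  by_cases hsq : IsSquare n
  · set T := n.primeFactors.erase 2 with hT
    have hsum : ∑ d ∈ oddSF Q, (G n d : ℝ) = (HT Q T : ℝ) := by
      unfold HT
      rw [Finset.card_eq_sum_ones, Finset.sum_filter]
      push_cast
      refine Finset.sum_congr rfl fun d hd => ?_
      have hdo : Odd d := by
        unfold oddSF at hd
        exact (Finset.mem_filter.1 hd).2.1
      rw [G_square hsq hn0 hdo]
      split_ifs <;> simp
    have hTp : ∀ p ∈ T, p.Prime ∧ p ≠ 2 := by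
      intro p hp
      rw [hT, Finset.mem_erase, Nat.mem_primeFactors] at hp
      exact ⟨hp.2.1, hp.1⟩
    have h1 := HT_asymp c hc1 hc2 hc T hTp Q
    rw [hsum, kap_square hsq]
    set ρ := ∏ p ∈ T, ((p : ℝ) / (p + 1)) with hρ
    have hρ0 : 0 ≤ ρ := Finset.prod_nonneg fun r _ => by positivity
    have hρ1 : ρ ≤ 1 := by
      apply Finset.prod_le_one
      · intro r _
        positivity
      · intro r _
        rw [div_le_one (by positivity)]
        linarith
    have hTn : (3 : ℝ) ^ T.card ≤ n := by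
      have h2 : 3 ^ T.card ≤ ∏ p ∈ T, p := by
        apply Finset.pow_card_le_prod
        intro p hp
        have := (hTp p hp).1.two_le
        have := (hTp p hp).2
        omega
      have h3 : ∏ p ∈ T, p ∣ n := by
        refine dvd_trans ?_ (Nat.prod_primeFactors_dvd n)
        exact Finset.prod_dvd_prod_of_subset _ _ _ (Finset.erase_subset _ _)
      exact_mod_cast h2.trans (Nat.le_of_dvd hn0 h3)
    rw [div_sub' hcard0.ne', abs_div, abs_of_pos hcard0, div_le_iff₀ hcard0]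
    have h2 : (HT Q T : ℝ) - ((oddSF Q).card : ℝ) * ρ =
        ((HT Q T : ℝ) - ρ * c * Q) - ρ * (((oddSF Q).card : ℝ) - c * Q) := by ring
    rw [h2]
    have h3 : |ρ * (((oddSF Q).card : ℝ) - c * Q)| ≤ 4 * s := by
      rw [abs_mul, abs_of_nonneg hρ0]
      calc ρ * |((oddSF Q).card : ℝ) - c * Q| ≤ 1 * (4 * s) := by
            gcongr
            exact hc Q
        _ = 4 * s := one_mul _
    have h4 : 4 * (3 : ℝ) ^ T.card * s ≤ 4 * n * s := by gcongr
    have h5 := abs_sub ((HT Q T : ℝ) - ρ * c * Q) (ρ * (((oddSF Q).card : ℝ) - c * Q))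
    have h6 : 64 * (n : ℝ) / s * (s * s / 8) ≤ 64 * (n : ℝ) / s * ((oddSF Q).card : ℝ) := by gcongr
    have h7 : 64 * (n : ℝ) / s * (s * s / 8) = 8 * n * s := by
      field_simp
      ring
    rw [h7] at h6
    nlinarith
  · have h1 := nonsquare_avg hn0 hsq Q
    unfold kap
    rw [if_neg hsq, sub_zero, abs_div, abs_of_pos hcard0, div_le_iff₀ hcard0]
    refine h1.trans ?_
    have h6 : 64 * (n : ℝ) / s * (s * s / 8) ≤ 64 * (n : ℝ) / s * ((oddSF Q).card : ℝ) := by gcongr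
    have h7 : 64 * (n : ℝ) / s * (s * s / 8) = 8 * n * s := by
      field_simp
      ring
    rw [h7] at h6
    refine le_trans ?_ h6
    gcongr
    norm_num

end Pool.Agent.Helper4.ST
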