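import Pool.Agent.Helper4.ST.MomentsJ

set_option autoImplicit false

/-!
The moments of normalised sums of Jacobi symbols.
-/

namespace Pool.Agent.Helper4.ST

open Finset

theorem vari_map (a : ℕ → ℝ) (L : List ℕ) :
    vari (L.map (fun p => (a p, wp p))) = (L.map (fun p => wp p * a p ^ 2)).sum := by
  induction L with
  | nil => simp [vari]
  | cons p L ih =>
    simp only [List.map_cons, vari, List.sum_cons, ih]
    ring

theorem wp_nonneg (p : ℕ) : 0 ≤ wp p := by
  unfold wp
  split_ifs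
  · norm_num
  · positivity

theorem wp_le_one (p : ℕ) : wp p ≤ 1 := by
  unfold wp
  split_ifs
  · norm_num
  · rw [div_le_one (by positivity)]
    linarith

theorem kap_one : kap 1 = 1 := by
  unfold kap
  rw [if_pos ⟨1, rfl⟩]
  simp

/-- **The moments.** -/
theorem moments_main (m k : ℕ) (ε : ℝ) (hε : 0 < ε) : ∃ C : ℝ, 1 ≤ C ∧ ∀ (a : ℕ → ℝ) (X Q : ℕ),
    (∀ p, |a p| ≤ m) →
    C ≤ ∑ p ∈ (range (X + 1)).filter Nat.Prime, wp p * a p ^ 2 → (X : ℝ) ^ C ≤ Q →
    |Eav Q (fun d => ((∑ p ∈ (range (X + 1)).filter Nat.Prime, a p * (G p d : ℝ)) /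
      Real.sqrt (∑ p ∈ (range (X + 1)).filter Nat.Prime, wp p * a p ^ 2)) ^ k) -
      (if Even k then ((k - 1).doubleFactorial : ℝ) else 0)| ≤ ε := by
  set B : ℝ := (m : ℝ) ^ 2 + 1 with hB
  have hB1 : 1 ≤ B := by
    rw [hB]
    nlinarith [sq_nonneg (m : ℝ)]
  obtain ⟨c, hc0, hc⟩ := moment_asymp B hB1 k
  set C : ℝ := 4 * k + 2 + 32 * B + 128 * (m : ℝ) ^ k * B / ε + 2 * c * 2 ^ k / ε with hC
  have hCk : 4 * (k : ℝ) + 2 ≤ C := by
    rw [hC]
    have : 0 ≤ 32 * B + 128 * (m : ℝ) ^ k * B / ε + 2 * c * 2 ^ k / ε := by positivity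
    linarith
  have hCB : 32 * B ≤ C := by
    rw [hC]
    have : 0 ≤ 4 * (k : ℝ) + 2 + 128 * (m : ℝ) ^ k * B / ε + 2 * c * 2 ^ k / ε := by positivity
    linarith
  have hCm : 128 * (m : ℝ) ^ k * B / ε ≤ C := by
    rw [hC]
    have : 0 ≤ 4 * (k : ℝ) + 2 + 32 * B + 2 * c * 2 ^ k / ε := by positivity
    linarith
  have hCc : 2 * c * 2 ^ k / ε ≤ C := by
    rw [hC]
    have : 0 ≤ 4 * (k : ℝ) + 2 + 32 * B + 128 * (m : ℝ) ^ k * B / ε := by positivity
    linarith
  have hC1 : 1 ≤ C := by linarith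
  have hC2 : 2 ≤ C := by
    have : (0 : ℝ) ≤ k := Nat.cast_nonneg k
    linarith
  refine ⟨C, hC1, ?_⟩
  intro a X Q ha hV hQ
  set P : Finset ℕ := (range (X + 1)).filter Nat.Prime with hP
  set V : ℝ := ∑ p ∈ P, wp p * a p ^ 2 with hVdef
  have hV1 : 1 ≤ V := hC1.trans hV
  have hV0 : 0 < V := by linarith
  have ha2 : ∀ p, a p ^ 2 ≤ B := by
    intro p
    have h1 := ha p
    have h2 : a p ^ 2 = |a p| ^ 2 := (sq_abs _).symm
    rw [h2, hB]
    have h3 : |a p| ^ 2 ≤ (m : ℝ) ^ 2 := by gcongr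
    linarith
  have hPcard : (P.card : ℝ) ≤ X := by
    have h1 : P ⊆ Icc 1 X := by
      intro p hp
      rw [hP, Finset.mem_filter, Finset.mem_range] at hp
      rw [Finset.mem_Icc]
      exact ⟨hp.2.one_lt.le, by omega⟩
    have h2 := Finset.card_le_card h1
    rw [Nat.card_Icc] at h2
    have : P.card ≤ X := by omega
    exact_mod_cast this
  have hXV : V ≤ B * X := by
    calc V ≤ ∑ p ∈ P, B := by
          refine Finset.sum_le_sum fun p _ => ?_
          calc wp p * a p ^ 2 ≤ 1 * B := by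
                gcongr
                · exact wp_le_one p
                · exact ha2 p
            _ = B := one_mul B
      _ = P.card * B := by rw [Finset.sum_const, nsmul_eq_mul]
      _ ≤ B * X := by
          rw [mul_comm]
          gcongr
  have hXC : C / B ≤ X := by
    rw [div_le_iff₀ (by linarith)]
    linarith
  have hX32 : (32 : ℝ) ≤ X := by
    refine le_trans ?_ hXC
    rw [le_div_iff₀ (by linarith)]
    exact hCB
  have hX1 : (1 : ℝ) ≤ X := by linarith
  have hX0 : (0 : ℝ) < X := by linarith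
  have hQ1024 : 1024 ≤ Q := by
    have h1 : (X : ℝ) ^ (2 : ℝ) ≤ (X : ℝ) ^ C := Real.rpow_le_rpow_of_exponent_le hX1 hC2
    have h2 : (X : ℝ) ^ (2 : ℝ) = (X : ℝ) ^ (2 : ℕ) := Real.rpow_natCast _ 2
    have h3 : (1024 : ℝ) ≤ (X : ℝ) ^ (2 : ℕ) := by nlinarith
    have : (1024 : ℝ) ≤ Q := by
      rw [h2] at h1
      linarith
    exact_mod_cast this
  set s : ℝ := Real.sqrt V with hs
  have hs1 : 1 ≤ s := Real.one_le_sqrt.2 hV1
  have hs0 : 0 < s := by linarith
  -- the list
  set L : List ℕ := P.toList with hL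
  have hLP : ∀ p ∈ L, p.Prime ∧ p ≤ X := by
    intro p hp
    rw [hL, Finset.mem_toList, hP, Finset.mem_filter, Finset.mem_range] at hp
    exact ⟨hp.2, by omega⟩
  have happ := approx a Q X hQ1024 L (Finset.nodup_toList P) hLP 1 k one_pos (by
    intro p hp h
    exact (hLP p hp).1.one_lt.ne' (Nat.dvd_one.1 h))
  rw [kap_one, one_mul, Nat.cast_one, mul_one] at happ
  have hSL : ∀ d, SL a L d = ∑ p ∈ P, a p * (G p d : ℝ) := by
    intro d
    unfold SL
    rw [hL]
    exact Finset.sum_map_toList P _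
  have hvar : vari (L.map (fun p => (a p, wp p))) = V := by
    rw [vari_map, hL]
    exact Finset.sum_map_toList P _
  have hA : (L.map (fun p => |a p|)).sum ≤ m * X := by
    have h1 : (L.map (fun p => |a p|)).sum = ∑ p ∈ P, |a p| := by
      rw [hL]
      exact Finset.sum_map_toList P _
    rw [h1]
    calc ∑ p ∈ P, |a p| ≤ ∑ p ∈ P, (m : ℝ) := Finset.sum_le_sum fun p _ => ha p
      _ = P.card * m := by rw [Finset.sum_const, nsmul_eq_mul]
      _ ≤ m * X := by
          rw [mul_comm]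
          gcongr
  have hA0 : 0 ≤ (L.map (fun p => |a p|)).sum := by
    apply List.sum_nonneg
    intro x hx
    rw [List.mem_map] at hx
    obtain ⟨y, _, rfl⟩ := hx
    positivity
  have hGood : Good B (L.map (fun p => (a p, wp p))) := by
    intro x hx
    rw [List.mem_map] at hx
    obtain ⟨p, _, rfl⟩ := hx
    exact ⟨ha2 p, wp_nonneg p, wp_le_one p⟩
  have hG1 : Eav Q (fun d => (G 1 d : ℝ) * SL a L d ^ k) = Eav Q (fun d => (∑ p ∈ P, a p * (G p d : ℝ)) ^ k) := by
    apply Eav_congr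
    intro d hd
    rw [G_one_left hd, hSL]
    simp
  rw [hG1] at happ
  -- the first error
  have hQX : (X : ℝ) ^ (2 * k + 1) ≤ Real.sqrt Q := by
    apply Real.le_sqrt_of_sq_le
    refine le_trans ?_ hQ
    have h1 : ((X : ℝ) ^ (2 * k + 1)) ^ 2 = (X : ℝ) ^ ((4 * k + 2 : ℕ) : ℝ) := by
      rw [Real.rpow_natCast, ← pow_mul]
      congr 1
      ring
    rw [h1]
    apply Real.rpow_le_rpow_of_exponent_le hX1
    push_cast
    exact hCk
  have herr1 : 64 / Real.sqrt Q * (X : ℝ) ^ k * (L.map (fun p => |a p|)).sum ^ k ≤ ε / 2 := by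
    have hsq0 : 0 < Real.sqrt Q := lt_of_lt_of_le (by positivity) hQX
    calc 64 / Real.sqrt Q * (X : ℝ) ^ k * (L.map (fun p => |a p|)).sum ^ k
        ≤ 64 / (X : ℝ) ^ (2 * k + 1) * (X : ℝ) ^ k * (m * X) ^ k := by gcongr
      _ = 64 * (m : ℝ) ^ k / X := by
          rw [mul_pow, pow_succ, pow_mul']
          field_simp
      _ ≤ 64 * (m : ℝ) ^ k / (C / B) := by gcongr
      _ = 64 * (m : ℝ) ^ k * B / C := by
          rw [div_div_eq_mul_div]
      _ ≤ ε / 2 := by
          rw [div_le_iff₀ (by linarith)]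
          rw [div_le_iff₀ hε] at hCm
          nlinarith
  -- normalise
  have hsk : 1 ≤ s ^ k := one_le_pow₀ hs1
  have hnorm : Eav Q (fun d => ((∑ p ∈ P, a p * (G p d : ℝ)) / s) ^ k) =
      Eav Q (fun d => (∑ p ∈ P, a p * (G p d : ℝ)) ^ k) / s ^ k := by
    have h1 : ∀ d, Odd d → ((∑ p ∈ P, a p * (G p d : ℝ)) / s) ^ k =
        (s ^ k)⁻¹ * (∑ p ∈ P, a p * (G p d : ℝ)) ^ k := by
      intro d _
      rw [div_pow, div_eq_mul_inv, mul_comm]
    rw [Eav_congr Q h1, Eav_smul, div_eq_mul_inv, mul_comm]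
  rw [hnorm]
  set E := Eav Q (fun d => (∑ p ∈ P, a p * (G p d : ℝ)) ^ k) with hE
  set Mo := mom (L.map (fun p => (a p, wp p))) k with hMo
  have h1 : |E / s ^ k - Mo / s ^ k| ≤ ε / 2 := by
    rw [← sub_div, abs_div, abs_of_pos (by positivity : 0 < s ^ k), div_le_iff₀ (by positivity)]
    refine (happ.trans herr1).trans ?_
    nlinarith
  have h2 : |Mo / s ^ k - (if Even k then ((k - 1).doubleFactorial : ℝ) else 0)| ≤ ε / 2 := by
    by_cases hk : Even k
    · obtain ⟨j, hj⟩ := hk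
      have hkj : k = 2 * j := by omega
      rw [if_pos ⟨j, hj⟩]
      have hmu : ((k - 1).doubleFactorial : ℝ) = mu j := by
        rw [mu_eq, hkj]
      have hskj : s ^ k = V ^ j := by
        rw [hkj, pow_mul, hs, Real.sq_sqrt hV0.le]
      rw [hmu, hskj]
      rcases Nat.eq_zero_or_pos j with rfl | hj0
      · have : Mo = 1 := by
          rw [hMo, hkj, mul_zero, mom_zero]
        rw [this]
        simp only [pow_zero, div_one, mu, sub_self, abs_zero]
        linarith
      · have h3 := hc j (by omega) _ hGood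
        rw [hvar, ← hkj, ← hMo] at h3
        have h4 : Mo / V ^ j - mu j = (Mo - mu j * V ^ j) / V ^ j := by
          field_simp
        rw [h4, abs_div, abs_of_pos (by positivity : 0 < V ^ j), div_le_iff₀ (by positivity)]
        refine h3.trans ?_
        obtain ⟨i, rfl⟩ : ∃ i, j = i + 1 := ⟨j - 1, by omega⟩
        have h5 : (1 + V) ^ i ≤ (2 * V) ^ i := by gcongr; linarith
        have h6 : i + 1 - 1 = i := by omega
        rw [h6]
        have h7 : c * 2 ^ i ≤ ε / 2 * V := by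
          have h8 : (2 : ℝ) ^ i ≤ 2 ^ k := pow_le_pow_right₀ (by norm_num) (by omega)
          rw [div_le_iff₀ hε] at hCc
          calc c * 2 ^ i ≤ c * 2 ^ k := by gcongr
            _ ≤ C * ε / 2 := by linarith
            _ ≤ V * ε / 2 := by gcongr
            _ = ε / 2 * V := by ring
        calc c * (1 + V) ^ i ≤ c * (2 * V) ^ i := by gcongr
          _ = (c * 2 ^ i) * V ^ i := by
              rw [mul_pow]
              ring
          _ ≤ (ε / 2 * V) * V ^ i := by gcongr
          _ = ε / 2 * V ^ (i + 1) := by ring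
    · rw [if_neg hk]
      have : Mo = 0 := mom_odd _ k (Nat.not_even_iff_odd.1 hk)
      rw [this]
      simp only [zero_div, sub_self, abs_zero]
      linarith
  have h3 := abs_add_le (E / s ^ k - Mo / s ^ k)
    (Mo / s ^ k - (if Even k then ((k - 1).doubleFactorial : ℝ) else 0))
  have h4 : E / s ^ k - Mo / s ^ k + (Mo / s ^ k - (if Even k then ((k - 1).doubleFactorial : ℝ) else 0)) =
      E / s ^ k - (if Even k then ((k - 1).doubleFactorial : ℝ) else 0) := by ring
  rw [h4] at h3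
  linarith

end Pool.Agent.Helper4.ST
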