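import Pool.Agent.Helper4.ST.Main
import Pool.Agent.Helper4.ST.MomentsMain

set_option autoImplicit false

/-!
The Jacobi symbol as a Dirichlet character, and sums over primes of degree one.
-/

namespace Pool.Agent.Helper4.ST

open NumberField IsDedekindDomain
open scoped NumberTheorySymbols

universe u

/-- The Jacobi symbol `n ↦ (n / d)` as a Dirichlet character modulo `d`. -/
def jacobiChar (d : ℕ) [NeZero d] : DirichletCharacter ℤ d where
  toFun a := J(a.val | d)
  map_one' := by
    have h1 : J((((1 : ZMod d).val : ℕ) : ℤ) | d) = J(1 | d) := by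
      apply jacobiSym.mod_left'
      rw [ZMod.val_one_eq_one_mod]
      push_cast
      exact Int.emod_emod_of_dvd 1 dvd_rfl
    rw [h1, jacobiSym.one_left]
  map_mul' a b := by
    rw [← jacobiSym.mul_left]
    apply jacobiSym.mod_left'
    rw [ZMod.val_mul]
    push_cast
    exact Int.emod_emod_of_dvd _ dvd_rfl
  map_nonunit' a ha := by
    change J(a.val | d) = 0
    rw [jacobiSym.eq_zero_iff_not_coprime, Int.gcd_natCast_natCast]
    intro h
    apply ha
    have : IsUnit ((a.val : ℕ) : ZMod d) := (ZMod.isUnit_iff_coprime _ _).2 h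
    rwa [ZMod.natCast_zmod_val] at this

theorem jacobiChar_apply (d : ℕ) [NeZero d] (n : ℕ) : jacobiChar d (n : ZMod d) = J(n | d) := by
  change J((((n : ZMod d).val : ℕ) : ℤ) | d) = J(n | d)
  apply jacobiSym.mod_left'
  rw [ZMod.val_natCast]
  push_cast
  exact Int.emod_emod_of_dvd _ dvd_rfl

variable {K : Type u} [Field K] [NumberField K]

open Classical in
/-- The coefficient at `p`. -/
noncomputable def rcoef (X : ℕ) (good : HeightOneSpectrum (𝓞 K) → Prop)
    (F : HeightOneSpectrum (𝓞 K) → ℝ) (p : ℕ) : ℝ :=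
  if p.Prime then ∑ v ∈ (primesLE K X).filter (fun v => qv v = p ∧ good v), F v else 0

theorem abs_rcoef_le (X : ℕ) (good : HeightOneSpectrum (𝓞 K) → Prop)
    (F : HeightOneSpectrum (𝓞 K) → ℝ) (hF : ∀ v, |F v| ≤ 1) (p : ℕ) :
    |rcoef X good F p| ≤ Module.finrank ℚ K := by
  classical
  unfold rcoef
  split_ifs with h
  · calc |∑ v ∈ (primesLE K X).filter (fun v => qv v = p ∧ good v), F v|
        ≤ ∑ v ∈ (primesLE K X).filter (fun v => qv v = p ∧ good v), (1 : ℝ) :=
          (Finset.abs_sum_le_sum_abs _ _).trans (Finset.sum_le_sum fun v _ => hF v)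
      _ = (((primesLE K X).filter (fun v => qv v = p ∧ good v)).card : ℝ) := by simp
      _ ≤ Module.finrank ℚ K := by
          have := card_norm_eq p h ((primesLE K X).filter (fun v => qv v = p ∧ good v))
            (fun v hv => (Finset.mem_filter.1 hv).2.1)
          exact_mod_cast this
  · simp

open Classical in
/-- Collecting the primes of degree one by their norm. -/
theorem rsum_eq (X : ℕ) (good : HeightOneSpectrum (𝓞 K) → Prop)
    (F : HeightOneSpectrum (𝓞 K) → ℝ) (g : ℕ → ℝ) :
    ∑ v ∈ (primesLE K X).filter (fun v => (qv v).Prime ∧ good v), g (qv v) * F v =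
      ∑ p ∈ (Finset.range (X + 1)).filter Nat.Prime, rcoef X good F p * g p := by
  have hmaps : ∀ v ∈ (primesLE K X).filter (fun v => (qv v).Prime ∧ good v),
      qv v ∈ (Finset.range (X + 1)).filter Nat.Prime := by
    intro v hv
    rw [Finset.mem_filter, mem_primesLE] at hv
    rw [Finset.mem_filter, Finset.mem_range]
    exact ⟨by omega, hv.2.1⟩
  rw [← Finset.sum_fiberwise_of_maps_to hmaps]
  refine Finset.sum_congr rfl fun p hp => ?_
  have hpp : p.Prime := (Finset.mem_filter.1 hp).2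
  unfold rcoef
  rw [if_pos hpp, Finset.sum_mul]
  refine Finset.sum_congr ?_ ?_
  · ext v
    simp only [Finset.mem_filter]
    constructor
    · rintro ⟨⟨h1, h2, h3⟩, h4⟩
      exact ⟨h1, h4, h3⟩
    · rintro ⟨h1, h2, h3⟩
      exact ⟨⟨h1, h2 ▸ hpp, h3⟩, h2⟩
  · intro v hv
    rw [(Finset.mem_filter.1 hv).2.1, mul_comm]

/-- The Jacobi symbol at the norm of a prime dividing the modulus. -/
theorem jacobi_zero {v : HeightOneSpectrum (𝓞 K)} {d : ℕ} [NeZero d] (hv : (d : 𝓞 K) ∈ v.asIdeal) :
    J(qv v | d) = 0 := by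
  rw [jacobiSym.eq_zero_iff_not_coprime, Int.gcd_natCast_natCast]
  intro hcop
  obtain ⟨a, b, hab⟩ := Nat.isCoprime_iff_coprime.2 hcop
  have h8 : (1 : 𝓞 K) ∈ v.asIdeal := by
    have : (1 : 𝓞 K) = (a : 𝓞 K) * (qv v : ℕ) + (b : 𝓞 K) * d := by
      exact_mod_cast congrArg (fun z : ℤ => (z : 𝓞 K)) hab.symm
    rw [this]
    exact v.asIdeal.add_mem (v.asIdeal.mul_mem_left _ (Ideal.absNorm_mem v.asIdeal))
      (v.asIdeal.mul_mem_left _ hv)
  exact v.isPrime.ne_top ((Ideal.eq_top_iff_one _).2 h8)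

end Pool.Agent.Helper4.ST
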