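import Pool.Agent.Helper4.ST.STGroup
import Pool.Agent.Helper4.ST.Exceptional

set_option autoImplicit false

/-!
Sums over primes of a number field twisted by a real primitive character.
-/

namespace Pool.Agent.Helper4.ST

open NumberField IsDedekindDomain Matrix MeasureTheory Filter Topology
open scoped MatrixGroups

universe u w

/-- The complex character attached to a real one. -/
noncomputable def toC {q : ℕ} (χ : DirichletCharacter ℤ q) : DirichletCharacter ℂ q :=
  χ.ringHomComp (Int.castRingHom ℂ)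

theorem toC_apply {q : ℕ} (χ : DirichletCharacter ℤ q) (a : ZMod q) :
    toC χ a = ((χ a : ℤ) : ℂ) := rfl

theorem toC_injective {q : ℕ} : Function.Injective (toC (q := q)) := by
  intro χ ψ h
  ext a
  have := congrArg (fun φ : DirichletCharacter ℂ q => φ a) h
  simp only [toC_apply] at this
  exact_mod_cast this

theorem toC_ker {q : ℕ} (χ : DirichletCharacter ℤ q) :
    (toC χ).toUnitHom.ker = χ.toUnitHom.ker := by
  ext u
  rw [MonoidHom.mem_ker, MonoidHom.mem_ker]
  have h1 : (((toC χ).toUnitHom u : ℂˣ) : ℂ) = (((χ.toUnitHom u : ℤˣ) : ℤ) : ℂ) := by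
    rw [MulChar.coe_toUnitHom, MulChar.coe_toUnitHom]
    rfl
  constructor
  · intro h
    rw [h] at h1
    have h2 : ((1 : ℤ) : ℂ) = (((χ.toUnitHom u : ℤˣ) : ℤ) : ℂ) := by
      rw [← h1]
      simp
    have h3 : (1 : ℤ) = ((χ.toUnitHom u : ℤˣ) : ℤ) := by exact_mod_cast h2
    exact Units.ext h3.symm
  · intro h
    rw [h] at h1
    apply Units.ext
    rw [h1]
    simp

theorem toC_primitive {q : ℕ} [NeZero q] {χ : DirichletCharacter ℤ q} (h : χ.IsPrimitive) :
    (toC χ).IsPrimitive := by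
  have h1 : (toC χ).conductorSet = χ.conductorSet := by
    ext d
    rw [DirichletCharacter.mem_conductorSet_iff, DirichletCharacter.mem_conductorSet_iff]
    by_cases hd : d ∣ q
    · rw [DirichletCharacter.factorsThrough_iff_ker_unitsMap hd,
        DirichletCharacter.factorsThrough_iff_ker_unitsMap hd, toC_ker]
    · constructor
      · intro h
        exact absurd h.dvd hd
      · intro h
        exact absurd h.dvd hd
  rw [DirichletCharacter.isPrimitive_def] at h ⊢
  unfold DirichletCharacter.conductor at h ⊢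
  rw [h1]
  exact h

section sums

variable {K : Type u} [Field K] [NumberField K]

open Classical in
/-- The coefficients at primes. -/
noncomputable def coef (G : Finset (HeightOneSpectrum (𝓞 K)) ) (F : HeightOneSpectrum (𝓞 K) → ℂ)
    (m : ℕ) : ℂ := if m.Prime then ∑ v ∈ G.filter (fun v => qv v = m), F v else 0

theorem norm_coef_le (G : Finset (HeightOneSpectrum (𝓞 K))) (F : HeightOneSpectrum (𝓞 K) → ℂ)
    (hF : ∀ v, ‖F v‖ ≤ 1) (m : ℕ) : ‖coef G F m‖ ≤ Module.finrank ℚ K := by
  classical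
  unfold coef
  split_ifs with h
  · calc ‖∑ v ∈ G.filter (fun v => qv v = m), F v‖ ≤ ∑ v ∈ G.filter (fun v => qv v = m), (1 : ℝ) :=
          norm_sum_le_of_le _ fun v _ => hF v
      _ = ((G.filter (fun v => qv v = m)).card : ℝ) := by simp
      _ ≤ Module.finrank ℚ K := by
          have := card_norm_eq m h (G.filter (fun v => qv v = m))
            (fun v hv => (Finset.mem_filter.1 hv).2)
          exact_mod_cast this
  · simp

open Classical in
/-- Comparison of a sum over primes of `K` with a sum over prime numbers. -/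
theorem sum_compare (X : ℕ) (good : HeightOneSpectrum (𝓞 K) → Prop)
    (F : HeightOneSpectrum (𝓞 K) → ℂ) (hF : ∀ v, ‖F v‖ ≤ 1)
    (j : Σ q : ℕ, DirichletCharacter ℂ q) :
    ‖∑ v ∈ (primesLE K X).filter good, j.2 (qv v : ZMod j.1) * F v‖ ≤
      ‖PS (coef ((primesLE K X).filter good) F) j X‖ + Module.finrank ℚ K * Real.sqrt X := by
  set G := (primesLE K X).filter good with hG
  have h1 : ∑ v ∈ G, j.2 (qv v : ZMod j.1) * F v =
      ∑ v ∈ G.filter (fun v => (qv v).Prime), j.2 (qv v : ZMod j.1) * F v +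
      ∑ v ∈ G.filter (fun v => ¬ (qv v).Prime), j.2 (qv v : ZMod j.1) * F v :=
    (Finset.sum_filter_add_sum_filter_not _ _ _).symm
  have h2 : ∑ v ∈ G.filter (fun v => (qv v).Prime), j.2 (qv v : ZMod j.1) * F v =
      PS (coef G F) j X := by
    unfold PS
    have hmaps : ∀ v ∈ G.filter (fun v => (qv v).Prime),
        qv v ∈ (Finset.range (X + 1)).filter Nat.Prime := by
      intro v hv
      rw [Finset.mem_filter, hG, Finset.mem_filter, mem_primesLE] at hv
      rw [Finset.mem_filter, Finset.mem_range]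
      exact ⟨by omega, hv.2⟩
    rw [← Finset.sum_fiberwise_of_maps_to hmaps]
    refine Finset.sum_congr rfl fun p hp => ?_
    have hpp : p.Prime := (Finset.mem_filter.1 hp).2
    unfold coef
    rw [if_pos hpp, Finset.sum_mul]
    have h3 : (G.filter (fun v => (qv v).Prime)).filter (fun v => qv v = p) =
        G.filter (fun v => qv v = p) := by
      ext v
      simp only [Finset.mem_filter]
      constructor
      · rintro ⟨⟨h, _⟩, h'⟩
        exact ⟨h, h'⟩
      · rintro ⟨h, h'⟩
        exact ⟨⟨h, h' ▸ hpp⟩, h'⟩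
    rw [h3]
    refine Finset.sum_congr rfl fun v hv => ?_
    rw [(Finset.mem_filter.1 hv).2, mul_comm]
  rw [h1, h2]
  refine (norm_add_le _ _).trans ?_
  gcongr
  calc ‖∑ v ∈ G.filter (fun v => ¬ (qv v).Prime), j.2 (qv v : ZMod j.1) * F v‖
      ≤ ∑ v ∈ G.filter (fun v => ¬ (qv v).Prime), (1 : ℝ) := by
        refine norm_sum_le_of_le _ fun v _ => ?_
        rw [norm_mul]
        calc ‖j.2 (qv v : ZMod j.1)‖ * ‖F v‖ ≤ 1 * 1 := by
              gcongr
              · exact DirichletCharacter.norm_le_one j.2 _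
              · exact hF v
          _ = 1 := mul_one 1
    _ = ((G.filter (fun v => ¬ (qv v).Prime)).card : ℝ) := by simp
    _ ≤ (((primesLE K X).filter (fun v => ¬ (qv v).Prime)).card : ℝ) := by
        have : (G.filter (fun v => ¬ (qv v).Prime)).card ≤
            ((primesLE K X).filter (fun v => ¬ (qv v).Prime)).card := by
          apply Finset.card_le_card
          apply Finset.filter_subset_filter
          rw [hG]
          exact Finset.filter_subset _ _
        exact_mod_cast this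
    _ ≤ ((Module.finrank ℚ K * Nat.sqrt X : ℕ) : ℝ) := by exact_mod_cast card_higher X
    _ ≤ Module.finrank ℚ K * Real.sqrt X := by
        rw [Nat.cast_mul]
        gcongr
        exact Real.nat_sqrt_le_real_sqrt

end sums

/-- The map from real to complex characters. -/
noncomputable def toCSigma (j : Σ q : ℕ, DirichletCharacter ℤ q) : Σ q : ℕ, DirichletCharacter ℂ q :=
  ⟨j.1, toC j.2⟩

theorem toCSigma_injective : Function.Injective toCSigma := by
  rintro ⟨q, χ⟩ ⟨q', χ'⟩ h
  unfold toCSigma at h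
  rw [Sigma.mk.injEq] at h
  obtain ⟨h1, h2⟩ := h
  simp only at h1
  subst h1
  have h3 : χ = χ' := toC_injective (eq_of_heq h2)
  rw [h3]

open Classical in
/-- **Main analytic statement** for number fields of degree at most `d`, uniformly in the
coefficients `F`. -/
theorem analytic_main (d : ℕ) (θ A : ℝ) (hA : 0 < A) (hθ : 2 / A < θ) (hθ1 : θ ≤ 1) :
    ∃ Q₀ : ℕ, ∀ (K : Type u) [Field K] [NumberField K], Module.finrank ℚ K ≤ d →
      ∀ (good : HeightOneSpectrum (𝓞 K) → Prop) (F : HeightOneSpectrum (𝓞 K) → ℂ),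
      (∀ v, ‖F v‖ ≤ 1) → ∀ Q : ℕ, Q₀ ≤ Q →
      ∃ E : Finset (Σ q : ℕ, DirichletCharacter ℤ q), (E.card : ℝ) ≤ (Q : ℝ) ^ θ ∧
        ∀ (q : ℕ) (χ : DirichletCharacter ℤ q), 2 ≤ q → q ≤ Q → χ.IsPrimitive → (⟨q, χ⟩ : Σ q : ℕ, DirichletCharacter ℤ q) ∉ E →
          ∀ X : ℕ, Real.log Q ^ A ≤ X → (X : ℝ) ≤ Real.exp ((Q : ℝ) ^ ((θ - 2 / A) / 12)) →
            ‖∑ v ∈ (primesLE K X).filter good, ((χ (qv v : ZMod q) : ℤ) : ℂ) * F v‖ ≤
              (X : ℝ) * min (X : ℝ) (Q : ℝ) ^ (-((θ - 2 / A) / 12)) := by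
  set κ : ℝ := (θ - 2 / A) / 12 with hκdef
  have hκ : 0 < κ := by
    rw [hκdef]
    linarith
  have h2A : 0 < 2 / A := by positivity
  have hκ1 : κ ≤ 1 / 12 := by
    rw [hκdef]
    linarith
  set B : ℝ := max (d : ℝ) 1 with hB
  have hB1 : 1 ≤ B := le_max_right _ _
  have hlog : Tendsto (fun Q : ℕ => Real.log (Q : ℝ)) atTop atTop :=
    Real.tendsto_log_atTop.comp tendsto_natCast_atTop_atTop
  have hlogA : Tendsto (fun Q : ℕ => Real.log (Q : ℝ) ^ A) atTop atTop :=
    (tendsto_rpow_atTop hA).comp hlog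
  obtain ⟨Q₀, hQ₀⟩ := Filter.eventually_atTop.1 ((exceptional A θ B hA hθ hθ1 hB1).and
    ((hlogA.eventually_ge_atTop ((2 * B) ^ 3)).and ((hlogA.eventually_ge_atTop 1).and
      (eventually_ge_atTop 2))))
  refine ⟨Q₀, ?_⟩
  intro K _ _ hd good F hF Q hQ
  obtain ⟨hex, hl1, hl2, hQ2⟩ := hQ₀ Q hQ
  -- the coefficients, for all `X` at once
  have hKB : (Module.finrank ℚ K : ℝ) ≤ B := (by exact_mod_cast hd : (Module.finrank ℚ K : ℝ) ≤ d).trans (le_max_left _ _)
  set b : ℕ → ℂ := fun m => coef ((primesLE K m).filter good) F m with hb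
  have hbB : ∀ m, ‖b m‖ ≤ B := fun m => (norm_coef_le _ F hF m).trans hKB
  obtain ⟨E', hE'card, hE'mem, hE'⟩ := hex b hbB
  set E : Finset (Σ q : ℕ, DirichletCharacter ℤ q) :=
    E'.preimage toCSigma (toCSigma_injective.injOn) with hE
  refine ⟨E, ?_, ?_⟩
  · refine le_trans ?_ hE'card
    have : E.card ≤ E'.card := by
      apply Finset.card_le_card_of_injOn toCSigma
      · intro j hj
        rw [Finset.mem_coe, hE, Finset.mem_preimage] at hj
        exact hj
      · exact toCSigma_injective.injOn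
    exact_mod_cast this
  · intro q χ hq2 hqQ hprim hnot X hX1 hX2
    have : NeZero q := ⟨by omega⟩
    have hj : toCSigma ⟨q, χ⟩ ∉ E' := by
      intro h
      apply hnot
      rw [hE, Finset.mem_preimage]
      exact h
    have hprimC : (toCSigma ⟨q, χ⟩).2.IsPrimitive := toC_primitive (q := q) hprim
    have h1 := hE' (toCSigma ⟨q, χ⟩) hq2 hqQ hprimC hj X hX1 hX2
    have h2 := sum_compare X good F hF (toCSigma ⟨q, χ⟩)
    have h3 : PS (coef ((primesLE K X).filter good) F) (toCSigma ⟨q, χ⟩) X =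
        PS b (toCSigma ⟨q, χ⟩) X := by
      unfold PS
      refine Finset.sum_congr rfl fun p hp => ?_
      congr 1
      rw [hb]
      simp only
      unfold coef
      split_ifs with hpp
      · refine Finset.sum_congr ?_ fun _ _ => rfl
        ext v
        rw [Finset.mem_filter, Finset.mem_range] at hp
        simp only [Finset.mem_filter, mem_primesLE]
        constructor
        · rintro ⟨⟨_, h⟩, h'⟩
          exact ⟨⟨h'.le, h⟩, h'⟩
        · rintro ⟨⟨_, h⟩, h'⟩
          exact ⟨⟨by omega, h⟩, h'⟩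
      · rfl
    rw [h3] at h2
    have hX0 : (1 : ℝ) ≤ X := hl2.trans hX1
    have hXn : 1 ≤ X := by exact_mod_cast hX0
    have hX00 : (0 : ℝ) < X := by linarith
    have h4 : (X : ℝ) ^ (1 - κ) ≤ thr Q κ X := thr_ge_X Q (by omega) κ hκ hXn
    -- the primes of higher degree
    have h5 : (Module.finrank ℚ K : ℝ) * Real.sqrt X ≤ thr Q κ X / 2 := by
      have h6 : 2 * B ≤ (X : ℝ) ^ ((1 : ℝ) / 3) := by
        have h7 : (2 * B) = ((2 * B) ^ 3) ^ ((1 : ℝ) / 3) := by
          rw [← Real.rpow_natCast, ← Real.rpow_mul (by positivity)]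
          norm_num
        rw [h7]
        gcongr
        exact hl1.trans hX1
      have h8 : (X : ℝ) ^ ((1 : ℝ) / 3) * Real.sqrt X ≤ (X : ℝ) ^ (1 - κ) := by
        rw [Real.sqrt_eq_rpow, ← Real.rpow_add hX00]
        apply Real.rpow_le_rpow_of_exponent_le hX0
        linarith
      have h9 : (2 * B) * Real.sqrt X ≤ (X : ℝ) ^ (1 - κ) := by
        refine le_trans ?_ h8
        gcongr
      have h10 : (Module.finrank ℚ K : ℝ) * Real.sqrt X ≤ B * Real.sqrt X := by gcongr
      linarith
    have h6 : thr Q κ X = (X : ℝ) * min (X : ℝ) (Q : ℝ) ^ (-κ) := rfl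
    rw [← h6]
    have h7 : ∑ v ∈ (primesLE K X).filter good, ((χ (qv v : ZMod q) : ℤ) : ℂ) * F v =
        ∑ v ∈ (primesLE K X).filter good,
          (toCSigma ⟨q, χ⟩).2 (qv v : ZMod (toCSigma ⟨q, χ⟩).1) * F v := rfl
    rw [h7]
    linarith

end Pool.Agent.Helper4.ST
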