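import Pool.Agent.Helper4.ST.JacobiAvg2

set_option autoImplicit false

/-!
Moments of sums of independent symmetric variables, and of sums of Jacobi symbols.
-/

namespace Pool.Agent.Helper4.ST

open Finset

/-- The moments of a symmetric variable with values in `{-1, 0, 1}`. -/
noncomputable def ev (w : ℝ) (j : ℕ) : ℝ := if j = 0 then 1 else if Even j then w else 0

/-- The moments of a weighted sum of independent such variables. -/
noncomputable def mom : List (ℝ × ℝ) → ℕ → ℝ
  | [], k => if k = 0 then 1 else 0
  | aw :: L, k => ∑ j ∈ range (k + 1), (k.choose j : ℝ) * aw.1 ^ j * ev aw.2 j * mom L (k - j)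

/-- The variance. -/
noncomputable def vari : List (ℝ × ℝ) → ℝ
  | [] => 0
  | aw :: L => aw.1 ^ 2 * aw.2 + vari L

/-- The even moments of the normal law. -/
noncomputable def mu : ℕ → ℝ
  | 0 => 1
  | k + 1 => (2 * k + 1) * mu k

theorem mu_nonneg (k : ℕ) : 0 ≤ mu k := by
  induction k with
  | zero => simp [mu]
  | succ k ih =>
    unfold mu
    positivity

theorem mu_eq (k : ℕ) : mu k = ((2 * k - 1).doubleFactorial : ℝ) := by
  induction k with
  | zero => simp [mu]
  | succ k ih =>
    unfold mu
    rw [ih]
    rcases Nat.eq_zero_or_pos k with rfl | hk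
    · simp
    · obtain ⟨j, rfl⟩ : ∃ j, k = j + 1 := ⟨k - 1, by omega⟩
      have h1 : 2 * (j + 1 + 1) - 1 = (2 * j + 1) + 2 := by omega
      have h2 : 2 * (j + 1) - 1 = 2 * j + 1 := by omega
      rw [h1, h2, Nat.doubleFactorial_add_two]
      push_cast
      ring

theorem mom_zero (L : List (ℝ × ℝ)) : mom L 0 = 1 := by
  induction L with
  | nil => simp [mom]
  | cons aw L ih => simp [mom, ev, ih]

theorem mom_odd (L : List (ℝ × ℝ)) : ∀ k, Odd k → mom L k = 0 := by
  induction L with
  | nil =>
    intro k hk
    unfold mom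
    rw [if_neg]
    rintro rfl
    simp at hk
  | cons aw L ih =>
    intro k hk
    unfold mom
    apply Finset.sum_eq_zero
    intro j hj
    rw [Finset.mem_range] at hj
    by_cases hje : Even j
    · have : Odd (k - j) := by
        rw [Nat.odd_iff] at hk ⊢
        rw [Nat.even_iff] at hje
        omega
      rw [ih _ this, mul_zero]
    · have : ev aw.2 j = 0 := by
        unfold ev
        rw [if_neg, if_neg hje]
        rintro rfl
        exact hje (by simp)
      rw [this]
      ring

theorem sum_even (f : ℕ → ℝ) (hf : ∀ j, Odd j → f j = 0) (k : ℕ) :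
    ∑ j ∈ range (2 * k + 1), f j = ∑ i ∈ range (k + 1), f (2 * i) := by
  induction k with
  | zero => simp
  | succ k ih =>
    rw [show 2 * (k + 1) + 1 = (2 * k + 1) + 1 + 1 by ring, Finset.sum_range_succ,
      Finset.sum_range_succ, ih, Finset.sum_range_succ (fun i => f (2 * i)) (k + 1),
      hf (2 * k + 1) ⟨k, rfl⟩, add_zero]
    rfl

theorem mom_even (aw : ℝ × ℝ) (L : List (ℝ × ℝ)) (k : ℕ) :
    mom (aw :: L) (2 * k) = ∑ i ∈ range (k + 1),
      ((2 * k).choose (2 * i) : ℝ) * aw.1 ^ (2 * i) * ev aw.2 (2 * i) * mom L (2 * (k - i)) := by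
  conv_lhs => unfold mom
  rw [sum_even]
  · refine Finset.sum_congr rfl fun i _ => ?_
    rw [Nat.mul_sub]
  · intro j hj
    have : ev aw.2 j = 0 := by
      unfold ev
      rw [if_neg, if_neg (Nat.not_even_iff_odd.2 hj)]
      rintro rfl
      simp at hj
    rw [this]
    ring

/-- Conditions on the list. -/
def Good (B : ℝ) (L : List (ℝ × ℝ)) : Prop := ∀ aw ∈ L, aw.1 ^ 2 ≤ B ∧ 0 ≤ aw.2 ∧ aw.2 ≤ 1

theorem vari_nonneg {B : ℝ} {L : List (ℝ × ℝ)} (h : Good B L) : 0 ≤ vari L := by
  induction L with
  | nil => simp [vari]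
  | cons aw L ih =>
    unfold vari
    have h1 := h aw (by simp)
    have h2 := ih (fun x hx => h x (by simp [hx]))
    have := h1.2.1
    positivity

theorem mom_two {B : ℝ} {L : List (ℝ × ℝ)} (h : Good B L) : mom L 2 = vari L := by
  induction L with
  | nil => simp [mom, vari]
  | cons aw L ih =>
    have h3 := ih (fun x hx => h x (by simp [hx]))
    have h4 := mom_even aw L 1
    rw [mul_one] at h4
    rw [h4]
    simp only [Finset.sum_range_succ, Finset.sum_range_zero]
    simp only [ev, vari, mul_zero, Nat.choose_zero_right, Nat.cast_one, pow_zero, mul_one, if_true,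
      Nat.sub_zero, h3, Nat.choose_self, Nat.sub_self, mom_zero]
    norm_num
    ring

theorem mu_succ (k : ℕ) : mu (k + 1) = (2 * k + 1) * mu k := rfl

theorem choose_mu (k : ℕ) : ((2 * (k + 1)).choose 2 : ℝ) * mu k = (k + 1) * mu (k + 1) := by
  rw [Nat.cast_choose_two, mu_succ]
  push_cast
  ring

/-- **The even moments.** -/
theorem moment_asymp (B : ℝ) (hB : 1 ≤ B) (k : ℕ) : ∃ c : ℝ, 0 ≤ c ∧ ∀ j ≤ k, ∀ L, Good B L →
    |mom L (2 * j) - mu j * vari L ^ j| ≤ c * (1 + vari L) ^ (j - 1) := by
  induction k with
  | zero =>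
    refine ⟨0, le_rfl, ?_⟩
    intro j hj L hL
    obtain rfl : j = 0 := by omega
    simp [mom_zero, mu]
  | succ k ih =>
    obtain ⟨c, hc0, hc⟩ := ih
    rcases Nat.eq_zero_or_pos k with rfl | hk
    · refine ⟨c, hc0, ?_⟩
      intro j hj L hL
      rcases Nat.eq_zero_or_pos j with rfl | hj0
      · exact hc 0 le_rfl L hL
      · obtain rfl : j = 1 := by omega
        rw [mul_one, mom_two hL]
        simp [mu, hc0]
    -- the constants
    obtain ⟨k, rfl⟩ : ∃ k', k = k' + 1 := ⟨k - 1, by omega⟩
    -- now the new moment is `2 (k + 2)`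
    set M : ℝ := ∑ j ∈ range (k + 2), (mu j + c) with hM
    have hM0 : 0 ≤ M := Finset.sum_nonneg fun j _ => by
      have := mu_nonneg j
      positivity
    have hMj : ∀ j ≤ k + 1, ∀ L, Good B L → |mom L (2 * j)| ≤ M * (1 + vari L) ^ j := by
      intro j hj L hL
      have h1 := hc j hj L hL
      have hV := vari_nonneg hL
      have h2 : (1 + vari L) ^ (j - 1) ≤ (1 + vari L) ^ j :=
        pow_le_pow_right₀ (by linarith) (by omega)
      have h3 : vari L ^ j ≤ (1 + vari L) ^ j := by gcongr; linarith
      have h4 : |mom L (2 * j)| ≤ |mom L (2 * j) - mu j * vari L ^ j| + |mu j * vari L ^ j| := by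
        have := abs_add_le (mom L (2 * j) - mu j * vari L ^ j) (mu j * vari L ^ j)
        simpa using this
      have hmj := mu_nonneg j
      rw [abs_of_nonneg (by positivity : 0 ≤ mu j * vari L ^ j)] at h4
      have h5 : mu j + c ≤ M := by
        rw [hM]
        apply Finset.single_le_sum (f := fun j => mu j + c) (fun i _ => by
          have := mu_nonneg i
          positivity) (Finset.mem_range.2 (by omega))
      calc |mom L (2 * j)| ≤ c * (1 + vari L) ^ j + mu j * (1 + vari L) ^ j := by
            refine h4.trans (add_le_add (h1.trans ?_) ?_)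
            · gcongr
            · gcongr
        _ = (mu j + c) * (1 + vari L) ^ j := by ring
        _ ≤ M * (1 + vari L) ^ j := by gcongr
    set c' : ℝ := ((2 * (k + 2)).choose 2 : ℝ) * c + ∑ i ∈ range (k + 1),
      (((2 * (k + 2)).choose (2 * (i + 2)) : ℝ) * B ^ (i + 1) * M +
        mu (k + 2) * ((k + 2).choose (i + 2) : ℝ) * B ^ (i + 1)) with hc'
    have hc'0 : 0 ≤ c' := by
      have := mu_nonneg (k + 2)
      positivity
    -- the bound for the new moment
    have key : ∀ L, Good B L →
        |mom L (2 * (k + 2)) - mu (k + 2) * vari L ^ (k + 2)| ≤ c' * (1 + vari L) ^ (k + 1) := by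
      intro L
      induction L with
      | nil =>
        intro _
        have : mom [] (2 * (k + 2)) = 0 := by simp [mom]
        rw [this]
        simp only [vari, ne_eq, Nat.add_eq_zero_iff, OfNat.ofNat_ne_zero, and_false,
          not_false_eq_true, zero_pow, mul_zero, sub_zero, abs_zero]
        positivity
      | cons aw L ihL =>
        intro hL
        have hL' : Good B L := fun x hx => hL x (by simp [hx])
        have h1 := ihL hL'
        obtain ⟨ha, hw0, hw1⟩ := hL aw (by simp)
        obtain ⟨a, w⟩ := aw
        simp only at ha hw0 hw1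
        set V := vari L with hV
        have hV0 : 0 ≤ V := vari_nonneg hL'
        set v : ℝ := a ^ 2 * w with hv
        have hv0 : 0 ≤ v := by positivity
        have hvB : v ≤ B := by
          calc v ≤ B * 1 := by
                rw [hv]
                gcongr
            _ = B := mul_one B
        have hvari : vari ((a, w) :: L) = V + v := by
          simp only [vari]
          ring
        rw [hvari, mom_even]
        simp only
        -- split both sums
        have hs1 : ∑ i ∈ range (k + 2 + 1), ((2 * (k + 2)).choose (2 * i) : ℝ) * a ^ (2 * i) *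
            ev w (2 * i) * mom L (2 * (k + 2 - i)) =
            mom L (2 * (k + 2)) + ((2 * (k + 2)).choose 2 : ℝ) * v * mom L (2 * (k + 1)) +
            ∑ i ∈ range (k + 1), ((2 * (k + 2)).choose (2 * (i + 2)) : ℝ) * a ^ (2 * (i + 2)) * w *
              mom L (2 * (k - i)) := by
          rw [Finset.sum_range_succ', Finset.sum_range_succ']
          have e0 : ev w (2 * 0) = 1 := by simp [ev]
          have e1 : ev w (2 * (0 + 1)) = w := by simp [ev]
          have e2 : ∀ i, ev w (2 * (i + 1 + 1)) = w := by
            intro i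
            unfold ev
            rw [if_neg (by omega), if_pos (even_two_mul _)]
          rw [e0, e1]
          have h3 : ∀ i, 2 * (k + 2 - (i + 1 + 1)) = 2 * (k - i) := by
            intro i
            omega
          simp only [e2, h3]
          rw [hv]
          have h4 : (2 * (k + 2) - 2 * (0 + 1)) = 2 * (k + 1) := by omega
          have h5 : 2 * (k + 2 - (0 + 1)) = 2 * (k + 1) := by omega
          rw [h5]
          simp only [mul_zero, Nat.choose_zero_right, Nat.cast_one, pow_zero, one_mul, mul_one,
            Nat.sub_zero, zero_add]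
          ring
        have hs2 : (V + v) ^ (k + 2) = V ^ (k + 2) + (k + 2) * v * V ^ (k + 1) +
            ∑ i ∈ range (k + 1), v ^ (i + 2) * V ^ (k - i) * ((k + 2).choose (i + 2) : ℝ) := by
          rw [add_comm V v, add_pow, Finset.sum_range_succ', Finset.sum_range_succ']
          have h3 : ∀ i, k + 2 - (i + 1 + 1) = k - i := by
            intro i
            omega
          simp only [h3]
          have h5 : k + 2 - (0 + 1) = k + 1 := by omega
          rw [h5]
          simp only [pow_zero, Nat.choose_zero_right, Nat.cast_one, one_mul, mul_one,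
            Nat.sub_zero, zero_add, Nat.choose_one_right, pow_one]
          push_cast
          ring
        rw [hs1, hs2]
        have hmid := hc (k + 1) le_rfl L hL'
        rw [← hV] at hmid
        have hk1 : k + 1 - 1 = k := by omega
        rw [hk1] at hmid
        have hcm := choose_mu (k + 1)
        have hcm' : ((2 * (k + 2)).choose 2 : ℝ) * mu (k + 1) = (k + 2) * mu (k + 2) := by
          have : ((2 * (k + 1 + 1)).choose 2 : ℝ) * mu (k + 1) = ((k + 1 : ℕ) + 1) * mu (k + 1 + 1) := hcm
          rw [show k + 1 + 1 = k + 2 by ring] at this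
          rw [this]
          push_cast
          ring
        -- the decomposition of the difference
        have hdec : mom L (2 * (k + 2)) + ((2 * (k + 2)).choose 2 : ℝ) * v * mom L (2 * (k + 1)) +
            ∑ i ∈ range (k + 1), ((2 * (k + 2)).choose (2 * (i + 2)) : ℝ) * a ^ (2 * (i + 2)) * w *
              mom L (2 * (k - i)) -
            mu (k + 2) * (V ^ (k + 2) + (k + 2) * v * V ^ (k + 1) +
            ∑ i ∈ range (k + 1), v ^ (i + 2) * V ^ (k - i) * ((k + 2).choose (i + 2) : ℝ)) =
            (mom L (2 * (k + 2)) - mu (k + 2) * V ^ (k + 2)) +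
            ((2 * (k + 2)).choose 2 : ℝ) * v * (mom L (2 * (k + 1)) - mu (k + 1) * V ^ (k + 1)) +
            ∑ i ∈ range (k + 1), (((2 * (k + 2)).choose (2 * (i + 2)) : ℝ) * a ^ (2 * (i + 2)) * w *
              mom L (2 * (k - i)) - mu (k + 2) * (v ^ (i + 2) * V ^ (k - i) *
                ((k + 2).choose (i + 2) : ℝ))) := by
          rw [Finset.sum_sub_distrib, ← Finset.mul_sum]
          linear_combination (v * V ^ (k + 1)) * hcm'
        rw [hdec]
        -- bound of the third part
        have hthird : |∑ i ∈ range (k + 1), (((2 * (k + 2)).choose (2 * (i + 2)) : ℝ) * a ^ (2 * (i + 2)) * w *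
              mom L (2 * (k - i)) - mu (k + 2) * (v ^ (i + 2) * V ^ (k - i) *
                ((k + 2).choose (i + 2) : ℝ)))| ≤
            v * (∑ i ∈ range (k + 1),
              (((2 * (k + 2)).choose (2 * (i + 2)) : ℝ) * B ^ (i + 1) * M +
              mu (k + 2) * ((k + 2).choose (i + 2) : ℝ) * B ^ (i + 1))) * (1 + V) ^ k := by
          rw [mul_assoc, Finset.sum_mul, Finset.mul_sum]
          refine (Finset.abs_sum_le_sum_abs _ _).trans (Finset.sum_le_sum fun i hi => ?_)
          rw [Finset.mem_range] at hi
          have h5 : (1 + V) ^ (k - i) ≤ (1 + V) ^ k := pow_le_pow_right₀ (by linarith) (by omega)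
          have h6 : |mom L (2 * (k - i))| ≤ M * (1 + V) ^ (k - i) := hMj (k - i) (by omega) L hL'
          have h7 : a ^ (2 * (i + 2)) * w ≤ B ^ (i + 1) * v := by
            have : a ^ (2 * (i + 2)) * w = (a ^ 2) ^ (i + 1) * (a ^ 2 * w) := by
              rw [← pow_mul]
              ring
            rw [this, ← hv]
            gcongr
          have h8 : v ^ (i + 2) ≤ B ^ (i + 1) * v := by
            rw [pow_succ]
            gcongr
          have h9 : V ^ (k - i) ≤ (1 + V) ^ (k - i) := by gcongr; linarith
          have hmu := mu_nonneg (k + 2)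
          have h10 : 0 ≤ a ^ (2 * (i + 2)) * w := by
            have : 0 ≤ a ^ (2 * (i + 2)) := by
              rw [pow_mul]
              positivity
            positivity
          refine (abs_sub _ _).trans ?_
          have h11 : |((2 * (k + 2)).choose (2 * (i + 2)) : ℝ) * a ^ (2 * (i + 2)) * w *
              mom L (2 * (k - i))| ≤ v * (((2 * (k + 2)).choose (2 * (i + 2)) : ℝ) * B ^ (i + 1) * M) * (1 + V) ^ k := by
            rw [abs_mul, mul_assoc ((2 * (k + 2)).choose (2 * (i + 2)) : ℝ), abs_mul, Nat.abs_cast,
              abs_of_nonneg h10]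
            calc ((2 * (k + 2)).choose (2 * (i + 2)) : ℝ) * (a ^ (2 * (i + 2)) * w) * |mom L (2 * (k - i))|
                ≤ ((2 * (k + 2)).choose (2 * (i + 2)) : ℝ) * (B ^ (i + 1) * v) * (M * (1 + V) ^ k) := by
                  gcongr
                  exact h6.trans (by gcongr)
              _ = _ := by ring
          have h12 : |mu (k + 2) * (v ^ (i + 2) * V ^ (k - i) * ((k + 2).choose (i + 2) : ℝ))| ≤
              v * (mu (k + 2) * ((k + 2).choose (i + 2) : ℝ) * B ^ (i + 1)) * (1 + V) ^ k := by
            rw [abs_of_nonneg (by positivity)]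
            calc mu (k + 2) * (v ^ (i + 2) * V ^ (k - i) * ((k + 2).choose (i + 2) : ℝ))
                ≤ mu (k + 2) * ((B ^ (i + 1) * v) * (1 + V) ^ k * ((k + 2).choose (i + 2) : ℝ)) := by
                  gcongr
                  exact h9.trans h5
              _ = _ := by ring
          calc _ ≤ v * (((2 * (k + 2)).choose (2 * (i + 2)) : ℝ) * B ^ (i + 1) * M) * (1 + V) ^ k +
                v * (mu (k + 2) * ((k + 2).choose (i + 2) : ℝ) * B ^ (i + 1)) * (1 + V) ^ k :=
                add_le_add h11 h12
            _ = _ := by ring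
        have hsecond : |((2 * (k + 2)).choose 2 : ℝ) * v * (mom L (2 * (k + 1)) - mu (k + 1) * V ^ (k + 1))| ≤
            v * (((2 * (k + 2)).choose 2 : ℝ) * c) * (1 + V) ^ k := by
          rw [abs_mul, abs_mul, Nat.abs_cast, abs_of_nonneg hv0]
          calc ((2 * (k + 2)).choose 2 : ℝ) * v * |mom L (2 * (k + 1)) - mu (k + 1) * V ^ (k + 1)|
              ≤ ((2 * (k + 2)).choose 2 : ℝ) * v * (c * (1 + V) ^ k) := by gcongr
            _ = _ := by ring
        have htot : |(mom L (2 * (k + 2)) - mu (k + 2) * V ^ (k + 2)) +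
            ((2 * (k + 2)).choose 2 : ℝ) * v * (mom L (2 * (k + 1)) - mu (k + 1) * V ^ (k + 1)) +
            ∑ i ∈ range (k + 1), (((2 * (k + 2)).choose (2 * (i + 2)) : ℝ) * a ^ (2 * (i + 2)) * w *
              mom L (2 * (k - i)) - mu (k + 2) * (v ^ (i + 2) * V ^ (k - i) *
                ((k + 2).choose (i + 2) : ℝ)))| ≤ c' * (1 + V) ^ (k + 1) + c' * v * (1 + V) ^ k := by
          refine (abs_add_le _ _).trans ?_
          have h5 := abs_add_le (mom L (2 * (k + 2)) - mu (k + 2) * V ^ (k + 2))
            (((2 * (k + 2)).choose 2 : ℝ) * v * (mom L (2 * (k + 1)) - mu (k + 1) * V ^ (k + 1)))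
          have h6 : c' * v * (1 + V) ^ k = v * (((2 * (k + 2)).choose 2 : ℝ) * c) * (1 + V) ^ k +
              v * (∑ i ∈ range (k + 1),
              (((2 * (k + 2)).choose (2 * (i + 2)) : ℝ) * B ^ (i + 1) * M +
              mu (k + 2) * ((k + 2).choose (i + 2) : ℝ) * B ^ (i + 1))) * (1 + V) ^ k := by
            rw [hc']
            ring
          rw [h6]
          linarith
        refine htot.trans ?_
        have h7 : (1 + V) ^ (k + 1) + v * (1 + V) ^ k = (1 + (V + v)) * (1 + V) ^ k := by ring
        have h8 : (1 + V) ^ k ≤ (1 + (V + v)) ^ k := by gcongr; linarith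
        calc c' * (1 + V) ^ (k + 1) + c' * v * (1 + V) ^ k = c' * ((1 + V) ^ (k + 1) + v * (1 + V) ^ k) := by ring
          _ = c' * ((1 + (V + v)) * (1 + V) ^ k) := by rw [h7]
          _ ≤ c' * ((1 + (V + v)) * (1 + (V + v)) ^ k) := by gcongr
          _ = c' * (1 + (V + v)) ^ (k + 1) := by ring
    refine ⟨max c c', le_max_of_le_left hc0, ?_⟩
    intro j hj L hL
    have hV := vari_nonneg hL
    rcases Nat.lt_or_ge j (k + 2) with h | h
    · refine (hc j (by omega) L hL).trans ?_
      gcongr
      exact le_max_left _ _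
    · obtain rfl : j = k + 2 := by omega
      refine (key L hL).trans ?_
      have : k + 2 - 1 = k + 1 := by omega
      rw [this]
      gcongr
      exact le_max_right _ _

end Pool.Agent.Helper4.ST
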