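import Pool.Agent.Helper4.ST.Moments

set_option autoImplicit false

/-!
Moments of sums of Jacobi symbols over odd squarefree moduli.
-/

namespace Pool.Agent.Helper4.ST

open Finset
open scoped NumberTheorySymbols

/-- The average over odd squarefree moduli. -/
noncomputable def Eav (Q : ℕ) (F : ℕ → ℝ) : ℝ := (∑ d ∈ oddSF Q, F d) / ((oddSF Q).card : ℝ)

/-- The sum over a list of primes. -/
noncomputable def SL (a : ℕ → ℝ) (L : List ℕ) (d : ℕ) : ℝ :=
  (L.map (fun p => a p * (G p d : ℝ))).sum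

theorem G_mul_left (n m d : ℕ) : G (n * m) d = G n d * G m d := by
  unfold G
  split_ifs with h
  · push_cast
    exact jacobiSym.mul_left _ _ _
  · simp

theorem G_one_left {d : ℕ} (hd : Odd d) : G 1 d = 1 := by
  unfold G
  rw [if_pos hd, Nat.cast_one, jacobiSym.one_left]

theorem G_pow_left {d : ℕ} (hd : Odd d) (p j : ℕ) : G (p ^ j) d = G p d ^ j := by
  induction j with
  | zero => rw [pow_zero, pow_zero, G_one_left hd]
  | succ j ih => rw [pow_succ, pow_succ, G_mul_left, ih]

theorem isSquare_mul_pow {n p j : ℕ} (hn : 0 < n) (hp : p.Prime) (hpn : ¬ p ∣ n) :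
    IsSquare (n * p ^ j) ↔ IsSquare n ∧ Even j := by
  constructor
  · rintro ⟨t, ht⟩
    have hcop : n.Coprime (p ^ j) :=
      Nat.Coprime.pow_right j ((Nat.Prime.coprime_iff_not_dvd hp).2 hpn).symm
    have h1 : n * p ^ j = t ^ 2 := by rw [ht, sq]
    obtain ⟨s, hs⟩ := exists_eq_pow_of_mul_eq_pow (a := n) (b := p ^ j)
      (by rw [Nat.isUnit_iff]; exact hcop) h1
    obtain ⟨u, hu⟩ := exists_eq_pow_of_mul_eq_pow (a := p ^ j) (b := n) (c := t) (k := 2)
      (by rw [Nat.isUnit_iff]; exact hcop.symm) (by rw [mul_comm]; exact h1)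
    refine ⟨⟨s, by rw [hs, sq]⟩, ?_⟩
    have h2 := congrArg (fun x => x.factorization p) hu
    simp only [Nat.factorization_pow, Finsupp.smul_apply, smul_eq_mul, hp.factorization_self,
      mul_one] at h2
    rw [h2]
    exact even_two_mul _
  · rintro ⟨⟨s, hs⟩, ⟨i, hi⟩⟩
    refine ⟨s * p ^ i, ?_⟩
    rw [hs, hi, pow_add]
    ring

theorem kap_mul_pow {n p j : ℕ} (hn : 0 < n) (hp : p.Prime) (hpn : ¬ p ∣ n) :
    kap (n * p ^ j) = kap n * ev (wp p) j := by
  rcases Nat.eq_zero_or_pos j with rfl | hj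
  · simp [ev]
  · unfold kap ev
    rw [if_neg hj.ne']
    by_cases h1 : IsSquare n
    · by_cases h2 : Even j
      · rw [if_pos ((isSquare_mul_pow hn hp hpn).2 ⟨h1, h2⟩), if_pos h1, if_pos h2]
        have h3 : (n * p ^ j).primeFactors = insert p n.primeFactors := by
          rw [Nat.primeFactors_mul hn.ne' (pow_ne_zero _ hp.ne_zero), Nat.primeFactors_prime_pow hj.ne' hp,
            Finset.union_comm]
          rfl
        rw [h3, Finset.prod_insert, mul_comm]
        rw [Nat.mem_primeFactors]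
        exact fun h => hpn h.2.1
      · rw [if_neg (fun h => h2 ((isSquare_mul_pow hn hp hpn).1 h).2), if_neg h2, mul_zero]
    · rw [if_neg (fun h => h1 ((isSquare_mul_pow hn hp hpn).1 h).1), if_neg h1, zero_mul]

theorem Eav_add_sum (Q : ℕ) {ι : Type*} (s : Finset ι) (F : ι → ℕ → ℝ) :
    Eav Q (fun d => ∑ i ∈ s, F i d) = ∑ i ∈ s, Eav Q (F i) := by
  unfold Eav
  rw [Finset.sum_comm, Finset.sum_div]

theorem Eav_smul (Q : ℕ) (c : ℝ) (F : ℕ → ℝ) : Eav Q (fun d => c * F d) = c * Eav Q F := by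
  unfold Eav
  rw [← Finset.mul_sum, mul_div_assoc]

theorem Eav_congr (Q : ℕ) {F F' : ℕ → ℝ} (h : ∀ d, Odd d → F d = F' d) : Eav Q F = Eav Q F' := by
  unfold Eav
  congr 1
  refine Finset.sum_congr rfl fun d hd => ?_
  unfold oddSF at hd
  exact h d (Finset.mem_filter.1 hd).2.1

theorem approx (a : ℕ → ℝ) (Q X : ℕ) (hQ : 1024 ≤ Q) (L : List ℕ) :
    L.Nodup → (∀ p ∈ L, p.Prime ∧ p ≤ X) → ∀ n k : ℕ, 0 < n → (∀ p ∈ L, ¬ p ∣ n) →
    |Eav Q (fun d => (G n d : ℝ) * SL a L d ^ k) -
      kap n * mom (L.map (fun p => (a p, wp p))) k| ≤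
      64 / Real.sqrt Q * n * X ^ k * (L.map (fun p => |a p|)).sum ^ k := by
  induction L with
  | nil =>
    intro _ _ n k hn _
    simp only [SL, List.map_nil, List.sum_nil, mom]
    rcases Nat.eq_zero_or_pos k with rfl | hk
    · simp only [pow_zero, mul_one, if_true]
      have := avg_G n hn Q hQ
      unfold Eav
      calc _ ≤ 64 * n / Real.sqrt Q := this
        _ = _ := by ring
    · rw [if_neg hk.ne', zero_pow hk.ne']
      simp [Eav]
  | cons p L ih =>
    intro hnd hL n k hn hnL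
    have hpL : p ∉ L := (List.nodup_cons.1 hnd).1
    have hnd' : L.Nodup := (List.nodup_cons.1 hnd).2
    have hL' : ∀ r ∈ L, r.Prime ∧ r ≤ X := fun r hr => hL r (by simp [hr])
    obtain ⟨hp, hpX⟩ := hL p (by simp)
    have hpn : ¬ p ∣ n := hnL p (by simp)
    have h1 : Eav Q (fun d => (G n d : ℝ) * SL a (p :: L) d ^ k) =
        ∑ j ∈ range (k + 1), (k.choose j : ℝ) * a p ^ j *
          Eav Q (fun d => (G (n * p ^ j) d : ℝ) * SL a L d ^ (k - j)) := by
      have h2 : ∀ d, Odd d → (G n d : ℝ) * SL a (p :: L) d ^ k =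
          ∑ j ∈ range (k + 1), ((k.choose j : ℝ) * a p ^ j) *
            ((G (n * p ^ j) d : ℝ) * SL a L d ^ (k - j)) := by
        intro d hd
        have h3 : SL a (p :: L) d = a p * (G p d : ℝ) + SL a L d := by
          simp [SL]
        rw [h3, add_pow, Finset.mul_sum]
        refine Finset.sum_congr rfl fun j _ => ?_
        rw [G_mul_left, G_pow_left hd, mul_pow]
        push_cast
        ring
      rw [Eav_congr Q h2, Eav_add_sum]
      refine Finset.sum_congr rfl fun j _ => ?_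
      rw [Eav_smul]
    have h2 : kap n * mom ((p :: L).map (fun p => (a p, wp p))) k =
        ∑ j ∈ range (k + 1), (k.choose j : ℝ) * a p ^ j *
          (kap (n * p ^ j) * mom (L.map (fun p => (a p, wp p))) (k - j)) := by
      rw [List.map_cons]
      conv_lhs => rw [mom]
      rw [Finset.mul_sum]
      refine Finset.sum_congr rfl fun j _ => ?_
      rw [kap_mul_pow hn hp hpn]
      ring
    rw [h1, h2, ← Finset.sum_sub_distrib]
    set A : ℝ := (L.map (fun p => |a p|)).sum with hA
    have hA0 : 0 ≤ A := by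
      rw [hA]
      apply List.sum_nonneg
      intro x hx
      rw [List.mem_map] at hx
      obtain ⟨y, _, rfl⟩ := hx
      positivity
    have h3 : ∀ j ∈ range (k + 1), |(k.choose j : ℝ) * a p ^ j *
          Eav Q (fun d => (G (n * p ^ j) d : ℝ) * SL a L d ^ (k - j)) -
          (k.choose j : ℝ) * a p ^ j *
          (kap (n * p ^ j) * mom (L.map (fun p => (a p, wp p))) (k - j))| ≤
        64 / Real.sqrt Q * n * X ^ k * (|a p| ^ j * A ^ (k - j) * (k.choose j : ℝ)) := by
      intro j hj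
      rw [Finset.mem_range] at hj
      have h4 := ih hnd' hL' (n * p ^ j) (k - j) (Nat.mul_pos hn (pow_pos hp.pos j)) (by
        intro r hr hrn
        obtain ⟨hr1, _⟩ := hL' r hr
        rcases (Nat.Prime.dvd_mul hr1).1 hrn with h | h
        · exact hnL r (by simp [hr]) h
        · have h5 := hr1.dvd_of_dvd_pow h
          have := (Nat.prime_dvd_prime_iff_eq hr1 hp).1 h5
          exact hpL (this ▸ hr))
      rw [← mul_sub, abs_mul, abs_mul, Nat.abs_cast, abs_pow]
      have h5 : (((n * p ^ j : ℕ) : ℝ)) * (X : ℝ) ^ (k - j) ≤ n * X ^ k := by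
        have h6 : n * p ^ j * X ^ (k - j) ≤ n * X ^ k := by
          calc n * p ^ j * X ^ (k - j) ≤ n * X ^ j * X ^ (k - j) := by gcongr
            _ = n * X ^ k := by
              rw [mul_assoc, ← pow_add]
              congr 2
              omega
        exact_mod_cast h6
      calc (k.choose j : ℝ) * |a p| ^ j * _ ≤ (k.choose j : ℝ) * |a p| ^ j *
            (64 / Real.sqrt Q * ((n * p ^ j : ℕ) : ℝ) * X ^ (k - j) * A ^ (k - j)) := by gcongr
        _ = (64 / Real.sqrt Q) * ((((n * p ^ j : ℕ) : ℝ)) * (X : ℝ) ^ (k - j)) *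
            (|a p| ^ j * A ^ (k - j) * (k.choose j : ℝ)) := by ring
        _ ≤ (64 / Real.sqrt Q) * (n * X ^ k) * (|a p| ^ j * A ^ (k - j) * (k.choose j : ℝ)) := by
            gcongr
        _ = _ := by ring
    calc _ ≤ ∑ j ∈ range (k + 1), 64 / Real.sqrt Q * n * X ^ k * (|a p| ^ j * A ^ (k - j) * (k.choose j : ℝ)) :=
          (Finset.abs_sum_le_sum_abs _ _).trans (Finset.sum_le_sum h3)
      _ = 64 / Real.sqrt Q * n * X ^ k * (|a p| + A) ^ k := by
          rw [← Finset.mul_sum, add_pow]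
      _ = _ := by
          rw [List.map_cons, List.sum_cons]

end Pool.Agent.Helper4.ST
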