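import Pool.Agent.Helper4.ST.Defs

set_option autoImplicit false

/-!
Norms of primes and the number of primes of bounded norm.
-/

namespace Pool.Agent.Helper4.ST

open NumberField IsDedekindDomain

universe u

variable {K : Type u} [Field K] [NumberField K]

theorem qv_prime_pow (v : HeightOneSpectrum (𝓞 K)) :
    ∃ p f : ℕ, p.Prime ∧ 1 ≤ f ∧ qv v = p ^ f ∧ (p : 𝓞 K) ∈ v.asIdeal := by
  have hmax : v.asIdeal.IsMaximal := v.isMaximal
  letI : Field (𝓞 K ⧸ v.asIdeal) := Ideal.Quotient.field v.asIdeal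
  have hfin : Finite (𝓞 K ⧸ v.asIdeal) := Ideal.finiteQuotientOfFreeOfNeBot v.asIdeal v.ne_bot
  letI : Fintype (𝓞 K ⧸ v.asIdeal) := Fintype.ofFinite _
  obtain ⟨p, hp⟩ := CharP.exists (𝓞 K ⧸ v.asIdeal)
  obtain ⟨m, hm, hcard⟩ := FiniteField.card (𝓞 K ⧸ v.asIdeal) p
  refine ⟨p, m, hm, m.pos, ?_, ?_⟩
  · unfold qv
    rw [Ideal.absNorm_apply, Submodule.cardQuot_apply, ← hcard, Nat.card_eq_fintype_card]
  · rw [← Ideal.Quotient.eq_zero_iff_mem, map_natCast]
    exact CharP.cast_eq_zero (𝓞 K ⧸ v.asIdeal) p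

theorem one_lt_qv (v : HeightOneSpectrum (𝓞 K)) : 1 < qv v := by
  obtain ⟨p, f, hp, hf, h, _⟩ := qv_prime_pow v
  rw [h]
  exact Nat.one_lt_pow (by omega) hp.one_lt

theorem qv_coprime (v : HeightOneSpectrum (𝓞 K)) {q : ℕ} (h : (q : 𝓞 K) ∉ v.asIdeal) :
    (qv v).Coprime q := by
  obtain ⟨p, f, hp, hf, h1, h2⟩ := qv_prime_pow v
  rw [h1]
  apply Nat.Coprime.pow_left
  rw [hp.coprime_iff_not_dvd]
  intro h3
  exact h (v.asIdeal.mem_of_dvd (Nat.cast_dvd_cast h3) h2)

theorem finite_norm_le (X : ℕ) : {v : HeightOneSpectrum (𝓞 K) | qv v ≤ X}.Finite := by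
  have h := Ideal.finite_setOfPred_absNorm_le (S := 𝓞 K) X
  refine Set.Finite.of_injOn (f := fun v : HeightOneSpectrum (𝓞 K) => v.asIdeal) ?_ ?_ h
  · intro v hv
    exact hv
  · intro v _ w _ hvw
    exact HeightOneSpectrum.ext hvw

/-- The finite primes of norm at most `X`. -/
noncomputable def primesLE (K : Type u) [Field K] [NumberField K] (X : ℕ) :
    Finset (HeightOneSpectrum (𝓞 K)) := (finite_norm_le (K := K) X).toFinset

theorem mem_primesLE {X : ℕ} {v : HeightOneSpectrum (𝓞 K)} :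
    v ∈ primesLE K X ↔ qv v ≤ X := by
  unfold primesLE
  rw [Set.Finite.mem_toFinset]
  rfl

/-- At most `[K : ℚ]` primes lie above a prime number. -/
theorem card_above (p : ℕ) (hp : p.Prime) (T : Finset (HeightOneSpectrum (𝓞 K)))
    (hT : ∀ v ∈ T, (p : 𝓞 K) ∈ v.asIdeal) : T.card ≤ Module.finrank ℚ K := by
  classical
  have h0 : Ideal.span {(p : 𝓞 K)} ≠ ⊥ := by
    rw [Ne, Ideal.span_singleton_eq_bot]
    exact_mod_cast hp.ne_zero
  have h1 : ∏ v ∈ T, v.asIdeal ∣ Ideal.span {(p : 𝓞 K)} := by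
    have h2 : (∏ I ∈ T.image (fun v => v.asIdeal), I) ∣ Ideal.span {(p : 𝓞 K)} := by
      apply Finset.prod_primes_dvd
      · intro I hI
        rw [Finset.mem_image] at hI
        obtain ⟨v, _, rfl⟩ := hI
        exact v.prime
      · intro I hI
        rw [Finset.mem_image] at hI
        obtain ⟨v, hv, rfl⟩ := hI
        rw [Ideal.dvd_span_singleton]
        exact hT v hv
    rw [Finset.prod_image] at h2
    · exact h2
    · intro v _ w _ h
      exact HeightOneSpectrum.ext h
  have h3 : ∏ v ∈ T, qv v ∣ p ^ Module.finrank ℚ K := by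
    have h4 := Ideal.absNorm_dvd_absNorm_of_le (Ideal.le_of_dvd h1)
    rw [map_prod] at h4
    have h5 : Ideal.absNorm (Ideal.span {(p : 𝓞 K)}) = p ^ Module.finrank ℚ K := by
      rw [Ideal.absNorm_span_natCast, RingOfIntegers.rank]
    rw [h5] at h4
    exact h4
  have h4 : p ^ T.card ≤ p ^ Module.finrank ℚ K := by
    calc p ^ T.card = ∏ _v ∈ T, p := by rw [Finset.prod_const]
      _ ≤ ∏ v ∈ T, qv v := by
          apply Finset.prod_le_prod'
          intro v hv
          obtain ⟨p', f, hp', hf, h5, h6⟩ := qv_prime_pow v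
          have h7 : p' = p := by
            by_contra hne
            have hcop : IsCoprime (p' : ℤ) (p : ℤ) :=
              Nat.isCoprime_iff_coprime.2 ((Nat.coprime_primes hp' hp).2 hne)
            obtain ⟨a, b, hab⟩ := hcop
            have h8 : (1 : 𝓞 K) ∈ v.asIdeal := by
              have : (1 : 𝓞 K) = (a : 𝓞 K) * p' + (b : 𝓞 K) * p := by
                exact_mod_cast congrArg (fun z : ℤ => (z : 𝓞 K)) hab.symm
              rw [this]
              exact v.asIdeal.add_mem (v.asIdeal.mul_mem_left _ h6)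
                (v.asIdeal.mul_mem_left _ (hT v hv))
            exact v.isPrime.ne_top ((Ideal.eq_top_iff_one _).2 h8)
          rw [h5, h7]
          exact Nat.le_self_pow (by omega) p
      _ ≤ p ^ Module.finrank ℚ K := Nat.le_of_dvd (pow_pos hp.pos _) h3
  exact (Nat.pow_le_pow_iff_right hp.one_lt).1 h4

/-- The number of primes with a given prime norm. -/
theorem card_norm_eq (p : ℕ) (hp : p.Prime) (T : Finset (HeightOneSpectrum (𝓞 K)))
    (hT : ∀ v ∈ T, qv v = p) : T.card ≤ Module.finrank ℚ K := by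
  apply card_above p hp T
  intro v hv
  have := Ideal.absNorm_mem v.asIdeal
  rwa [← hT v hv]

open Classical in
/-- The number of primes of composite norm at most `X`. -/
theorem card_higher (X : ℕ) :
    ((primesLE K X).filter (fun v => ¬ (qv v).Prime)).card ≤ Module.finrank ℚ K * Nat.sqrt X := by
  have hex : ∀ v : HeightOneSpectrum (𝓞 K), ∃ p : ℕ, p.Prime ∧ (p : 𝓞 K) ∈ v.asIdeal ∧
      ∃ f, 1 ≤ f ∧ qv v = p ^ f := by
    intro v
    obtain ⟨p, f, hp, hf, h, h'⟩ := qv_prime_pow v
    exact ⟨p, hp, h', f, hf, h⟩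
  choose pv hpv hpv' hf using hex
  have hmaps : ∀ v ∈ (primesLE K X).filter (fun v => ¬ (qv v).Prime),
      pv v ∈ Finset.Icc 1 (Nat.sqrt X) := by
    intro v hv
    rw [Finset.mem_filter, mem_primesLE] at hv
    obtain ⟨f, hf1, hf2⟩ := hf v
    have h2 : 2 ≤ f := by
      by_contra hlt
      have : f = 1 := by omega
      rw [this, pow_one] at hf2
      exact hv.2 (hf2 ▸ hpv v)
    rw [Finset.mem_Icc]
    refine ⟨(hpv v).one_le, ?_⟩
    rw [Nat.le_sqrt']
    calc pv v ^ 2 ≤ pv v ^ f := Nat.pow_le_pow_right (hpv v).pos h2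
      _ ≤ X := by rw [← hf2]; exact hv.1
  rw [Finset.card_eq_sum_card_fiberwise hmaps]
  calc ∑ p ∈ Finset.Icc 1 (Nat.sqrt X),
        (((primesLE K X).filter (fun v => ¬ (qv v).Prime)).filter (fun v => pv v = p)).card
      ≤ ∑ _p ∈ Finset.Icc 1 (Nat.sqrt X), Module.finrank ℚ K := by
        refine Finset.sum_le_sum fun p _ => ?_
        rcases Finset.eq_empty_or_nonempty
          (((primesLE K X).filter (fun v => ¬ (qv v).Prime)).filter (fun v => pv v = p)) with h | ⟨v, hv⟩
        · rw [h]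
          simp
        · have hpp : p.Prime := by
            rw [← (Finset.mem_filter.1 hv).2]
            exact hpv v
          apply card_above p hpp
          intro w hw
          rw [← (Finset.mem_filter.1 hw).2]
          exact hpv' w
    _ = Module.finrank ℚ K * Nat.sqrt X := by
        rw [Finset.sum_const, Nat.card_Icc, smul_eq_mul, mul_comm]
        simp

end Pool.Agent.Helper4.ST
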