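import Mathlib

set_option autoImplicit false

/-!
The method of moments for the standard normal law.
-/

namespace Pool.Agent.Helper4.ST.NormalLaw

open MeasureTheory ProbabilityTheory Filter Topology Complex

/-- The moments of the standard normal law. -/
noncomputable def gm (k : ℕ) : ℝ := if Even k then ((k - 1).doubleFactorial : ℝ) else 0

theorem rem_aux (c : ℂ) (hc : ‖c‖ ≤ 1) (hre : c.re = 0) (n : ℕ) : ∀ x : ℝ, 0 ≤ x →
    ‖cexp (c * x) - ∑ k ∈ Finset.range n, (c * x) ^ k / (k.factorial : ℂ)‖ ≤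
      x ^ n / n.factorial := by
  induction n with
  | zero =>
    intro x _
    simp [Complex.norm_exp, hre]
  | succ n ih =>
    intro x hx
    have h0 : ∀ y : ℝ, HasDerivAt (fun y : ℝ => c * (y : ℂ)) c y := by
      intro y
      have h := (Complex.ofRealCLM.hasDerivAt (x := y)).const_mul c
      simpa using h
    have hd : ∀ y : ℝ, HasDerivAt (fun y : ℝ => cexp (c * y) -
        ∑ k ∈ Finset.range (n + 1), (c * y) ^ k / (k.factorial : ℂ))
        (c * (cexp (c * y) - ∑ k ∈ Finset.range n, (c * y) ^ k / (k.factorial : ℂ))) y := by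
      intro y
      have h1 := (h0 y).cexp
      have h2 : HasDerivAt (fun y : ℝ => ∑ k ∈ Finset.range (n + 1),
          (c * y) ^ k / (k.factorial : ℂ))
          (c * ∑ k ∈ Finset.range n, (c * y) ^ k / (k.factorial : ℂ)) y := by
        simp only [Finset.sum_range_succ']
        have h3 : ∀ k ∈ Finset.range n, HasDerivAt
            (fun y : ℝ => (c * (y : ℂ)) ^ (k + 1) / ((k + 1).factorial : ℂ))
            (c * ((c * y) ^ k / (k.factorial : ℂ))) y := by
          intro k _
          have h4 : HasDerivAt (fun y : ℝ => (c * (y : ℂ)) ^ (k + 1) / ((k + 1).factorial : ℂ)) _ y :=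
            ((h0 y).fun_pow (k + 1)).div_const ((k + 1).factorial : ℂ)
          refine h4.congr_deriv ?_
          rw [Nat.factorial_succ]
          have h5 : ((k.factorial : ℕ) : ℂ) ≠ 0 := by exact_mod_cast k.factorial_ne_zero
          have h6 : ((k : ℂ) + 1) ≠ 0 := by exact_mod_cast Nat.succ_ne_zero k
          push_cast
          field_simp
        have h7 := HasDerivAt.fun_sum h3
        rw [Finset.mul_sum]
        exact (h7.add_const (1 : ℂ)).congr_of_eventuallyEq
          (Eventually.of_forall fun z => by simp)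
      exact (h1.sub h2).congr_deriv (by ring)
    have key := image_norm_le_of_norm_deriv_right_le_deriv_boundary (a := 0) (b := x)
      (f := fun y : ℝ => cexp (c * y) -
        ∑ k ∈ Finset.range (n + 1), (c * y) ^ k / (k.factorial : ℂ))
      (f' := fun y : ℝ => c * (cexp (c * y) -
        ∑ k ∈ Finset.range n, (c * y) ^ k / (k.factorial : ℂ)))
      (B := fun y => y ^ (n + 1) / (n + 1).factorial) (B' := fun y => y ^ n / n.factorial)
      (fun y _ => (hd y).continuousAt.continuousWithinAt)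
      (fun y _ => (hd y).hasDerivWithinAt) (by
        simp only [Finset.sum_range_succ']
        simp) (by
        intro y
        have h1 := (hasDerivAt_pow (n + 1) y).div_const ((n + 1).factorial : ℝ)
        refine h1.congr_deriv ?_
        rw [Nat.factorial_succ]
        have h5 : ((n.factorial : ℕ) : ℝ) ≠ 0 := by exact_mod_cast n.factorial_ne_zero
        have h6 : ((n : ℝ) + 1) ≠ 0 := by exact_mod_cast Nat.succ_ne_zero n
        push_cast
        field_simp) (by
        intro y hy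
        rw [norm_mul]
        calc ‖c‖ * _ ≤ 1 * (y ^ n / n.factorial) := by
              gcongr
              exact ih y hy.1
          _ = _ := one_mul _)
    exact key ⟨hx, le_rfl⟩

theorem rem_I (x : ℝ) (n : ℕ) :
    ‖cexp (I * x) - ∑ k ∈ Finset.range n, (I * x) ^ k / (k.factorial : ℂ)‖ ≤
      |x| ^ n / n.factorial := by
  rcases le_or_gt 0 x with h | h
  · rw [abs_of_nonneg h]
    exact rem_aux I (by simp) (by simp) n x h
  · rw [abs_of_neg h]
    have h1 := rem_aux (-I) (by simp) (by simp) n (-x) (by linarith)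
    have h2 : -I * ((-x : ℝ) : ℂ) = I * x := by
      push_cast
      ring
    rw [h2] at h1
    exact h1

/-- The partial sums of the series of the characteristic function. -/
theorem sum_gm (t : ℝ) (m : ℕ) :
    ∑ k ∈ Finset.range (2 * m), (I * t) ^ k / (k.factorial : ℂ) * (gm k : ℂ) =
      ∑ j ∈ Finset.range m, (-((t : ℂ) ^ 2) / 2) ^ j / (j.factorial : ℂ) := by
  induction m with
  | zero => simp
  | succ m ih =>
    have h1 : 2 * (m + 1) = 2 * m + 1 + 1 := by ring
    rw [h1, Finset.sum_range_succ, Finset.sum_range_succ, ih, Finset.sum_range_succ]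
    have h2 : gm (2 * m + 1) = 0 := by
      unfold gm
      rw [if_neg]
      rw [Nat.not_even_iff_odd]
      exact ⟨m, rfl⟩
    rw [h2, Complex.ofReal_zero, mul_zero, add_zero]
    congr 1
    have h3 : gm (2 * m) = ((2 * m - 1).doubleFactorial : ℝ) := by
      unfold gm
      rw [if_pos (even_two_mul m)]
    rw [h3]
    have h4 : ((2 * m).factorial : ℂ) =
        2 ^ m * (m.factorial : ℂ) * ((2 * m - 1).doubleFactorial : ℂ) := by
      rcases Nat.eq_zero_or_pos m with rfl | hm
      · simp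
      · have h5 : 2 * m = (2 * m - 1) + 1 := by omega
        have h6 : (2 * m).factorial = (2 * m).doubleFactorial * (2 * m - 1).doubleFactorial := by
          conv_lhs => rw [h5, Nat.factorial_eq_mul_doubleFactorial]
          rw [← h5]
        rw [h6, Nat.doubleFactorial_two_mul]
        push_cast
        ring
    rw [h4]
    have h7 : (((2 * m - 1).doubleFactorial : ℕ) : ℂ) ≠ 0 := by
      exact_mod_cast (Nat.doubleFactorial_pos _).ne'
    have h8 : ((m.factorial : ℕ) : ℂ) ≠ 0 := by exact_mod_cast m.factorial_ne_zero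
    have h9 : (I * (t : ℂ)) ^ (2 * m) = (-((t : ℂ) ^ 2)) ^ m := by
      rw [pow_mul, mul_pow, I_sq]
      ring
    rw [h9, div_pow]
    push_cast
    field_simp

/-- The series of moments. -/
theorem tendsto_sum_gm (t : ℝ) :
    Tendsto (fun m : ℕ => ∑ k ∈ Finset.range (2 * m), (I * t) ^ k / (k.factorial : ℂ) * (gm k : ℂ))
      atTop (𝓝 (cexp (-((t : ℂ) ^ 2) / 2))) := by
  simp only [sum_gm]
  rw [Complex.exp_eq_exp_ℂ]
  exact (NormedSpace.expSeries_div_hasSum_exp (-((t : ℂ) ^ 2) / 2)).tendsto_sum_nat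

theorem tendsto_term (t : ℝ) :
    Tendsto (fun m : ℕ => |t| ^ (2 * m) / ((2 * m).factorial : ℝ) * (gm (2 * m) + 1)) atTop
      (𝓝 0) := by
  have h1 : Tendsto (fun m : ℕ => ∑ k ∈ Finset.range (2 * m),
      (I * t) ^ k / (k.factorial : ℂ) * (gm k : ℂ)) atTop (𝓝 (cexp (-((t : ℂ) ^ 2) / 2))) :=
    tendsto_sum_gm t
  have h2 : Tendsto (fun m : ℕ => (∑ k ∈ Finset.range (2 * (m + 1)),
      (I * t) ^ k / (k.factorial : ℂ) * (gm k : ℂ)) - ∑ k ∈ Finset.range (2 * m),
      (I * t) ^ k / (k.factorial : ℂ) * (gm k : ℂ)) atTop (𝓝 0) := by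
    have := (h1.comp (tendsto_add_atTop_nat 1)).sub h1
    rw [sub_self] at this
    exact this
  have h3 : ∀ m : ℕ, ‖(∑ k ∈ Finset.range (2 * (m + 1)),
      (I * t) ^ k / (k.factorial : ℂ) * (gm k : ℂ)) - ∑ k ∈ Finset.range (2 * m),
      (I * t) ^ k / (k.factorial : ℂ) * (gm k : ℂ)‖ =
      |t| ^ (2 * m) / ((2 * m).factorial : ℝ) * gm (2 * m) := by
    intro m
    have e : 2 * (m + 1) = 2 * m + 1 + 1 := by ring
    have h4 : gm (2 * m + 1) = 0 := by
      unfold gm
      rw [if_neg]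
      rw [Nat.not_even_iff_odd]
      exact ⟨m, rfl⟩
    rw [e, Finset.sum_range_succ, Finset.sum_range_succ, h4, Complex.ofReal_zero, mul_zero,
      add_zero, add_sub_cancel_left, norm_mul, norm_div, norm_pow, norm_mul, Complex.norm_I,
      one_mul, Complex.norm_real, Complex.norm_real, Complex.norm_natCast, Real.norm_eq_abs,
      Real.norm_eq_abs]
    congr 1
    apply abs_of_nonneg
    unfold gm
    split_ifs <;> positivity
  have h4 : Tendsto (fun m : ℕ => |t| ^ (2 * m) / ((2 * m).factorial : ℝ) * gm (2 * m)) atTop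
      (𝓝 0) := by
    have := h2.norm
    rw [norm_zero] at this
    exact this.congr h3
  have h5 : Tendsto (fun m : ℕ => |t| ^ (2 * m) / ((2 * m).factorial : ℝ)) atTop (𝓝 0) := by
    have h6 : Tendsto (fun m : ℕ => 2 * m) atTop atTop :=
      tendsto_id.const_mul_atTop' (by norm_num)
    exact (FloorSemiring.tendsto_pow_div_factorial_atTop |t|).comp h6
  have h6 := h4.add h5
  rw [add_zero] at h6
  refine h6.congr fun m => ?_
  ring

/-- The characteristic function of a finite sample. -/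
theorem char_bound (s : Finset ℕ) (hs : s.Nonempty) (Z : ℕ → ℝ) (t : ℝ) (m : ℕ) :
    ‖(∑ i ∈ s, cexp (I * ((t * Z i : ℝ) : ℂ))) / (s.card : ℂ) -
      ∑ k ∈ Finset.range (2 * m), (I * t) ^ k / (k.factorial : ℂ) *
        (((∑ i ∈ s, Z i ^ k) / (s.card : ℝ) : ℝ) : ℂ)‖ ≤
      |t| ^ (2 * m) / ((2 * m).factorial : ℝ) * ((∑ i ∈ s, Z i ^ (2 * m)) / (s.card : ℝ)) := by
  have hc : (0 : ℝ) < s.card := by exact_mod_cast Finset.card_pos.2 hs
  have hc' : (s.card : ℂ) ≠ 0 := by exact_mod_cast hc.ne'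
  have h1 : (∑ i ∈ s, cexp (I * ((t * Z i : ℝ) : ℂ))) / (s.card : ℂ) -
      ∑ k ∈ Finset.range (2 * m), (I * t) ^ k / (k.factorial : ℂ) *
        (((∑ i ∈ s, Z i ^ k) / (s.card : ℝ) : ℝ) : ℂ) =
      (∑ i ∈ s, (cexp (I * ((t * Z i : ℝ) : ℂ)) - ∑ k ∈ Finset.range (2 * m),
        (I * ((t * Z i : ℝ) : ℂ)) ^ k / (k.factorial : ℂ))) / (s.card : ℂ) := by
    rw [Finset.sum_sub_distrib, sub_div]
    congr 1
    rw [Finset.sum_comm, Finset.sum_div]
    refine Finset.sum_congr rfl fun k _ => ?_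
    push_cast
    rw [← mul_div_assoc, Finset.mul_sum]
    congr 1
    refine Finset.sum_congr rfl fun i _ => ?_
    rw [mul_pow, mul_pow, mul_pow]
    ring
  rw [h1, norm_div, Complex.norm_natCast, div_le_iff₀ hc]
  have h2 : |t| ^ (2 * m) / ((2 * m).factorial : ℝ) * ((∑ i ∈ s, Z i ^ (2 * m)) / (s.card : ℝ)) *
      (s.card : ℝ) = ∑ i ∈ s, |t| ^ (2 * m) / ((2 * m).factorial : ℝ) * Z i ^ (2 * m) := by
    rw [mul_assoc, div_mul_cancel₀ _ hc.ne', Finset.mul_sum]
  rw [h2]
  refine norm_sum_le_of_le _ fun i _ => ?_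
  refine (rem_I (t * Z i) (2 * m)).trans (le_of_eq ?_)
  rw [abs_mul, mul_pow, (even_two_mul m).pow_abs (Z i)]
  ring

/-- Convergence of the moments gives convergence of the characteristic functions. -/
theorem tendsto_char (s : ℕ → Finset ℕ) (hs : ∀ n, (s n).Nonempty) (Z : ℕ → ℕ → ℝ)
    (hM : ∀ k : ℕ, Tendsto (fun n => (∑ i ∈ s n, Z n i ^ k) / ((s n).card : ℝ)) atTop
      (𝓝 (gm k))) (t : ℝ) :
    Tendsto (fun n => (∑ i ∈ s n, cexp (I * ((t * Z n i : ℝ) : ℂ))) / ((s n).card : ℂ)) atTop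
      (𝓝 (cexp (-((t : ℂ) ^ 2) / 2))) := by
  rw [Metric.tendsto_atTop]
  intro η hη
  have h1 := (Metric.tendsto_atTop.1 (tendsto_sum_gm t) (η / 3) (by positivity))
  obtain ⟨m1, hm1⟩ := h1
  obtain ⟨m2, hm2⟩ := Metric.tendsto_atTop.1 (tendsto_term t) (η / 3) (by positivity)
  set m := max m1 m2 with hm
  have g1 := hm1 m (le_max_left _ _)
  have g2 := hm2 m (le_max_right _ _)
  rw [dist_eq_norm] at g1
  rw [Real.dist_eq, sub_zero] at g2
  have g2' := lt_of_abs_lt g2
  -- the finitely many moments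
  have h3 : Tendsto (fun n => ∑ k ∈ Finset.range (2 * m), (I * t) ^ k / (k.factorial : ℂ) *
        (((∑ i ∈ s n, Z n i ^ k) / ((s n).card : ℝ) : ℝ) : ℂ)) atTop
      (𝓝 (∑ k ∈ Finset.range (2 * m), (I * t) ^ k / (k.factorial : ℂ) * (gm k : ℂ))) := by
    apply tendsto_finsetSum
    intro k _
    exact ((Complex.continuous_ofReal.tendsto _).comp (hM k)).const_mul _
  obtain ⟨n1, hn1⟩ := Metric.tendsto_atTop.1 h3 (η / 3) (by positivity)
  obtain ⟨n2, hn2⟩ := Metric.tendsto_atTop.1 (hM (2 * m)) 1 one_pos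
  refine ⟨max n1 n2, fun n hn => ?_⟩
  have g3 := hn1 n ((le_max_left _ _).trans hn)
  have g4 := hn2 n ((le_max_right _ _).trans hn)
  rw [dist_eq_norm] at g3 ⊢
  rw [Real.dist_eq] at g4
  have g4' := (abs_lt.1 g4).2
  have g5 := char_bound (s n) (hs n) (Z n) t m
  have g6 : |t| ^ (2 * m) / ((2 * m).factorial : ℝ) *
      ((∑ i ∈ s n, Z n i ^ (2 * m)) / ((s n).card : ℝ)) ≤
      |t| ^ (2 * m) / ((2 * m).factorial : ℝ) * (gm (2 * m) + 1) := by
    gcongr
    linarith
  set A := (∑ i ∈ s n, cexp (I * ((t * Z n i : ℝ) : ℂ))) / ((s n).card : ℂ) with hA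
  set B := ∑ k ∈ Finset.range (2 * m), (I * t) ^ k / (k.factorial : ℂ) *
        (((∑ i ∈ s n, Z n i ^ k) / ((s n).card : ℝ) : ℝ) : ℂ) with hB
  set C := ∑ k ∈ Finset.range (2 * m), (I * t) ^ k / (k.factorial : ℂ) * (gm k : ℂ) with hC
  have e : A - cexp (-((t : ℂ) ^ 2) / 2) = (A - B) + (B - C) +
      (C - cexp (-((t : ℂ) ^ 2) / 2)) := by ring
  rw [e]
  have n1 := norm_add_le ((A - B) + (B - C)) (C - cexp (-((t : ℂ) ^ 2) / 2))
  have n2 := norm_add_le (A - B) (B - C)
  linarith

/-- The uniform measure on a finite sample. -/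
noncomputable def smp (s : Finset ℕ) (Z : ℕ → ℝ) : Measure ℝ :=
  ((s.card : ENNReal)⁻¹) • ∑ i ∈ s, Measure.dirac (Z i)

theorem smp_prob (s : Finset ℕ) (hs : s.Nonempty) (Z : ℕ → ℝ) : IsProbabilityMeasure (smp s Z) := by
  refine ⟨?_⟩
  have hc : (s.card : ENNReal) ≠ 0 := by exact_mod_cast (Finset.card_pos.2 hs).ne'
  simp only [smp, Measure.smul_apply, Measure.finsetSum_apply, measure_univ, Finset.sum_const,
    nsmul_eq_mul, mul_one, smul_eq_mul]
  exact ENNReal.inv_mul_cancel hc (ENNReal.natCast_ne_top _)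

theorem smp_char (s : Finset ℕ) (Z : ℕ → ℝ) (t : ℝ) :
    charFun (smp s Z) t = (∑ i ∈ s, cexp (I * ((t * Z i : ℝ) : ℂ))) / (s.card : ℂ) := by
  rw [charFun_apply_real]
  unfold smp
  rw [integral_smul_measure, integral_finsetSum_measure]
  · simp only [integral_dirac]
    rw [ENNReal.toReal_inv, ENNReal.toReal_natCast, div_eq_inv_mul]
    rw [Complex.real_smul]
    push_cast
    congr 1
    refine Finset.sum_congr rfl fun i _ => ?_
    congr 1
    ring
  · intro i _
    exact integrable_dirac (by simp)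

theorem smp_Iic (s : Finset ℕ) (Z : ℕ → ℝ) (a : ℝ) :
    ((smp s Z) (Set.Iic a)).toReal = ((s.filter (fun i => Z i ≤ a)).card : ℝ) / s.card := by
  classical
  unfold smp
  rw [Measure.smul_apply, Measure.finsetSum_apply, smul_eq_mul, ENNReal.toReal_mul,
    ENNReal.toReal_inv, ENNReal.toReal_natCast, div_eq_inv_mul]
  congr 1
  have h1 : ∀ i, (Measure.dirac (Z i)) (Set.Iic a) = if Z i ≤ a then 1 else 0 := by
    intro i
    rw [Measure.dirac_apply' _ measurableSet_Iic]
    simp [Set.indicator_apply]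
  simp only [h1]
  rw [Finset.sum_ite, Finset.sum_const_zero, add_zero, Finset.sum_const, nsmul_eq_mul, mul_one,
    ENNReal.toReal_natCast]

/-- **The method of moments**, for sequences. -/
theorem tendsto_cdf (s : ℕ → Finset ℕ) (hs : ∀ n, (s n).Nonempty) (Z : ℕ → ℕ → ℝ)
    (hM : ∀ k : ℕ, Tendsto (fun n => (∑ i ∈ s n, Z n i ^ k) / ((s n).card : ℝ)) atTop
      (𝓝 (gm k))) (a : ℝ) :
    Tendsto (fun n => (((s n).filter (fun i => Z n i ≤ a)).card : ℝ) / (s n).card) atTop
      (𝓝 ((gaussianReal 0 1).real (Set.Iic a))) := by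
  let P : ℕ → ProbabilityMeasure ℝ := fun n => ⟨smp (s n) (Z n), smp_prob _ (hs n) _⟩
  let G : ProbabilityMeasure ℝ := ⟨gaussianReal 0 1, inferInstance⟩
  have h1 : Tendsto P atTop (𝓝 G) := by
    rw [ProbabilityMeasure.tendsto_iff_tendsto_charFun]
    intro t
    have h2 := tendsto_char s hs Z hM t
    have h3 : charFun (gaussianReal 0 1) t = cexp (-((t : ℂ) ^ 2) / 2) := by
      rw [charFun_gaussianReal]
      congr 1
      push_cast
      ring
    show Tendsto (fun n => charFun (smp (s n) (Z n)) t) atTop (𝓝 (charFun (gaussianReal 0 1) t))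
    rw [h3]
    refine h2.congr fun n => ?_
    rw [smp_char]
  have hna : NullSingletonClass (gaussianReal 0 1) := nullSingletonClass_gaussianReal one_ne_zero
  have h2 := ProbabilityMeasure.tendsto_measure_of_null_frontier_of_tendsto' h1
    (E := Set.Iic a) (by
      show (gaussianReal 0 1) (frontier (Set.Iic a)) = 0
      rw [frontier_Iic]
      exact measure_singleton a)
  have h3 := (ENNReal.tendsto_toReal (measure_ne_top (gaussianReal 0 1) (Set.Iic a))).comp h2
  refine h3.congr fun n => ?_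
  exact smp_Iic (s n) (Z n) a

/-- **The method of moments**, uniform form. -/
theorem method_of_moments (a δ : ℝ) (hδ : 0 < δ) :
    ∃ (N : ℕ) (ε : ℝ), 0 < ε ∧ ∀ (s : Finset ℕ) (Z : ℕ → ℝ), s.Nonempty →
      (∀ k ≤ N, |(∑ i ∈ s, Z i ^ k) / (s.card : ℝ) - gm k| ≤ ε) →
      |((s.filter (fun i => Z i ≤ a)).card : ℝ) / s.card -
        (gaussianReal 0 1).real (Set.Iic a)| ≤ δ := by
  by_contra hno
  push Not at hno
  have h1 : ∀ n : ℕ, ∃ (s : Finset ℕ) (Z : ℕ → ℝ), s.Nonempty ∧
      (∀ k ≤ n, |(∑ i ∈ s, Z i ^ k) / (s.card : ℝ) - gm k| ≤ 1 / ((n : ℝ) + 1)) ∧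
      δ < |((s.filter (fun i => Z i ≤ a)).card : ℝ) / s.card -
        (gaussianReal 0 1).real (Set.Iic a)| := by
    intro n
    obtain ⟨s, Z, h1, h2, h3⟩ := hno n (1 / ((n : ℝ) + 1)) (by positivity)
    exact ⟨s, Z, h1, h2, h3⟩
  choose s Z hs hM hbad using h1
  have h2 : ∀ k : ℕ, Tendsto (fun n => (∑ i ∈ s n, Z n i ^ k) / ((s n).card : ℝ)) atTop
      (𝓝 (gm k)) := by
    intro k
    rw [tendsto_iff_norm_sub_tendsto_zero]
    refine squeeze_zero' (Eventually.of_forall fun n => norm_nonneg _) ?_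
      (tendsto_one_div_add_atTop_nhds_zero_nat (𝕜 := ℝ))
    filter_upwards [eventually_ge_atTop k] with n hn
    rw [Real.norm_eq_abs]
    exact hM n k hn
  have h3 := tendsto_cdf s hs Z h2 a
  obtain ⟨n, hn⟩ := Metric.tendsto_atTop.1 h3 δ hδ
  have h4 := hn n le_rfl
  rw [Real.dist_eq] at h4
  exact absurd h4 (not_lt.2 (hbad n).le)

theorem Phi_lip (x y : ℝ) (hxy : x ≤ y) :
    (gaussianReal 0 1).real (Set.Iic y) - (gaussianReal 0 1).real (Set.Iic x) ≤ y - x := by
  have h1 : Set.Iic y = Set.Iic x ∪ Set.Ioc x y := (Set.Iic_union_Ioc_eq_Iic hxy).symm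
  have h2 : (gaussianReal 0 1).real (Set.Iic y) ≤
      (gaussianReal 0 1).real (Set.Iic x) + (gaussianReal 0 1).real (Set.Ioc x y) := by
    rw [h1]
    exact measureReal_union_le _ _
  have h3 : (gaussianReal 0 1).real (Set.Ioc x y) ≤ y - x := by
    have h4 : (gaussianReal 0 1) (Set.Ioc x y) ≤ ENNReal.ofReal (y - x) := by
      rw [gaussianReal_apply 0 one_ne_zero, ← Real.volume_Ioc]
      calc ∫⁻ z in Set.Ioc x y, gaussianPDF 0 1 z ≤ ∫⁻ _z in Set.Ioc x y, 1 := by
            apply lintegral_mono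
            intro z
            show gaussianPDF 0 1 z ≤ 1
            rw [gaussianPDF, ENNReal.ofReal_le_one, gaussianPDFReal]
            have h5 : (1 : ℝ) ≤ Real.sqrt (2 * Real.pi * ((1 : NNReal) : ℝ)) := by
              rw [Real.one_le_sqrt]
              have := Real.pi_gt_three
              push_cast
              linarith
            have h6 : (Real.sqrt (2 * Real.pi * ((1 : NNReal) : ℝ)))⁻¹ ≤ 1 := inv_le_one_of_one_le₀ h5
            have h7 : Real.exp (-(z - 0) ^ 2 / (2 * ((1 : NNReal) : ℝ))) ≤ 1 := by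
              rw [Real.exp_le_one_iff]
              push_cast
              have := sq_nonneg (z - 0)
              linarith
            calc _ ≤ (1 : ℝ) * 1 := mul_le_mul h6 h7 (Real.exp_pos _).le zero_le_one
              _ = 1 := one_mul 1
        _ = volume (Set.Ioc x y) := by simp
    have h5 : 0 ≤ y - x := by linarith
    exact ENNReal.toReal_le_of_le_ofReal h5 h4
  linarith

/-- **The method of moments**, uniform in the point. -/
theorem method_uniform (δ : ℝ) (hδ : 0 < δ) :
    ∃ (N : ℕ) (ε : ℝ), 0 < ε ∧ ∀ (s : Finset ℕ) (Z : ℕ → ℝ), s.Nonempty →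
      (∀ k ≤ N, |(∑ i ∈ s, Z i ^ k) / (s.card : ℝ) - gm k| ≤ ε) →
      ∀ a : ℝ, |((s.filter (fun i => Z i ≤ a)).card : ℝ) / s.card -
        (gaussianReal 0 1).real (Set.Iic a)| ≤ δ := by
  set Φ : ℝ → ℝ := fun a => (gaussianReal 0 1).real (Set.Iic a) with hΦ
  have hmono : ∀ x y, x ≤ y → Φ x ≤ Φ y := fun x y h => measureReal_mono (Set.Iic_subset_Iic.2 h)
  have hΦ1 : ∀ x, Φ x ≤ 1 := fun x => measureReal_le_one
  have hΦ0 : ∀ x, 0 ≤ Φ x := fun x => measureReal_nonneg
  have hbot : Tendsto Φ atBot (𝓝 0) := by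
    have := tendsto_cdf_atBot (gaussianReal 0 1)
    refine this.congr fun x => ?_
    exact cdf_eq_real _ _
  have htop : Tendsto Φ atTop (𝓝 1) := by
    have := tendsto_cdf_atTop (gaussianReal 0 1)
    refine this.congr fun x => ?_
    exact cdf_eq_real _ _
  obtain ⟨L1, hL1⟩ := Filter.eventually_atBot.1 (hbot.eventually (ge_mem_nhds (by positivity : (0 : ℝ) < δ / 4)))
  obtain ⟨L2, hL2⟩ := Filter.eventually_atTop.1 (htop.eventually (le_mem_nhds (by linarith : 1 - δ / 4 < (1 : ℝ))))
  set b : ℕ → ℝ := fun j => L1 + j * (δ / 4) with hb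
  obtain ⟨M, hM⟩ := exists_nat_ge ((L2 - L1) / (δ / 4))
  have hbM : L2 ≤ b M := by
    rw [div_le_iff₀ (by positivity)] at hM
    rw [hb]
    simp only
    linarith
  have hmom := fun j : ℕ => method_of_moments (b j) (δ / 4) (by positivity)
  choose Nf εf hεf hf using hmom
  obtain ⟨j₀, _, hj₀⟩ := (Finset.range (M + 1)).exists_min_image εf ⟨0, by simp⟩
  refine ⟨(Finset.range (M + 1)).sup Nf, εf j₀, hεf j₀, ?_⟩
  intro s Z hs hmo a
  have hc : (0 : ℝ) < s.card := by exact_mod_cast Finset.card_pos.2 hs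
  set F : ℝ → ℝ := fun a => ((s.filter (fun i => Z i ≤ a)).card : ℝ) / s.card with hF
  have hFmono : ∀ x y, x ≤ y → F x ≤ F y := by
    intro x y h
    rw [hF]
    simp only
    gcongr
  have hF1 : ∀ x, F x ≤ 1 := by
    intro x
    rw [hF]
    simp only
    rw [div_le_one hc]
    exact_mod_cast Finset.card_filter_le _ _
  have hF0 : ∀ x, 0 ≤ F x := fun x => by positivity
  have hgrid : ∀ j ≤ M, |F (b j) - Φ (b j)| ≤ δ / 4 := by
    intro j hj
    have hjm : j ∈ Finset.range (M + 1) := Finset.mem_range.2 (by omega)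
    refine hf j s Z hs fun k hk => ?_
    exact (hmo k (hk.trans (Finset.le_sup (f := Nf) hjm))).trans (hj₀ j hjm)
  show |F a - Φ a| ≤ δ
  have e0 := abs_le.1 (hgrid 0 (Nat.zero_le _))
  have eM := abs_le.1 (hgrid M le_rfl)
  have hb0 : b 0 = L1 := by simp [hb]
  rw [abs_le]
  rcases lt_or_ge a (b 0) with h | h
  · have h1 := hFmono a (b 0) h.le
    have h2 := hL1 a (by rw [← hb0]; exact h.le)
    have h3 := hL1 (b 0) (by rw [hb0])
    have h4 := hF0 a
    have h5 := hΦ0 a
    constructor <;> linarith [e0.1, e0.2]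
  · rcases lt_or_ge a (b M) with h' | h'
    · set j : ℕ := ⌊(a - L1) / (δ / 4)⌋₊ with hj
      have h0 : 0 ≤ (a - L1) / (δ / 4) := by
        rw [hb0] at h
        exact div_nonneg (by linarith) (by positivity)
      have h1 : (j : ℝ) ≤ (a - L1) / (δ / 4) := Nat.floor_le h0
      have h2 : (a - L1) / (δ / 4) < j + 1 := Nat.lt_floor_add_one _
      rw [le_div_iff₀ (by positivity)] at h1
      rw [div_lt_iff₀ (by positivity)] at h2
      have hbj : b j ≤ a := by
        simp only [hb]
        linarith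
      have hbj1 : a ≤ b (j + 1) := by
        simp only [hb]
        push_cast
        linarith
      have hjM : j + 1 ≤ M := by
        by_contra hlt
        have h3 : M ≤ j := by omega
        have h4 : (M : ℝ) ≤ j := by exact_mod_cast h3
        have h5 : b M ≤ b j := by
          simp only [hb]
          gcongr
        linarith
      have g1 := abs_le.1 (hgrid j (by omega))
      have g2 := abs_le.1 (hgrid (j + 1) hjM)
      have g3 := hFmono _ _ hbj
      have g4 := hFmono _ _ hbj1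
      have g5 := Phi_lip (b j) (b (j + 1)) (hbj.trans hbj1)
      have g6 : b (j + 1) - b j = δ / 4 := by
        simp only [hb]
        push_cast
        ring
      have g7 := hmono _ _ hbj
      have g8 := hmono _ _ hbj1
      have g9 : Φ (b (j + 1)) - Φ (b j) ≤ δ / 4 := by
        rw [← g6]
        exact g5
      constructor <;> linarith [g1.1, g1.2, g2.1, g2.2]
    · have h1 := hFmono (b M) a h'
      have h2 := hL2 a (hbM.trans h')
      have h3 := hL2 (b M) hbM
      have h4 := hF1 a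
      have h5 := hΦ1 a
      constructor <;> linarith [eM.1, eM.2]

end Pool.Agent.Helper4.ST.NormalLaw
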