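import Pool.Agent.Helper4.ST.Selberg

set_option autoImplicit false

/-!
The large sieve for sums over primes, with the saving of a logarithm.
-/

namespace Pool.Agent.Helper4.ST

open Finset ComplexConjugate

section period

variable {N : ℕ} [NeZero N]

theorem sum_range_period (F : ZMod N → ℂ) : ∑ n ∈ range N, F (n : ZMod N) = ∑ a : ZMod N, F a := by
  refine Finset.sum_bij' (fun n _ => (n : ZMod N)) (fun a _ => a.val) ?_ ?_ ?_ ?_ ?_
  · intro n _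
    exact Finset.mem_univ _
  · intro a _
    exact Finset.mem_range.2 (ZMod.val_lt a)
  · intro n hn
    exact ZMod.val_cast_of_lt (Finset.mem_range.1 hn)
  · intro a _
    exact ZMod.natCast_zmod_val a
  · intro n _
    rfl

theorem norm_sum_range_le (F : ZMod N → ℂ) (h0 : ∑ a : ZMod N, F a = 0) (h1 : ∀ a, ‖F a‖ ≤ 1)
    (Y : ℕ) : ‖∑ n ∈ range Y, F (n : ZMod N)‖ ≤ N := by
  have hk : ∀ k : ℕ, ∑ n ∈ range (N * k), F (n : ZMod N) = 0 := by
    intro k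
    induction k with
    | zero => simp
    | succ k ih =>
      rw [Nat.mul_succ, Finset.sum_range_add, ih, zero_add]
      have : ∀ n ∈ range N, F ((N * k + n : ℕ) : ZMod N) = F (n : ZMod N) := by
        intro n _
        congr 1
        push_cast
        simp
      rw [Finset.sum_congr rfl this, sum_range_period, h0]
  have h2 : ∑ n ∈ range Y, F (n : ZMod N) = ∑ n ∈ range (Y % N), F (n : ZMod N) := by
    conv_lhs => rw [← Nat.div_add_mod Y N]
    rw [Finset.sum_range_add, hk, zero_add]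
    refine Finset.sum_congr rfl fun n _ => ?_
    congr 1
    push_cast
    simp
  rw [h2]
  calc ‖∑ n ∈ range (Y % N), F (n : ZMod N)‖ ≤ ∑ n ∈ range (Y % N), (1 : ℝ) :=
        norm_sum_le_of_le _ fun n _ => h1 _
    _ = ((Y % N : ℕ) : ℝ) := by simp
    _ ≤ N := by exact_mod_cast (Nat.mod_lt Y (Nat.pos_of_ne_zero (NeZero.ne N))).le

end period

/-- A character of a product of two distinct primitive characters is non-trivial. -/
theorem prod_ne_one {q q' : ℕ} [NeZero q] [NeZero q'] {χ : DirichletCharacter ℂ q}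
    {ψ : DirichletCharacter ℂ q'} (hχ : χ.IsPrimitive) (hψ : ψ.IsPrimitive)
    (hne : (⟨q, χ⟩ : Σ q : ℕ, DirichletCharacter ℂ q) ≠ ⟨q', ψ⟩) :
    DirichletCharacter.changeLevel (Dvd.intro q' rfl : q ∣ q * q') χ *
      (DirichletCharacter.changeLevel (Dvd.intro_left q rfl : q' ∣ q * q') ψ)⁻¹ ≠ 1 := by
  intro h
  have : NeZero (q * q') := ⟨mul_ne_zero (NeZero.ne q) (NeZero.ne q')⟩
  have h1 : DirichletCharacter.changeLevel (Dvd.intro q' rfl : q ∣ q * q') χ =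
      DirichletCharacter.changeLevel (Dvd.intro_left q rfl : q' ∣ q * q') ψ :=
    mul_inv_eq_one.1 h
  have h2 : q = q' := by
    have h3 := DirichletCharacter.conductor_changeLevel χ (Dvd.intro q' rfl : q ∣ q * q')
    have h4 := DirichletCharacter.conductor_changeLevel ψ (Dvd.intro_left q rfl : q' ∣ q * q')
    rw [h1] at h3
    rw [DirichletCharacter.isPrimitive_def] at hχ hψ
    rw [← hχ, ← hψ, ← h3, h4]
  subst h2
  have h3 : χ = ψ := DirichletCharacter.changeLevel_injective _ h1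
  exact hne (by rw [h3])

theorem prod_apply {q q' : ℕ} [NeZero q] [NeZero q'] (χ : DirichletCharacter ℂ q)
    (ψ : DirichletCharacter ℂ q') (n : ℕ) :
    (DirichletCharacter.changeLevel (Dvd.intro q' rfl : q ∣ q * q') χ *
      (DirichletCharacter.changeLevel (Dvd.intro_left q rfl : q' ∣ q * q') ψ)⁻¹)
        (n : ZMod (q * q')) = χ (n : ZMod q) * conj (ψ (n : ZMod q')) := by
  have : NeZero (q * q') := ⟨mul_ne_zero (NeZero.ne q) (NeZero.ne q')⟩
  rw [MulChar.mul_apply, ← MulChar.star_apply']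
  by_cases hn : n.Coprime (q * q')
  · obtain ⟨u, hu⟩ := (ZMod.isUnit_iff_coprime n (q * q')).2 hn
    rw [← hu, DirichletCharacter.changeLevel_eq_cast_of_dvd, DirichletCharacter.changeLevel_eq_cast_of_dvd,
      hu]
    rw [ZMod.cast_natCast (Dvd.intro q' rfl : q ∣ q * q'),
      ZMod.cast_natCast (Dvd.intro_left q rfl : q' ∣ q * q')]
    rfl
  · have h1 : ¬ IsUnit (n : ZMod (q * q')) := by
      rw [ZMod.isUnit_iff_coprime]
      exact hn
    rw [MulChar.map_nonunit _ h1, zero_mul]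
    have h2 : ¬ (n.Coprime q ∧ n.Coprime q') := fun h => hn (Nat.Coprime.mul_right h.1 h.2)
    by_cases h3 : n.Coprime q
    · have h4 : ¬ IsUnit (n : ZMod q') := by
        rw [ZMod.isUnit_iff_coprime]
        exact fun h => h2 ⟨h3, h⟩
      rw [MulChar.map_nonunit ψ h4, map_zero, mul_zero]
    · have h4 : ¬ IsUnit (n : ZMod q) := by
        rw [ZMod.isUnit_iff_coprime]
        exact h3
      rw [MulChar.map_nonunit χ h4, zero_mul]

/-- Sums of products of characters over multiples. -/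
theorem norm_sum_mult_le {q q' : ℕ} [NeZero q] [NeZero q'] {χ : DirichletCharacter ℂ q}
    {ψ : DirichletCharacter ℂ q'} (hχ : χ.IsPrimitive) (hψ : ψ.IsPrimitive)
    (hne : (⟨q, χ⟩ : Σ q : ℕ, DirichletCharacter ℂ q) ≠ ⟨q', ψ⟩) (X E : ℕ) (hE : 1 ≤ E) :
    ‖∑ n ∈ (Icc 1 X).filter (fun n => E ∣ n), χ (n : ZMod q) * conj (ψ (n : ZMod q'))‖ ≤
      (q * q' : ℕ) := by
  have : NeZero (q * q') := ⟨mul_ne_zero (NeZero.ne q) (NeZero.ne q')⟩
  set Φ := DirichletCharacter.changeLevel (Dvd.intro q' rfl : q ∣ q * q') χ *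
      (DirichletCharacter.changeLevel (Dvd.intro_left q rfl : q' ∣ q * q') ψ)⁻¹ with hΦ
  have hΦ1 : Φ ≠ 1 := prod_ne_one hχ hψ hne
  have h0 : ∑ a : ZMod (q * q'), Φ a = 0 := MulChar.sum_eq_zero_of_ne_one hΦ1
  have h1 : ∑ n ∈ (Icc 1 X).filter (fun n => E ∣ n), χ (n : ZMod q) * conj (ψ (n : ZMod q')) =
      Φ (E : ZMod (q * q')) * ∑ m ∈ Icc 1 (X / E), Φ (m : ZMod (q * q')) := by
    have h2 : (Icc 1 X).filter (fun n => E ∣ n) = (Icc 1 (X / E)).image (fun m => E * m) := by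
      ext n
      simp only [Finset.mem_filter, Finset.mem_Icc, Finset.mem_image]
      constructor
      · rintro ⟨⟨h3, h4⟩, m, rfl⟩
        refine ⟨m, ⟨?_, ?_⟩, rfl⟩
        · rcases Nat.eq_zero_or_pos m with rfl | h
          · omega
          · exact h
        · rw [Nat.le_div_iff_mul_le hE, mul_comm]
          exact h4
      · rintro ⟨m, ⟨h3, h4⟩, rfl⟩
        rw [Nat.le_div_iff_mul_le hE, mul_comm] at h4
        exact ⟨⟨Nat.mul_pos hE h3, h4⟩, Dvd.intro _ rfl⟩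
    rw [h2, Finset.sum_image (by
      intro a _ b _ hab
      exact Nat.eq_of_mul_eq_mul_left hE hab), Finset.mul_sum]
    refine Finset.sum_congr rfl fun m _ => ?_
    rw [← prod_apply, ← hΦ, ← map_mul]
    push_cast
    rfl
  rw [h1, norm_mul]
  have h2 : ∑ m ∈ Icc 1 (X / E), Φ (m : ZMod (q * q')) =
      ∑ m ∈ range (X / E + 1), Φ (m : ZMod (q * q')) - Φ ((0 : ℕ) : ZMod (q * q')) := by
    rw [Finset.sum_range_eq_add_Ico _ (Nat.succ_pos _)]
    have : Finset.Ico 1 (X / E + 1) = Icc 1 (X / E) := by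
      ext m
      simp only [Finset.mem_Ico, Finset.mem_Icc]
      omega
    rw [this]
    ring
  have h3 := norm_sum_range_le (fun a => Φ a) h0 (fun a => DirichletCharacter.norm_le_one Φ a)
    (X / E + 1)
  have hq1 : (⟨q, χ⟩ : Σ q : ℕ, DirichletCharacter ℂ q) ≠ ⟨q', ψ⟩ := hne
  have h4 : Φ ((0 : ℕ) : ZMod (q * q')) = 0 := by
    have hN : q * q' ≠ 1 := by
      intro h
      have h5 : q = 1 := Nat.dvd_one.1 (h ▸ (Dvd.intro q' rfl : q ∣ q * q'))
      have h6 : q' = 1 := Nat.dvd_one.1 (h ▸ (Dvd.intro_left q rfl : q' ∣ q * q'))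
      subst h5 h6
      apply hne
      have : χ = ψ := by
        rw [DirichletCharacter.level_one χ, DirichletCharacter.level_one ψ]
      rw [this]
    have : Nontrivial (ZMod (q * q')) := ZMod.nontrivial_iff.2 hN
    rw [Nat.cast_zero]
    exact MulChar.map_zero Φ
  rw [h2, h4, sub_zero]
  calc ‖Φ (E : ZMod (q * q'))‖ * ‖∑ m ∈ range (X / E + 1), Φ (m : ZMod (q * q'))‖
      ≤ 1 * (q * q' : ℕ) := by
        gcongr
        exact DirichletCharacter.norm_le_one Φ _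
    _ = (q * q' : ℕ) := one_mul _

/-- The number of characters. -/
theorem card_chars (Q : ℕ) (S : Finset (Σ q : ℕ, DirichletCharacter ℂ q))
    (hS : ∀ j ∈ S, 1 ≤ j.1 ∧ j.1 ≤ Q) : (S.card : ℝ) ≤ (Q : ℝ) ^ 2 := by
  classical
  have hmaps : ∀ j ∈ S, j.1 ∈ Icc 1 Q := fun j hj => Finset.mem_Icc.2 (hS j hj)
  have h1 := Finset.card_eq_sum_card_fiberwise hmaps
  have h2 : ∀ q ∈ Icc 1 Q, (S.filter (fun j => j.1 = q)).card ≤ Q := by
    intro q hq
    rw [Finset.mem_Icc] at hq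
    have : NeZero q := ⟨by omega⟩
    have h3 : (S.filter (fun j => j.1 = q)).card ≤
        (Finset.univ : Finset (DirichletCharacter ℂ q)).card := by
      apply Finset.card_le_card_of_surjOn (fun χ : DirichletCharacter ℂ q => (⟨q, χ⟩ : Σ q : ℕ, DirichletCharacter ℂ q))
      rintro ⟨q', χ⟩ hj
      rw [Finset.mem_coe, Finset.mem_filter] at hj
      obtain ⟨_, hj2⟩ := hj
      simp only at hj2
      subst hj2
      exact ⟨χ, by simp, rfl⟩
    refine h3.trans ?_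
    rw [Finset.card_univ, ← Nat.card_eq_fintype_card,
      DirichletCharacter.card_eq_totient_of_hasEnoughRootsOfUnity]
    exact (Nat.totient_le q).trans hq.2
  rw [h1]
  push_cast
  calc ∑ q ∈ Icc 1 Q, ((S.filter (fun j => j.1 = q)).card : ℝ) ≤ ∑ q ∈ Icc 1 Q, (Q : ℝ) :=
        Finset.sum_le_sum fun q hq => by exact_mod_cast h2 q hq
    _ = (Q : ℝ) ^ 2 := by
        simp only [Finset.sum_const, Nat.card_Icc, Nat.add_sub_cancel, nsmul_eq_mul]
        ring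

/-- The dual form. -/
theorem dual_form {R : ℕ} (hR : 1 ≤ R) (X Q : ℕ) (S : Finset (Σ q : ℕ, DirichletCharacter ℂ q))
    (hS : ∀ j ∈ S, 1 ≤ j.1 ∧ j.1 ≤ Q ∧ j.2.IsPrimitive)
    (c : (Σ q : ℕ, DirichletCharacter ℂ q) → ℂ) (P : Finset ℕ)
    (hP : ∀ p ∈ P, p.Prime ∧ R < p ∧ p ≤ X) :
    ∑ p ∈ P, ‖∑ j ∈ S, c j * j.2 (p : ZMod j.1)‖ ^ 2 ≤
      (X / Selberg.L R + (R : ℝ) ^ 4 + (Q : ℝ) ^ 4 * (R : ℝ) ^ 4) * ∑ j ∈ S, ‖c j‖ ^ 2 := by
  classical
  have h1 : ∑ p ∈ P, ‖∑ j ∈ S, c j * j.2 (p : ZMod j.1)‖ ^ 2 ≤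
      ∑ n ∈ Icc 1 X, Selberg.wt R n * ‖∑ j ∈ S, c j * j.2 (n : ZMod j.1)‖ ^ 2 := by
    calc ∑ p ∈ P, ‖∑ j ∈ S, c j * j.2 (p : ZMod j.1)‖ ^ 2
        = ∑ p ∈ P, Selberg.wt R p * ‖∑ j ∈ S, c j * j.2 (p : ZMod j.1)‖ ^ 2 := by
          refine Finset.sum_congr rfl fun p hp => ?_
          rw [Selberg.wt_prime hR (hP p hp).1 (hP p hp).2.1, one_mul]
      _ ≤ _ := by
          apply Finset.sum_le_sum_of_subset_of_nonneg
          · intro p hp
            rw [Finset.mem_Icc]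
            exact ⟨(hP p hp).1.one_lt.le, (hP p hp).2.2⟩
          · intro n _ _
            have := Selberg.wt_nonneg R n
            positivity
  refine h1.trans ?_
  -- expand the square
  have h2 : ((∑ n ∈ Icc 1 X, Selberg.wt R n * ‖∑ j ∈ S, c j * j.2 (n : ZMod j.1)‖ ^ 2 : ℝ) : ℂ) =
      ∑ i ∈ S, ∑ j ∈ S, (c i * conj (c j)) * ∑ n ∈ Icc 1 X, (Selberg.wt R n : ℂ) *
        (i.2 (n : ZMod i.1) * conj (j.2 (n : ZMod j.1))) := by
    push_cast
    have h3 : ∀ n ∈ Icc 1 X, (Selberg.wt R n : ℂ) * (‖∑ j ∈ S, c j * j.2 (n : ZMod j.1)‖ : ℂ) ^ 2 =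
        ∑ i ∈ S, ∑ j ∈ S, (c i * conj (c j)) * ((Selberg.wt R n : ℂ) *
        (i.2 (n : ZMod i.1) * conj (j.2 (n : ZMod j.1)))) := by
      intro n _
      rw [← Complex.mul_conj', map_sum, Finset.sum_mul_sum, Finset.mul_sum]
      refine Finset.sum_congr rfl fun i _ => ?_
      rw [Finset.mul_sum]
      refine Finset.sum_congr rfl fun j _ => ?_
      rw [map_mul]
      ring
    rw [Finset.sum_congr rfl h3, Finset.sum_comm]
    refine Finset.sum_congr rfl fun i _ => ?_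
    rw [Finset.sum_comm]
    refine Finset.sum_congr rfl fun j _ => ?_
    rw [Finset.mul_sum]
  have hnn : 0 ≤ ∑ n ∈ Icc 1 X, Selberg.wt R n * ‖∑ j ∈ S, c j * j.2 (n : ZMod j.1)‖ ^ 2 := by
    apply Finset.sum_nonneg
    intro n _
    have := Selberg.wt_nonneg R n
    positivity
  set W : ℝ := X / Selberg.L R + (R : ℝ) ^ 4 with hW
  set M : ℝ := (R : ℝ) ^ 4 * (Q : ℝ) ^ 2 with hM
  have hM0 : 0 ≤ M := by positivity
  have hW0 : 0 ≤ W := by
    have := Selberg.L_pos hR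
    positivity
  have h3 : ∀ i ∈ S, ∀ j ∈ S, ‖(c i * conj (c j)) * ∑ n ∈ Icc 1 X, (Selberg.wt R n : ℂ) *
        (i.2 (n : ZMod i.1) * conj (j.2 (n : ZMod j.1)))‖ ≤
      (if i = j then W * ‖c i‖ ^ 2 else 0) + M * (‖c i‖ * ‖c j‖) := by
    intro i hi j hj
    rw [norm_mul, norm_mul, RCLike.norm_conj]
    have hcc : 0 ≤ ‖c i‖ * ‖c j‖ := by positivity
    by_cases hij : i = j
    · subst hij
      rw [if_pos rfl]
      have h4 : ‖∑ n ∈ Icc 1 X, (Selberg.wt R n : ℂ) * (i.2 (n : ZMod i.1) * conj (i.2 (n : ZMod i.1)))‖ ≤ W := by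
        calc _ ≤ ∑ n ∈ Icc 1 X, Selberg.wt R n := by
              refine norm_sum_le_of_le _ fun n _ => ?_
              rw [norm_mul, norm_mul, RCLike.norm_conj, Complex.norm_real,
                Real.norm_of_nonneg (Selberg.wt_nonneg R n)]
              have h5 := DirichletCharacter.norm_le_one i.2 (n : ZMod i.1)
              have h6 := Selberg.wt_nonneg R n
              have h7 := norm_nonneg (i.2 (n : ZMod i.1))
              calc Selberg.wt R n * (‖i.2 (n : ZMod i.1)‖ * ‖i.2 (n : ZMod i.1)‖)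
                  ≤ Selberg.wt R n * (1 * 1) := by gcongr
                _ = Selberg.wt R n := by ring
          _ ≤ W := Selberg.sum_wt_le hR X
      calc ‖c i‖ * ‖c i‖ * _ ≤ ‖c i‖ * ‖c i‖ * W := by gcongr
        _ ≤ W * ‖c i‖ ^ 2 + M * (‖c i‖ * ‖c i‖) := by nlinarith
    · rw [if_neg hij, zero_add]
      obtain ⟨hi1, hi2, hi3⟩ := hS i hi
      obtain ⟨hj1, hj2, hj3⟩ := hS j hj
      have : NeZero i.1 := ⟨by omega⟩
      have : NeZero j.1 := ⟨by omega⟩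
      have h4 : ‖∑ n ∈ Icc 1 X, (Selberg.wt R n : ℂ) * (i.2 (n : ZMod i.1) * conj (j.2 (n : ZMod j.1)))‖ ≤ M := by
        refine Selberg.sum_wt_mul_le hR X _ ((Q : ℝ) ^ 2) ?_
        intro E hE
        refine (norm_sum_mult_le hi3 hj3 hij X E hE).trans ?_
        push_cast
        rw [sq]
        gcongr
      calc ‖c i‖ * ‖c j‖ * _ ≤ ‖c i‖ * ‖c j‖ * M := by gcongr
        _ = M * (‖c i‖ * ‖c j‖) := by ring
  have h4 : ∑ n ∈ Icc 1 X, Selberg.wt R n * ‖∑ j ∈ S, c j * j.2 (n : ZMod j.1)‖ ^ 2 ≤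
      ∑ i ∈ S, ∑ j ∈ S, ((if i = j then W * ‖c i‖ ^ 2 else 0) + M * (‖c i‖ * ‖c j‖)) := by
    rw [← Real.norm_of_nonneg hnn, ← Complex.norm_real, h2]
    refine norm_sum_le_of_le _ fun i hi => ?_
    exact norm_sum_le_of_le _ fun j hj => h3 i hi j hj
  refine h4.trans ?_
  have h5 : ∑ i ∈ S, ∑ j ∈ S, ((if i = j then W * ‖c i‖ ^ 2 else 0) + M * (‖c i‖ * ‖c j‖)) =
      W * ∑ i ∈ S, ‖c i‖ ^ 2 + M * (∑ i ∈ S, ‖c i‖) ^ 2 := by
    rw [sq (∑ i ∈ S, ‖c i‖), Finset.sum_mul_sum, Finset.mul_sum, Finset.mul_sum,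
      ← Finset.sum_add_distrib]
    refine Finset.sum_congr rfl fun i hi => ?_
    rw [Finset.sum_add_distrib, Finset.sum_ite_eq S i, if_pos hi, ← Finset.mul_sum]
  rw [h5]
  have h6 : (∑ i ∈ S, ‖c i‖) ^ 2 ≤ (S.card : ℝ) * ∑ i ∈ S, ‖c i‖ ^ 2 :=
    sq_sum_le_card_mul_sum_sq
  have h7 := card_chars Q S (fun j hj => ⟨(hS j hj).1, (hS j hj).2.1⟩)
  have h8 : 0 ≤ ∑ i ∈ S, ‖c i‖ ^ 2 := Finset.sum_nonneg fun _ _ => by positivity
  calc W * ∑ i ∈ S, ‖c i‖ ^ 2 + M * (∑ i ∈ S, ‖c i‖) ^ 2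
      ≤ W * ∑ i ∈ S, ‖c i‖ ^ 2 + M * ((Q : ℝ) ^ 2 * ∑ i ∈ S, ‖c i‖ ^ 2) := by
        gcongr
        exact h6.trans (by gcongr)
    _ = _ := by
        rw [hM]
        ring

/-- **The large sieve for primes.** -/
theorem prime_large_sieve {R : ℕ} (hR : 1 ≤ R) (X Q : ℕ)
    (S : Finset (Σ q : ℕ, DirichletCharacter ℂ q))
    (hS : ∀ j ∈ S, 1 ≤ j.1 ∧ j.1 ≤ Q ∧ j.2.IsPrimitive) (P : Finset ℕ)
    (hP : ∀ p ∈ P, p.Prime ∧ R < p ∧ p ≤ X) (a : ℕ → ℂ) :
    ∑ j ∈ S, ‖∑ p ∈ P, a p * j.2 (p : ZMod j.1)‖ ^ 2 ≤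
      (X / Selberg.L R + (R : ℝ) ^ 4 + (Q : ℝ) ^ 4 * (R : ℝ) ^ 4) * ∑ p ∈ P, ‖a p‖ ^ 2 := by
  set Δ : ℝ := X / Selberg.L R + (R : ℝ) ^ 4 + (Q : ℝ) ^ 4 * (R : ℝ) ^ 4 with hΔ
  have hΔ0 : 0 ≤ Δ := by
    have := Selberg.L_pos hR
    positivity
  set T : (Σ q : ℕ, DirichletCharacter ℂ q) → ℂ := fun j => ∑ p ∈ P, a p * j.2 (p : ZMod j.1) with hT
  set A : ℝ := ∑ p ∈ P, ‖a p‖ ^ 2 with hA
  set B : ℝ := ∑ j ∈ S, ‖T j‖ ^ 2 with hB
  have hA0 : 0 ≤ A := Finset.sum_nonneg fun _ _ => by positivity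
  have hB0 : 0 ≤ B := Finset.sum_nonneg fun _ _ => by positivity
  have h1 : ((B : ℝ) : ℂ) = ∑ p ∈ P, a p * ∑ j ∈ S, conj (T j) * j.2 (p : ZMod j.1) := by
    rw [hB]
    push_cast
    have h2 : ∀ j ∈ S, (‖T j‖ : ℂ) ^ 2 = ∑ p ∈ P, a p * (conj (T j) * j.2 (p : ZMod j.1)) := by
      intro j _
      rw [← Complex.conj_mul', hT]
      simp only
      rw [Finset.mul_sum]
      refine Finset.sum_congr rfl fun p _ => ?_
      ring
    rw [Finset.sum_congr rfl h2, Finset.sum_comm]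
    refine Finset.sum_congr rfl fun p _ => ?_
    rw [Finset.mul_sum]
  have h2 : B ≤ ∑ p ∈ P, ‖a p‖ * ‖∑ j ∈ S, conj (T j) * j.2 (p : ZMod j.1)‖ := by
    rw [← Real.norm_of_nonneg hB0, ← Complex.norm_real, h1]
    refine norm_sum_le_of_le _ fun p _ => ?_
    rw [norm_mul]
  have h3 : (∑ p ∈ P, ‖a p‖ * ‖∑ j ∈ S, conj (T j) * j.2 (p : ZMod j.1)‖) ^ 2 ≤
      A * ∑ p ∈ P, ‖∑ j ∈ S, conj (T j) * j.2 (p : ZMod j.1)‖ ^ 2 :=
    Finset.sum_mul_sq_le_sq_mul_sq _ _ _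
  have h4 := dual_form hR X Q S hS (fun j => conj (T j)) P hP
  have h5 : ∑ j ∈ S, ‖conj (T j)‖ ^ 2 = B := by
    simp only [RCLike.norm_conj, hB]
  rw [h5] at h4
  have h6 : B ^ 2 ≤ A * (Δ * B) := by
    calc B ^ 2 ≤ (∑ p ∈ P, ‖a p‖ * ‖∑ j ∈ S, conj (T j) * j.2 (p : ZMod j.1)‖) ^ 2 := by
          gcongr
      _ ≤ A * ∑ p ∈ P, ‖∑ j ∈ S, conj (T j) * j.2 (p : ZMod j.1)‖ ^ 2 := h3
      _ ≤ A * (Δ * B) := by gcongr
  rcases hB0.eq_or_lt with h | h
  · rw [← h]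
    positivity
  · have : B * B ≤ (Δ * A) * B := by nlinarith
    exact le_of_mul_le_mul_right this h

end Pool.Agent.Helper4.ST
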