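import Pool.Agent.Helper4.ST.Twist

set_option autoImplicit false

/-!
The monodromy group of an odd-weight family contains `-1`; quadratic twists have the same
monodromy and Sato-Tate groups.
-/

namespace Pool.Agent.Helper4.ST

open NumberField IsDedekindDomain Matrix MeasureTheory
open scoped MatrixGroups

universe u w

/-- substitution of a linear change of the matrix -/
theorem eval_left {r : ℕ} (A : Matrix (Fin r) (Fin r) ℂ) (P : MvPolynomial (Fin r × Fin r) ℂ) :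
    ∃ P' : MvPolynomial (Fin r × Fin r) ℂ, ∀ B : Matrix (Fin r) (Fin r) ℂ,
      MvPolynomial.eval (fun ij => B ij.1 ij.2) P' =
        MvPolynomial.eval (fun ij => (A * B) ij.1 ij.2) P := by
  refine ⟨MvPolynomial.bind₁ (fun ij : Fin r × Fin r =>
    ∑ k, MvPolynomial.C (A ij.1 k) * MvPolynomial.X (k, ij.2)) P, fun B => ?_⟩
  induction P using MvPolynomial.induction_on with
  | C a => simp
  | add p q hp hq => rw [map_add, map_add, map_add, hp, hq]
  | mul_X p ij hp =>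
    rw [map_mul, map_mul, map_mul, hp, MvPolynomial.bind₁_X_right, MvPolynomial.eval_X]
    congr 1
    rw [map_sum, Matrix.mul_apply]
    refine Finset.sum_congr rfl fun k _ => ?_
    rw [map_mul, MvPolynomial.eval_C, MvPolynomial.eval_X]

namespace Family

variable {K : Type u} [Field K] [NumberField K] {Ω : Type w} [Field Ω] [Algebra K Ω]
variable {r n : ℕ} (D : Family K Ω r n) (ℓ : ℕ) [Fact ℓ.Prime] (τ : ℚ_[ℓ] →+* ℂ)

/-- The Zariski closure of the image. -/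
def zcl : Set (Matrix (Fin r) (Fin r) ℂ) :=
  {M | ∀ P : MvPolynomial (Fin r × Fin r) ℂ,
      (∀ σ : Ω ≃ₐ[K] Ω, MvPolynomial.eval (fun ij => D.mat ℓ τ σ ij.1 ij.2) P = 0) →
        MvPolynomial.eval (fun ij => M ij.1 ij.2) P = 0}

theorem mem_monodromy {g : GL (Fin r) ℂ} : g ∈ D.monodromy ℓ τ ↔
    (g : Matrix (Fin r) (Fin r) ℂ) ∈ D.zcl ℓ τ ∧
    (g : Matrix (Fin r) (Fin r) ℂ)ᵀ * D.form.map (algebraMap ℚ ℂ) *
      (g : Matrix (Fin r) (Fin r) ℂ) = D.form.map (algebraMap ℚ ℂ) := Iff.rfl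

theorem mat_mul (σ σ' : Ω ≃ₐ[K] Ω) : D.mat ℓ τ (σ * σ') = D.mat ℓ τ σ * D.mat ℓ τ σ' := by
  unfold mat
  rw [map_mul, Units.val_mul, Matrix.map_mul]

theorem mat_one : D.mat ℓ τ 1 = 1 := by
  unfold mat
  rw [map_one, Units.val_one, Matrix.map_one τ (map_zero τ) (map_one τ)]

theorem mat_pow (σ : Ω ≃ₐ[K] Ω) (k : ℕ) : D.mat ℓ τ (σ ^ k) = D.mat ℓ τ σ ^ k := by
  induction k with
  | zero => rw [pow_zero, pow_zero, mat_one]
  | succ k ih => rw [pow_succ, pow_succ, mat_mul, ih]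

/-- the homotheties, here only `-1` -/
theorem neg_one_mem_zcl (hn : Odd n) {v : HeightOneSpectrum (𝓞 K)} (hv : v ∉ D.bad)
    (hℓ : (ℓ : 𝓞 K) ∉ v.asIdeal) {σ : Ω ≃ₐ[K] Ω} (hσ : IsFrob v σ) :
    (-1 : Matrix (Fin r) (Fin r) ℂ) ∈ D.zcl ℓ τ := by
  intro P hP
  have hq : 1 < qv v := one_lt_qv v
  have hq' : (1 : ℝ) < qv v := by exact_mod_cast hq
  have hn0 : n ≠ 0 := by
    rintro rfl
    exact absurd hn (by decide)
  have h1 := scalar_of_powers (D.mat ℓ τ σ⁻¹) (Real.sqrt ((qv v : ℝ) ^ n)) ?_ ?_ P ?_ (-1)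
  · have h2 : ((-1 : ℂ) • (1 : Matrix (Fin r) (Fin r) ℂ)) = -1 := by
      rw [neg_smul, one_smul]
    rw [h2] at h1
    exact h1
  · rw [Real.lt_sqrt (by norm_num), one_pow]
    exact one_lt_pow₀ hq' hn0
  · intro z hz
    have h2 : (D.mat ℓ τ σ⁻¹).charpoly = (D.frobPoly v).map (algebraMap ℚ ℂ) := by
      unfold mat
      rw [Matrix.charpoly_map, D.compatible v hv ℓ hℓ σ hσ, Polynomial.map_map]
      congr 1
      exact Subsingleton.elim _ _
    rw [h2, Polynomial.IsRoot.def, Polynomial.eval_map_algebraMap] at hz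
    have h3 := D.pure v hv z hz
    rw [← h3, Real.sqrt_sq (norm_nonneg z)]
  · intro k
    rw [← mat_pow]
    exact hP _

theorem neg_eval (h : (-1 : Matrix (Fin r) (Fin r) ℂ) ∈ D.zcl ℓ τ)
    (P : MvPolynomial (Fin r × Fin r) ℂ)
    (hP : ∀ σ : Ω ≃ₐ[K] Ω, MvPolynomial.eval (fun ij => D.mat ℓ τ σ ij.1 ij.2) P = 0)
    (σ : Ω ≃ₐ[K] Ω) :
    MvPolynomial.eval (fun ij => (-D.mat ℓ τ σ) ij.1 ij.2) P = 0 := by
  obtain ⟨P', hP'⟩ := eval_left (D.mat ℓ τ σ) P
  have h1 : MvPolynomial.eval (fun ij => (-1 : Matrix (Fin r) (Fin r) ℂ) ij.1 ij.2) P' = 0 := by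
    apply h
    intro σ'
    rw [hP', ← mat_mul]
    exact hP _
  rw [hP', mul_neg, mul_one] at h1
  exact h1

theorem neg_mem_zcl (h : (-1 : Matrix (Fin r) (Fin r) ℂ) ∈ D.zcl ℓ τ)
    {M : Matrix (Fin r) (Fin r) ℂ} (hM : M ∈ D.zcl ℓ τ) : -M ∈ D.zcl ℓ τ := by
  intro P hP
  obtain ⟨P', hP'⟩ := eval_left (-1) P
  have h1 : MvPolynomial.eval (fun ij => M ij.1 ij.2) P' = 0 := by
    apply hM
    intro σ
    rw [hP', neg_mul, one_mul]
    exact D.neg_eval ℓ τ h P hP σ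
  rw [hP', neg_mul, one_mul] at h1
  exact h1

/-- Comparison of the closures of two families that differ by signs. -/
theorem zcl_le (D' : Family K Ω r n)
    (hsign : ∀ σ, D.mat ℓ τ σ = D'.mat ℓ τ σ ∨ D.mat ℓ τ σ = -D'.mat ℓ τ σ)
    (h : (-1 : Matrix (Fin r) (Fin r) ℂ) ∈ D'.zcl ℓ τ) : D.zcl ℓ τ ⊆ D'.zcl ℓ τ := by
  intro M hM P hP
  apply hM
  intro σ
  rcases hsign σ with h1 | h1
  · rw [h1]
    exact hP σ
  · rw [h1]
    exact D'.neg_eval ℓ τ h P hP σ

variable {q : ℕ} [NeZero q] [HasEnoughRootsOfUnity Ω q] (χ : DirichletCharacter ℤ q)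

theorem twist_mat (σ : Ω ≃ₐ[K] Ω) :
    (D.twist χ).mat ℓ τ σ = (((galChar K Ω χ σ : ℤˣ) : ℤ) : ℂ) • D.mat ℓ τ σ := by
  have h1 : (((D.twist χ).rho ℓ σ : GL (Fin r) ℚ_[ℓ]) : Matrix (Fin r) (Fin r) ℚ_[ℓ]) =
      (((galChar K Ω χ σ : ℤˣ) : ℤ) : ℚ_[ℓ]) • (D.rho ℓ σ : Matrix (Fin r) (Fin r) ℚ_[ℓ]) :=
    scal_mul_coe _ _
  unfold mat
  rw [h1]
  ext i j
  simp [Matrix.map_apply, Matrix.smul_apply]

theorem twist_sign (σ : Ω ≃ₐ[K] Ω) :
    (D.twist χ).mat ℓ τ σ = D.mat ℓ τ σ ∨ (D.twist χ).mat ℓ τ σ = -D.mat ℓ τ σ := by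
  rw [twist_mat]
  rcases Int.units_eq_one_or (galChar K Ω χ σ) with h | h
  · left
    rw [h]
    simp
  · right
    rw [h]
    simp

/-- A prime outside the exceptional sets with a Frobenius element. -/
def HasFrob : Prop := ∃ v : HeightOneSpectrum (𝓞 K), v ∉ (D.twist χ).bad ∧
  (ℓ : 𝓞 K) ∉ v.asIdeal ∧ ∃ σ : Ω ≃ₐ[K] Ω, IsFrob v σ

theorem twist_bad {v : HeightOneSpectrum (𝓞 K)} :
    v ∉ (D.twist χ).bad ↔ v ∉ D.bad ∧ (q : 𝓞 K) ∉ v.asIdeal := by
  classical
  unfold twist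
  simp only [Finset.mem_union, not_or, Set.Finite.mem_toFinset]
  rfl

theorem twist_zcl (hn : Odd n) (h : D.HasFrob ℓ χ) : (D.twist χ).zcl ℓ τ = D.zcl ℓ τ := by
  obtain ⟨v, hv, hℓ, σ, hσ⟩ := h
  have h1 := (D.twist χ).neg_one_mem_zcl ℓ τ hn hv hℓ hσ
  have h2 := D.neg_one_mem_zcl ℓ τ hn (D.twist_bad χ |>.1 hv).1 hℓ hσ
  apply Set.Subset.antisymm
  · exact zcl_le _ ℓ τ D (D.twist_sign ℓ τ χ) h2
  · refine D.zcl_le ℓ τ _ (fun σ => ?_) h1
    rcases D.twist_sign ℓ τ χ σ with h | h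
    · exact Or.inl h.symm
    · right
      rw [h, neg_neg]

theorem twist_monodromy (hn : Odd n) (h : D.HasFrob ℓ χ) :
    (D.twist χ).monodromy ℓ τ = D.monodromy ℓ τ := by
  ext g
  rw [mem_monodromy, mem_monodromy, twist_zcl D ℓ τ χ hn h]
  exact Iff.rfl

/-- The twist has the same Sato-Tate group. -/
theorem twist_group (hn : Odd n) (h : D.HasFrob ℓ χ) {U : Subgroup (GL (Fin r) ℂ)}
    (hU : D.IsSatoTateGroup ℓ τ U) : (D.twist χ).IsSatoTateGroup ℓ τ U := by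
  have h1 := twist_monodromy D ℓ τ χ hn h
  refine ⟨?_, hU.compact, ?_⟩
  · rw [h1]
    exact hU.subset
  · rw [h1]
    exact hU.maximal

/-- `-1` lies in the Sato-Tate group. -/
theorem neg_one_mem (h : (-1 : Matrix (Fin r) (Fin r) ℂ) ∈ D.zcl ℓ τ)
    {U : Subgroup (GL (Fin r) ℂ)} (hU : D.IsSatoTateGroup ℓ τ U) : (-1 : GL (Fin r) ℂ) ∈ U := by
  set U' : Subgroup (GL (Fin r) ℂ) :=
    { carrier := {g | g ∈ U ∨ -g ∈ U}
      mul_mem' := by
        rintro a b (ha | ha) (hb | hb)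
        · exact Or.inl (U.mul_mem ha hb)
        · right
          have := U.mul_mem ha hb
          rwa [mul_neg] at this
        · right
          have := U.mul_mem ha hb
          rwa [neg_mul] at this
        · left
          have := U.mul_mem ha hb
          rwa [neg_mul_neg] at this
      one_mem' := Or.inl U.one_mem
      inv_mem' := by
        rintro a (ha | ha)
        · exact Or.inl (U.inv_mem ha)
        · right
          have := U.inv_mem ha
          rwa [inv_neg] at this } with hU'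
  have h1 : U' ≤ U := by
    apply hU.maximal
    · rintro g (hg | hg)
      · exact hU.subset g hg
      · have h2 := hU.subset _ hg
        rw [mem_monodromy] at h2 ⊢
        obtain ⟨h3, h4⟩ := h2
        rw [Units.val_neg] at h3 h4
        constructor
        · have := D.neg_mem_zcl ℓ τ h h3
          rwa [neg_neg] at this
        · rw [Matrix.transpose_neg, neg_mul, neg_mul_neg] at h4
          exact h4
    · have h2 : (U' : Set (GL (Fin r) ℂ)) = (U : Set (GL (Fin r) ℂ)) ∪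
          (fun g => (-1) * g) '' (U : Set (GL (Fin r) ℂ)) := by
        ext g
        constructor
        · rintro (hg | hg)
          · exact Or.inl hg
          · right
            exact ⟨-g, hg, by simp⟩
        · rintro (hg | ⟨y, hy, rfl⟩)
          · exact Or.inl hg
          · right
            change -((-1) * y) ∈ U
            simpa using hy
      rw [h2]
      exact hU.compact.union (hU.compact.image (continuous_const_mul _))
    · intro g hg
      exact Or.inl hg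
  apply h1
  right
  rw [neg_neg]
  exact U.one_mem

/-- The sign `χ(v)` as an element of `GL`. -/
noncomputable def signMul (m : ℕ) (x : GL (Fin r) ℂ) : GL (Fin r) ℂ :=
  if χ (m : ZMod q) = -1 then -x else x

theorem twist_class {U : Subgroup (GL (Fin r) ℂ)} (hneg : (-1 : GL (Fin r) ℂ) ∈ U)
    (hn : Odd n) (h : D.HasFrob ℓ χ)
    {v : HeightOneSpectrum (𝓞 K)} (hv : (q : 𝓞 K) ∉ v.asIdeal) {x : GL (Fin r) ℂ}
    (hx : D.IsSatoTateClass ℓ τ U v x) :
    (D.twist χ).IsSatoTateClass ℓ τ U v (signMul χ (qv v) x) := by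
  obtain ⟨hxU, σ, hσ, s, a, ha, ⟨hs1, hs2, hs3⟩, hxs⟩ := hx
  have hmat : (D.twist χ).mat ℓ τ σ⁻¹ = ((χ (qv v : ZMod q) : ℤ) : ℂ) • D.mat ℓ τ σ⁻¹ := by
    rw [twist_mat]
    congr 2
    rw [map_inv, Int.units_inv_eq_self]
    exact galChar_frob χ hσ hv
  have ha' : a ∈ (D.twist χ).monodromy ℓ τ := by
    rw [twist_monodromy D ℓ τ χ hn h]
    exact ha
  unfold signMul
  rcases char_unit χ (qv_coprime v hv) with h1 | h1
  · rw [if_neg (by rw [h1]; decide)]
    refine ⟨hxU, σ, hσ, s, a, ha', ⟨hs1, ?_, ?_⟩, hxs⟩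
    · rw [hmat, h1]
      simpa using hs2
    · rw [hmat, h1]
      simpa using hs3
  · rw [if_pos h1]
    refine ⟨?_, σ, hσ, -s, a, ha', ⟨?_, ?_, ?_⟩, ?_⟩
    · have := U.mul_mem hneg hxU
      rwa [neg_one_mul] at this
    · rw [Units.val_neg, map_neg, Module.End.isSemisimple_neg]
      exact hs1
    · rw [hmat, h1, Units.val_neg]
      simpa using hs2.neg_left.neg_right
    · rw [hmat, h1, Units.val_neg]
      have h2 : (((qv v : ℝ) ^ (-(n : ℝ) / 2) : ℝ) : ℂ) • (((-1 : ℤ) : ℂ) • D.mat ℓ τ σ⁻¹) -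
          -(s : Matrix (Fin r) (Fin r) ℂ) =
          -((((qv v : ℝ) ^ (-(n : ℝ) / 2) : ℝ) : ℂ) • D.mat ℓ τ σ⁻¹ -
            (s : Matrix (Fin r) (Fin r) ℂ)) := by
        rw [Int.cast_neg, Int.cast_one, neg_smul, one_smul, smul_neg]
        abel
      rw [h2]
      exact hs3.neg
    · rw [hxs]
      simp

/-- Odd functions have integral `0`. -/
theorem integral_odd {U : Subgroup (GL (Fin r) ℂ)} (hneg : (-1 : GL (Fin r) ℂ) ∈ U)
    [MeasurableSpace U] [MeasurableMul U] (μ : Measure U) [μ.IsMulLeftInvariant]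
    (f : U → ℂ) (hf : ∀ u v : U, (v : GL (Fin r) ℂ) = -(u : GL (Fin r) ℂ) → f v = -f u) :
    ∫ u, f u ∂μ = 0 := by
  have h1 := integral_mul_left_eq_self (μ := μ) f (⟨-1, hneg⟩ : U)
  have h2 : ∀ u : U, f ((⟨-1, hneg⟩ : U) * u) = -f u := by
    intro u
    apply hf
    rw [Subgroup.coe_mul]
    simp
  simp only [h2, integral_neg] at h1
  have h3 : (2 : ℂ) * ∫ u, f u ∂μ = 0 := by
    linear_combination -h1
  simpa using h3

end Family

/-- There are infinitely many finite primes. -/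
theorem exists_prime_notMem {K : Type u} [Field K] [NumberField K]
    (T : Finset (HeightOneSpectrum (𝓞 K))) : ∃ v : HeightOneSpectrum (𝓞 K), v ∉ T := by
  obtain ⟨p, hp1, hp2⟩ := Nat.exists_infinite_primes (∑ v ∈ T, qv v + 1)
  have h0 : Ideal.span {(p : 𝓞 K)} ≠ ⊤ := by
    intro h
    have h1 : Ideal.absNorm (Ideal.span {(p : 𝓞 K)}) = 1 := by
      rw [h, Ideal.absNorm_top]
    rw [Ideal.absNorm_span_natCast, RingOfIntegers.rank] at h1
    have h2 : 1 < p ^ Module.finrank ℚ K :=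
      Nat.one_lt_pow (Module.finrank_pos).ne' hp2.one_lt
    omega
  obtain ⟨M, hM, hle⟩ := Ideal.exists_le_maximal _ h0
  have hpM : (p : 𝓞 K) ∈ M := hle (Ideal.mem_span_singleton_self _)
  have hM0 : M ≠ ⊥ := by
    rintro rfl
    rw [Ideal.mem_bot] at hpM
    exact hp2.ne_zero (by exact_mod_cast hpM)
  refine ⟨⟨M, hM.isPrime, hM0⟩, ?_⟩
  intro hT
  set v : HeightOneSpectrum (𝓞 K) := ⟨M, hM.isPrime, hM0⟩ with hv
  have h1 : qv v ≤ ∑ v ∈ T, qv v := Finset.single_le_sum (fun _ _ => Nat.zero_le _) hT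
  obtain ⟨p', f, hp', hf, h2, h3⟩ := qv_prime_pow v
  have h4 : p ≤ qv v := by
    have h5 : ¬ (qv v).Coprime p := by
      intro hcop
      have h6 : IsCoprime ((qv v : ℕ) : ℤ) (p : ℤ) := Nat.isCoprime_iff_coprime.2 hcop
      obtain ⟨a, b, hab⟩ := h6
      have h8 : (1 : 𝓞 K) ∈ M := by
        have : (1 : 𝓞 K) = (a : 𝓞 K) * (qv v : ℕ) + (b : 𝓞 K) * p := by
          exact_mod_cast congrArg (fun z : ℤ => (z : 𝓞 K)) hab.symm
        rw [this]
        exact M.add_mem (M.mul_mem_left _ (Ideal.absNorm_mem v.asIdeal)) (M.mul_mem_left _ hpM)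
      exact hM.ne_top ((Ideal.eq_top_iff_one _).2 h8)
    have h9 : p ∣ qv v := by
      by_contra hno
      exact h5 ((Nat.Prime.coprime_iff_not_dvd hp2).2 hno).symm
    exact Nat.le_of_dvd (by have := one_lt_qv v; omega) h9
  omega

end Pool.Agent.Helper4.ST
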