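import Pool.Agent.Helper4.ST.Main
import Pool.Agent.Helper4.ST.PrimeSieve

set_option autoImplicit false

/-!
Square sums over all twists at a given scale.
-/

namespace Pool.Agent.Helper4.ST

open NumberField IsDedekindDomain Filter Topology

universe u

section reals

theorem log_le (X : ℝ) (hX : 1 ≤ X) (k : ℕ) (hk : 0 < k) :
    Real.log X ≤ k * X ^ ((1 : ℝ) / k) := by
  have h := Real.log_le_rpow_div (x := X) (by linarith) (ε := (1 : ℝ) / k) (by positivity)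
  have hk' : (0 : ℝ) < k := by exact_mod_cast hk
  rw [div_div_eq_mul_div, div_one, mul_comm] at h
  exact h

theorem pi_bound (X : ℕ) (hX : 2 ≤ X) :
    (((Finset.range (X + 1)).filter Nat.Prime).card : ℝ) ≤ 5 * (X / Real.log X) := by
  have hX1 : (1 : ℝ) < X := by exact_mod_cast (by omega : 1 < X)
  have hX0 : (0 : ℝ) < X := by linarith
  have hlog : 0 < Real.log X := Real.log_pos hX1
  have h1 : ((Finset.range (X + 1)).filter Nat.Prime).card = Nat.primeCounting X := by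
    rw [Nat.primeCounting, Nat.primeCounting', Nat.count_eq_card_filter_range]
  rw [h1]
  have h2 := Chebyshev.pi_le_log4_mul_div hX1
  rw [Nat.floor_natCast] at h2
  have h3 : Real.log (Real.sqrt X) = Real.log X / 2 := Real.log_sqrt hX0.le
  rw [h3] at h2
  have h4 : Real.sqrt X ≤ 2 * (X / Real.log X) := by
    rw [← mul_div_assoc, le_div_iff₀ hlog]
    have h5 := log_le X hX1.le 2 (by norm_num)
    have h6 : (X : ℝ) ^ ((1 : ℝ) / (2 : ℕ)) = Real.sqrt X := by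
      rw [Real.sqrt_eq_rpow]
      norm_num
    rw [h6] at h5
    have h7 : Real.sqrt X * Real.sqrt X = X := Real.mul_self_sqrt hX0.le
    have h8 := Real.sqrt_nonneg (X : ℝ)
    push_cast at h5
    nlinarith
  have h5 : Real.log 4 ≤ 1.4 := by
    have : Real.log 4 = 2 * Real.log 2 := by
      rw [show (4 : ℝ) = 2 ^ 2 by norm_num, Real.log_pow]
      norm_num
    rw [this]
    have := Real.log_two_lt_d9
    linarith
  have h6 : Real.log 4 * X / (Real.log X / 2) = 2 * Real.log 4 * (X / Real.log X) := by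
    field_simp
  rw [h6] at h2
  have h7 : 0 ≤ X / Real.log X := by positivity
  nlinarith

end reals

variable {K : Type u} [Field K] [NumberField K]

open Classical in
/-- **All twists at one scale.** -/
theorem every_scale (good : HeightOneSpectrum (𝓞 K) → Prop) (F : HeightOneSpectrum (𝓞 K) → ℂ)
    (hF : ∀ v, ‖F v‖ ≤ 1) (X : ℕ) (hX : 2 ≤ X) (S : Finset (Σ q : ℕ, DirichletCharacter ℂ q))
    (hS : ∀ j ∈ S, 1 ≤ j.1 ∧ j.1 ^ 6 ≤ X ∧ j.2.IsPrimitive) :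
    ∑ j ∈ S, ‖∑ v ∈ (primesLE K X).filter good, j.2 (qv v : ZMod j.1) * F v‖ ^ 2 ≤
      1000 * (Module.finrank ℚ K : ℝ) ^ 2 * (X / Real.log X) ^ 2 := by
  have hX1 : (1 : ℝ) < X := by exact_mod_cast (by omega : 1 < X)
  have hX0 : (0 : ℝ) < X := by linarith
  have hlog : 0 < Real.log X := Real.log_pos hX1
  set m : ℝ := (Module.finrank ℚ K : ℝ) with hm
  have hm0 : 0 ≤ m := Nat.cast_nonneg _
  set Z : ℝ := X / Real.log X with hZ
  have hZ0 : 0 < Z := by positivity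
  -- the parameters
  set Q : ℕ := ⌊(X : ℝ) ^ ((1 : ℝ) / 6)⌋₊ with hQ
  set R : ℕ := ⌊(X : ℝ) ^ ((1 : ℝ) / 24)⌋₊ with hR
  have hR1 : 1 ≤ R := by
    rw [hR, Nat.one_le_floor_iff]
    exact Real.one_le_rpow hX1.le (by norm_num)
  have hRle : (R : ℝ) ≤ (X : ℝ) ^ ((1 : ℝ) / 24) := Nat.floor_le (by positivity)
  have hQle : (Q : ℝ) ≤ (X : ℝ) ^ ((1 : ℝ) / 6) := Nat.floor_le (by positivity)
  have hRlog : Real.log X / 48 ≤ Selberg.L R := by
    refine le_trans ?_ (Selberg.L_ge R)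
    have h1 : (X : ℝ) ^ ((1 : ℝ) / 24) < R + 1 := Nat.lt_floor_add_one _
    have h2 : Real.log ((X : ℝ) ^ ((1 : ℝ) / 24)) ≤ Real.log (R + 1) :=
      Real.log_le_log (by positivity) h1.le
    rw [Real.log_rpow hX0] at h2
    linarith
  have hS' : ∀ j ∈ S, 1 ≤ j.1 ∧ j.1 ≤ Q ∧ j.2.IsPrimitive := by
    intro j hj
    obtain ⟨h1, h2, h3⟩ := hS j hj
    refine ⟨h1, ?_, h3⟩
    rw [hQ]
    apply Nat.le_floor
    have h4 : ((j.1 : ℝ)) ^ (6 : ℕ) ≤ X := by exact_mod_cast h2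
    calc (j.1 : ℝ) = ((j.1 : ℝ) ^ (6 : ℕ)) ^ ((1 : ℝ) / 6) := by
          rw [← Real.rpow_natCast, ← Real.rpow_mul (by positivity)]
          norm_num
      _ ≤ _ := by gcongr
  set P : Finset ℕ := ((Finset.range (X + 1)).filter Nat.Prime).filter (fun p => R < p) with hP
  have hP' : ∀ p ∈ P, p.Prime ∧ R < p ∧ p ≤ X := by
    intro p hp
    rw [hP, Finset.mem_filter, Finset.mem_filter, Finset.mem_range] at hp
    exact ⟨hp.1.2, hp.2, by omega⟩
  set b : ℕ → ℂ := coef ((primesLE K X).filter good) F with hb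
  have hbm : ∀ p, ‖b p‖ ≤ m := norm_coef_le _ F hF
  have hLS := prime_large_sieve hR1 X Q S hS' P hP' b
  -- the size of `Δ`
  have hpow : ∀ (s t : ℝ), (X : ℝ) ^ s * (X : ℝ) ^ t = (X : ℝ) ^ (s + t) := fun s t =>
    (Real.rpow_add hX0 s t).symm
  have hR4 : (R : ℝ) ^ 4 ≤ (X : ℝ) ^ ((1 : ℝ) / 6) := by
    calc (R : ℝ) ^ 4 ≤ ((X : ℝ) ^ ((1 : ℝ) / 24)) ^ 4 := by gcongr
      _ = _ := by
        rw [← Real.rpow_natCast, ← Real.rpow_mul hX0.le]
        norm_num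
  have hQ4 : (Q : ℝ) ^ 4 ≤ (X : ℝ) ^ ((2 : ℝ) / 3) := by
    calc (Q : ℝ) ^ 4 ≤ ((X : ℝ) ^ ((1 : ℝ) / 6)) ^ 4 := by gcongr
      _ = _ := by
        rw [← Real.rpow_natCast, ← Real.rpow_mul hX0.le]
        norm_num
  have hX56 : (X : ℝ) ^ ((5 : ℝ) / 6) ≤ 6 * Z := by
    rw [hZ, ← mul_div_assoc, le_div_iff₀ hlog]
    have h1 := log_le X hX1.le 6 (by norm_num)
    have h2 : (X : ℝ) ^ ((5 : ℝ) / 6) * (X : ℝ) ^ ((1 : ℝ) / 6) = X := by
      rw [hpow]
      norm_num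
    push_cast at h1
    have h3 : 0 ≤ (X : ℝ) ^ ((5 : ℝ) / 6) := by positivity
    calc (X : ℝ) ^ ((5 : ℝ) / 6) * Real.log X ≤ (X : ℝ) ^ ((5 : ℝ) / 6) * (6 * (X : ℝ) ^ ((1 : ℝ) / 6)) := by
          gcongr
      _ = 6 * ((X : ℝ) ^ ((5 : ℝ) / 6) * (X : ℝ) ^ ((1 : ℝ) / 6)) := by ring
      _ = 6 * X := by rw [h2]
  have hΔ : X / Selberg.L R + (R : ℝ) ^ 4 + (Q : ℝ) ^ 4 * (R : ℝ) ^ 4 ≤ 60 * Z := by
    have h1 : X / Selberg.L R ≤ 48 * Z := by
      have h2 : (0 : ℝ) < Real.log X / 48 := by positivity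
      calc X / Selberg.L R ≤ X / (Real.log X / 48) := by gcongr
        _ = 48 * Z := by
          rw [hZ]
          field_simp
    have h2 : (R : ℝ) ^ 4 ≤ 6 * Z := by
      refine hR4.trans (le_trans ?_ hX56)
      apply Real.rpow_le_rpow_of_exponent_le hX1.le
      norm_num
    have h3 : (Q : ℝ) ^ 4 * (R : ℝ) ^ 4 ≤ 6 * Z := by
      calc (Q : ℝ) ^ 4 * (R : ℝ) ^ 4 ≤ (X : ℝ) ^ ((2 : ℝ) / 3) * (X : ℝ) ^ ((1 : ℝ) / 6) := by gcongr
        _ = (X : ℝ) ^ ((5 : ℝ) / 6) := by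
          rw [hpow]
          norm_num
        _ ≤ _ := hX56
    linarith
  have hPsum : ∑ p ∈ P, ‖b p‖ ^ 2 ≤ m ^ 2 * (5 * Z) := by
    calc ∑ p ∈ P, ‖b p‖ ^ 2 ≤ ∑ p ∈ P, m ^ 2 := by
          refine Finset.sum_le_sum fun p _ => ?_
          have := hbm p
          gcongr
      _ = m ^ 2 * P.card := by
          rw [Finset.sum_const, nsmul_eq_mul, mul_comm]
      _ ≤ m ^ 2 * (5 * Z) := by
          gcongr
          refine le_trans ?_ (pi_bound X hX)
          exact_mod_cast Finset.card_filter_le _ _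
  have hLS' : ∑ j ∈ S, ‖∑ p ∈ P, b p * j.2 (p : ZMod j.1)‖ ^ 2 ≤ 300 * m ^ 2 * Z ^ 2 := by
    refine hLS.trans ?_
    calc _ ≤ (60 * Z) * (m ^ 2 * (5 * Z)) := by
          apply mul_le_mul hΔ hPsum (Finset.sum_nonneg fun _ _ => by positivity) (by positivity)
      _ = _ := by ring
  -- one character
  have hone : ∀ j ∈ S, ‖∑ v ∈ (primesLE K X).filter good, j.2 (qv v : ZMod j.1) * F v‖ ^ 2 ≤
      3 * ‖∑ p ∈ P, b p * j.2 (p : ZMod j.1)‖ ^ 2 + 6 * m ^ 2 * X := by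
    intro j _
    have h1 := sum_compare X good F hF j
    have h2 : ‖PS b j X‖ ≤ ‖∑ p ∈ P, b p * j.2 (p : ZMod j.1)‖ + m * Real.sqrt X := by
      unfold PS
      have h3 : ∑ p ∈ (Finset.range (X + 1)).filter Nat.Prime, b p * j.2 (p : ZMod j.1) =
          ∑ p ∈ P, b p * j.2 (p : ZMod j.1) +
          ∑ p ∈ ((Finset.range (X + 1)).filter Nat.Prime).filter (fun p => ¬ R < p),
            b p * j.2 (p : ZMod j.1) :=
        (Finset.sum_filter_add_sum_filter_not _ _ _).symm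
      rw [h3]
      refine (norm_add_le _ _).trans ?_
      gcongr
      calc ‖∑ p ∈ ((Finset.range (X + 1)).filter Nat.Prime).filter (fun p => ¬ R < p),
            b p * j.2 (p : ZMod j.1)‖
          ≤ ∑ p ∈ ((Finset.range (X + 1)).filter Nat.Prime).filter (fun p => ¬ R < p), m := by
            refine norm_sum_le_of_le _ fun p _ => ?_
            rw [norm_mul]
            calc ‖b p‖ * ‖j.2 (p : ZMod j.1)‖ ≤ m * 1 := by
                  gcongr
                  · exact hbm p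
                  · exact DirichletCharacter.norm_le_one j.2 _
              _ = m := mul_one _
        _ = m * ((((Finset.range (X + 1)).filter Nat.Prime).filter (fun p => ¬ R < p)).card : ℝ) := by
            rw [Finset.sum_const, nsmul_eq_mul, mul_comm]
        _ ≤ m * R := by
            gcongr
            have h4 : ((Finset.range (X + 1)).filter Nat.Prime).filter (fun p => ¬ R < p) ⊆
                Finset.Icc 1 R := by
              intro p hp
              rw [Finset.mem_filter, Finset.mem_filter] at hp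
              rw [Finset.mem_Icc]
              exact ⟨hp.1.2.one_lt.le, by omega⟩
            have h5 := Finset.card_le_card h4
            rw [Nat.card_Icc] at h5
            simpa using h5
        _ ≤ m * Real.sqrt X := by
            gcongr
            refine hRle.trans ?_
            rw [Real.sqrt_eq_rpow]
            apply Real.rpow_le_rpow_of_exponent_le hX1.le
            norm_num
    have h3 : ‖∑ v ∈ (primesLE K X).filter good, j.2 (qv v : ZMod j.1) * F v‖ ≤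
        ‖∑ p ∈ P, b p * j.2 (p : ZMod j.1)‖ + 2 * m * Real.sqrt X := by linarith
    have h4 : Real.sqrt X ^ 2 = X := Real.sq_sqrt hX0.le
    set t : ℝ := ‖∑ p ∈ P, b p * j.2 (p : ZMod j.1)‖ with ht
    have ht0 : 0 ≤ t := norm_nonneg _
    have h5 : ‖∑ v ∈ (primesLE K X).filter good, j.2 (qv v : ZMod j.1) * F v‖ ^ 2 ≤
        (t + 2 * m * Real.sqrt X) ^ 2 := by
      gcongr
    refine h5.trans ?_
    have h6 : (t + 2 * m * Real.sqrt X) ^ 2 = t ^ 2 + 2 * (t * (2 * m * Real.sqrt X)) +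
        4 * m ^ 2 * Real.sqrt X ^ 2 := by ring
    have h7 : 0 ≤ (2 * t - 1 * (m * Real.sqrt X)) ^ 2 := sq_nonneg _
    rw [h6, h4]
    have h8 : (2 * t - 1 * (m * Real.sqrt X)) ^ 2 = 4 * t ^ 2 - 4 * (t * m * Real.sqrt X) + m ^ 2 * Real.sqrt X ^ 2 := by ring
    rw [h8, h4] at h7
    nlinarith [sq_nonneg (t - m * Real.sqrt X), mul_nonneg (sq_nonneg m) hX0.le]
  have hcard : (S.card : ℝ) ≤ (X : ℝ) ^ ((1 : ℝ) / 3) := by
    have h1 := card_chars Q S (fun j hj => ⟨(hS' j hj).1, (hS' j hj).2.1⟩)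
    refine h1.trans ?_
    calc (Q : ℝ) ^ 2 ≤ ((X : ℝ) ^ ((1 : ℝ) / 6)) ^ 2 := by gcongr
      _ = _ := by
        rw [← Real.rpow_natCast, ← Real.rpow_mul hX0.le]
        norm_num
  have hX43 : (X : ℝ) ^ ((1 : ℝ) / 3) * X ≤ 9 * Z ^ 2 := by
    have h1 := log_le X hX1.le 3 (by norm_num)
    push_cast at h1
    have h2 : Real.log X ^ 2 ≤ 9 * ((X : ℝ) ^ ((1 : ℝ) / 3) * (X : ℝ) ^ ((1 : ℝ) / 3)) := by
      nlinarith
    rw [hpow] at h2
    rw [hZ, div_pow, ← mul_div_assoc, le_div_iff₀ (by positivity)]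
    have h3 : (X : ℝ) ^ ((1 : ℝ) / 3) * (X : ℝ) ^ ((1 : ℝ) / 3 + (1 : ℝ) / 3) = X := by
      rw [hpow]
      norm_num
    calc (X : ℝ) ^ ((1 : ℝ) / 3) * X * Real.log X ^ 2
        ≤ (X : ℝ) ^ ((1 : ℝ) / 3) * X * (9 * (X : ℝ) ^ ((1 : ℝ) / 3 + (1 : ℝ) / 3)) := by gcongr
      _ = 9 * X * ((X : ℝ) ^ ((1 : ℝ) / 3) * (X : ℝ) ^ ((1 : ℝ) / 3 + (1 : ℝ) / 3)) := by ring
      _ = 9 * X ^ 2 := by
        rw [h3]
        ring
  calc ∑ j ∈ S, ‖∑ v ∈ (primesLE K X).filter good, j.2 (qv v : ZMod j.1) * F v‖ ^ 2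
      ≤ ∑ j ∈ S, (3 * ‖∑ p ∈ P, b p * j.2 (p : ZMod j.1)‖ ^ 2 + 6 * m ^ 2 * X) :=
        Finset.sum_le_sum hone
    _ = 3 * ∑ j ∈ S, ‖∑ p ∈ P, b p * j.2 (p : ZMod j.1)‖ ^ 2 + S.card * (6 * m ^ 2 * X) := by
        rw [Finset.sum_add_distrib, Finset.mul_sum, Finset.sum_const, nsmul_eq_mul]
    _ ≤ 3 * (300 * m ^ 2 * Z ^ 2) + (X : ℝ) ^ ((1 : ℝ) / 3) * (6 * m ^ 2 * X) := by
        gcongr
    _ = 900 * m ^ 2 * Z ^ 2 + 6 * m ^ 2 * ((X : ℝ) ^ ((1 : ℝ) / 3) * X) := by ring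
    _ ≤ 900 * m ^ 2 * Z ^ 2 + 6 * m ^ 2 * (9 * Z ^ 2) := by gcongr
    _ = 954 * (m ^ 2 * Z ^ 2) := by ring
    _ ≤ 1000 * (m ^ 2 * Z ^ 2) := by
        gcongr
        norm_num
    _ = 1000 * m ^ 2 * Z ^ 2 := by ring

end Pool.Agent.Helper4.ST
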