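import Pool.Agent.Helper4.ST.Norm

set_option autoImplicit false

/-!
Quadratic twists of families.
-/

namespace Pool.Agent.Helper4.ST

open NumberField IsDedekindDomain Matrix
open scoped MatrixGroups

universe u w

section roots

/-- A root of unity congruent to `1` modulo an ideal not containing its exponent is `1`. -/
theorem eq_one_of_sub_mem {S : Type*} [CommRing S] [IsDomain S] (P : Ideal S) {m : ℕ}
    (hm : (m : S) ∉ P) {ω : S} (h1 : ω ^ m = 1) (h2 : ω - 1 ∈ P) : ω = 1 := by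
  by_contra hne
  have h3 : (∑ j ∈ Finset.range m, ω ^ j) * (ω - 1) = 0 := by
    rw [geom_sum_mul, h1, sub_self]
  have h4 : ∑ j ∈ Finset.range m, ω ^ j = 0 := by
    rcases mul_eq_zero.1 h3 with h | h
    · exact h
    · exact absurd (sub_eq_zero.1 h) hne
  apply hm
  have h5 : ∀ j : ℕ, ω ^ j - 1 ∈ P := by
    intro j
    obtain ⟨c, hc⟩ := sub_dvd_pow_sub_pow ω 1 j
    rw [one_pow] at hc
    rw [hc]
    exact P.mul_mem_right _ h2
  have h6 : (m : S) = -(∑ j ∈ Finset.range m, (ω ^ j - 1)) := by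
    rw [Finset.sum_sub_distrib, h4]
    simp
  rw [h6]
  exact P.neg_mem (P.sum_mem fun j _ => h5 j)

theorem root_eq_of_sub_mem {S : Type*} [CommRing S] [IsDomain S] (P : Ideal S) {m : ℕ}
    (hm : (m : S) ∉ P) {ζ ξ : S} (hζ : ζ ^ m = 1) (hξ : ξ ^ m = 1) (h : ζ - ξ ∈ P) : ζ = ξ := by
  have hm0 : m ≠ 0 := by
    rintro rfl
    apply hm
    simp
  have h1 : ξ * ξ ^ (m - 1) = 1 := by
    rw [← pow_succ', Nat.sub_add_cancel (Nat.pos_of_ne_zero hm0), hξ]
  have h2 : ζ * ξ ^ (m - 1) = 1 := by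
    apply eq_one_of_sub_mem P hm
    · rw [mul_pow, hζ, one_mul, ← pow_mul, mul_comm, pow_mul, hξ, one_pow]
    · have : ζ * ξ ^ (m - 1) - 1 = (ζ - ξ) * ξ ^ (m - 1) := by
        rw [sub_mul, h1]
      rw [this]
      exact P.mul_mem_right _ h
  calc ζ = ζ * (ξ * ξ ^ (m - 1)) := by rw [h1, mul_one]
    _ = ξ * (ζ * ξ ^ (m - 1)) := by ring
    _ = ξ := by rw [h2, mul_one]

end roots

section character

variable {K : Type u} [Field K] [NumberField K] {Ω : Type w} [Field Ω] [Algebra K Ω]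
variable {q : ℕ}

/-- The action of `σ` on `q`-th roots of unity. -/
noncomputable def cyc (Ω : Type w) [Field Ω] (q : ℕ) [NeZero q] [HasEnoughRootsOfUnity Ω q] :
    (Ω ≃+* Ω) →* (ZMod q)ˣ :=
  modularCyclotomicCharacter Ω (HasEnoughRootsOfUnity.natCard_rootsOfUnity Ω q)

theorem smul_coe (σ : Ω ≃ₐ[K] Ω) (a : 𝓞 Ω) : ((σ • a : 𝓞 Ω) : Ω) = σ (a : Ω) := by
  exact algebraMap.coe_smul' (B := 𝓞 Ω) (C := Ω) σ a

/-- integrality of roots of unity -/
theorem root_integral {q : ℕ} (hq : q ≠ 0) {ζ : Ω} (hζ : ζ ^ q = 1) : IsIntegral ℤ ζ := by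
  refine ⟨Polynomial.X ^ q - 1, Polynomial.monic_X_pow_sub_C 1 hq, ?_⟩
  simp [hζ]

theorem natCast_mem_iff {P : Ideal (𝓞 Ω)} {v : HeightOneSpectrum (𝓞 K)}
    (hP : P.comap (algebraMap (𝓞 K) (𝓞 Ω)) = v.asIdeal) (m : ℕ) :
    (m : 𝓞 Ω) ∈ P ↔ (m : 𝓞 K) ∈ v.asIdeal := by
  rw [← hP, Ideal.mem_comap, map_natCast]

/-- A Frobenius element raises roots of unity to the power `q_v`. -/
theorem IsFrob.root {v : HeightOneSpectrum (𝓞 K)} {σ : Ω ≃ₐ[K] Ω} (h : IsFrob v σ)
    (hq : q ≠ 0) (hv : (q : 𝓞 K) ∉ v.asIdeal) {ζ : Ω} (hζ : ζ ^ q = 1) :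
    σ ζ = ζ ^ qv v := by
  obtain ⟨P, hP, hPv, hfr⟩ := h
  set z : 𝓞 Ω := ⟨ζ, root_integral hq hζ⟩ with hz
  have hzq : z ^ q = 1 := by
    ext
    exact hζ
  have h1 : σ • z = z ^ qv v := by
    apply root_eq_of_sub_mem P (m := q)
    · rw [natCast_mem_iff hPv]
      exact hv
    · rw [← smul_pow', hzq, smul_one]
    · rw [← pow_mul, mul_comm, pow_mul, hzq, one_pow]
    · exact hfr z
  have h2 := congrArg (fun a : 𝓞 Ω => (a : Ω)) h1
  simp only [smul_coe] at h2
  exact h2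

/-- An element of inertia fixes roots of unity of order prime to `v`. -/
theorem IsInertia.root {v : HeightOneSpectrum (𝓞 K)} {σ : Ω ≃ₐ[K] Ω} (h : IsInertia v σ)
    (hq : q ≠ 0) (hv : (q : 𝓞 K) ∉ v.asIdeal) {ζ : Ω} (hζ : ζ ^ q = 1) : σ ζ = ζ := by
  obtain ⟨P, hP, hPv, hfr⟩ := h
  set z : 𝓞 Ω := ⟨ζ, root_integral hq hζ⟩ with hz
  have hzq : z ^ q = 1 := by
    ext
    exact hζ
  have h1 : σ • z = z := by
    apply root_eq_of_sub_mem P (m := q)
    · rw [natCast_mem_iff hPv]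
      exact hv
    · rw [← smul_pow', hzq, smul_one]
    · exact hzq
    · exact hfr z
  have h2 := congrArg (fun a : 𝓞 Ω => (a : Ω)) h1
  simp only [smul_coe] at h2
  exact h2

variable [NeZero q] [HasEnoughRootsOfUnity Ω q]

theorem IsFrob.cyc_eq {v : HeightOneSpectrum (𝓞 K)} {σ : Ω ≃ₐ[K] Ω} (h : IsFrob v σ)
    (hv : (q : 𝓞 K) ∉ v.asIdeal) : ((cyc Ω q (σ : Ω ≃+* Ω) : (ZMod q)ˣ) : ZMod q) = (qv v : ZMod q) := by
  symm
  apply modularCyclotomicCharacter.unique
  intro t ht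
  rw [mem_rootsOfUnity] at ht
  have ht' : (t : Ω) ^ q = 1 := by
    have := congrArg Units.val ht
    simpa using this
  have h1 := h.root (NeZero.ne q) hv ht'
  have h2 : (t : Ω) ^ qv v = (t : Ω) ^ (((qv v : ℕ) : ZMod q)).val := by
    rw [ZMod.val_natCast]
    conv_lhs => rw [← Nat.mod_add_div (qv v) q]
    rw [pow_add, pow_mul, ht', one_pow, mul_one]
  rw [← h2]
  exact h1

theorem IsInertia.cyc_eq {v : HeightOneSpectrum (𝓞 K)} {σ : Ω ≃ₐ[K] Ω} (h : IsInertia v σ)
    (hv : (q : 𝓞 K) ∉ v.asIdeal) : cyc Ω q (σ : Ω ≃+* Ω) = 1 := by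
  have h0 : (1 : ZMod q) = ((cyc Ω q (σ : Ω ≃+* Ω) : (ZMod q)ˣ) : ZMod q) := by
    apply modularCyclotomicCharacter.unique
    intro t ht
    rw [mem_rootsOfUnity] at ht
    have ht' : (t : Ω) ^ q = 1 := by
      have := congrArg Units.val ht
      simpa using this
    have h1 := h.root (NeZero.ne q) hv ht'
    have h2 : (t : Ω) = (t : Ω) ^ ((1 : ZMod q)).val := by
      rcases Nat.lt_or_ge 1 q with h | h
      · have : Fact (1 < q) := ⟨h⟩
        rw [ZMod.val_one, pow_one]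
      · have hq1 : q = 1 := by
          have := NeZero.ne q
          omega
        subst hq1
        rw [pow_one] at ht'
        rw [ht', one_pow]
    rw [← h2]
    exact h1
  exact Units.ext h0.symm

/-- The restriction to the Galois group. -/
noncomputable def gcyc (K : Type u) [Field K] (Ω : Type w) [Field Ω] [Algebra K Ω] (q : ℕ)
    [NeZero q] [HasEnoughRootsOfUnity Ω q] : (Ω ≃ₐ[K] Ω) →* (ZMod q)ˣ where
  toFun σ := cyc Ω q (σ : Ω ≃+* Ω)
  map_one' := map_one (cyc Ω q)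
  map_mul' σ σ' := map_mul (cyc Ω q) (σ : Ω ≃+* Ω) (σ' : Ω ≃+* Ω)

/-- The quadratic character of the Galois group attached to a real Dirichlet character. -/
noncomputable def galChar (K : Type u) [Field K] (Ω : Type w) [Field Ω] [Algebra K Ω] {q : ℕ}
    [NeZero q] [HasEnoughRootsOfUnity Ω q] (χ : DirichletCharacter ℤ q) : (Ω ≃ₐ[K] Ω) →* ℤˣ :=
  χ.toUnitHom.comp (gcyc K Ω q)

theorem galChar_frob (χ : DirichletCharacter ℤ q) {v : HeightOneSpectrum (𝓞 K)}
    {σ : Ω ≃ₐ[K] Ω} (h : IsFrob v σ) (hv : (q : 𝓞 K) ∉ v.asIdeal) :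
    ((galChar K Ω χ σ : ℤˣ) : ℤ) = χ (qv v : ZMod q) := by
  have h1 := h.cyc_eq (q := q) hv
  rw [← h1]
  exact MulChar.coe_toUnitHom χ _

theorem galChar_inertia (χ : DirichletCharacter ℤ q) {v : HeightOneSpectrum (𝓞 K)}
    {σ : Ω ≃ₐ[K] Ω} (h : IsInertia v σ) (hv : (q : 𝓞 K) ∉ v.asIdeal) :
    galChar K Ω χ σ = 1 := by
  have h1 := h.cyc_eq (q := q) hv
  have h2 : galChar K Ω χ σ = χ.toUnitHom (cyc Ω q (σ : Ω ≃+* Ω)) := rfl
  rw [h2, h1, map_one]

/-- The kernel of the cyclotomic character is open. -/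
theorem galChar_continuous (χ : DirichletCharacter ℤ q) :
    Continuous (fun σ : Ω ≃ₐ[K] Ω => ((galChar K Ω χ σ : ℤˣ) : ℤ)) := by
  obtain ⟨ζ, hζ⟩ := HasEnoughRootsOfUnity.exists_primitiveRoot Ω q
  have hint : IsIntegral K ζ := hζ.isIntegral (Nat.pos_of_ne_zero (NeZero.ne q)) |>.tower_top
  have hfd : FiniteDimensional K (IntermediateField.adjoin K {ζ}) :=
    IntermediateField.adjoin.finiteDimensional hint
  rw [← IsLocallyConstant.iff_continuous, IsLocallyConstant.iff_exists_open]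
  intro σ
  refine ⟨(fun τ => σ⁻¹ * τ) ⁻¹' ((IntermediateField.adjoin K {ζ}).fixingSubgroup : Set (Ω ≃ₐ[K] Ω)),
    ?_, ?_, ?_⟩
  · exact (IntermediateField.fixingSubgroup_isOpen _).preimage (continuous_const_mul σ⁻¹)
  · simp
  · intro τ hτ
    have h1 : gcyc K Ω q (σ⁻¹ * τ) = 1 := by
      have h0 : (1 : ZMod q) = ((cyc Ω q ((σ⁻¹ * τ : Ω ≃ₐ[K] Ω) : Ω ≃+* Ω) : (ZMod q)ˣ) : ZMod q) := by
        apply modularCyclotomicCharacter.unique
        intro t ht
        obtain ⟨i, _, rfl⟩ := ((hζ.isUnit_unit (NeZero.ne q))).eq_pow_of_mem_rootsOfUnity ht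
        have h3 : (σ⁻¹ * τ) ζ = ζ := hτ ⟨ζ, IntermediateField.mem_adjoin_simple_self K ζ⟩
        have h4 : (σ⁻¹ * τ) (ζ ^ i) = ζ ^ i := by rw [map_pow, h3]
        rcases Nat.lt_or_ge 1 q with h | h
        · have : Fact (1 < q) := ⟨h⟩
          rw [ZMod.val_one, pow_one]
          exact h4
        · have hq1 : q = 1 := by
            have := NeZero.ne q
            omega
          subst hq1
          have h5 : ζ = 1 := by simpa using hζ.pow_eq_one
          subst h5
          simp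
      exact Units.ext h0.symm
    have h2 : galChar K Ω χ (σ⁻¹ * τ) = 1 := by
      unfold galChar
      rw [MonoidHom.comp_apply, h1, map_one]
    have h3 : galChar K Ω χ τ = galChar K Ω χ σ := by
      have : τ = σ * (σ⁻¹ * τ) := by group
      rw [this, map_mul, h2, mul_one]
    rw [h3]

end character

/-- Values of real characters. -/
theorem char_unit {q : ℕ} (χ : DirichletCharacter ℤ q) {m : ℕ} (h : m.Coprime q) :
    χ (m : ZMod q) = 1 ∨ χ (m : ZMod q) = -1 := by
  have hcop : IsUnit (m : ZMod q) := (ZMod.isUnit_iff_coprime m q).2 h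
  obtain ⟨u, hu⟩ := hcop
  rw [← hu, ← MulChar.coe_toUnitHom χ u]
  rcases Int.units_eq_one_or (χ.toUnitHom u) with h | h
  · left
    rw [h]
    rfl
  · right
    rw [h]
    rfl

/-- The scalar matrices `±1`. -/
def scal (F : Type*) [Field F] (r : ℕ) : ℤˣ →* GL (Fin r) F :=
  Units.map (algebraMap ℤ (Matrix (Fin r) (Fin r) F) : ℤ →* Matrix (Fin r) (Fin r) F)

theorem scal_mul_coe {F : Type*} [Field F] {r : ℕ} (u : ℤˣ) (M : GL (Fin r) F) :
    ((scal F r u * M : GL (Fin r) F) : Matrix (Fin r) (Fin r) F) =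
      ((u : ℤ) : F) • (M : Matrix (Fin r) (Fin r) F) := by
  rcases Int.units_eq_one_or u with rfl | rfl
  · simp
  · rw [Units.val_mul]
    have : ((scal F r (-1) : GL (Fin r) F) : Matrix (Fin r) (Fin r) F) = -1 := by
      unfold scal
      simp
    rw [this]
    simp

theorem scal_comm {F : Type*} [Field F] {r : ℕ} (u : ℤˣ) (M : GL (Fin r) F) :
    scal F r u * M = M * scal F r u := by
  apply Units.ext
  rw [scal_mul_coe, Units.val_mul]
  rcases Int.units_eq_one_or u with rfl | rfl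
  · simp
  · have : ((scal F r (-1) : GL (Fin r) F) : Matrix (Fin r) (Fin r) F) = -1 := by
      unfold scal
      simp
    rw [this]
    simp

theorem charpoly_neg' {F : Type*} [CommRing F] {r : ℕ} (M : Matrix (Fin r) (Fin r) F) :
    (-M).charpoly = Polynomial.C ((-1 : F) ^ r) * M.charpoly.comp (Polynomial.C (-1) * Polynomial.X) := by
  have h1 : (-M).charmatrix =
      -(M.charmatrix.map (Polynomial.compRingHom (Polynomial.C (-1 : F) * Polynomial.X))) := by
    ext i j : 2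
    rw [Matrix.neg_apply, Matrix.map_apply]
    by_cases hij : i = j
    · subst hij
      simp [Matrix.charmatrix_apply_eq]
      ring
    · simp [Matrix.charmatrix_apply_ne _ _ _ hij]
  unfold Matrix.charpoly
  rw [h1, Matrix.det_neg, Fintype.card_fin, ← RingHom.mapMatrix_apply, ← RingHom.map_det]
  simp

theorem charpoly_sign {F : Type*} [Field F] {r : ℕ} (u : ℤˣ) (M : Matrix (Fin r) (Fin r) F) :
    (((u : ℤ) : F) • M).charpoly = Polynomial.C (((u : ℤ) : F) ^ r) *
      M.charpoly.comp (Polynomial.C ((u : ℤ) : F) * Polynomial.X) := by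
  rcases Int.units_eq_one_or u with rfl | rfl
  · simp
  · have := charpoly_neg' M
    simpa using this

namespace Family

variable {K : Type u} [Field K] [NumberField K] {Ω : Type w} [Field Ω] [Algebra K Ω]
variable {r n : ℕ}

theorem finite_dvd (q : ℕ) [NeZero q] :
    {v : HeightOneSpectrum (𝓞 K) | (q : 𝓞 K) ∈ v.asIdeal}.Finite := by
  have h0 : Ideal.span {(q : 𝓞 K)} ≠ ⊥ := by
    rw [Ne, Ideal.span_singleton_eq_bot]
    exact_mod_cast NeZero.ne q
  refine (Ideal.finite_factors h0).subset ?_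
  intro v hv
  simp only [Set.mem_ofPred_eq] at hv ⊢
  rw [Ideal.dvd_span_singleton]
  exact hv

open Classical in
/-- The quadratic twist of a family by a real Dirichlet character `χ` of level `q`:
`ρ_ℓ ⊗ χ`, with the primes dividing `q` added to the exceptional set. -/
noncomputable def twist (D : Family K Ω r n) {q : ℕ} [NeZero q] [HasEnoughRootsOfUnity Ω q]
    (χ : DirichletCharacter ℤ q) : Family K Ω r n where
  form := D.form
  form_alternating := D.form_alternating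
  form_nondegenerate := D.form_nondegenerate
  rho := fun ℓ _ =>
    { toFun := fun σ => scal ℚ_[ℓ] r (galChar K Ω χ σ) * D.rho ℓ σ
      map_one' := by rw [map_one, map_one, map_one, one_mul]
      map_mul' := by
        intro σ σ'
        rw [map_mul, map_mul, map_mul, mul_assoc, mul_assoc]
        congr 1
        rw [← mul_assoc, scal_comm, mul_assoc] }
  continuous_rho := by
    intro ℓ _
    have h1 : ∀ σ : Ω ≃ₐ[K] Ω, ((scal ℚ_[ℓ] r (galChar K Ω χ σ) * D.rho ℓ σ : GL (Fin r) ℚ_[ℓ]) :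
        Matrix (Fin r) (Fin r) ℚ_[ℓ]) =
        (((galChar K Ω χ σ : ℤˣ) : ℤ) : ℚ_[ℓ]) • (D.rho ℓ σ : Matrix (Fin r) (Fin r) ℚ_[ℓ]) :=
      fun σ => scal_mul_coe _ _
    simp only [MonoidHom.coe_mk, OneHom.coe_mk, h1]
    have h2 : Continuous fun σ : Ω ≃ₐ[K] Ω => (((galChar K Ω χ σ : ℤˣ) : ℤ) : ℚ_[ℓ]) :=
      (continuous_of_discreteTopology (f := fun m : ℤ => (m : ℚ_[ℓ]))).comp
        (galChar_continuous χ)
    exact h2.smul (D.continuous_rho ℓ)
  equivariant := by
    intro ℓ _ σ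
    simp only [MonoidHom.coe_mk, OneHom.coe_mk]
    rw [scal_mul_coe]
    have h1 := D.equivariant ℓ σ
    rcases Int.units_eq_one_or (galChar K Ω χ σ) with h | h
    · rw [h]
      simpa using h1
    · rw [h]
      simpa using h1
  bad := D.bad ∪ (finite_dvd (K := K) q).toFinset
  unramified := by
    intro v hv ℓ _ hℓ σ hσ
    rw [Finset.mem_union, not_or, Set.Finite.mem_toFinset] at hv
    simp only [MonoidHom.coe_mk, OneHom.coe_mk]
    rw [galChar_inertia χ hσ hv.2, D.unramified v hv.1 ℓ hℓ σ hσ, map_one, one_mul]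
  frobPoly := fun v => Polynomial.C ((χ (qv v : ZMod q) : ℚ) ^ r) *
    (D.frobPoly v).comp (Polynomial.C (χ (qv v : ZMod q) : ℚ) * Polynomial.X)
  compatible := by
    intro v hv ℓ _ hℓ σ hσ
    rw [Finset.mem_union, not_or, Set.Finite.mem_toFinset] at hv
    simp only [MonoidHom.coe_mk, OneHom.coe_mk]
    rw [scal_mul_coe, charpoly_sign, D.compatible v hv.1 ℓ hℓ σ hσ]
    have h1 : ((galChar K Ω χ σ⁻¹ : ℤˣ) : ℤ) = χ (qv v : ZMod q) := by
      rw [map_inv, Int.units_inv_eq_self]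
      exact galChar_frob χ hσ hv.2
    rw [h1]
    simp [Polynomial.map_comp]
  pure := by
    intro v hv z hz
    rw [Finset.mem_union, not_or, Set.Finite.mem_toFinset] at hv
    have hunit := char_unit χ (qv_coprime v hv.2)
    have h1 : (D.frobPoly v).aeval (((χ (qv v : ZMod q) : ℤ) : ℂ) * z) = 0 := by
      rw [map_mul, Polynomial.aeval_C, Polynomial.aeval_comp] at hz
      rcases mul_eq_zero.1 hz with h | h
      · exfalso
        rcases hunit with h' | h'
        · rw [h'] at h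
          simp at h
        · rw [h'] at h
          simp at h
      · rw [← h]
        congr 1
        simp
    have h2 := D.pure v hv.1 _ h1
    rw [← h2, norm_mul]
    rcases hunit with h' | h'
    · rw [h']
      simp
    · rw [h']
      simp

end Family

end Pool.Agent.Helper4.ST
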